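import Pool.Agent.Lib.MP_72e2e6_nt.P3.R.SpecA

/-!
# MP_72e2e6_nt, theorem T3p, part R: coordinates of the elements of `Kgeo` (CGa)
-/

namespace Pool.Agent.MP72P

open Polynomial IntermediateField Finset

/-- an element transcendental over `F` is transcendental over an algebraic extension -/
private theorem CGa_tr {F k L : Type} [Field F] [Field k] [Field L] (φ : F →+* k) (χ : k →+* L)
    (halg : ∀ z : k, ∃ q : F[X], q ≠ 0 ∧ q.eval₂ φ z = 0) (x : L)
    (hx : ∀ q : F[X], q ≠ 0 → q.eval₂ (χ.comp φ) x ≠ 0) (s : k[X]) (hs : s ≠ 0) :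
    s.eval₂ χ x ≠ 0 := by
  intro h0
  let : Algebra F k := φ.toAlgebra
  let : Algebra k L := χ.toAlgebra
  let : Algebra F L := (χ.comp φ).toAlgebra
  have : IsScalarTower F k L := IsScalarTower.of_algebraMap_eq fun c => rfl
  have : Algebra.IsAlgebraic F k := ⟨fun z => by
    obtain ⟨q, hq, hz⟩ := halg z
    exact ⟨q, hq, hz⟩⟩
  have h1 : IsAlgebraic k x := ⟨s, hs, h0⟩
  obtain ⟨q, hq, hz⟩ := h1.restrictScalars F
  exact hx q hq hz

/-- the field generated by the constants, the variable and `K` -/
private theorem CGa_span {K L : Type} [Field K] [Field L] [Algebra K L] (k : Subfield L)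
    (M : IntermediateField k L) {n : ℕ} (w : Fin n → K)
    (hw : ∀ f : K, algebraMap K L f ∈ Submodule.span M (Set.range fun j => algebraMap K L (w j)))
    (e : L) (he : e ∈ adjoin K (k : Set L)) :
    e ∈ Submodule.span M (Set.range fun j => algebraMap K L (w j)) := by
  set T := Submodule.span M (Set.range fun j => algebraMap K L (w j)) with hT
  set R : Set L := Set.range (algebraMap K L) with hR
  have hS : Subalgebra.toSubmodule (Algebra.adjoin M R) = T := by
    rw [Algebra.adjoin_eq_span]
    have hcl : (Submonoid.closure R : Set L) = R := by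
      have h1 : R = (MonoidHom.mrange (algebraMap K L : K →* L) : Set L) := by
        ext y
        simp [hR]
      rw [h1, Submonoid.closure_eq]
    rw [hcl]
    refine le_antisymm (Submodule.span_le.2 ?_) (Submodule.span_mono ?_)
    · rintro _ ⟨f, rfl⟩
      exact hw f
    · rintro _ ⟨j, rfl⟩
      exact ⟨w j, rfl⟩
  have hfg : (Subalgebra.toSubmodule (Algebra.adjoin M R)).FG := by
    rw [hS]
    exact Submodule.fg_span (Set.finite_range _)
  have halg : ∀ y ∈ R, IsAlgebraic M y := fun y hy =>
    (IsIntegral.of_mem_of_fg _ hfg y (Algebra.subset_adjoin hy)).isAlgebraic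
  have hN := adjoin_toSubalgebra_of_isAlgebraic halg
  set N : IntermediateField M L := adjoin M R with hNdef
  have hKN : ∀ f : K, algebraMap K L f ∈ N.toSubfield := fun f =>
    IntermediateField.subset_adjoin M R ⟨f, rfl⟩
  have hle : adjoin K (k : Set L) ≤ N.toSubfield.toIntermediateField hKN := by
    rw [adjoin_le_iff]
    intro c hc
    show c ∈ N
    have h1 : algebraMap M L (algebraMap k M ⟨c, hc⟩) ∈ N := N.algebraMap_mem _
    exact h1
  have heN : e ∈ N := hle he
  have h2 : e ∈ N.toSubalgebra := heN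
  rw [hN] at h2
  rw [← hS]
  exact h2

theorem tCGa : S_CGa := by
  intro p _ F _ _ _ K _ _ _ _ k hk x hx
  classical
  have := Fintype.ofFinite F
  have hp : p.Prime := Fact.out
  set ρ : RatFunc F →+* Kgs K := (algebraMap K (Kgs K)).comp (algebraMap (RatFunc F) K) with hρ
  set ψ : F →+* Kgs K := ρ.comp (algebraMap F (RatFunc F)) with hψ
  have hψk : ∀ c, ψ c ∈ k := by
    intro c
    have h1 : ψ c ∈ (k : Set (Kgs K)) := by
      rw [hk]
      obtain ⟨m, -, hm⟩ := FiniteField.card F p
      refine ⟨m, m.pos, ?_⟩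
      rw [← map_pow, ← hm, FiniteField.pow_card]
    exact h1
  set φ : F →+* k := ψ.codRestrict k hψk with hφ
  have hcomp : k.subtype.comp φ = ψ := by
    ext c
    rfl
  have hxρ : x = ρ RatFunc.X := hx
  have hE : ∀ q : F[X], ev k x (q.map φ) = ρ (algebraMap F[X] (RatFunc F) q) := by
    intro q
    unfold ev
    rw [eval₂_map, hcomp]
    have h1 : eval₂RingHom ψ x = ρ.comp (algebraMap F[X] (RatFunc F)) := by
      refine Polynomial.ringHom_ext (fun c => ?_) ?_
      · rw [coe_eval₂RingHom, eval₂_C]
        show ρ (algebraMap F (RatFunc F) c) = ρ (algebraMap F[X] (RatFunc F) (C c))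
        rw [RatFunc.algebraMap_C]
        rfl
      · rw [coe_eval₂RingHom, eval₂_X]
        show x = ρ (algebraMap F[X] (RatFunc F) X)
        rw [RatFunc.algebraMap_X, hxρ]
    exact congrArg (fun f : F[X] →+* Kgs K => f q) h1
  have hρinj : Function.Injective ρ := ρ.injective
  have htr : ∀ s : k[X], s ≠ 0 → ev k x s ≠ 0 := by
    intro s hs
    refine CGa_tr φ k.subtype ?_ x ?_ s hs
    · intro z
      have hz : (z : Kgs K) ∈ Cst p (Kgs K) := by
        rw [← hk]
        exact z.2
      obtain ⟨m, hm, hzm⟩ := hz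
      have hpm : 1 < p ^ m := Nat.one_lt_pow (by omega) hp.one_lt
      refine ⟨X ^ p ^ m - X, FiniteField.X_pow_card_sub_X_ne_zero F hpm, ?_⟩
      rw [eval₂_sub, eval₂_X_pow, eval₂_X, sub_eq_zero]
      exact Subtype.ext hzm
    · intro q hq
      have h1 := hE q
      unfold ev at h1
      rw [eval₂_map] at h1
      rw [h1]
      intro h0
      rw [← map_zero ρ] at h0
      exact hq ((map_eq_zero_iff _ (RatFunc.algebraMap_injective F)).1 (hρinj h0))
  refine ⟨htr, ?_⟩
  have : CharP (RatFunc F) p :=
    charP_of_injective_algebraMap (algebraMap F (RatFunc F)).injective p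
  have : ExpChar (RatFunc F) p := ExpChar.prime hp
  let B := Module.finBasis (RatFunc F) K
  have hspan := Field.span_map_pow_expChar_pow_eq_top_of_isSeparable (F := RatFunc F) (E := K) p 1
    B.span_eq
  have hc : ∀ j, ∃ c : Fin (Module.finrank (RatFunc F) K) → RatFunc F,
      ∑ i, c i • B i ^ p ^ 1 = B j := by
    intro j
    have h1 : B j ∈ Submodule.span (RatFunc F) (Set.range fun i => B i ^ p ^ 1) := by
      rw [hspan]
      exact Submodule.mem_top
    exact (Submodule.mem_span_range_iff_exists_fun _).1 h1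
  choose c hc using hc
  obtain ⟨D₀, hD₀⟩ := IsLocalization.exist_integer_multiples_of_finite (nonZeroDivisors F[X])
    (fun ji : Fin (Module.finrank (RatFunc F) K) × Fin (Module.finrank (RatFunc F) K) =>
      c ji.1 ji.2)
  have hq : ∀ j i, ∃ q : F[X], algebraMap F[X] (RatFunc F) q =
      algebraMap F[X] (RatFunc F) D₀ * c j i := by
    intro j i
    obtain ⟨q, hq⟩ := hD₀ (j, i)
    exact ⟨q, by rw [hq, Algebra.smul_def]⟩
  choose q hq using hq
  have hD₀0 : (D₀ : F[X]) ≠ 0 := nonZeroDivisors.ne_zero D₀.2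
  refine ⟨Module.finrank (RatFunc F) K, fun j => B j, (D₀ : F[X]).map φ,
    fun i j => (q j i).map φ, ?_, ?_, ?_⟩
  · exact (Polynomial.map_ne_zero_iff φ.injective).2 hD₀0
  · intro j
    have h1 : (B j : K) = ∑ i, algebraMap (RatFunc F) K (c j i) * B i ^ p := by
      rw [← hc j]
      refine Finset.sum_congr rfl fun i _ => ?_
      rw [Algebra.smul_def, pow_one]
    have h2 : tG (B j) = ∑ i, tG (algebraMap (RatFunc F) K (c j i) * B i ^ p) := by
      have h3 := congrArg (algebraMap K (Kgs K)) h1
      rw [map_sum] at h3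
      exact h3
    rw [hE]
    show ρ _ * tG (B j) = ∑ i, ev k x ((q j i).map φ) * tG (B i) ^ p
    rw [h2, Finset.mul_sum]
    refine Finset.sum_congr rfl fun i _ => ?_
    rw [hE, hq, map_mul, mul_assoc]
    congr 1
    unfold tG
    rw [map_mul, map_pow]
    rfl
  · intro e he
    set M : IntermediateField k (Kgs K) := adjoin k {x} with hM
    have hev : ∀ s : k[X], ev k x s ∈ M := by
      intro s
      exact (IntermediateField.mem_adjoin_simple_iff k _).2 ⟨s, 1, by
        rw [map_one, div_one]
        rfl⟩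
    have hρM : ∀ a : RatFunc F, ρ a ∈ M := by
      intro a
      rw [← RatFunc.num_div_denom a, map_div₀, ← hE, ← hE]
      exact div_mem (hev _) (hev _)
    have hwM : ∀ f : K, algebraMap K (Kgs K) f ∈
        Submodule.span M (Set.range fun j => algebraMap K (Kgs K) (B j)) := by
      intro f
      rw [← B.sum_repr f, map_sum]
      refine Submodule.sum_mem _ fun j _ => ?_
      rw [Algebra.smul_def, map_mul]
      exact Submodule.smul_mem _ (⟨ρ (B.repr f j), hρM _⟩ : M) (Submodule.subset_span ⟨j, rfl⟩)
    have he' : e ∈ adjoin K (k : Set (Kgs K)) := by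
      rw [hk]
      exact he
    have h3 := CGa_span k M (fun j => B j) hwM e he'
    obtain ⟨m, hm⟩ := (Submodule.mem_span_range_iff_exists_fun _).1 h3
    have hfrac : ∀ a : M, ∃ r s : k[X], s ≠ 0 ∧ ev k x s * (a : Kgs K) = ev k x r := by
      intro a
      obtain ⟨r, s, hrs⟩ := (IntermediateField.mem_adjoin_simple_iff k _).1 a.2
      by_cases hs : s = 0
      · refine ⟨0, 1, one_ne_zero, ?_⟩
        have h4 : (a : Kgs K) = 0 := by
          rw [hrs, hs, map_zero, div_zero]
        rw [h4, mul_zero]
        exact (eval₂_zero _ _).symm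
      · refine ⟨r, s, hs, ?_⟩
        have h5 : ev k x s ≠ 0 := htr s hs
        rw [hrs]
        show ev k x s * (ev k x r / ev k x s) = ev k x r
        field_simp
    choose r s hs hrs using hfrac
    refine ⟨∏ j, s (m j), fun j => (∏ i ∈ univ.erase j, s (m i)) * r (m j), ?_, ?_⟩
    · exact Finset.prod_ne_zero_iff.2 fun j _ => hs _
    · rw [← hm, Finset.mul_sum]
      refine Finset.sum_congr rfl fun j _ => ?_
      have h6 : ev k x (∏ i, s (m i)) =
          ev k x (∏ i ∈ univ.erase j, s (m i)) * ev k x (s (m j)) := by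
        rw [← Finset.prod_erase_mul univ (fun i => s (m i)) (Finset.mem_univ j)]
        exact eval₂_mul _ _
      have h7 : ev k x ((∏ i ∈ univ.erase j, s (m i)) * r (m j)) =
          ev k x (∏ i ∈ univ.erase j, s (m i)) * ev k x (r (m j)) := eval₂_mul _ _
      rw [h6, h7, ← hrs]
      have h8 : m j • algebraMap K (Kgs K) (B j) = (m j : Kgs K) * tG (B j) := rfl
      rw [h8]
      ring

end Pool.Agent.MP72P
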