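import Pool.Agent.Lib.MP_72e2e6_nt.P3.R.SpecA

/-!
# MP_72e2e6_nt, T3p, part R: a finite dimensional space stable under the Cartier operator
-/

set_option autoImplicit false

namespace Pool.Agent.MP72P

open Polynomial IntermediateField Finset

section

variable {p : ℕ} [Fact p.Prime] {L : Type} [Field L] [CharP L p]

private theorem CGb_pow (hT : S_Tba) {x : L} (hx : TBp p L x) (n : ℕ) :
    Ca p x (x ^ n) = if n % p = p - 1 then x ^ (n / p) else 0 := by
  obtain ⟨t1, -, -, -, -, -, -, t8, -⟩ := hT p L x hx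
  have hp : p.Prime := Fact.out
  have h1 : x ^ n = (x ^ (n / p)) ^ p * x ^ (n % p) := by
    rw [← pow_mul, ← pow_add, Nat.mul_comm, Nat.div_add_mod]
  rw [h1, t8]
  have h2 : x ^ (n % p) = ∑ j ∈ range p, x ^ j * (Pi.single (n % p) (1 : L) : ℕ → L) j ^ p := by
    rw [Finset.sum_eq_single (n % p)]
    · rw [Pi.single_eq_same, one_pow, mul_one]
    · intro j _ hj
      rw [Pi.single_eq_of_ne hj, zero_pow hp.ne_zero, mul_zero]
    · intro h
      exact absurd (Finset.mem_range.2 (Nat.mod_lt _ hp.pos)) h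
  have h3 : Ca p x (x ^ (n % p)) = (Pi.single (n % p) (1 : L) : ℕ → L) (p - 1) := by
    unfold Ca
    rw [h2, t1 _ (p - 1) (by have := hp.one_lt; omega)]
  rw [h3]
  split_ifs with h
  · rw [h, Pi.single_eq_same, mul_one]
  · rw [Pi.single_eq_of_ne (Ne.symm h), mul_zero]

private theorem CGb_ev_mul (k : Subfield L) (x : L) (f g : k[X]) :
    ev k x (f * g) = ev k x f * ev k x g := eval₂_mul _ _

private theorem CGb_ev_pow (k : Subfield L) (x : L) (f : k[X]) (n : ℕ) :
    ev k x (f ^ n) = ev k x f ^ n := eval₂_pow _ _ _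

private theorem CGb_ev_X (k : Subfield L) (x : L) : ev k x X = x := eval₂_X _ _

private theorem CGb_ev_sum (k : Subfield L) (x : L) (G : k[X]) :
    ev k x G = ∑ i ∈ range (G.natDegree + 1), (G.coeff i : L) * x ^ i :=
  eval₂_eq_sum_range _ _

end

theorem tCGb (hT : S_Tba) : S_CGb := by
  classical
  intro p _ L _ _ k x hk hx hev n w D b hD hb e s r hs he
  obtain ⟨t1, -, -, -, -, -, t7, t8, -⟩ := hT p L x hx
  have hp : p.Prime := Fact.out
  have hp2 := hp.two_le
  let CaH : L →+ L := AddMonoidHom.mk' (Ca p x) t7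
  have hCaH : ∀ y, CaH y = Ca p x y := fun _ => rfl
  obtain ⟨δ, hδ⟩ : ∃ δ, δ = ev k x (s * D) := ⟨_, rfl⟩
  have hδ0 : δ ≠ 0 := by
    rw [hδ]
    exact hev _ (mul_ne_zero hs hD)
  have hs0 : ev k x s ≠ 0 := hev s hs
  have hD0 : ev k x D ≠ 0 := hev D hD
  have hδ' : δ = ev k x s * ev k x D := by rw [hδ, CGb_ev_mul]
  obtain ⟨M, hM⟩ : ∃ M : ℕ, M = (∑ j, (r j * D).natDegree) +
      ∑ i, ∑ j, (b i j * s ^ (p - 1) * D ^ (p - 2)).natDegree := ⟨_, rfl⟩
  have hM1 : ∀ j, (r j * D).natDegree ≤ M := by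
    intro j
    have h1 := Finset.single_le_sum (f := fun j => (r j * D).natDegree)
      (fun _ _ => Nat.zero_le _) (Finset.mem_univ j)
    have h2 : (r j * D).natDegree ≤ ∑ j, (r j * D).natDegree := h1
    omega
  have hM2 : ∀ i j, (b i j * s ^ (p - 1) * D ^ (p - 2)).natDegree ≤ M := by
    intro i j
    have h1 := Finset.single_le_sum
      (f := fun j => (b i j * s ^ (p - 1) * D ^ (p - 2)).natDegree)
      (fun _ _ => Nat.zero_le _) (Finset.mem_univ j)
    have h2 := Finset.single_le_sum
      (f := fun i => ∑ j, (b i j * s ^ (p - 1) * D ^ (p - 2)).natDegree)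
      (fun _ _ => Nat.zero_le _) (Finset.mem_univ i)
    have h3 : (b i j * s ^ (p - 1) * D ^ (p - 2)).natDegree ≤
        ∑ j, (b i j * s ^ (p - 1) * D ^ (p - 2)).natDegree := h1
    have h4 : ∑ j, (b i j * s ^ (p - 1) * D ^ (p - 2)).natDegree ≤
        ∑ i, ∑ j, (b i j * s ^ (p - 1) * D ^ (p - 2)).natDegree := h2
    omega
  let gen : Fin (M + 1) × Fin n → L := fun q => x ^ (q.1 : ℕ) * w q.2 / δ
  let V : Submodule k L := Submodule.span k (Set.range gen)
  have hsm : ∀ (c : k) (y : L), y ∈ V → (c : L) * y ∈ V := by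
    intro c y hy
    have h1 := V.smul_mem c hy
    rwa [Subfield.smul_def, smul_eq_mul] at h1
  have hgen : ∀ m ≤ M, ∀ j, x ^ m * w j / δ ∈ V := by
    intro m hm j
    exact Submodule.subset_span ⟨(⟨m, by omega⟩, j), rfl⟩
  have hevV : ∀ (G : k[X]) (j : Fin n), G.natDegree ≤ M → ev k x G * w j / δ ∈ V := by
    intro G j hG
    rw [CGb_ev_sum, Finset.sum_mul, Finset.sum_div]
    refine V.sum_mem fun i hi => ?_
    have h1 := hsm (G.coeff i) _ (hgen i (by rw [Finset.mem_range] at hi; omega) j)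
    have h2 : (G.coeff i : L) * x ^ i * w j / δ = (G.coeff i : L) * (x ^ i * w j / δ) := by ring
    rw [h2]
    exact h1
  have hCas : ∀ (c : k) (y : L), ∃ c' : k, Ca p x ((c : L) * y) = (c' : L) * Ca p x y := by
    intro c y
    obtain ⟨b, hb, hb'⟩ := hk c c.2
    refine ⟨⟨b, hb⟩, ?_⟩
    rw [← hb', t8]
  have hCaV : ∀ (G : k[X]) (j : Fin n), G.natDegree ≤ 2 * M →
      Ca p x (ev k x G) * w j / δ ∈ V := by
    intro G j hG
    rw [CGb_ev_sum, ← hCaH, map_sum, Finset.sum_mul, Finset.sum_div]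
    refine V.sum_mem fun i hi => ?_
    rw [hCaH]
    obtain ⟨c', hc'⟩ := hCas (G.coeff i) (x ^ i)
    rw [hc', CGb_pow hT hx]
    split_ifs with h
    · have hi2 : i / p ≤ M := by
        rw [Finset.mem_range] at hi
        have h1 : i / p ≤ i / 2 := Nat.div_le_div_left hp2 (by norm_num)
        omega
      have h1 := hsm c' _ (hgen (i / p) hi2 j)
      have h2 : (c' : L) * x ^ (i / p) * w j / δ = (c' : L) * (x ^ (i / p) * w j / δ) := by ring
      rw [h2]
      exact h1
    · rw [mul_zero, zero_mul, zero_div]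
      exact V.zero_mem
  refine ⟨V, FiniteDimensional.span_of_finite k (Set.finite_range _), ?_, ?_, ?_⟩
  · -- `e ∈ V`
    have h1 : e = ∑ j, ev k x (r j * D) * w j / δ := by
      have h2 : e = (ev k x s * e) * ev k x D / δ := by
        rw [hδ']
        field_simp
      rw [h2, he, Finset.sum_mul, Finset.sum_div]
      refine Finset.sum_congr rfl fun j _ => ?_
      rw [CGb_ev_mul]
      ring
    rw [h1]
    exact V.sum_mem fun j _ => hevV _ j (hM1 j)
  · -- stability
    intro f hf
    induction hf using Submodule.span_induction with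
    | mem y hy =>
      obtain ⟨⟨m, j⟩, rfl⟩ := hy
      have hm : (m : ℕ) ≤ M := by
        have := m.2
        omega
      have h1 : gen (m, j) = ∑ i, (w i / δ) ^ p *
          ev k x (X ^ (m : ℕ) * (b i j * s ^ (p - 1) * D ^ (p - 2))) := by
        have h2 : gen (m, j) = x ^ (m : ℕ) * (ev k x D * w j) / (δ * ev k x D) := by
          show x ^ (m : ℕ) * w j / δ = _
          field_simp
        rw [h2, hb, Finset.mul_sum, Finset.sum_div]
        refine Finset.sum_congr rfl fun i _ => ?_
        rw [CGb_ev_mul, CGb_ev_mul, CGb_ev_mul, CGb_ev_pow, CGb_ev_pow, CGb_ev_pow, CGb_ev_X,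
          hδ']
        obtain ⟨q, hq⟩ : ∃ q, p = q + 2 := ⟨p - 2, by omega⟩
        have h3 : p - 1 = q + 1 := by omega
        have h4 : p - 2 = q := by omega
        rw [h3, h4, hq, div_pow]
        field_simp
        ring
      rw [h1, ← hCaH, map_sum]
      refine V.sum_mem fun i _ => ?_
      rw [hCaH, t8]
      have h2 : w i / δ * Ca p x (ev k x (X ^ (m : ℕ) * (b i j * s ^ (p - 1) * D ^ (p - 2)))) =
          Ca p x (ev k x (X ^ (m : ℕ) * (b i j * s ^ (p - 1) * D ^ (p - 2)))) * w i / δ := by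
        ring
      rw [h2]
      refine hCaV _ i ?_
      have h3 := hM2 i j
      have h4 := natDegree_mul_le (p := (X ^ (m : ℕ) : k[X]))
        (q := b i j * s ^ (p - 1) * D ^ (p - 2))
      rw [natDegree_X_pow] at h4
      omega
    | zero =>
      rw [← hCaH, map_zero]
      exact V.zero_mem
    | add y z _ _ hy hz =>
      rw [t7]
      exact V.add_mem hy hz
    | smul c y _ hy =>
      rw [Subfield.smul_def, smul_eq_mul]
      obtain ⟨c', hc'⟩ := hCas c y
      rw [hc']
      exact hsm c' _ hy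
  · -- description of the elements
    intro f hf
    refine ⟨s * D, ?_⟩
    have h0 : ∃ r' : Fin n → k[X], ev k x (s * D) * f = ∑ j, ev k x (r' j) * w j := by
      induction hf using Submodule.span_induction with
      | mem y hy =>
        obtain ⟨⟨m, j⟩, rfl⟩ := hy
        refine ⟨Pi.single j (X ^ (m : ℕ)), ?_⟩
        rw [Finset.sum_eq_single j]
        · rw [Pi.single_eq_same, CGb_ev_pow, CGb_ev_X, ← hδ]
          show δ * (x ^ (m : ℕ) * w j / δ) = _
          field_simp
        · intro i _ hi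
          rw [Pi.single_eq_of_ne hi]
          show eval₂ _ _ 0 * _ = 0
          rw [eval₂_zero, zero_mul]
        · intro h
          exact absurd (Finset.mem_univ j) h
      | zero =>
        refine ⟨0, ?_⟩
        rw [mul_zero]
        symm
        refine Finset.sum_eq_zero fun j _ => ?_
        show eval₂ _ _ 0 * _ = 0
        rw [eval₂_zero, zero_mul]
      | add y z _ _ hy hz =>
        obtain ⟨r1, h1⟩ := hy
        obtain ⟨r2, h2⟩ := hz
        refine ⟨r1 + r2, ?_⟩
        rw [mul_add, h1, h2, ← Finset.sum_add_distrib]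
        refine Finset.sum_congr rfl fun j _ => ?_
        show _ = eval₂ _ _ (r1 j + r2 j) * _
        rw [eval₂_add, add_mul]
        rfl
      | smul c y _ hy =>
        obtain ⟨r1, h1⟩ := hy
        refine ⟨fun j => C c * r1 j, ?_⟩
        rw [Subfield.smul_def, smul_eq_mul, mul_left_comm, h1, Finset.mul_sum]
        refine Finset.sum_congr rfl fun j _ => ?_
        rw [CGb_ev_mul]
        show _ = eval₂ _ _ (C c) * _ * _
        rw [eval₂_C]
        show (c : L) * _ = (c : L) * _ * _
        ring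
    obtain ⟨r', hr'⟩ := h0
    exact ⟨r', mul_ne_zero hs hD, hr'⟩

end Pool.Agent.MP72P
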