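import Pool.Agent.Lib.MP_72e2e6_nt.P3.R.SpecA

/-!
# MP_72e2e6_nt, T3p, part R: the Cartier operator minus one is surjective on `Kgeo`
-/

set_option autoImplicit false

namespace Pool.Agent.MP72P

open Polynomial IntermediateField Finset

private theorem CGe_X {p : ℕ} [Fact p.Prime] (F : Type) [Field F] (s : RatFunc F) :
    s ^ p ≠ RatFunc.X := by
  intro h
  have hp : p.Prime := Fact.out
  have hs0 : s ≠ 0 := by
    rintro rfl
    rw [zero_pow hp.ne_zero] at h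
    exact RatFunc.X_ne_zero h.symm
  have key : ∀ n : ℕ, RatFunc.intDegree (s ^ n) = n * RatFunc.intDegree s := by
    intro n
    induction n with
    | zero =>
      rw [pow_zero, RatFunc.intDegree_one]
      simp
    | succ n ih =>
      rw [pow_succ, RatFunc.intDegree_mul (pow_ne_zero n hs0) hs0, ih]
      push_cast
      ring
  have h1 := key p
  rw [h, RatFunc.intDegree_X] at h1
  have h2 : (p : ℤ) ∣ 1 := ⟨_, h1⟩
  have h3 : p ∣ 1 := by exact_mod_cast h2
  exact hp.one_lt.ne' (Nat.dvd_one.1 h3)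

private theorem CGe_ev {K L : Type} [Field K] [Field L] [Algebra K L] (E : IntermediateField K L)
    (k : Subfield L) (hk : ∀ a ∈ k, a ∈ E) {x : L} (hx : x ∈ E) (G : k[X]) : ev k x G ∈ E := by
  have h1 : ev k x G = ∑ i ∈ range (G.natDegree + 1), (G.coeff i : L) * x ^ i :=
    eval₂_eq_sum_range _ _
  rw [h1]
  exact sum_mem fun i _ => mul_mem (hk _ (G.coeff i).2) (pow_mem hx i)

theorem tCGe (hTba : S_Tba) (hTbp : S_Tbp) (hTbK : S_TbK) (hTbF : S_TbF) (hChn : S_Chn)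
    (hCsF : S_CsF) (hLng : S_Lng) (hCGa : S_CGa) (hCGb : S_CGb) : S_CGe := by
  intro p _ K _ hG t ht
  have hp : p.Prime := Fact.out
  obtain ⟨hchK, -, -⟩ := hTbF p K hG
  have hchL : CharP (Kgs K) p := charP_of_injective_algebraMap
    (algebraMap K (Kgs K)).injective p
  have htL : TBp p (Kgs K) (tG t) := hTbK p K (Kgs K) t ht
  obtain ⟨-, -, -, -, -, tbp6⟩ := hTbp p (Kgs K) (tG t) htL
  have hfix : ∀ f : Kgs K, (∀ g : Gal(Kgs K/K), (∀ y ∈ Kgeo p K, g y = y) → g f = f) →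
      f ∈ Kgeo p K := by
    intro f hf
    rw [← InfiniteGalois.fixedField_fixingSubgroup (Kgeo p K),
      IntermediateField.mem_fixedField_iff]
    intro g hg
    exact hf g ((IntermediateField.mem_fixingSubgroup_iff _ _).mp hg)
  have hCK : ∀ f ∈ Kgeo p K, Ca p (tG t) f ∈ Kgeo p K := by
    intro f hf
    refine hfix _ fun g hg => ?_
    have h1 : g f = f := hg f hf
    have h2 : (g : Kgs K →+* Kgs K) (tG t) = tG t := g.commutes _
    have h3 := (tbp6 (Kgs K) (g : Kgs K →+* Kgs K) (by rw [h2]; exact htL) f).2.1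
    rw [h2] at h3
    have h4 : Ca p (tG t) (g f) = g (Ca p (tG t) f) := h3
    rw [← h4, h1]
  refine ⟨hCK, ?_⟩
  obtain ⟨F, _, _, _, _, hfd, hsep⟩ := hG
  have hGF : GFld p (RatFunc F) :=
    ⟨F, inferInstance, inferInstance, inferInstance, inferInstance, inferInstance, inferInstance⟩
  obtain ⟨hchR, -, htR⟩ := hTbF p (RatFunc F) hGF
  have hX : TBp p (RatFunc F) RatFunc.X := htR _ (CGe_X F)
  have hXK : TBp p K (algebraMap (RatFunc F) K RatFunc.X) := hTbK p (RatFunc F) K _ hX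
  obtain ⟨x, hx⟩ : ∃ x : Kgs K, x = tG (algebraMap (RatFunc F) K RatFunc.X) := ⟨_, rfl⟩
  have hxL : TBp p (Kgs K) x := by
    rw [hx]
    exact hTbK p K (Kgs K) _ hXK
  obtain ⟨k, hk, hkc⟩ := hCsF p (Kgs K)
  obtain ⟨hev, n, w, D, b, hD, hb, hgeo⟩ := hCGa p F K k hk x hx
  obtain ⟨hy0, hchn⟩ := hChn p (Kgs K) x (tG t) hxL htL
  obtain ⟨-, -, -, -, -, -, c7, c8, -⟩ := hTba p (Kgs K) x hxL
  obtain ⟨-, -, -, -, -, tbx6⟩ := hTbp p (Kgs K) x hxL
  intro e he
  obtain ⟨y, hy⟩ : ∃ y, y = Dt p x (tG t) := ⟨_, rfl⟩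
  rw [← hy] at hy0
  have hyK : y ∈ Kgeo p K := by
    refine hfix _ fun g hg => ?_
    have h1 : (g : Kgs K →+* Kgs K) (tG t) = tG t := g.commutes _
    have h2 : (g : Kgs K →+* Kgs K) x = x := by
      rw [hx]
      exact g.commutes _
    have h3 := (tbx6 (Kgs K) (g : Kgs K →+* Kgs K) (by rw [h2]; exact hxL) (tG t)).1
    rw [h1, h2] at h3
    rw [hy]
    exact h3.symm
  have hxK : x ∈ Kgeo p K := by
    rw [hx]
    exact (Kgeo p K).algebraMap_mem _
  have hkK : ∀ a ∈ k, a ∈ Kgeo p K := by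
    intro a ha
    have h1 : a ∈ Cst p (Kgs K) := by
      rw [← hk]
      exact ha
    exact IntermediateField.subset_adjoin K _ h1
  obtain ⟨s, r, hs, hsr⟩ := hgeo (e * y) (mul_mem he hyK)
  have hroot : ∀ a ∈ k, ∃ b ∈ k, b ^ p = a := by
    intro a ha
    obtain ⟨b, hb⟩ := IsAlgClosed.exists_pow_nat_eq (⟨a, ha⟩ : k) hp.pos
    exact ⟨b, b.2, congrArg Subtype.val hb⟩
  obtain ⟨V, hVfd, heV, hVC, hVd⟩ := hCGb p (Kgs K) k x hroot hxL hev n (fun j => tG (w j)) D b hD hb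
    (e * y) s r hs hsr
  obtain ⟨h', hh'V, hh'⟩ := hLng p (Kgs K) k (Ca p x) c7 (fun a _ z => c8 a z) V hVC (e * y) heV
  have hh'K : h' ∈ Kgeo p K := by
    obtain ⟨s', r', hs', hr'⟩ := hVd h' hh'V
    have h1 : h' = (∑ j, ev k x (r' j) * tG (w j)) / ev k x s' := by
      rw [← hr']
      have := hev s' hs'
      field_simp
    rw [h1]
    refine div_mem (sum_mem fun j _ => mul_mem (CGe_ev _ k hkK hxK _) ?_) (CGe_ev _ k hkK hxK _)
    exact (Kgeo p K).algebraMap_mem _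
  refine ⟨h' / y, div_mem hh'K hyK, ?_⟩
  have h1 := hchn (h' / y)
  rw [← hy, div_mul_cancel₀ h' hy0] at h1
  have h2 : (Ca p (tG t) (h' / y) - h' / y) * y = e * y := by
    rw [sub_mul, ← h1, div_mul_cancel₀ h' hy0, hh']
  exact mul_right_cancel₀ hy0 h2

end Pool.Agent.MP72P
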