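import Pool.Agent.Lib.MP_72e2e6_nt.P3.R.SpecB

/-!
# MP_72e2e6_nt, theorem T3p, part R: the operator `Ca - 1` is surjective on the maximal unramified
extension
-/

namespace Pool.Agent.MP72P

open Polynomial IntermediateField Finset

section
variable {L : Type} [Field L] {N : L → ℝ}

private theorem clo_add (hadd : ∀ x y, N (x + y) ≤ max (N x) (N y)) (hneg : ∀ x, N (-x) = N x)
    (x y : L) (h : N x < N y) : N (x + y) = N y := by
  apply le_antisymm
  · exact (hadd x y).trans (max_le h.le le_rfl)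
  · have h1 : y = (x + y) + -x := by ring
    have h2 := hadd (x + y) (-x)
    rw [← h1, hneg] at h2
    rcases le_max_iff.1 h2 with h3 | h3
    · exact h3
    · exact absurd h3 (not_le.2 h)

/-- Sums of terms with different norms. -/
private theorem clo_sum (hadd : ∀ x y, N (x + y) ≤ max (N x) (N y)) (hneg : ∀ x, N (-x) = N x)
    (h0 : N 0 = 0) (hnn : ∀ x, 0 ≤ N x) (f : ℕ → L) (s : Finset ℕ)
    (hd : ∀ i ∈ s, ∀ j ∈ s, f i ≠ 0 → f j ≠ 0 → N (f i) = N (f j) → i = j) :
    ((∀ i ∈ s, f i = 0) ∧ ∑ i ∈ s, f i = 0) ∨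
    ∃ k ∈ s, f k ≠ 0 ∧ N (∑ i ∈ s, f i) = N (f k) ∧ ∀ i ∈ s, N (f i) ≤ N (f k) := by
  induction s using Finset.induction_on with
  | empty => left; simp
  | insert j s hj ih =>
    rw [Finset.sum_insert hj]
    have ih' := ih fun i hi k hk => hd i (Finset.mem_insert_of_mem hi) k
      (Finset.mem_insert_of_mem hk)
    by_cases hfj : f j = 0
    · rcases ih' with ⟨h1, h2⟩ | ⟨k, hk, h1, h2, h3⟩
      · left
        refine ⟨?_, by rw [hfj, h2, add_zero]⟩
        intro i hi
        rcases Finset.mem_insert.1 hi with rfl | hi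
        · exact hfj
        · exact h1 i hi
      · right
        refine ⟨k, Finset.mem_insert_of_mem hk, h1, by rw [hfj, zero_add, h2], ?_⟩
        intro i hi
        rcases Finset.mem_insert.1 hi with rfl | hi
        · rw [hfj, h0]
          exact hnn _
        · exact h3 i hi
    · right
      rcases ih' with ⟨h1, h2⟩ | ⟨k, hk, h1, h2, h3⟩
      · refine ⟨j, Finset.mem_insert_self _ _, hfj, by rw [h2, add_zero], ?_⟩
        intro i hi
        rcases Finset.mem_insert.1 hi with rfl | hi
        · exact le_rfl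
        · rw [h1 i hi, h0]
          exact hnn _
      · have hne : N (f j) ≠ N (f k) := by
          intro he
          have h4 := hd j (Finset.mem_insert_self _ _) k (Finset.mem_insert_of_mem hk) hfj h1 he
          exact hj (h4 ▸ hk)
        rcases lt_or_gt_of_ne hne with h4 | h4
        · refine ⟨k, Finset.mem_insert_of_mem hk, h1, ?_, ?_⟩
          · rw [← h2] at h4 ⊢
            exact clo_add hadd hneg _ _ h4
          · intro i hi
            rcases Finset.mem_insert.1 hi with rfl | hi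
            · exact h4.le
            · exact h3 i hi
        · refine ⟨j, Finset.mem_insert_self _ _, hfj, ?_, ?_⟩
          · rw [← h2] at h4
            rw [add_comm]
            exact clo_add hadd hneg _ _ h4
          · intro i hi
            rcases Finset.mem_insert.1 hi with rfl | hi
            · exact le_rfl
            · exact (h3 i hi).trans h4.le

end

/-- **CLo**. The operator `Ca - 1` on `Knr`. -/
theorem tCLo : S_Lc1 → S_Lc2 → S_Nr → S_Tba → S_Tbp → S_TbV → S_CLo := by
  intro hLc1 hLc2 hNr hTba _ hTbV p _ K _ hG v Q ϖ R hLF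
  have hp : p.Prime := Fact.out
  obtain ⟨-, -, -, hTB⟩ := hTbV p K hG v Q ϖ R hLF
  have hch : CharP K p := by
    obtain ⟨F, _, _, _, _, _, _⟩ := hG
    have h1 : CharP (RatFunc F) p :=
      charP_of_injective_algebraMap (algebraMap F (RatFunc F)).injective p
    exact charP_of_injective_algebraMap (algebraMap (RatFunc F) K).injective p
  obtain ⟨l1, -⟩ := hLc1 p K v Q ϖ R hLF
  obtain ⟨m1, m2, m3, m4, m5, -, -, -, -, m10⟩ := hLc2 p K v Q ϖ R hLF
  obtain ⟨n1, -, n3, -⟩ := hNr p K v Q ϖ R hLF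
  set t : Kvs v := tV v ϖ with ht
  obtain ⟨b1, b2, -, -, -, -, b7, b8, -⟩ := hTba p (Kvs v) t hTB
  have htK : t ∈ Knr p v := (Knr p v).algebraMap_mem (algebraMap K v.Completion ϖ)
  have hnt : nm v t = v ϖ := by rw [ht, tV, m5, l1]
  have ht0 : t ≠ 0 := by
    intro h
    have h1 := (m2 t).2 h
    rw [hnt] at h1
    exact hLF.pi0.ne' h1
  have hv1 : nm v 1 = 1 := by
    have h1 := m5 1
    rw [map_one, norm_one] at h1
    exact h1
  have hv0 : nm v 0 = 0 := (m2 0).2 rfl
  have hneg : ∀ x : Kvs v, nm v (-x) = nm v x := by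
    intro x
    have h1 : nm v (-1) = 1 := by
      have h2 : nm v (-1) * nm v (-1) = 1 := by rw [← m3, neg_one_mul, neg_neg, hv1]
      nlinarith [m1 (-1), h2]
    have h3 : -x = (-1) * x := by ring
    rw [h3, m3, h1, one_mul]
  have hpow : ∀ (x : Kvs v) (n : ℕ), nm v (x ^ n) = nm v x ^ n := by
    intro x n
    induction n with
    | zero => rw [pow_zero, pow_zero, hv1]
    | succ n ih => rw [pow_succ, m3, ih, pow_succ]
  -- the coordinates of the elements of the unramified extension
  have hcf : ∀ f ∈ Knr p v, ∀ i < p, cf p t f i ∈ Knr p v := by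
    intro f hf i hi
    rw [← InfiniteGalois.fixedField_fixingSubgroup (Knr p v), IntermediateField.mem_fixedField_iff]
    intro g hg
    have h1 : g f = f := (IntermediateField.mem_fixingSubgroup_iff _ _).1 hg f hf
    have h2 : g t = t := (IntermediateField.mem_fixingSubgroup_iff _ _).1 hg t htK
    have h3 : ∑ j ∈ range p, t ^ j * (g (cf p t f j)) ^ p = f := by
      conv_rhs => rw [← h1, b2 f, map_sum]
      refine Finset.sum_congr rfl fun j _ => ?_
      rw [map_mul, map_pow, map_pow, h2]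
    have h4 := b1 (fun j => g (cf p t f j)) i hi
    rw [h3] at h4
    exact h4.symm
  have hCK : ∀ f ∈ Knr p v, Ca p t f ∈ Knr p v := fun f hf =>
    hcf f hf (p - 1) (Nat.sub_lt hp.pos one_pos)
  refine ⟨hCK, ?_⟩
  -- small elements
  have hCt : Ca p t (t ^ (p - 1)) = 1 := by
    have h1 := b1 (fun j => if j = p - 1 then 1 else 0) (p - 1) (Nat.sub_lt hp.pos one_pos)
    have h2 : ∑ j ∈ range p, t ^ j * (if j = p - 1 then (1 : Kvs v) else 0) ^ p = t ^ (p - 1) := by
      rw [Finset.sum_eq_single (p - 1)]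
      · rw [if_pos rfl, one_pow, mul_one]
      · intro j _ hj
        rw [if_neg hj, zero_pow hp.ne_zero, mul_zero]
      · intro h
        exact absurd (Finset.mem_range.2 (Nat.sub_lt hp.pos one_pos)) h
    rw [h2, if_pos rfl] at h1
    exact h1
  have small : ∀ e ∈ Knr p v, nm v (e * t) ≤ 1 → ∃ h ∈ Knr p v, Ca p t h - h = e := by
    intro e he het
    obtain ⟨θ, hθ, hθe⟩ := n3 (-(e * t)) (neg_mem (mul_mem he htK)) (by rw [hneg]; exact het)
    refine ⟨θ ^ p / t, div_mem (pow_mem hθ p) htK, ?_⟩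
    have h1 : θ ^ p / t = (θ / t) ^ p * t ^ (p - 1) := by
      rw [div_pow, div_mul_eq_mul_div, div_eq_div_iff ht0 (pow_ne_zero _ ht0), mul_assoc,
        ← pow_succ, Nat.sub_add_cancel hp.one_le]
    have h2 : Ca p t (θ ^ p / t) = θ / t := by rw [h1, b8, hCt, mul_one]
    rw [h2]
    have h3 : θ ^ p = θ - e * t := by linear_combination hθe
    rw [h3]
    field_simp
    ring
  -- the coordinates are small
  have hbd : ∀ e ∈ Knr p v, nm v (t ^ (p - 1) * (Ca p t e) ^ p) ≤ nm v e := by
    intro e he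
    have hd : ∀ i ∈ range p, ∀ j ∈ range p, t ^ i * cf p t e i ^ p ≠ 0 →
        t ^ j * cf p t e j ^ p ≠ 0 →
        nm v (t ^ i * cf p t e i ^ p) = nm v (t ^ j * cf p t e j ^ p) → i = j := by
      intro i hi j hj hi0 hj0 hij
      have hi' := Finset.mem_range.1 hi
      have hj' := Finset.mem_range.1 hj
      have hci : cf p t e i ≠ 0 := by
        intro h
        rw [h, zero_pow hp.ne_zero, mul_zero] at hi0
        exact hi0 rfl
      have hcj : cf p t e j ≠ 0 := by
        intro h
        rw [h, zero_pow hp.ne_zero, mul_zero] at hj0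
        exact hj0 rfl
      obtain ⟨a, ha⟩ := n1 _ (hcf e he i hi') hci
      obtain ⟨b, hb⟩ := n1 _ (hcf e he j hj') hcj
      rw [m3, m3, hpow, hpow, hpow, hpow, ha, hb, hnt, ← zpow_natCast (v ϖ) i,
        ← zpow_natCast (v ϖ) j, ← zpow_natCast ((v ϖ) ^ a) p, ← zpow_natCast ((v ϖ) ^ b) p,
        ← zpow_mul, ← zpow_mul, ← zpow_add₀ hLF.pi0.ne', ← zpow_add₀ hLF.pi0.ne'] at hij
      have h1 := zpow_right_injective₀ hLF.pi0 hLF.pi1.ne hij
      have h2 : (i : ℤ) % p = (j : ℤ) % p := by
        have h3 : (i : ℤ) = j + (b - a) * p := by linear_combination h1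
        rw [h3, Int.add_mul_emod_self_right]
      have h4 : i % p = j % p := by exact_mod_cast h2
      rwa [Nat.mod_eq_of_lt hi', Nat.mod_eq_of_lt hj'] at h4
    have hmem : p - 1 ∈ range p := Finset.mem_range.2 (Nat.sub_lt hp.pos one_pos)
    rcases clo_sum (N := nm v) m4 hneg hv0 m1 (fun i => t ^ i * cf p t e i ^ p) (range p) hd with
      ⟨h1, -⟩ | ⟨k, -, -, h2, h3⟩
    · have h4 : t ^ (p - 1) * (Ca p t e) ^ p = 0 := h1 (p - 1) hmem
      rw [h4, hv0]
      exact m1 _
    · have h4 := h3 (p - 1) hmem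
      rw [← h2, ← b2 e] at h4
      exact h4
  -- induction
  have main : ∀ m : ℕ, ∀ e ∈ Knr p v, nm v e ≤ (v ϖ) ^ (-(m : ℤ)) →
      ∃ h ∈ Knr p v, Ca p t h - h = e := by
    intro m
    induction m with
    | zero =>
      intro e he hem
      refine small e he ?_
      rw [m3, hnt]
      have h1 : nm v e ≤ 1 := by simpa using hem
      exact mul_le_one₀ h1 hLF.pi0.le hLF.pi1.le
    | succ m ih =>
      intro e he hem
      rcases Nat.eq_zero_or_pos m with hm | hm
      · refine small e he ?_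
        rw [m3, hnt]
        rw [hm] at hem
        have h1 : (v ϖ) ^ (-((0 + 1 : ℕ) : ℤ)) = (v ϖ)⁻¹ := by
          rw [Nat.zero_add, Nat.cast_one, zpow_neg, zpow_one]
        rw [h1] at hem
        calc nm v e * v ϖ ≤ (v ϖ)⁻¹ * v ϖ := mul_le_mul_of_nonneg_right hem hLF.pi0.le
          _ = 1 := inv_mul_cancel₀ hLF.pi0.ne'
      · have hCa : nm v (Ca p t e) ≤ (v ϖ) ^ (-(m : ℤ)) := by
          by_cases ha0 : Ca p t e = 0
          · rw [ha0, hv0]
            exact (zpow_pos hLF.pi0 _).le
          · obtain ⟨a, ha⟩ := n1 _ (hCK e he) ha0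
            rw [ha]
            have h1 := (hbd e he).trans hem
            rw [m3, hpow, hpow, ha, hnt, ← zpow_natCast (v ϖ) (p - 1),
              ← zpow_natCast ((v ϖ) ^ a) p, ← zpow_mul, ← zpow_add₀ hLF.pi0.ne'] at h1
            have h2 := (zpow_le_zpow_iff_right_of_lt_one₀ hLF.pi0 hLF.pi1).1 h1
            rw [zpow_le_zpow_iff_right_of_lt_one₀ hLF.pi0 hLF.pi1]
            have hp1 : ((p - 1 : ℕ) : ℤ) = (p : ℤ) - 1 := by
              rw [Nat.cast_sub hp.one_le, Nat.cast_one]
            rw [hp1] at h2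
            push_cast at h2
            by_contra h3
            have h4 : a ≤ -((m : ℤ) + 1) := by omega
            have h5 : (2 : ℤ) ≤ p := by exact_mod_cast hp.two_le
            have h6 : (1 : ℤ) ≤ m := by exact_mod_cast hm
            nlinarith [mul_le_mul_of_nonneg_right h4 (by linarith : (0 : ℤ) ≤ (p : ℤ))]
        obtain ⟨h₁, hh₁, hh₁e⟩ := ih (Ca p t e) (hCK e he) hCa
        refine ⟨h₁ - e, sub_mem hh₁ he, ?_⟩
        have h2 : Ca p t h₁ = Ca p t (h₁ - e) + Ca p t e := by rw [← b7, sub_add_cancel]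
        linear_combination hh₁e - h2
  intro e he
  by_cases he0 : e = 0
  · refine main 0 e he ?_
    rw [he0, hv0]
    exact (zpow_pos hLF.pi0 _).le
  · obtain ⟨a, ha⟩ := n1 e he he0
    refine main a.natAbs e he ?_
    rw [ha, zpow_le_zpow_iff_right_of_lt_one₀ hLF.pi0 hLF.pi1]
    omega

end Pool.Agent.MP72P
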