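import Pool.Agent.Lib.MP_72e2e6_nt.P3.R.SpecA

/-!
# MP_72e2e6_nt, `P3/R/Chn`: change of the `p`-basis (helper7)
-/

namespace Pool.Agent.MP72P

open Finset

private theorem Chn_nat {p : ℕ} [Fact p.Prime] {L : Type} [Field L] [CharP L p] (n : ℕ) :
    (n : L) ^ p = n := by
  rw [← frobenius_def, map_natCast]

private theorem Chn_pow {L : Type} [Field L] (D : L → L)
    (hD : ∀ f g, D (f * g) = D f * g + f * D g) (t : L) (n : ℕ) :
    D (t ^ (n + 1)) = ((n + 1 : ℕ) : L) * (t ^ n * D t) := by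
  induction n with
  | zero => simp
  | succ n ih =>
    rw [pow_succ t (n + 1), hD, ih]
    push_cast
    ring

theorem tChn : S_Tba → S_Tbp → S_Chn := by
  intro hTba hTbp p _ L _ _ x t hx ht
  obtain ⟨-, -, -, b4, -, b6, b7, b8, b9, -⟩ := hTba p L x hx
  obtain ⟨-, c2, -⟩ := hTba p L t ht
  obtain ⟨-, -, -, d4, -⟩ := hTbp p L x hx
  have hp : p.Prime := Fact.out
  have hy : Dt p x t ≠ 0 := by
    intro h
    obtain ⟨s, hs⟩ := (b6 t).1 h
    exact ht.2 s hs.symm
  have ht0 : t ≠ 0 := by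
    intro h
    exact ht.2 0 (by rw [zero_pow hp.ne_zero, h])
  refine ⟨hy, fun f => ?_⟩
  have h1 : Ca p x (f * Dt p x t) =
      ∑ i ∈ range p, Ca p x (t ^ i * cf p t f i ^ p * Dt p x t) := by
    conv_lhs => rw [c2 f]
    rw [sum_mul]
    exact map_sum (AddMonoidHom.mk' (Ca p x) b7) _ _
  have h2 : p = p - 1 + 1 := by
    have := hp.pos
    omega
  have h3 : ∀ i ∈ range (p - 1), Ca p x (t ^ i * cf p t f i ^ p * Dt p x t) = 0 := by
    intro i hi
    have hi' : i + 1 < p := by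
      have := mem_range.1 hi
      omega
    have h4 : t ^ i * cf p t f i ^ p * Dt p x t = cf p t f i ^ p * (t ^ i * Dt p x t) := by
      ring
    have h5 : ((i + 1 : ℕ) : L) * Ca p x (t ^ i * Dt p x t) = 0 := by
      rw [← b8, Chn_nat, ← Chn_pow (Dt p x) b4 t i, b9]
    have h6 : ((i + 1 : ℕ) : L) ≠ 0 := by
      intro h
      have h7 := (CharP.cast_eq_zero_iff L p (i + 1)).1 h
      exact absurd (Nat.le_of_dvd (Nat.succ_pos i) h7) (by omega)
    rw [h4, b8, (mul_eq_zero.1 h5).resolve_left h6, mul_zero]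
  have h4 : Ca p x (t ^ (p - 1) * cf p t f (p - 1) ^ p * Dt p x t) =
      cf p t f (p - 1) * Dt p x t := by
    have h5 : t ^ (p - 1) * cf p t f (p - 1) ^ p * Dt p x t =
        (cf p t f (p - 1) * t) ^ p * Lg p x t := by
      unfold Lg
      have h6 : t ^ p = t ^ (p - 1) * t := by
        conv_lhs => rw [h2, pow_succ]
      rw [mul_pow, h6]
      field_simp
    rw [h5, b8, d4 t ht0]
    unfold Lg
    field_simp
  rw [h1, h2, sum_range_succ, sum_eq_zero (by rwa [← h2]), zero_add, ← h2, h4]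
  rfl

end Pool.Agent.MP72P
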