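import Pool.Agent.Lib.MP_72e2e6_nt.P3.R.SpecA

/-!
# MP_72e2e6_nt, `P3/R/CsF`: the constants form an algebraically closed field (helper7)
-/

namespace Pool.Agent.MP72P

open Polynomial IntermediateField

private theorem CsF_mem {p : ℕ} [hp : Fact p.Prime] {L : Type} [Field L] [CharP L p]
    [Algebra (ZMod p) L] (x : L) : IsSeparable (ZMod p) x ↔ x ∈ Cst p L := by
  constructor
  · intro hx
    have hint : IsIntegral (ZMod p) x := hx.isIntegral
    have : FiniteDimensional (ZMod p) (ZMod p)⟮x⟯ := adjoin.finiteDimensional hint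
    have : Finite (ZMod p)⟮x⟯ := Module.finite_of_finite (ZMod p)
    have := Fintype.ofFinite (ZMod p)⟮x⟯
    refine ⟨Module.finrank (ZMod p) (ZMod p)⟮x⟯, Module.finrank_pos, ?_⟩
    have h1 := FiniteField.pow_card (⟨x, mem_adjoin_simple_self (ZMod p) x⟩ : (ZMod p)⟮x⟯)
    rw [Module.card_eq_pow_finrank (K := ZMod p) (V := (ZMod p)⟮x⟯), ZMod.card] at h1
    have h2 := congrArg (algebraMap (ZMod p)⟮x⟯ L) h1
    rw [map_pow] at h2
    exact h2
  · rintro ⟨n, hn, hx⟩
    have h1 : (X ^ p ^ n - X : (ZMod p)[X]).Separable :=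
      galois_poly_separable p (p ^ n) (dvd_pow_self p (by omega))
    refine h1.of_dvd (minpoly.dvd (ZMod p) x ?_)
    rw [map_sub, map_pow, aeval_X, hx, sub_self]

private theorem CsF_alg {F L : Type} [Field F] [Field L] [Algebra F L] [PerfectField F]
    [IsSepClosed L] : IsAlgClosed (separableClosure F L) := by
  have : PerfectField (separableClosure F L) := Algebra.IsAlgebraic.perfectField F
  refine IsAlgClosed.of_exists_root _ fun f _ hf => ?_
  have hsep : f.Separable := PerfectField.separable_of_irreducible hf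
  obtain ⟨z, hz⟩ := IsSepClosed.exists_root (f.map (algebraMap (separableClosure F L) L))
    (by rw [degree_map]; exact (degree_pos_of_irreducible hf).ne') (hsep.map)
  have hz' : aeval z f = 0 := by
    rw [IsRoot, eval_map] at hz
    exact hz
  have h1 : z ∈ separableClosure (separableClosure F L) L :=
    hsep.of_dvd (minpoly.dvd _ z hz')
  rw [separableClosure.separableClosure_eq_bot, mem_bot] at h1
  obtain ⟨y, rfl⟩ := h1
  refine ⟨y, ?_⟩
  rw [aeval_algebraMap_apply, map_eq_zero] at hz'
  exact hz'

theorem tCsF : S_CsF := by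
  intro p hp L _ _ _
  let _ : Algebra (ZMod p) L := ZMod.algebra L p
  refine ⟨(separableClosure (ZMod p) L).toSubfield, ?_, CsF_alg (F := ZMod p) (L := L)⟩
  ext x
  exact CsF_mem x

end Pool.Agent.MP72P
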