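import Pool.Agent.Lib.MP_72e2e6_nt.P3.R.SpecC

/-!
# MP_72e2e6_nt, theorem T3p, part R: module Ct1 (the functional of a system of invariants)
-/

namespace Pool.Agent.MP72P

open Polynomial IntermediateField Finset

private theorem ctLoc {G Λ : Type} [Group G] [TopologicalSpace G] [CommRing Λ] {Γ : Type}
    [Group Γ] [TopologicalSpace Γ] (r : Γ →* G) (hr : Continuous r) {f : G → Λ}
    (hf : IsLocallyConstant f) : IsLocallyConstant fun g => f (r g) :=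
  hf.comp_continuous hr

private theorem ctCob {Λ : Type} [CommRing Λ] {Γ : Type} [Group Γ] [TopologicalSpace Γ]
    (χ : Γ → Λ) (hχ : IsLocallyConstant χ) (hm : ∀ g h, χ (g * h) = χ g * χ h) (a : Λ) :
    Coc (fun (g : Γ) (x : Λ) => χ g * x) fun g => a - χ g * a := by
  refine ⟨hχ.comp fun x => a - x * a, fun g h => ?_⟩
  rw [hm]
  ring

private theorem ctSub {Λ : Type} [CommRing Λ] {Γ : Type} [Group Γ] [TopologicalSpace Γ]
    {χ : Γ → Λ} {z z' : Γ → Λ} (h : Coc (fun (g : Γ) (x : Λ) => χ g * x) z)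
    (h' : Coc (fun (g : Γ) (x : Λ) => χ g * x) z') :
    Coc (fun (g : Γ) (x : Λ) => χ g * x) fun g => z g - z' g := by
  refine ⟨h.loc.comp₂ h'.loc fun a b => a - b, fun g k => ?_⟩
  rw [h.mul, h'.mul]
  ring

private theorem ctAdd {Λ : Type} [CommRing Λ] {Γ : Type} [Group Γ] [TopologicalSpace Γ]
    {χ : Γ → Λ} {z z' : Γ → Λ} (h : Coc (fun (g : Γ) (x : Λ) => χ g * x) z)
    (h' : Coc (fun (g : Γ) (x : Λ) => χ g * x) z') :
    Coc (fun (g : Γ) (x : Λ) => χ g * x) fun g => z g + z' g := by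
  refine ⟨h.loc.comp₂ h'.loc fun a b => a + b, fun g k => ?_⟩
  rw [h.mul, h'.mul]
  ring

theorem tCt1 : S_Lin2 → S_UnL → S_Ct1 := by
  intro hLin hUn p _ G W _ _ _ _ _ Γ _ _ _ ω hω hH2 r T t w₀ d e hL y₀ hOk n Λ _ π hLR χ hχ N I hI
  have hωw : ∀ w, ChO p fun g : Γ w => ω (r w g) := fun w =>
    ⟨hω.loc.comp_continuous (hL.cont w), by rw [map_one, hω.one],
      fun a b => by rw [map_mul, hω.mul], fun a => hω.ne _⟩
  have hχw : ∀ w, Chr π (fun g : Γ w => ω (r w g)) fun g => χ (r w g) := fun w =>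
    ⟨hχ.loc.comp_continuous (hL.cont w), by rw [map_one, hχ.one],
      fun a b => by rw [map_mul, hχ.mul], fun a => hχ.red _⟩
  have fin0 : ∀ w, {i : T w | (0 : T w → Λ) i ≠ 0}.Finite := by
    intro w
    have h : {i : T w | (0 : T w → Λ) i ≠ 0} = ∅ := by
      ext i
      simp
    rw [h]
    exact Set.finite_empty
  have U0 : ∀ l : Fin d → Λ, ∃! z : Γ w₀ → Λ, Coc (fun g (x : Λ) => χ (r w₀ g) * x) z ∧
      (∀ i, z (t w₀ i) = (0 : T w₀ → Λ) i) ∧ ∀ j, z (e j) = l j :=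
    fun l => hUn p (Γ w₀) (T w₀) (Fin d) _ (t w₀) e (hωw w₀) (hL.h2 w₀) (hL.conv w₀) hL.u0 n Λ π
      hLR _ (hχw w₀) 0 (fin0 w₀) l
  have UE : ∀ w, w ≠ w₀ → ∀ z : Γ w → Λ, Coc (fun g (x : Λ) => χ (r w g) * x) z →
      (∀ i, z (t w i) = 0) → z = fun _ => 0 := by
    intro w hw z hz hz0
    obtain ⟨z', -, hu⟩ := hUn p (Γ w) (T w) Empty _ (t w) Empty.elim (hωw w) (hL.h2 w) (hL.conv w)
      (fun v hv c => by
        obtain ⟨f, ⟨hf1, hf2⟩, hf3⟩ := hL.ue w hw v hv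
        exact ⟨f, ⟨hf1, hf2, fun j => j.elim⟩, fun f' hf' => hf3 f' ⟨hf'.1, hf'.2.1⟩⟩)
      n Λ π hLR _ (hχw w) 0 (fin0 w) Empty.elim
    have h1 := hu z ⟨hz, hz0, fun j => j.elim⟩
    have h2 := hu (fun _ => 0) ⟨⟨IsLocallyConstant.const 0, fun g h => by
      change (0 : Λ) = 0 + χ (r w g) * 0
      rw [mul_zero, add_zero]⟩, fun i => rfl, fun j => j.elim⟩
    rw [h1, h2]
  choose zl hzl huz using U0
  have hadd : ∀ l l' : Fin d → Λ, zl (l + l') = fun g => zl l g + zl l' g := by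
    intro l l'
    symm
    refine huz (l + l') _ ⟨ctAdd (hzl l).1 (hzl l').1, fun i => ?_, fun j => ?_⟩
    · change zl l (t w₀ i) + zl l' (t w₀ i) = (0 : T w₀ → Λ) i
      rw [(hzl l).2.1, (hzl l').2.1, Pi.zero_apply, add_zero]
    · change zl l (e j) + zl l' (e j) = (l + l') j
      rw [(hzl l).2.2, (hzl l').2.2, Pi.add_apply]
  let θ : (Fin d → Λ) →+ ZMod N := AddMonoidHom.mk' (fun l => I w₀ (zl l)) fun l l' => by
    rw [hadd, hI.add w₀ _ _ (hzl l).1 (hzl l').1]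
  have hθ : ∀ l, θ l = I w₀ (zl l) := fun l => rfl
  have h1 : ∀ z : Γ w₀ → Λ, Coc (fun g (x : Λ) => χ (r w₀ g) * x) z → (∀ i, z (t w₀ i) = 0) →
      I w₀ z = θ fun j => z (e j) := by
    intro z hz hz0
    have h2 : z = zl fun j => z (e j) := huz (fun j => z (e j)) z ⟨hz, hz0, fun j => rfl⟩
    rw [hθ, ← h2]
  refine ⟨θ, h1, fun y => ?_⟩
  have hS := (hLin p G W d ω (fun w => (r w).range) (tsL r t w₀ e y₀) hω hH2 hOk n Λ π hLR χ hχ).1 y
  have hTs : Ts (tsL r t w₀ e y₀) (rL χ) y =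
      fun j => psi (rL χ) (Zs (tsL r t w₀ e y₀) (rL χ) y) w₀ (r w₀ (e j)) := rfl
  rw [hTs]
  generalize Zs (tsL r t w₀ e y₀) (rL χ) y = Z at hS ⊢
  have hc : ∀ w, Coc (fun (g : Γ w) (x : Λ) => χ (r w g) * x) fun g => Z.1 (r w g) := fun w =>
    ⟨hS.coc.loc.comp_continuous (hL.cont w), fun g h => by
      rw [map_mul, hS.coc.mul]
      rfl⟩
  have hb : ∀ w, Coc (fun (g : Γ w) (x : Λ) => χ (r w g) * x) fun g =>
      Z.2 w - χ (r w g) * Z.2 w := fun w =>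
    ctCob (fun g => χ (r w g)) (hχw w).loc (hχw w).mul (Z.2 w)
  have hz : ∀ w, Coc (fun (g : Γ w) (x : Λ) => χ (r w g) * x) fun g => psi (rL χ) Z w (r w g) :=
    fun w => ctSub (hc w) (hb w)
  have hzt : ∀ w (i : T w), psi (rL χ) Z w (r w (t w i)) = 0 := fun w i => hS.ts ⟨w, i⟩
  have hI0 : ∀ w, I w (fun _ => 0) = 0 := by
    intro w
    have h := hI.cob w 0
    have h3 : (fun g : Γ w => (0 : Λ) - χ (r w g) * 0) = fun _ => 0 := by
      funext g
      rw [mul_zero, sub_zero]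
    rwa [h3] at h
  have hsum := hI.rcp Z.1 hS.coc
  have hterm : ∀ w, I w (fun g => Z.1 (r w g)) = I w fun g => psi (rL χ) Z w (r w g) := by
    intro w
    have h3 := hI.add w _ _ (hz w) (hb w)
    rw [hI.cob w, add_zero] at h3
    rw [← h3]
    congr 1
    funext g
    exact (sub_add_cancel (Z.1 (r w g)) (Z.2 w - χ (r w g) * Z.2 w)).symm
  have hsum2 : ∑ w, I w (fun g => Z.1 (r w g)) = I w₀ fun g => psi (rL χ) Z w₀ (r w₀ g) := by
    rw [Finset.sum_eq_single w₀]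
    · exact hterm w₀
    · intro w _ hw
      rw [hterm w, UE w hw _ (hz w) (hzt w), hI0]
    · intro h
      exact absurd (Finset.mem_univ _) h
  rw [← h1 (fun g => psi (rL χ) Z w₀ (r w₀ g)) (hz w₀) (hzt w₀), ← hsum2, hsum]

end Pool.Agent.MP72P
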