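import Pool.Agent.Lib.MP_72e2e6_nt.P3.R.SpecC

/-!
# MP_72e2e6_nt, theorem T3p, part R: module Ct2 (injectivity, abstract)
-/

namespace Pool.Agent.MP72P

open Polynomial IntermediateField Finset

private theorem ct2Cob {Λ : Type} [CommRing Λ] {Γ : Type} [Group Γ] [TopologicalSpace Γ]
    (χ : Γ → Λ) (hχ : IsLocallyConstant χ) (hm : ∀ g h, χ (g * h) = χ g * χ h) (a : Λ) :
    Coc (fun (g : Γ) (x : Λ) => χ g * x) fun g => a - χ g * a := by
  refine ⟨hχ.comp fun x => a - x * a, fun g h => ?_⟩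
  rw [hm]
  ring

private theorem ct2Sub {Λ : Type} [CommRing Λ] {Γ : Type} [Group Γ] [TopologicalSpace Γ]
    {χ : Γ → Λ} {z z' : Γ → Λ} (h : Coc (fun (g : Γ) (x : Λ) => χ g * x) z)
    (h' : Coc (fun (g : Γ) (x : Λ) => χ g * x) z') :
    Coc (fun (g : Γ) (x : Λ) => χ g * x) fun g => z g - z' g := by
  refine ⟨h.loc.comp₂ h'.loc fun a b => a - b, fun g k => ?_⟩
  rw [h.mul, h'.mul]
  ring

theorem tCt2 : S_Lrb → S_Act → S_Uni2 → S_UnL → S_Ct2 := by
  classical
  intro hLrb hAct hU2 hUn p _ G W _ _ _ _ _ Γ _ _ _ ω hω hH2 r T t w₀ d e hL y₀ hOk n Λ _ π hLR χ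
    hχ N I hI hz0 w z hz
  have hfin : Finite Λ := (hLrb p n Λ π hLR).1
  have hact := (hAct p n Λ π hLR G ω hω χ hχ).1
  have hωw : ∀ w, ChO p fun g : Γ w => ω (r w g) := fun w =>
    ⟨hω.loc.comp_continuous (hL.cont w), by rw [map_one, hω.one],
      fun a b => by rw [map_mul, hω.mul], fun a => hω.ne _⟩
  have hχw : ∀ w, Chr π (fun g : Γ w => ω (r w g)) fun g => χ (r w g) := fun w =>
    ⟨hχ.loc.comp_continuous (hL.cont w), by rw [map_one, hχ.one],
      fun a b => by rw [map_mul, hχ.mul], fun a => hχ.red _⟩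
  have fin0 : ∀ w, {i : T w | (0 : T w → Λ) i ≠ 0}.Finite := by
    intro w
    have h : {i : T w | (0 : T w → Λ) i ≠ 0} = ∅ := by
      ext i
      simp
    rw [h]
    exact Set.finite_empty
  have UE : ∀ w, w ≠ w₀ → ∀ z : Γ w → Λ, Coc (fun g (x : Λ) => χ (r w g) * x) z →
      (∀ i, z (t w i) = 0) → z = fun _ => 0 := by
    intro w hw z hz hz0
    obtain ⟨z', -, hu⟩ := hUn p (Γ w) (T w) Empty _ (t w) Empty.elim (hωw w) (hL.h2 w) (hL.conv w)
      (fun v hv c => by
        obtain ⟨f, ⟨hf1, hf2⟩, hf3⟩ := hL.ue w hw v hv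
        exact ⟨f, ⟨hf1, hf2, fun j => j.elim⟩, fun f' hf' => hf3 f' ⟨hf'.1, hf'.2.1⟩⟩)
      n Λ π hLR _ (hχw w) 0 (fin0 w) Empty.elim
    have h1 := hu z ⟨hz, hz0, fun j => j.elim⟩
    have h2 := hu (fun _ => 0) ⟨⟨IsLocallyConstant.const 0, fun g h => by
      change (0 : Λ) = 0 + χ (r w g) * 0
      rw [mul_zero, add_zero]⟩, fun i => rfl, fun j => j.elim⟩
    rw [h1, h2]
  have hI0 : ∀ w, I w (fun _ => 0) = 0 := by
    intro w
    have h := hI.cob w 0
    have h3 : (fun g : Γ w => (0 : Λ) - χ (r w g) * 0) = fun _ => 0 := by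
      funext g
      rw [mul_zero, sub_zero]
    rwa [h3] at h
  -- crossed homomorphisms which vanish at the tests
  have hV : ∀ w (z' : Γ w → Λ), Coc (fun g (x : Λ) => χ (r w g) * x) z' →
      (∀ i, z' (t w i) = 0) → I w z' = 0 := by
    intro w' z' hz' ht
    by_cases hw : w' = w₀
    · subst hw
      exact hz0 z' hz' ht
    · rw [UE w' hw z' hz' ht, hI0]
  -- the tests
  let V : ∀ w', T w' → Λ := Function.update (fun w' (_ : T w') => (0 : Λ)) w fun i => z (t w i)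
  have hVw : V w = fun i => z (t w i) := Function.update_self _ _ _
  have hVn : ∀ w', w' ≠ w → V w' = fun _ => 0 := fun w' h => Function.update_of_ne h _ _
  have hz1 : z 1 = 0 := by
    have h := hz.mul 1 1
    change z (1 * 1) = z 1 + χ (r w 1) * z 1 at h
    rw [mul_one, map_one, hχ.one, one_mul] at h
    exact left_eq_add.1 h
  have hvfin : {q : (tsL r t w₀ e y₀).I | V q.1 q.2 ≠ 0}.Finite := by
    have h1 : {i | t w i ∉ {g | z g = 0}}.Finite :=
      hL.conv w {g | z g = 0} (hz.loc.isOpen_fiber 0) hz1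
    refine (h1.image (Sigma.mk w)).subset ?_
    rintro ⟨w', i⟩ hi
    have hw : w' = w := by
      by_contra hne
      refine hi ?_
      change V w' i = 0
      rw [hVn w' hne]
    subst hw
    refine ⟨i, fun h => hi ?_, rfl⟩
    change V w' i = 0
    rw [hVw]
    exact h
  obtain ⟨Z, ⟨hZc, hZt, -⟩, -⟩ := (hU2 p G W d ω (fun w => (r w).range) (tsL r t w₀ e y₀) hω hH2 hOk
    Λ n hLR.card (rL χ) hact).1 (fun q => V q.1 q.2) hvfin fun _ => 0
  have hc : ∀ w, Coc (fun (g : Γ w) (x : Λ) => χ (r w g) * x) fun g => Z.1 (r w g) := fun w =>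
    ⟨hZc.loc.comp_continuous (hL.cont w), fun g h => by
      rw [map_mul, hZc.mul]
      rfl⟩
  have hb : ∀ w, Coc (fun (g : Γ w) (x : Λ) => χ (r w g) * x) fun g =>
      Z.2 w - χ (r w g) * Z.2 w := fun w =>
    ct2Cob (fun g => χ (r w g)) (hχw w).loc (hχw w).mul (Z.2 w)
  have hzz : ∀ w, Coc (fun (g : Γ w) (x : Λ) => χ (r w g) * x) fun g =>
      psi (rL χ) Z w (r w g) := fun w => ct2Sub (hc w) (hb w)
  have hzt : ∀ w (i : T w), psi (rL χ) Z w (r w (t w i)) = V w i := fun w i => hZt ⟨w, i⟩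
  have hsum := hI.rcp Z.1 hZc
  have hterm : ∀ w, I w (fun g => Z.1 (r w g)) = I w fun g => psi (rL χ) Z w (r w g) := by
    intro w
    have h3 := hI.add w _ _ (hzz w) (hb w)
    rw [hI.cob w, add_zero] at h3
    rw [← h3]
    congr 1
    funext g
    exact (sub_add_cancel (Z.1 (r w g)) (Z.2 w - χ (r w g) * Z.2 w)).symm
  have hw0 : I w (fun g => psi (rL χ) Z w (r w g)) = 0 := by
    rw [Finset.sum_eq_single w, hterm w] at hsum
    · exact hsum
    · intro w' _ hne
      rw [hterm w']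
      refine hV w' _ (hzz w') fun i => ?_
      rw [hzt w' i, hVn w' hne]
    · intro h
      exact absurd (Finset.mem_univ _) h
  have hd : I w (fun g => z g - psi (rL χ) Z w (r w g)) = 0 := by
    refine hV w _ (ct2Sub hz (hzz w)) fun i => ?_
    change z (t w i) - psi (rL χ) Z w (r w (t w i)) = 0
    rw [hzt w i, hVw, sub_self]
  have h4 := hI.add w _ _ (ct2Sub hz (hzz w)) (hzz w)
  rw [hd, hw0, add_zero] at h4
  rw [← h4]
  congr 1
  funext g
  exact (sub_add_cancel (z g) _).symm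

end Pool.Agent.MP72P
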