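import Pool.Agent.Lib.MP_72e2e6_nt.P3.R.SpecC

/-!
# MP_72e2e6_nt, theorem T3p, part R: restriction of equivariant homomorphisms to the local groups
-/

namespace Pool.Agent.MP72P

open Polynomial IntermediateField Finset

private theorem eql_map {N : ℕ} {L L' : Type} [Field L] [Field L'] (σ : L →+* L') {a b : L}
    (h : EqN N a b) : EqN N (σ a) (σ b) := by
  obtain ⟨s, hs0, hs⟩ := h
  exact ⟨σ s, (map_ne_zero σ).2 hs0, by rw [hs, map_mul, map_pow]⟩

private theorem eql_div {N : ℕ} {L : Type} [Field L] {a b c d : L}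
    (h : EqN N a b) (h' : EqN N c d) : EqN N (a / c) (b / d) := by
  obtain ⟨s, hs0, hs⟩ := h
  obtain ⟨t, ht0, ht⟩ := h'
  refine ⟨s / t, div_ne_zero hs0 ht0, ?_⟩
  rw [hs, ht, div_pow, mul_div_mul_comm]

theorem tEqL (hTwb : S_Twb) (hRes : S_Res) (_hEqn : S_Eqn) (hEqc : S_Eqc) : S_EqL := by
  intro p _ K _ _ W av α h hα hαh
  haveI hG : IsGalois K (Om p (OS av) K (Kgs K) α) :=
    (hTwb p (OS av) K (Kgs K) α h hα hαh).2.2.2.2.1
  have resG := hRes p K (Om p (OS av) K (Kgs K) α) K (Kgs K) (Om p (OS av) K (Kgs K) α).val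
  have cG : Continuous (rGo (p := p) (av := av) (α := α)) := resG.1
  have rstG : ∀ (σ : Gal(Kgs K/K)) (x : Om p (OS av) K (Kgs K) α),
      σ (x : Kgs K) = ((rGo (p := p) (av := av) (α := α) σ) x : Kgs K) := fun σ x =>
    resG.2.1 σ x
  have resI := fun (v : AbsoluteValue K ℝ) (ι : Kgs K →ₐ[K] Kvs v) =>
    hRes p K (Kgs K) v.Completion (Kvs v) ι
  have resL := fun (v : AbsoluteValue K ℝ) (ι : Kgs K →ₐ[K] Kvs v) =>
    hRes p K (Om p (OS av) K (Kgs K) α) v.Completion (Kvs v)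
      (ι.comp (Om p (OS av) K (Kgs K) α).val)
  have h3 : ∀ (v : AbsoluteValue K ℝ) (ι : Kgs K →ₐ[K] Kvs v) (g : Gal(Kvs v/v.Completion)),
      rGo (p := p) (av := av) (α := α) (rsH (M := v.Completion) ι g) = rLo ι g := by
    intro v ι g
    refine (resL v ι).2.2.1 g _ ?_
    intro x
    have e1 : g (ι (x : Kgs K)) = ι ((rsH (M := v.Completion) ι g) (x : Kgs K)) :=
      (resI v ι).2.1 g (x : Kgs K)
    have e2 := rstG (rsH (M := v.Completion) ι g) x
    show g (ι (x : Kgs K)) =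
      ι ((rGo (p := p) (av := av) (α := α) (rsH (M := v.Completion) ι g)) x : Kgs K)
    rw [e1, e2]
  refine ⟨cG, fun v ι => (resL v ι).1, h3, ?_⟩
  intro k Λ _ χ u hu
  refine ⟨?_, ?_, ?_, ?_⟩
  · intro v ι
    refine ⟨fun z => (map_ne_zero ι).2 (hu.ne z), fun z z' => ?_, fun g z => ?_⟩
    · have h1 := eql_map (ι : Kgs K →+* Kvs v) (hu.add z z')
      have h2 : (ι : Kgs K →+* Kvs v) (u z * u z') = ι (u z) * ι (u z') := map_mul ι _ _
      rw [h2] at h1
      exact h1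
    · have h1 := eql_map (ι : Kgs K →+* Kvs v) (hu.gal (rsH (M := v.Completion) ι g) z)
      have h2 : actG g (ι (u z)) =
          (ι : Kgs K →+* Kvs v) (actG (rsH (M := v.Completion) ι g) (u z)) :=
        (resI v ι).2.1 g (u z)
      show EqN (p ^ k) (actG g (ι (u z))) (ι (u (χ (rLo ι g) * z)))
      rw [h2, ← h3 v ι g]
      exact h1
  · intro Z hZ
    refine (hEqc p K k Λ).1 (fun σ : Gal(Kgs K/K) => χ (rGo σ)) u hu (fun σ => Z (rGo σ)) ?_
    refine ⟨hZ.loc.comp_continuous cG, fun g g' => ?_⟩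
    show Z (rGo (g * g')) = Z (rGo g) + χ (rGo g) * Z (rGo g')
    rw [map_mul]
    exact hZ.mul _ _
  · intro Z v ι
    funext g
    show ι (u (Z (rGo (rsH (M := v.Completion) ι g)))) = ι (u (Z (rLo ι g)))
    rw [h3 v ι g]
  · intro u' hu'
    refine ⟨fun z => div_ne_zero (hu.ne z) (hu'.ne z), fun z z' => ?_, fun σ z => ?_⟩
    · have h1 := eql_div (hu.add z z') (hu'.add z z')
      show EqN (p ^ k) (u (z + z') / u' (z + z')) (u z / u' z * (u z' / u' z'))
      rw [div_mul_div_comm]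
      exact h1
    · have h1 := eql_div (hu.gal σ z) (hu'.gal σ z)
      have h2 : actG σ (u z / u' z) = actG σ (u z) / actG σ (u' z) := map_div₀ σ _ _
      show EqN (p ^ k) (actG σ (u z / u' z)) (u (χ (rGo σ) * z) / u' (χ (rGo σ) * z))
      rw [h2]
      exact h1

end Pool.Agent.MP72P
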