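import Pool.Agent.Lib.MP_72e2e6_nt.P3.R.SpecB

/-!
# MP_72e2e6_nt, theorem T3p, part R: equivariant homomorphisms and crossed homomorphisms
-/

set_option autoImplicit false

namespace Pool.Agent.MP72P

open Polynomial IntermediateField Finset

private theorem eqc_rfl {L : Type} [Field L] {N : ℕ} (a : L) : EqN N a a :=
  ⟨1, one_ne_zero, by rw [one_pow, mul_one]⟩

private theorem eqc_symm {L : Type} [Field L] {N : ℕ} {a b : L} (h : EqN N a b) : EqN N b a := by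
  obtain ⟨s, hs, rfl⟩ := h
  refine ⟨s⁻¹, inv_ne_zero hs, ?_⟩
  rw [mul_assoc, ← mul_pow, mul_inv_cancel₀ hs, one_pow, mul_one]

private theorem eqc_trans {L : Type} [Field L] {N : ℕ} {a b c : L} (h : EqN N a b)
    (h' : EqN N b c) : EqN N a c := by
  obtain ⟨s, hs, rfl⟩ := h
  obtain ⟨t, ht, rfl⟩ := h'
  exact ⟨t * s, mul_ne_zero ht hs, by rw [mul_pow, mul_assoc]⟩

private theorem eqc_mul {L : Type} [Field L] {N : ℕ} {a b c d : L} (h : EqN N a b)
    (h' : EqN N c d) : EqN N (a * c) (b * d) := by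
  obtain ⟨s, hs, rfl⟩ := h
  obtain ⟨t, ht, rfl⟩ := h'
  exact ⟨s * t, mul_ne_zero hs ht, by rw [mul_pow, mul_mul_mul_comm]⟩

private theorem eqc_div {L : Type} [Field L] {N : ℕ} {a b c d : L} (h : EqN N a b)
    (h' : EqN N c d) : EqN N (a / c) (b / d) := by
  obtain ⟨s, hs, rfl⟩ := h
  obtain ⟨t, ht, rfl⟩ := h'
  exact ⟨s / t, div_ne_zero hs ht, by rw [div_pow, mul_div_mul_comm]⟩

private theorem eqc_sub {G L Λ : Type} [Field L] [CommRing Λ] {N : ℕ} {act : G → L → L}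
    {χ : G → Λ} {u : Λ → L} (hu : EqH N act χ u) (a b : Λ) : EqN N (u (a - b)) (u a / u b) := by
  have h1 := hu.add (a - b) b
  rw [sub_add_cancel] at h1
  have h2 := eqc_div h1 (eqc_rfl (N := N) (u b))
  rw [mul_div_cancel_right₀ _ (hu.ne b)] at h2
  exact eqc_symm h2

private theorem eqc_coc {G L Λ : Type} [Group G] [TopologicalSpace G] [Field L] [CommRing Λ]
    {N : ℕ} {act : G → L → L} {χ : G → Λ} {u : Λ → L} (hu : EqH N act χ u) {z : G → Λ}
    (hz : Coc (fun g x => χ g * x) z) :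
    IsLocallyConstant (fun σ => u (z σ)) ∧
      ∀ σ τ, EqN N (u (z (σ * τ))) (u (z σ) * act σ (u (z τ))) := by
  refine ⟨hz.loc.comp u, fun σ τ => ?_⟩
  rw [hz.mul σ τ]
  exact eqc_trans (hu.add _ _) (eqc_mul (eqc_rfl _) (eqc_symm (hu.gal σ (z τ))))

theorem tEqc : S_Eqn → S_Eqc := by
  intro _ p _ K _ _ k Λ _
  refine ⟨fun χ u hu z hz => ⟨fun σ => hu.ne _, (eqc_coc hu hz).1, (eqc_coc hu hz).2⟩,
    fun v χ u hu => ⟨fun z hz => ⟨fun σ => hu.ne _, (eqc_coc hu hz).1, (eqc_coc hu hz).2⟩,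
      ?_, fun c g => ?_, eqc_sub hu⟩⟩
  · have h1 := eqc_sub hu 0 0
    rw [sub_zero, div_self (hu.ne 0)] at h1
    exact h1
  · have h1 := eqc_sub hu c (χ g * c)
    have h2 : EqN (p ^ k) (u c / u (χ g * c)) (u c / g (u c)) :=
      eqc_div (eqc_rfl _) (eqc_symm (hu.gal g c))
    have h3 : (g (u c)⁻¹ / (u c)⁻¹ : Kvs v) = u c / g (u c) := by
      rw [map_inv₀, div_inv_eq_mul, div_eq_mul_inv, mul_comm]
    rw [h3]
    exact eqc_trans h1 h2

end Pool.Agent.MP72P
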