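import Pool.Agent.Lib.MP_72e2e6_nt.P3.R.SpecB

/-!
# MP_72e2e6_nt, theorem T3p, part R: rules for equality modulo `p ^ k`-th powers
-/

namespace Pool.Agent.MP72P

open Polynomial IntermediateField Finset

private theorem eqn_modEq {L : Type} [Field L] {N : ℕ} {u : L} (hu : u ≠ 0) {m n : ℕ}
    (h : m ≡ n [MOD N]) : EqN N (u ^ m) (u ^ n) := by
  obtain ⟨q, hq⟩ := (Nat.modEq_iff_dvd.mp h.symm)
  refine ⟨u ^ q, zpow_ne_zero q hu, ?_⟩
  rw [← zpow_natCast u m, ← zpow_natCast u n, ← zpow_natCast (u ^ q) N, ← zpow_mul,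
    ← zpow_add₀ hu]
  congr 1
  linarith

theorem tEqn : S_Eqn := by
  intro p hp L _ _ k
  have hp0 : p ≠ 0 := hp.out.ne_zero
  have hN : NeZero (p ^ k) := ⟨pow_ne_zero k hp0⟩
  refine ⟨?_, ?_, ?_, ?_, ?_, ?_, ?_, ?_, ?_, ?_⟩
  · intro a
    exact ⟨1, one_ne_zero, by rw [one_pow, mul_one]⟩
  · rintro a b hb ⟨s, hs, rfl⟩
    refine ⟨mul_ne_zero hb (pow_ne_zero _ hs), s⁻¹, inv_ne_zero hs, ?_⟩
    rw [mul_assoc, ← mul_pow, mul_inv_cancel₀ hs, one_pow, mul_one]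
  · rintro a b c ⟨s, hs, rfl⟩ ⟨t, ht, rfl⟩
    exact ⟨t * s, mul_ne_zero ht hs, by rw [mul_pow, mul_assoc]⟩
  · rintro a b c d ⟨s, hs, rfl⟩ ⟨t, ht, rfl⟩
    refine ⟨⟨s * t, mul_ne_zero hs ht, ?_⟩, ⟨s / t, div_ne_zero hs ht, ?_⟩⟩
    · rw [mul_pow, mul_mul_mul_comm]
    · rw [div_pow, mul_div_mul_comm]
  · rintro a b n ⟨s, hs, rfl⟩
    exact ⟨s ^ n, pow_ne_zero n hs, by rw [mul_pow, ← pow_mul, ← pow_mul, mul_comm n]⟩
  · intro u m n hu hmn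
    exact eqn_modEq hu ((ZMod.natCast_eq_natCast_iff m n (p ^ k)).mp hmn)
  · intro u a b hu
    constructor
    · rw [← pow_add]
      apply eqn_modEq hu
      rw [← ZMod.natCast_eq_natCast_iff]
      push_cast
      rw [ZMod.natCast_zmod_val, ZMod.natCast_zmod_val, ZMod.natCast_zmod_val]
    · rw [← pow_mul]
      apply eqn_modEq hu
      rw [← ZMod.natCast_eq_natCast_iff]
      push_cast
      rw [ZMod.natCast_zmod_val, ZMod.natCast_zmod_val, ZMod.natCast_zmod_val]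
  · intro a b hb
    constructor
    · rintro ⟨s, hs, h⟩
      refine ⟨s, hs, ?_⟩
      have h2 : (b * s ^ p ^ k) ^ p = b ^ p * s ^ p ^ (k + 1) := by
        rw [mul_pow, ← pow_mul, ← pow_succ]
      rw [← h2] at h
      exact frobenius_inj L p h
    · rintro ⟨s, hs, rfl⟩
      exact ⟨s, hs, by rw [mul_pow, ← pow_mul, ← pow_succ]⟩
  · rintro L' _ σ a b ⟨s, hs, rfl⟩
    refine ⟨σ s, (map_ne_zero σ).mpr hs, ?_⟩
    rw [map_mul, map_pow]
  · rintro a b j ⟨s, hs, rfl⟩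
    exact ⟨s ^ p ^ j, pow_ne_zero _ hs, by rw [← pow_mul, ← pow_add, add_comm j k]⟩

end Pool.Agent.MP72P
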