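import Pool.Agent.Lib.MP_72e2e6_nt.P3.R.SpecC

/-!
# MP_72e2e6_nt, theorem T3p, part R: an element which is locally a `p ^ k`-th power is one
-/

namespace Pool.Agent.MP72P

open Polynomial IntermediateField Finset

private theorem gln_core (hTba : S_Tba) (hTbp : S_Tbp) (hTbF : S_TbF) (hTbV : S_TbV) (p : ℕ)
    [Fact p.Prime] (K : Type) [Field K] (hK : GFld p K) (v : AbsoluteValue K ℝ) (Q : ℕ) (ϖ : K)
    (R : Finset K) (hLF : LF v p Q ϖ R) (ι : Kgs K →ₐ[K] Kvs v) :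
    ∀ (k : ℕ) (z : Kgs K) (s : Kvs v), ι z = s ^ p ^ k → ∃ s' : Kgs K, z = s' ^ p ^ k := by
  haveI hcK : CharP K p := (hTbF p K hK).1
  haveI hcG : CharP (Kgs K) p :=
    charP_of_injective_algebraMap (algebraMap K (Kgs K)).injective p
  haveI hcV : CharP (Kvs v) p :=
    charP_of_injective_algebraMap (algebraMap K (Kvs v)).injective p
  obtain ⟨-, htG, -, htV⟩ := hTbV p K hK v Q ϖ R hLF
  have hι : (ι : Kgs K →+* Kvs v) (tG ϖ) = tV v ϖ := by
    have h1 : ι (algebraMap K (Kgs K) ϖ) = algebraMap K (Kvs v) ϖ := ι.commutes ϖ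
    have h2 : algebraMap K (Kvs v) ϖ =
        algebraMap v.Completion (Kvs v) (algebraMap K v.Completion ϖ) :=
      IsScalarTower.algebraMap_apply K v.Completion (Kvs v) ϖ
    unfold tG tV
    rw [← h2]
    exact h1
  intro k
  induction k with
  | zero =>
      intro z s _
      exact ⟨z, by rw [pow_zero, pow_one]⟩
  | succ k ih =>
      intro z s hs
      have h1 : Dt p (tV v ϖ) (ι z) = 0 :=
        ((hTba p (Kvs v) (tV v ϖ) htV).2.2.2.2.2.1 (ι z)).2 ⟨s ^ p ^ k, by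
          rw [hs, pow_succ, pow_mul]⟩
      have h2 := ((hTbp p (Kgs K) (tG ϖ) htG).2.2.2.2.2 (Kvs v) (ι : Kgs K →+* Kvs v)
        (by rw [hι]; exact htV) z).1
      rw [hι] at h2
      have h3 : Dt p (tG ϖ) z = 0 := by
        apply (ι : Kgs K →+* Kvs v).injective
        rw [map_zero, ← h2]
        exact h1
      obtain ⟨x₁, hx₁⟩ := ((hTba p (Kgs K) (tG ϖ) htG).2.2.2.2.2.1 z).1 h3
      have h4 : (ι x₁) ^ p = (s ^ p ^ k) ^ p := by
        rw [← map_pow, ← hx₁, hs, pow_succ, pow_mul]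
      have h5 : ι x₁ = s ^ p ^ k := frobenius_inj (Kvs v) p h4
      obtain ⟨s', hs'⟩ := ih x₁ s h5
      exact ⟨s', by rw [hx₁, hs', pow_succ, pow_mul]⟩

theorem tGlN (hTba : S_Tba) (hTbp : S_Tbp) (hTbF : S_TbF) (hTbV : S_TbV) : S_GlN := by
  intro p _ K _ hK v Q ϖ R hLF ι k x y hx hy hxy
  obtain ⟨s, hs0, hs⟩ := hxy
  have hιy : ι y ≠ 0 := (map_ne_zero ι).2 hy
  have h1 : ι (x / y) = s ^ p ^ k := by
    rw [map_div₀, hs]
    field_simp
  obtain ⟨s', hs'⟩ := gln_core hTba hTbp hTbF hTbV p K hK v Q ϖ R hLF ι k (x / y) s h1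
  refine ⟨s', ?_, ?_⟩
  · rintro rfl
    rw [zero_pow (pow_ne_zero k (Fact.out : p.Prime).ne_zero)] at hs'
    rcases div_eq_zero_iff.1 hs' with h | h
    · exact hx h
    · exact hy h
  · rw [← hs']
    field_simp

end Pool.Agent.MP72P
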