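import Pool.Agent.Lib.MP_72e2e6_nt.P3.R.SpecB

/-!
# MP_72e2e6_nt, theorem T3p, part R: module Ivl
-/

namespace Pool.Agent.MP72P

open Polynomial IntermediateField

private theorem ivl_lc {K L : Type} [Field K] [Field L] [Algebra K L] [Algebra.IsIntegral K L]
    (x : L) : IsLocallyConstant fun σ : Gal(L/K) => σ x := by
  have : FiniteDimensional K K⟮x⟯ :=
    IntermediateField.adjoin.finiteDimensional (Algebra.IsIntegral.isIntegral x)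
  have hop := IntermediateField.fixingSubgroup_isOpen K⟮x⟯ (L := L) (K := K)
  rw [IsLocallyConstant.iff_exists_open]
  intro σ
  refine ⟨(fun τ => σ⁻¹ * τ) ⁻¹' (K⟮x⟯.fixingSubgroup : Set Gal(L/K)),
    hop.preimage (continuous_const_mul _), ?_, ?_⟩
  · simp only [Set.mem_preimage, inv_mul_cancel]
    exact one_mem K⟮x⟯.fixingSubgroup
  · intro τ hτ
    have h1 : (σ⁻¹ * τ) x = x := by
      have h2 : σ⁻¹ * τ ∈ K⟮x⟯.fixingSubgroup := hτ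
      rw [IntermediateField.mem_fixingSubgroup_iff] at h2
      exact h2 x (IntermediateField.mem_adjoin_simple_self K x)
    have h3 : σ ((σ⁻¹ * τ) x) = τ x := by
      rw [← AlgEquiv.mul_apply, mul_inv_cancel_left]
    rw [← h3, h1]

/-- The norm is multiplicative for integral powers. -/
private theorem ivl_zpow {K : Type} [Field K] (v : AbsoluteValue K ℝ)
    (h0 : ∀ x : Kvs v, nm v x = 0 ↔ x = 0)
    (hm : ∀ x y : Kvs v, nm v (x * y) = nm v x * nm v y) (x : Kvs v) (n : ℤ) :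
    nm v (x ^ n) = nm v x ^ n := by
  have h1 : nm v 1 = 1 := by
    have h2 := hm 1 1
    rw [mul_one] at h2
    have h3 : nm v 1 ≠ 0 := fun h => one_ne_zero ((h0 1).1 h)
    exact (mul_right_cancel₀ h3 ((one_mul _).trans h2)).symm
  let f : Kvs v →*₀ ℝ :=
    { toFun := nm v
      map_zero' := (h0 0).2 rfl
      map_one' := h1
      map_mul' := hm }
  exact map_zpow₀ f x n

private theorem ivl_shift (hLc1 : S_Lc1) (hLc2 : S_Lc2) (p : ℕ) [Fact p.Prime] (K : Type) [Field K]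
    [CharP K p] (v : AbsoluteValue K ℝ) (Q : ℕ) (ϖ : K) (R : Finset K) (hLF : LF v p Q ϖ R)
    (k : ℕ) (g₀ : Gal(Kvs v/v.Completion)) (μ : Gal(Kvs v/v.Completion) → Kvs v) (x n : ℤ)
    (h : LV p v (p ^ k) ϖ g₀ μ x) : LV p v (p ^ k) ϖ g₀ μ (x + (p : ℤ) ^ k * n) := by
  obtain ⟨hnorm, -⟩ := hLc1 p K v Q ϖ R hLF
  obtain ⟨-, hnm0, hnmm, -, hnma, -⟩ := hLc2 p K v Q ϖ R hLF
  obtain ⟨y, r, hy0, hr0, hr, hg, h0, hx⟩ := h
  have hϖ : nm v (tV v ϖ) = v ϖ := by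
    rw [tV, hnma, hnorm]
  have hϖ0 : tV v ϖ ≠ 0 := by
    intro hh
    have h1 := hLF.pi0
    rw [← hϖ, (hnm0 _).2 hh] at h1
    exact lt_irrefl _ h1
  refine ⟨y, r * (tV v ϖ ^ n) ^ p ^ k, hy0,
    mul_ne_zero hr0 (pow_ne_zero _ (zpow_ne_zero _ hϖ0)), ?_, hg, ?_, ?_⟩
  · refine mul_mem hr (pow_mem (zpow_mem ?_ n) _)
    exact (Knr p v).algebraMap_mem _
  · obtain ⟨s, hs, h1⟩ := h0
    refine ⟨s * (tV v ϖ ^ n)⁻¹, mul_ne_zero hs (inv_ne_zero (zpow_ne_zero _ hϖ0)), ?_⟩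
    rw [h1]
    have h2 : (tV v ϖ ^ n) ^ p ^ k ≠ 0 := pow_ne_zero _ (zpow_ne_zero _ hϖ0)
    rw [mul_pow, inv_pow]
    field_simp
  · rw [hnmm, hx]
    have h3 : (tV v ϖ ^ n) ^ p ^ k = tV v ϖ ^ ((p : ℤ) ^ k * n) := by
      rw [← zpow_natCast, ← zpow_mul]
      congr 1
      push_cast
      ring
    rw [h3, ivl_zpow v hnm0 hnmm, hϖ, zpow_add₀ hLF.pi0.ne']

private theorem ivl_iff (hLc1 : S_Lc1) (hLc2 : S_Lc2) (hLvU : S_LvU) (hLvE : S_LvE) (p : ℕ)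
    [Fact p.Prime] (K : Type) [Field K] [CharP K p] (hG : GFld p K) (v : AbsoluteValue K ℝ) (Q : ℕ)
    (ϖ : K) (R : Finset K) (hLF : LF v p Q ϖ R) (k : ℕ) (g₀ : Gal(Kvs v/v.Completion))
    (μ : Gal(Kvs v/v.Completion) → Kvs v) (hμ : NCl (p ^ k) μ) (x : ℤ) :
    LV p v (p ^ k) ϖ g₀ μ x ↔ inl p v k ϖ g₀ μ = x := by
  have hex := hLvE p K hG v Q ϖ R hLF k g₀ μ hμ
  have h1 : inl p v k ϖ g₀ μ = ((hex.choose : ℤ) : ZMod (p ^ k)) := by
    unfold inl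
    rw [dif_pos hex]
  have h2 := hex.choose_spec
  constructor
  · intro h3
    rw [h1, ZMod.intCast_eq_intCast_iff_dvd_sub]
    have h4 := hLvU p K v Q ϖ R hLF k g₀ μ x hex.choose h3 h2
    push_cast
    exact h4
  · intro h3
    rw [h1, ZMod.intCast_eq_intCast_iff_dvd_sub] at h3
    push_cast at h3
    obtain ⟨n, hn⟩ := h3
    have h4 := ivl_shift hLc1 hLc2 p K v Q ϖ R hLF k g₀ μ _ n h2
    rwa [← hn, add_sub_cancel] at h4

theorem tIvl (hLc1 : S_Lc1) (hLc2 : S_Lc2) (hLvU : S_LvU) (hLvA : S_LvA) (hLvE : S_LvE)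
    (_hEqn : S_Eqn) (hTbF : S_TbF) : S_Ivl := by
  intro p _ K _ hG v Q ϖ R hLF k g₀ μ μ' hμ hμ'
  have : CharP K p := (hTbF p K hG).1
  have key := fun (j : ℕ) (ν : Gal(Kvs v/v.Completion) → Kvs v) (hν : NCl (p ^ j) ν) (x : ℤ) =>
    ivl_iff hLc1 hLc2 hLvU hLvE p K hG v Q ϖ R hLF j g₀ ν hν x
  have hmul : NCl (p ^ k) fun g => μ g * μ' g := by
    refine ⟨fun g => mul_ne_zero (hμ.ne g) (hμ'.ne g), hμ.loc.mul hμ'.loc, fun σ τ => ?_⟩
    obtain ⟨s, hs, h1⟩ := hμ.mul σ τ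
    obtain ⟨s', hs', h2⟩ := hμ'.mul σ τ
    refine ⟨s * s', mul_ne_zero hs hs', ?_⟩
    rw [h1, h2, map_mul, mul_pow]
    ring
  have hcob : ∀ y : Kvs v, y ≠ 0 →
      NCl (p ^ k) (fun g : Gal(Kvs v/v.Completion) => g y / y) := by
    intro y hy
    refine ⟨fun g => div_ne_zero (by simpa using hy) hy, ?_, fun σ τ => ?_⟩
    · exact (ivl_lc (K := v.Completion) (L := Kvs v) y).comp fun z => z / y
    · refine ⟨1, one_ne_zero, ?_⟩
      have h1 : σ y ≠ 0 := by simpa using hy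
      rw [one_pow, mul_one, map_div₀, AlgEquiv.mul_apply]
      field_simp
  have hpow : NCl (p ^ (k + 1)) (fun g => μ g ^ p) := by
    refine ⟨fun g => pow_ne_zero _ (hμ.ne g), hμ.loc.comp fun z => z ^ p, fun σ τ => ?_⟩
    obtain ⟨s, hs, h1⟩ := hμ.mul σ τ
    refine ⟨s, hs, ?_⟩
    rw [h1, map_pow, mul_pow, mul_pow, ← pow_mul, pow_succ]
  refine ⟨key k μ hμ, hmul, ?_, ?_, ?_, hpow, ?_⟩
  · obtain ⟨x, hx⟩ := hLvE p K hG v Q ϖ R hLF k g₀ μ hμ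
    obtain ⟨x', hx'⟩ := hLvE p K hG v Q ϖ R hLF k g₀ μ' hμ'
    have h1 := (hLvA p K v Q ϖ R hLF k g₀ μ μ' x x').1 hx hx'
    rw [(key k μ hμ x).1 hx, (key k μ' hμ' x').1 hx', (key k _ hmul _).1 h1]
    push_cast
    rfl
  · intro he
    obtain ⟨x, hx⟩ := hLvE p K hG v Q ϖ R hLF k g₀ μ hμ
    have h1 := (hLvA p K v Q ϖ R hLF k g₀ μ μ' x 0).2.2.2.1 he hx
    rw [(key k μ hμ x).1 hx, (key k μ' hμ' x).1 h1]
  · intro y hy
    refine ⟨hcob y hy, ?_⟩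
    have h1 := (hLvA p K v Q ϖ R hLF k g₀ μ μ' 0 0).2.2.2.2.1 y hy
    rw [(key k _ (hcob y hy) 0).1 h1, Int.cast_zero]
  · intro h0
    obtain ⟨x, hx⟩ := hLvE p K hG v Q ϖ R hLF k g₀ μ hμ
    have h1 := (hLvA p K v Q ϖ R hLF k g₀ μ μ' x 0).2.2.2.2.2.1 hx
    have h2 := (key (k + 1) _ hpow _).1 h1
    rw [h0] at h2
    have h3 : ((p * x : ℤ) : ZMod (p ^ (k + 1))) = 0 := h2.symm
    rw [ZMod.intCast_zmod_eq_zero_iff_dvd] at h3
    rw [(key k μ hμ x).1 hx, ZMod.intCast_zmod_eq_zero_iff_dvd]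
    push_cast at h3 ⊢
    rw [pow_succ, mul_comm] at h3
    exact (mul_dvd_mul_iff_left (Int.natCast_ne_zero.2 (Fact.out : p.Prime).ne_zero)).1 h3

end Pool.Agent.MP72P
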