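import Pool.Agent.Lib.MP_72e2e6_nt.P3.R.SpecA

/-!
# MP_72e2e6_nt, theorem T3p, part R: Jacobson's formula
-/

namespace Pool.Agent.MP72P

open Polynomial Finset

section
variable {A : Type} [CommRing A] [Differential A]

/-- The operator `D + X f` on `A[X]`. -/
private noncomputable def jacL (f : A) (q : A[X]) : A[X] :=
  Differential.mapCoeffs q + X * (C f * q)

private theorem jac_der (q : A[X]) :
    derivative (Differential.mapCoeffs q) = Differential.mapCoeffs (derivative q) := by
  ext i
  rw [coeff_derivative, Differential.coeff_mapCoeffs, Differential.coeff_mapCoeffs,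
    coeff_derivative, Derivation.leibniz]
  have h1 : Differential.deriv ((i : A) + 1) = 0 := by
    rw [map_add, Derivation.map_natCast, Derivation.map_one_eq_zero, add_zero]
  rw [h1, smul_zero, zero_add, smul_eq_mul, mul_comm]

private theorem jacL_add (f : A) (q r : A[X]) : jacL f (q + r) = jacL f q + jacL f r := by
  rw [jacL, jacL, jacL, map_add]
  ring

private theorem jacL_zero (f : A) : jacL f 0 = 0 := by
  rw [jacL, map_zero, mul_zero, mul_zero, add_zero]

private theorem jacL_sum (f : A) (n : ℕ) (q : ℕ → A[X]) :
    jacL f (∑ j ∈ range n, q j) = ∑ j ∈ range n, jacL f (q j) := by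
  induction n with
  | zero => rw [sum_range_zero, sum_range_zero, jacL_zero]
  | succ n ih => rw [sum_range_succ, sum_range_succ, jacL_add, ih]

private theorem jacL_mul (f a : A) (q : A[X]) (m : ℕ) :
    jacL f (C a * q * (m : A[X])) =
      C (Differential.deriv a) * q * (m : A[X]) + C a * jacL f q * (m : A[X]) := by
  rw [jacL, jacL, Derivation.leibniz, Derivation.leibniz, Derivation.map_natCast,
    Differential.mapCoeffs_C]
  simp only [smul_eq_mul, mul_zero, zero_add]
  ring

private theorem jacL_der (f : A) (q : A[X]) :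
    derivative (jacL f q) = jacL f (derivative q) + C f * q := by
  rw [jacL, jacL, derivative_add, jac_der, derivative_mul, derivative_X, derivative_mul,
    derivative_C]
  ring

/-- The iterates. -/
private noncomputable def jacP (f g : A) (n : ℕ) : A[X] := (jacL f)^[n] (C g)

private theorem jacP_zero (f g : A) : jacP f g 0 = C g := rfl

private theorem jacP_succ (f g : A) (n : ℕ) : jacP f g (n + 1) = jacL f (jacP f g n) :=
  Function.iterate_succ_apply' _ _ _

private theorem jac_key (f g : A) (n : ℕ) :
    derivative (jacP f g n) = ∑ j ∈ range n,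
      C ((Differential.deriv : Derivation ℤ A A)^[j] f) * jacP f g (n - 1 - j) *
        ((n.choose (j + 1) : ℕ) : A[X]) := by
  induction n with
  | zero => rw [jacP_zero, derivative_C, sum_range_zero]
  | succ n ih =>
    rw [jacP_succ, jacL_der, ih, jacL_sum]
    have h1 : ∀ j ∈ range n, jacL f (C ((Differential.deriv : Derivation ℤ A A)^[j] f) *
        jacP f g (n - 1 - j) * ((n.choose (j + 1) : ℕ) : A[X])) =
        C ((Differential.deriv : Derivation ℤ A A)^[j + 1] f) * jacP f g (n - (j + 1)) *
          ((n.choose (j + 1) : ℕ) : A[X]) +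
        C ((Differential.deriv : Derivation ℤ A A)^[j] f) * jacP f g (n - j) *
          ((n.choose (j + 1) : ℕ) : A[X]) := by
      intro j hj
      rw [mem_range] at hj
      have e1 : n - 1 - j = n - (j + 1) := by omega
      have e2 : n - j = n - (j + 1) + 1 := by omega
      rw [jacL_mul, e1, e2, jacP_succ, Function.iterate_succ_apply']
    rw [sum_congr rfl h1, sum_add_distrib]
    have h2 : ∀ j ∈ range (n + 1), C ((Differential.deriv : Derivation ℤ A A)^[j] f) *
        jacP f g (n + 1 - 1 - j) * (((n + 1).choose (j + 1) : ℕ) : A[X]) =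
        C ((Differential.deriv : Derivation ℤ A A)^[j] f) * jacP f g (n - j) *
          ((n.choose j : ℕ) : A[X]) +
        C ((Differential.deriv : Derivation ℤ A A)^[j] f) * jacP f g (n - j) *
          ((n.choose (j + 1) : ℕ) : A[X]) := by
      intro j _
      rw [Nat.add_sub_cancel, Nat.choose_succ_succ]
      push_cast
      ring
    rw [sum_congr rfl h2, sum_add_distrib, sum_range_succ' _ n, sum_range_succ _ n,
      Nat.choose_succ_self, Nat.choose_zero_right]
    simp only [Function.iterate_zero, id_eq, Nat.sub_zero, Nat.cast_one, mul_one, Nat.cast_zero,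
      mul_zero, add_zero]
    ring

private theorem jac_coeff (f g : A) (n : ℕ) :
    (jacP f g n).coeff 0 = (Differential.deriv : Derivation ℤ A A)^[n] g ∧
      (∀ k, n < k → (jacP f g n).coeff k = 0) ∧ (jacP f g n).coeff n = f ^ n * g := by
  induction n with
  | zero =>
    rw [jacP_zero]
    refine ⟨coeff_C_zero, fun k hk => coeff_C_of_ne_zero (by omega), ?_⟩
    rw [coeff_C_zero, pow_zero, one_mul]
  | succ n ih =>
    obtain ⟨h1, h2, h3⟩ := ih
    rw [jacP_succ, jacL]
    refine ⟨?_, fun k hk => ?_, ?_⟩
    · rw [coeff_add, mul_coeff_zero, coeff_X_zero, zero_mul, add_zero,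
        Differential.coeff_mapCoeffs, h1, Function.iterate_succ_apply']
    · obtain ⟨k, rfl⟩ : ∃ k', k = k' + 1 := ⟨k - 1, by omega⟩
      rw [coeff_add, coeff_X_mul, coeff_C_mul, Differential.coeff_mapCoeffs, h2 _ (by omega),
        h2 _ (by omega), map_zero, mul_zero, add_zero]
    · rw [coeff_add, coeff_X_mul, coeff_C_mul, Differential.coeff_mapCoeffs, h2 _ (by omega), h3,
        map_zero, zero_add, pow_succ]
      ring

private theorem jac_evalD (q : A[X]) :
    eval 1 (Differential.mapCoeffs q) = Differential.deriv (eval 1 q) := by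
  induction q using Polynomial.induction_on' with
  | add p q hp hq => rw [map_add, eval_add, eval_add, map_add, hp, hq]
  | monomial n a =>
    rw [Differential.mapCoeffs_monomial, eval_monomial, eval_monomial, one_pow, mul_one, mul_one]

private theorem jac_eval (f g : A) (n : ℕ) :
    eval 1 (jacP f g n) = (fun y => Differential.deriv y + f * y)^[n] g := by
  induction n with
  | zero => rw [jacP_zero, eval_C, Function.iterate_zero, id_eq]
  | succ n ih =>
    rw [jacP_succ, jacL, Function.iterate_succ_apply', ← ih, eval_add, jac_evalD, eval_mul,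
      eval_X, one_mul, eval_mul, eval_C]

private theorem jac_main (p : ℕ) [hp : Fact p.Prime] [CharP A p] (f g : A) :
    (fun y => Differential.deriv y + f * y)^[p] g =
      (Differential.deriv : Derivation ℤ A A)^[p] g +
        ((Differential.deriv : Derivation ℤ A A)^[p - 1] f + f ^ p) * g := by
  have hp2 := hp.out.two_le
  have hder : derivative (jacP f g p) =
      C ((Differential.deriv : Derivation ℤ A A)^[p - 1] f) * C g := by
    rw [jac_key, Finset.sum_eq_single (p - 1)]
    · rw [Nat.sub_self, jacP_zero, Nat.sub_add_cancel hp.out.one_le, Nat.choose_self,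
        Nat.cast_one, mul_one]
    · intro j hj hjp
      rw [mem_range] at hj
      have h1 : p ∣ p.choose (j + 1) := hp.out.dvd_choose_self (by omega) (by omega)
      have h2 : ((p.choose (j + 1) : ℕ) : A[X]) = 0 := (CharP.cast_eq_zero_iff A[X] p _).2 h1
      rw [h2, mul_zero]
    · intro h
      exact absurd (mem_range.2 (by omega)) h
  obtain ⟨c0, c1, c2⟩ := jac_coeff f g p
  have hc : ∀ i, (jacP f g p).coeff (i + 1) * ((i : A) + 1) =
      if i = 0 then (Differential.deriv : Derivation ℤ A A)^[p - 1] f * g else 0 := by
    intro i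
    rw [← coeff_derivative, hder, ← C_mul, coeff_C]
  have hc1 : (jacP f g p).coeff 1 = (Differential.deriv : Derivation ℤ A A)^[p - 1] f * g := by
    have := hc 0
    rwa [if_pos rfl, Nat.cast_zero, zero_add, zero_add, mul_one] at this
  have hci : ∀ i, 2 ≤ i → i < p → (jacP f g p).coeff i = 0 := by
    intro i hi hip
    obtain ⟨i, rfl⟩ : ∃ k, i = k + 1 := ⟨i - 1, by omega⟩
    have h1 := hc i
    rw [if_neg (by omega)] at h1
    have h2 : IsUnit (((i + 1 : ℕ) : A)) :=
      (CharP.isUnit_natCast_iff hp.out).2 fun h => absurd (Nat.le_of_dvd (by omega) h) (by omega)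
    rw [Nat.cast_add, Nat.cast_one] at h2
    exact h2.mul_left_eq_zero.1 h1
  have hdeg : (jacP f g p).natDegree < p + 1 := by
    rw [Nat.lt_succ_iff, natDegree_le_iff_coeff_eq_zero]
    exact c1
  rw [← jac_eval, eval_eq_sum_range' hdeg]
  simp only [one_pow, mul_one]
  obtain ⟨m, rfl⟩ : ∃ m, p = m + 2 := ⟨p - 2, by omega⟩
  rw [sum_range_succ, sum_range_succ', sum_range_succ', c0, c2]
  rw [Finset.sum_eq_zero fun i hi => hci (i + 1 + 1) (by omega) (by rw [mem_range] at hi; omega)]
  rw [zero_add, hc1]
  ring

end

theorem tJac : S_Jac := by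
  intro p _ A _ _ D hadd hmul f g
  let _ : Differential A := ⟨Derivation.mk' (AddMonoidHom.mk' D hadd).toIntLinearMap
    fun a b => by
      change D (a * b) = a • D b + b • D a
      rw [hmul, smul_eq_mul, smul_eq_mul]
      ring⟩
  exact jac_main p f g

end Pool.Agent.MP72P
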