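import Pool.Agent.Lib.MP_72e2e6_nt.P3.R.SpecC

/-!
# MP_72e2e6_nt, theorem T3p, part R: local nondegeneracy for the ring
-/

namespace Pool.Agent.MP72P

open Polynomial IntermediateField Finset

private theorem ldl_refl {N : ℕ} {L : Type} [Field L] (a : L) : EqN N a a :=
  ⟨1, one_ne_zero, by rw [one_pow, mul_one]⟩

private theorem ldl_trans {N : ℕ} {L : Type} [Field L] {a b c : L} (h : EqN N a b)
    (h' : EqN N b c) : EqN N a c := by
  obtain ⟨s, hs0, hs⟩ := h
  obtain ⟨t, ht0, ht⟩ := h'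
  exact ⟨t * s, mul_ne_zero ht0 hs0, by rw [hs, ht, mul_pow, mul_assoc]⟩

private theorem ldl_symm {N : ℕ} {L : Type} [Field L] {a b : L} (h : EqN N a b) : EqN N b a := by
  obtain ⟨s, hs0, hs⟩ := h
  refine ⟨s⁻¹, inv_ne_zero hs0, ?_⟩
  have h1 : s ^ N ≠ 0 := pow_ne_zero _ hs0
  rw [hs, inv_pow, mul_assoc, mul_inv_cancel₀ h1, mul_one]

private theorem ldl_mul {N : ℕ} {L : Type} [Field L] {a b c d : L} (h : EqN N a b)
    (h' : EqN N c d) : EqN N (a * c) (b * d) := by
  obtain ⟨s, hs0, hs⟩ := h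
  obtain ⟨t, ht0, ht⟩ := h'
  exact ⟨s * t, mul_ne_zero hs0 ht0, by rw [hs, ht, mul_pow]; ring⟩

private theorem ldl_pow {N : ℕ} {L : Type} [Field L] {a b : L} (h : EqN N a b) (n : ℕ) :
    EqN N (a ^ n) (b ^ n) := by
  obtain ⟨s, hs0, hs⟩ := h
  exact ⟨s ^ n, pow_ne_zero _ hs0, by rw [hs, mul_pow, ← pow_mul, ← pow_mul, mul_comm N n]⟩

/-- `u (c a) ≡ (u a) ^ c`. -/
private theorem ldl_nat {N : ℕ} {L Λ : Type} [Field L] [CommRing Λ] {u : Λ → L}
    (h0 : EqN N (u 0) 1) (hadd : ∀ z z', EqN N (u (z + z')) (u z * u z')) (a : Λ) :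
    ∀ c : ℕ, EqN N (u ((c : Λ) * a)) (u a ^ c) := by
  intro c
  induction c with
  | zero => rw [Nat.cast_zero, zero_mul, pow_zero]; exact h0
  | succ c ih =>
      have h1 : ((c + 1 : ℕ) : Λ) * a = (c : Λ) * a + a := by push_cast; ring
      rw [h1, pow_succ]
      exact ldl_trans (hadd _ _) (ldl_mul ih (ldl_refl _))

/-- `u ((c + π w) π ^ m) ≡ (u (π ^ m)) ^ c` if `u` is trivial on `π ^ (m + 1) Λ`. -/
private theorem ldl_cmb {N : ℕ} {L Λ : Type} [Field L] [CommRing Λ] {u : Λ → L}
    (h0 : EqN N (u 0) 1) (hadd : ∀ z z', EqN N (u (z + z')) (u z * u z')) {π : Λ} {m : ℕ}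
    (hm : ∀ w, EqN N (u (π ^ (m + 1) * w)) 1) (c : ℕ) (w x : Λ) (hx : x = (c : Λ) + π * w) :
    EqN N (u (x * π ^ m)) (u (π ^ m) ^ c) := by
  have h1 : x * π ^ m = (c : Λ) * π ^ m + π ^ (m + 1) * w := by rw [hx, pow_succ]; ring
  rw [h1]
  have h2 := ldl_mul (ldl_nat h0 hadd (π ^ m) c) (hm w)
  rw [mul_one] at h2
  exact ldl_trans (hadd _ _) h2

/-- The powers of a local invariant. -/
private theorem ldl_lv (hLvA : S_LvA) {p : ℕ} [Fact p.Prime] {K : Type} [Field K] [CharP K p]
    {v : AbsoluteValue K ℝ} {Q : ℕ} {ϖ : K} {R : Finset K} (hLF : LF v p Q ϖ R)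
    (g₀ : Gal(Kvs v/v.Completion)) (μ : Gal(Kvs v/v.Completion) → Kvs v) (x : ℤ)
    (h : LV p v p ϖ g₀ μ x) :
    ∀ j : ℕ, LV p v (p ^ (j + 1)) ϖ g₀ (fun g => μ g ^ p ^ j) ((p : ℤ) ^ j * x) := by
  intro j
  induction j with
  | zero =>
      simp only [zero_add, pow_one, pow_zero, one_mul]
      exact h
  | succ j ih =>
      have h1 := (hLvA p K v Q ϖ R hLF (j + 1) g₀ (fun g => μ g ^ p ^ j)
        (fun g => μ g ^ p ^ j) ((p : ℤ) ^ j * x) 0).2.2.2.2.2.1 ih
      have h2 : (fun g => (μ g ^ p ^ j) ^ p) = fun g => μ g ^ p ^ (j + 1) := by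
        funext g
        rw [← pow_mul, ← pow_succ]
      have h3 : (p : ℤ) * ((p : ℤ) ^ j * x) = (p : ℤ) ^ (j + 1) * x := by ring
      rw [h3] at h1
      rw [← h2]
      exact h1

theorem tLDl (hLc1 : S_Lc1) (_hLc2 : S_Lc2) (hHas : S_Has) (hSep : S_Sep) (hTbF : S_TbF)
    (_hEqn : S_Eqn) (hLvA : S_LvA) (hIvl : S_Ivl) (hEqc : S_Eqc) (hDul : S_Dul)
    (hLfZ : S_LfZ) : S_LDl := by
  intro p _ K _ hK v Q ϖ R hLF g₀ hg₀ α h hα hαh n k Λ _ π hLR χ hχ u hu hinl
  have hpp : p.Prime := Fact.out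
  haveI hcK : CharP K p := (hTbF p K hK).1
  haveI hcC : CharP v.Completion p := (hLc1 p K v Q ϖ R hLF).2.2.2.2.2.2.1
  haveI hcV : CharP (Kvs v) p :=
    charP_of_injective_algebraMap (algebraMap v.Completion (Kvs v)).injective p
  have hω : ChO p (omc p (K := v.Completion) α) :=
    (hHas p v.Completion (Kvs v) α h hα hαh).1.1
  have hH2 : H2Z p (omc p (K := v.Completion) α) := (hSep p v.Completion α h hα hαh).1
  have hE := (hEqc p K k Λ).2 v χ u hu
  have hu0 : EqN (p ^ k) (u 0) 1 := hE.2.1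
  -- descending induction
  have main : ∀ j : ℕ, j ≤ n → ∀ x : Λ, EqN (p ^ k) (u (π ^ (n - j) * x)) 1 := by
    intro j
    induction j with
    | zero =>
        intro _ x
        rw [Nat.sub_zero, hLR.nil, zero_mul]
        exact hu0
    | succ j ih =>
        intro hj
        obtain ⟨m, hm⟩ : ∃ m, m = n - (j + 1) := ⟨_, rfl⟩
        have hm1 : n - j = m + 1 := by omega
        have ih' : ∀ w : Λ, EqN (p ^ k) (u (π ^ (m + 1) * w)) 1 := by
          intro w
          have := ih (by omega) w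
          rwa [hm1] at this
        rw [← hm]
        have hcmb := fun (c : ℕ) (w x : Λ) (hx : x = (c : Λ) + π * w) =>
          ldl_cmb hu0 hu.add ih' c w x hx
        -- it suffices that `u (π ^ m) ≡ 1`
        have hsuff : EqN (p ^ k) (u (π ^ m)) 1 → ∀ x : Λ, EqN (p ^ k) (u (π ^ m * x)) 1 := by
          intro h1 x
          obtain ⟨c, y, hx⟩ := hLR.res x
          have h2 := hcmb c y x hx
          have h3 := ldl_pow h1 c
          rw [one_pow] at h3
          rw [mul_comm]
          exact ldl_trans h2 h3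
        apply hsuff
        by_contra hne
        -- `k ≥ 1`
        obtain ⟨k', hk'⟩ : ∃ k', k = k' + 1 := by
          rcases Nat.eq_zero_or_pos k with h1 | h1
          · exfalso
            apply hne
            rw [h1, pow_zero]
            exact ⟨u (π ^ m), hu.ne _, by rw [pow_one, one_mul]⟩
          · exact ⟨k - 1, by omega⟩
        have hpk : p ^ k = p ^ k' * p := by rw [hk', pow_succ]
        -- `y₀ ^ p ≡ 1`
        obtain ⟨y', hy'⟩ := hLR.pdv
        have h1 : EqN (p ^ k) (u (π ^ m) ^ p) 1 := by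
          have e1 := ldl_nat hu0 hu.add (π ^ m) p
          have e2 : (p : Λ) * π ^ m = π ^ (m + 1) * y' := by rw [hy', pow_succ]; ring
          rw [e2] at e1
          exact ldl_trans (ldl_symm e1) (ih' y')
        obtain ⟨s, hs0, hs⟩ := h1
        have hfin : ∀ a b : Kvs v, a ^ p = b ^ p → a = b := fun a b hab =>
          frobenius_inj (Kvs v) p hab
        have hfinj : ∀ (i : ℕ) (a b : Kvs v), a ^ p ^ i = b ^ p ^ i → a = b := by
          intro i
          induction i with
          | zero =>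
              intro a b hab
              rw [pow_zero, pow_one, pow_one] at hab
              exact hab
          | succ i ihi =>
              intro a b hab
              rw [pow_succ, pow_mul, pow_mul] at hab
              exact ihi a b (hfin _ _ hab)
        have hys : u (π ^ m) = s ^ p ^ k' := by
          apply hfin
          rw [hs, one_mul, hpk, pow_mul]
        -- `s` is not a `p`-th power
        have hsp : ¬ ∃ b, s = b ^ p := by
          rintro ⟨b, hb⟩
          apply hne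
          refine ⟨b, ?_, ?_⟩
          · rintro rfl
            rw [zero_pow hpp.ne_zero] at hb
            exact hs0 hb
          · rw [hys, hb, one_mul, ← pow_mul, hpk, mul_comm p]
        -- the Galois action on `s`
        have hsg : ∀ g : Gal(Kvs v/v.Completion),
            EqN p (g s) (s ^ (omc p (K := v.Completion) α g).val) := by
          intro g
          obtain ⟨w, hw⟩ := hχ.red g
          have e1 : EqN (p ^ k) (g (u (π ^ m))) (u (χ g * π ^ m)) := hu.gal g (π ^ m)
          have e2 := hcmb (omc p (K := v.Completion) α g).val w (χ g) hw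
          obtain ⟨b, hb0, hb⟩ := ldl_trans e1 e2
          refine ⟨b, hb0, ?_⟩
          apply hfinj k'
          have e3 : (g s) ^ p ^ k' = g (u (π ^ m)) := by rw [hys, map_pow]
          rw [e3, hb, hys, mul_pow, ← pow_mul, ← pow_mul, ← pow_mul, hpk,
            mul_comm (p ^ k') (omc p (K := v.Completion) α g).val, mul_comm (p ^ k') p]
        obtain ⟨c, hc, m₁, hm₁, hLV⟩ := hDul p K hK v Q ϖ R hLF g₀ hg₀ α h hα hαh s hs0 hsp hsg
        have hLVk := ldl_lv hLvA hLF g₀ (fun g => s ^ (c g).val) (m₁ : ℤ) hLV k'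
        rw [← hk'] at hLVk
        obtain ⟨z, hz, hzr⟩ := hLfZ p Gal(Kvs v/v.Completion) (omc p (K := v.Completion) α)
          hω hH2 n Λ π hLR χ hχ c hc
        -- the crossed homomorphism `π ^ m z`
        have hz' : Coc (fun (g : Gal(Kvs v/v.Completion)) (x : Λ) => χ g * x)
            (fun g => z g * π ^ m) := by
          refine ⟨hz.loc.comp fun x : Λ => x * π ^ m, fun g g' => ?_⟩
          show z (g * g') * π ^ m = z g * π ^ m + χ g * (z g' * π ^ m)
          rw [hz.mul g g']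
          ring
        have hNCl : NCl (p ^ k) (fun g => u (z g * π ^ m)) := hE.1 _ hz'
        have hval : ∀ g, EqN (p ^ k) (u (z g * π ^ m)) ((s ^ (c g).val) ^ p ^ k') := by
          intro g
          obtain ⟨w, hw⟩ := hzr g
          have e1 := hcmb (c g).val w (z g) hw
          have e0 : u (π ^ m) ^ (c g).val = (s ^ (c g).val) ^ p ^ k' := by
            rw [hys, ← pow_mul, ← pow_mul, mul_comm (p ^ k')]
          rw [e0] at e1
          exact e1
        have hLVf : LV p v (p ^ k) ϖ g₀ (fun g => u (z g * π ^ m)) ((p : ℤ) ^ k' * m₁) :=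
          (hLvA p K v Q ϖ R hLF k g₀ (fun g => (s ^ (c g).val) ^ p ^ k')
            (fun g => u (z g * π ^ m)) ((p : ℤ) ^ k' * m₁) 0).2.2.2.1 hval hLVk
        have e1 := ((hIvl p K hK v Q ϖ R hLF k g₀ (fun g => u (z g * π ^ m))
          (fun g => u (z g * π ^ m)) hNCl hNCl).1 ((p : ℤ) ^ k' * m₁)).1 hLVf
        have e2 := hinl (fun g => z g * π ^ m) hz'
        rw [e2] at e1
        have e3 : ((p ^ k : ℕ) : ℤ) ∣ (p : ℤ) ^ k' * m₁ :=
          (ZMod.intCast_zmod_eq_zero_iff_dvd _ _).1 e1.symm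
        have e4 : p ^ k ∣ p ^ k' * m₁ := by
          have : ((p ^ k : ℕ) : ℤ) ∣ ((p ^ k' * m₁ : ℕ) : ℤ) := by
            push_cast at e3 ⊢
            exact e3
          exact Int.natCast_dvd_natCast.1 this
        rw [hpk] at e4
        exact hm₁ (Nat.dvd_of_mul_dvd_mul_left (pow_pos hpp.pos k') e4)
  intro x
  have h1 := main n le_rfl x
  rwa [Nat.sub_self, pow_zero, one_mul] at h1

end Pool.Agent.MP72P
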