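import Pool.Agent.Lib.MP_72e2e6_nt.P3.R.SpecC

/-!
# MP_72e2e6_nt, theorem T3p, part R: lifting of crossed homomorphisms from `ZMod p` to the ring
-/

namespace Pool.Agent.MP72P

open Polynomial IntermediateField Finset

/-- The facts on `rs` that are used. -/
private structure LfzR (p : ℕ) [Fact p.Prime] {Λ : Type} [CommRing Λ] (π : Λ) : Prop where
  add : ∀ x y : Λ, rs (p := p) π (x + y) = rs π x + rs π y
  mul : ∀ x y : Λ, rs (p := p) π (x * y) = rs π x * rs π y
  zer : ∀ x : Λ, rs (p := p) π x = 0 ↔ ∃ y, x = π * y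
  nat : ∀ k : ℕ, rs π (k : Λ) = (k : ZMod p)

private theorem lfz_neg {p : ℕ} [Fact p.Prime] {Λ : Type} [CommRing Λ] {π : Λ}
    (h : LfzR p π) (x : Λ) : rs (p := p) π (-x) = - rs π x := by
  have h0 : rs (p := p) π (0 : Λ) = 0 := (h.zer 0).2 ⟨0, by rw [mul_zero]⟩
  have h1 : rs (p := p) π (x + -x) = rs π x + rs π (-x) := h.add _ _
  rw [add_neg_cancel, h0] at h1
  exact (neg_eq_of_add_eq_zero_right h1.symm).symm

private theorem lfz_sub {p : ℕ} [Fact p.Prime] {Λ : Type} [CommRing Λ] {π : Λ}
    (h : LfzR p π) (x y : Λ) : rs (p := p) π (x - y) = rs π x - rs π y := by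
  rw [sub_eq_add_neg, h.add, lfz_neg h, ← sub_eq_add_neg]

private theorem lfz_val {p : ℕ} [Fact p.Prime] {Λ : Type} [CommRing Λ] {π : Λ}
    (h : LfzR p π) (c : ZMod p) : rs (p := p) π ((c.val : ℕ) : Λ) = c := by
  rw [h.nat, ZMod.natCast_zmod_val]

private theorem lfz_red {p : ℕ} [Fact p.Prime] {Λ : Type} [CommRing Λ] {π : Λ}
    (h : LfzR p π) (x : Λ) (c : ZMod p) (y : Λ) (hx : x = ((c.val : ℕ) : Λ) + π * y) :
    rs (p := p) π x = c := by
  have h0 : rs (p := p) π (π * y) = 0 := (h.zer _).2 ⟨y, rfl⟩
  rw [hx, h.add, lfz_val h, h0, add_zero]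

theorem tLfZ (hLrb : S_Lrb) : S_LfZ := by
  intro p _ Γ _ _ _ ω hω hH2 n Λ _ π hLR χ hχ c hc
  rcases Nat.eq_zero_or_pos n with hn | hn
  · subst hn
    have h1 : (1 : Λ) = 0 := by
      have := hLR.nil
      rwa [pow_zero] at this
    have hsub : ∀ a b : Λ, a = b := fun a b => by
      rw [← mul_one a, ← mul_one b, h1, mul_zero, mul_zero]
    exact ⟨fun _ => 0, ⟨IsLocallyConstant.const 0, fun g h => hsub _ _⟩, fun g => ⟨0, hsub _ _⟩⟩
  · obtain ⟨-, -, -, -, -, hrs, hann, -, -, -⟩ := hLrb p n Λ π hLR
    obtain ⟨r1, r2, -, r4, r5, -⟩ := hrs hn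
    have hR : LfzR p π := ⟨r1, r2, r4, r5⟩
    have hχω : ∀ a, rs (p := p) π (χ a) = ω a := fun a => by
      obtain ⟨y, hy⟩ := hχ.red a
      exact lfz_red hR _ _ y hy
    -- the main claim
    have key : ∀ m : ℕ, m + 1 ≤ n → ∃ z : Γ → Λ, IsLocallyConstant z ∧
        (∀ g, ∃ y, z g = (((c g).val : ℕ) : Λ) + π * y) ∧
        ∀ g h, ∃ y, z g + χ g * z h - z (g * h) = π ^ (m + 1) * y := by
      intro m
      induction m with
      | zero =>
          intro _
          refine ⟨fun g => (((c g).val : ℕ) : Λ), hc.loc.comp fun x : ZMod p => ((x.val : ℕ) : Λ),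
            fun g => ⟨0, by rw [mul_zero, add_zero]⟩, ?_⟩
          intro g h
          have h1 : rs (p := p) π ((((c g).val : ℕ) : Λ) + χ g * (((c h).val : ℕ) : Λ) -
              (((c (g * h)).val : ℕ) : Λ)) = 0 := by
            rw [lfz_sub hR, hR.add, hR.mul, lfz_val hR, lfz_val hR, lfz_val hR, hχω, hc.mul g h]
            ring
          obtain ⟨y, hy⟩ := (hR.zer _).1 h1
          exact ⟨y, by rw [zero_add, pow_one]; exact hy⟩
      | succ m ih =>
          intro hm
          obtain ⟨z, hz1, hz2, hz3⟩ := ih (by omega)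
          choose y hy using hz3
          -- a function which divides by `π ^ (m + 1)`
          obtain ⟨F, hF⟩ : ∃ F : Λ → Λ, ∀ x, (∃ y, x = π ^ (m + 1) * y) → x = π ^ (m + 1) * F x := by
            classical
            refine ⟨fun x => if hx : ∃ y, x = π ^ (m + 1) * y then hx.choose else 0, ?_⟩
            intro x hx
            have h1 := hx.choose_spec
            simp only [dif_pos hx]
            exact h1
          have hD : ∀ g h, z g + χ g * z h - z (g * h) =
              π ^ (m + 1) * F (z g + χ g * z h - z (g * h)) := fun g h => hF _ ⟨y g h, hy g h⟩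
          -- division is well defined modulo `π`
          have hdiv : ∀ x : Λ, π ^ (m + 1) * x = 0 → rs (p := p) π x = 0 := by
            intro x hx
            obtain ⟨w, hw⟩ := (hann (m + 1) (by omega) x).1 hx
            refine (hR.zer x).2 ⟨π ^ (n - (m + 1) - 1) * w, ?_⟩
            rw [hw, ← mul_assoc, ← pow_succ']
            congr 2
            omega
          obtain ⟨E, hE⟩ : ∃ E : Γ → Γ → Λ, ∀ g h, E g h = F (z g + χ g * z h - z (g * h)) :=
            ⟨_, fun _ _ => rfl⟩
          have hD' : ∀ g h, z g + χ g * z h - z (g * h) = π ^ (m + 1) * E g h := fun g h => by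
            rw [hE]; exact hD g h
          have hloc : IsLocallyConstant (fun q : Γ × Γ => rs (p := p) π (E q.1 q.2)) := by
            have h1 : IsLocallyConstant (fun q : Γ × Γ => z q.1) :=
              hz1.comp_continuous continuous_fst
            have h2 : IsLocallyConstant (fun q : Γ × Γ => z q.2) :=
              hz1.comp_continuous continuous_snd
            have h3 : IsLocallyConstant (fun q : Γ × Γ => χ q.1) :=
              hχ.loc.comp_continuous continuous_fst
            have h4 : IsLocallyConstant (fun q : Γ × Γ => z (q.1 * q.2)) :=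
              hz1.comp_continuous continuous_mul
            have h5 : IsLocallyConstant (fun q : Γ × Γ => z q.1 + χ q.1 * z q.2 - z (q.1 * q.2)) :=
              (h1.add (h3.mul h2)).sub h4
            have h6 := h5.comp (fun x : Λ => rs (p := p) π (F x))
            have h7 : (fun q : Γ × Γ => rs (p := p) π (E q.1 q.2)) =
                (fun x : Λ => rs (p := p) π (F x)) ∘
                  (fun q : Γ × Γ => z q.1 + χ q.1 * z q.2 - z (q.1 * q.2)) := by
              funext q
              simp only [Function.comp_apply, hE]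
            rw [h7]
            exact h6
          obtain ⟨b, hb1, hb2⟩ := hH2 (fun g h => rs (p := p) π (E g h)) hloc (by
            intro a b' d
            have h1 : π ^ (m + 1) * (χ a * E b' d - E (a * b') d + E a (b' * d) - E a b') = 0 := by
              have e1 := hD' b' d
              have e2 := hD' (a * b') d
              have e3 := hD' a (b' * d)
              have e4 := hD' a b'
              have e5 : π ^ (m + 1) * (χ a * E b' d - E (a * b') d + E a (b' * d) - E a b') =
                  χ a * (π ^ (m + 1) * E b' d) - π ^ (m + 1) * E (a * b') d +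
                    π ^ (m + 1) * E a (b' * d) - π ^ (m + 1) * E a b' := by ring
              rw [e5, ← e1, ← e2, ← e3, ← e4, hχ.mul a b', mul_assoc a b' d]
              ring
            have h2 := hdiv _ h1
            rw [lfz_sub hR, hR.add, lfz_sub hR, hR.mul, hχω] at h2
            exact h2)
          refine ⟨fun g => z g - π ^ (m + 1) * (((b g).val : ℕ) : Λ), ?_, ?_, ?_⟩
          · exact hz1.sub (hb1.comp fun x : ZMod p => π ^ (m + 1) * ((x.val : ℕ) : Λ))
          · intro g
            obtain ⟨w, hw⟩ := hz2 g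
            refine ⟨w - π ^ m * (((b g).val : ℕ) : Λ), ?_⟩
            show z g - π ^ (m + 1) * (((b g).val : ℕ) : Λ) =
              (((c g).val : ℕ) : Λ) + π * (w - π ^ m * (((b g).val : ℕ) : Λ))
            rw [hw, pow_succ]
            ring
          · intro g h
            have h1 : rs (p := p) π (E g h - ((((b g).val : ℕ) : Λ) + χ g * (((b h).val : ℕ) : Λ) -
                (((b (g * h)).val : ℕ) : Λ))) = 0 := by
              rw [lfz_sub hR, lfz_sub hR, hR.add, hR.mul, lfz_val hR, lfz_val hR, lfz_val hR, hχω]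
              have h2 := hb2 g h
              rw [h2]
              ring
            obtain ⟨w, hw⟩ := (hR.zer _).1 h1
            refine ⟨w, ?_⟩
            have h3 := hD' g h
            have h4 : z g - π ^ (m + 1) * (((b g).val : ℕ) : Λ) +
                χ g * (z h - π ^ (m + 1) * (((b h).val : ℕ) : Λ)) -
                (z (g * h) - π ^ (m + 1) * (((b (g * h)).val : ℕ) : Λ)) =
                (z g + χ g * z h - z (g * h)) - π ^ (m + 1) * ((((b g).val : ℕ) : Λ) +
                  χ g * (((b h).val : ℕ) : Λ) - (((b (g * h)).val : ℕ) : Λ)) := by ring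
            rw [h4, h3, ← mul_sub, hw, ← mul_assoc, ← pow_succ]
    obtain ⟨z, hz1, hz2, hz3⟩ := key (n - 1) (by omega)
    refine ⟨z, ⟨hz1, ?_⟩, hz2⟩
    intro g h
    obtain ⟨y, hy⟩ := hz3 g h
    rw [Nat.sub_add_cancel hn, hLR.nil, zero_mul] at hy
    have h1 := sub_eq_zero.1 hy
    exact h1.symm

end Pool.Agent.MP72P
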