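import Pool.Agent.Lib.MP_72e2e6_nt.P3.R.SpecB

/-!
# MP_72e2e6_nt, theorem T3p, part R: module LvE
-/

namespace Pool.Agent.MP72P

open Polynomial IntermediateField

private theorem lvE_eqN_refl {N : ℕ} {L : Type} [Field L] (a : L) : EqN N a a :=
  ⟨1, one_ne_zero, by simp⟩

private theorem lvE_eqN_symm {N : ℕ} {L : Type} [Field L] {a b : L} (h : EqN N a b) :
    EqN N b a := by
  obtain ⟨s, hs, h⟩ := h
  refine ⟨s⁻¹, inv_ne_zero hs, ?_⟩
  rw [h, mul_assoc, ← mul_pow, mul_inv_cancel₀ hs, one_pow, mul_one]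

private theorem lvE_eqN_trans {N : ℕ} {L : Type} [Field L] {a b c : L} (h : EqN N a b)
    (h' : EqN N b c) : EqN N a c := by
  obtain ⟨s, hs, h⟩ := h
  obtain ⟨t, ht, h'⟩ := h'
  exact ⟨t * s, mul_ne_zero ht hs, by rw [h, h', mul_pow, mul_assoc]⟩

private theorem lvE_eqN_mul {N : ℕ} {L : Type} [Field L] {a b c d : L} (h : EqN N a b)
    (h' : EqN N c d) : EqN N (a * c) (b * d) := by
  obtain ⟨s, hs, h⟩ := h
  obtain ⟨t, ht, h'⟩ := h'
  exact ⟨s * t, mul_ne_zero hs ht, by rw [h, h', mul_pow]; ring⟩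

private theorem lvE_eqN_map {N : ℕ} {K L : Type} [Field K] [Field L] [Algebra K L] {a b : L}
    (σ : Gal(L/K)) (h : EqN N a b) : EqN N (σ a) (σ b) := by
  obtain ⟨s, hs, h⟩ := h
  exact ⟨σ s, by simpa using hs, by rw [h, map_mul, map_pow]⟩

private theorem lvE_eqN_cancel {N : ℕ} {L : Type} [Field L] {a b c : L} (hc : c ≠ 0)
    (h : EqN N (a * c) (b * c)) : EqN N a b := by
  obtain ⟨s, hs, h⟩ := h
  refine ⟨s, hs, mul_right_cancel₀ hc ?_⟩
  rw [h]
  ring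

private theorem lvE_lc {K L : Type} [Field K] [Field L] [Algebra K L] [Algebra.IsIntegral K L]
    (x : L) : IsLocallyConstant fun σ : Gal(L/K) => σ x := by
  have : FiniteDimensional K K⟮x⟯ :=
    IntermediateField.adjoin.finiteDimensional (Algebra.IsIntegral.isIntegral x)
  have hop := IntermediateField.fixingSubgroup_isOpen K⟮x⟯ (L := L) (K := K)
  rw [IsLocallyConstant.iff_exists_open]
  intro σ
  refine ⟨(fun τ => σ⁻¹ * τ) ⁻¹' (K⟮x⟯.fixingSubgroup : Set Gal(L/K)),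
    hop.preimage (continuous_const_mul _), ?_, ?_⟩
  · simp only [Set.mem_preimage, inv_mul_cancel]
    exact one_mem K⟮x⟯.fixingSubgroup
  · intro τ hτ
    have h1 : (σ⁻¹ * τ) x = x := by
      have h2 : σ⁻¹ * τ ∈ K⟮x⟯.fixingSubgroup := hτ
      rw [IntermediateField.mem_fixingSubgroup_iff] at h2
      exact h2 x (IntermediateField.mem_adjoin_simple_self K x)
    have h3 : σ ((σ⁻¹ * τ) x) = τ x := by
      rw [← AlgEquiv.mul_apply, mul_inv_cancel_left]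
    rw [← h3, h1]

private theorem lvE_pow_inj {p : ℕ} [Fact p.Prime] {L : Type} [Field L] [CharP L p] (k : ℕ)
    {a b : L} (h : a ^ p ^ k = b ^ p ^ k) : a = b := by
  have h1 : (iterateFrobenius L p k) a = (iterateFrobenius L p k) b := by
    simpa [iterateFrobenius_def] using h
  exact (iterateFrobenius L p k).injective h1

private theorem lvE_charP {p : ℕ} {K : Type} [Field K] (h : GFld p K) : CharP K p := by
  obtain ⟨F, _, _, _, _, -, -⟩ := h
  have h1 : CharP (RatFunc F) p :=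
    charP_of_injective_algebraMap (algebraMap F (RatFunc F)).injective p
  exact charP_of_injective_algebraMap (algebraMap (RatFunc F) K).injective p

theorem tLvE (_hLc1 : S_Lc1) (hLc2 : S_Lc2) (hNr : S_Nr) (hH90 : S_RH90) (hTSl : S_TSl)
    (_hEqn : S_Eqn) : S_LvE := by
  intro p _ K _ hG v Q ϖ R hLF k g₀ μ hμ
  have : CharP K p := lvE_charP hG
  obtain ⟨hNr1, -, -, -, -, hNr6, -, -, -⟩ := hNr p K v Q ϖ R hLF
  obtain ⟨-, -, -, -, -, -, -, -, -, hchar⟩ := hLc2 p K v Q ϖ R hLF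
  have hp0 : 0 < p := (Fact.out : p.Prime).pos
  set N := p ^ k with hN
  have hN0 : N ≠ 0 := (Nat.pow_pos hp0).ne'
  -- the fixing subgroup
  have hfix : ∀ g : Gal(Kvs v/v.Completion), g ∈ (Knr p v).fixingSubgroup ↔ IsGeo p g := by
    intro g
    rw [hNr6 g, IntermediateField.mem_fixingSubgroup_iff]
  obtain ⟨Y, hY0, hY⟩ := hTSl p K hG v Q ϖ R hLF k (fun σ : (Knr p v).fixingSubgroup => μ σ.1)
    (hμ.loc.comp_continuous continuous_subtype_val) (fun σ => hμ.ne σ.1)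
    (fun σ τ => hμ.mul σ.1 τ.1)
  have hFrY : g₀ Y ≠ 0 := by simpa using hY0
  set ρ' : Kvs v := μ g₀ * Y / g₀ Y with hρ'
  have hρ'0 : ρ' ≠ 0 := div_ne_zero (mul_ne_zero (hμ.ne g₀) hY0) hFrY
  have hμFr : μ g₀ = ρ' * g₀ Y / Y := by
    rw [hρ']
    field_simp
  -- the main congruence
  have hmain : ∀ τ : (Knr p v).fixingSubgroup, EqN N (τ.1 ρ') ρ' := by
    intro τ
    have hτ'' : g₀⁻¹ * τ.1 * g₀ ∈ (Knr p v).fixingSubgroup := by
      rw [hfix]
      intro x hx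
      have h1 : g₀ x ∈ Cst p (Kvs v) := by
        obtain ⟨n, hn, hxn⟩ := hx
        refine ⟨n, hn, ?_⟩
        rw [← map_pow, hxn]
      have h2 : τ.1 (g₀ x) = g₀ x := (hfix τ.1).1 τ.2 _ h1
      have h3 : (g₀⁻¹ * τ.1 * g₀) x = g₀⁻¹ (τ.1 (g₀ x)) := rfl
      rw [h3, h2]
      exact g₀.symm_apply_apply x
    set τ'' : (Knr p v).fixingSubgroup := ⟨g₀⁻¹ * τ.1 * g₀, hτ''⟩ with hτ''d
    have hcomm : τ.1 * g₀ = g₀ * τ''.1 := by
      rw [hτ''d]
      group
    have hA : τ.1 (g₀ Y) / Y ≠ 0 := div_ne_zero (by simpa using hY0) hY0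
    refine lvE_eqN_cancel hA ?_
    have hτY : τ.1 Y ≠ 0 := by simpa using hY0
    have e1 : EqN N (μ (τ.1 * g₀)) (τ.1 ρ' * (τ.1 (g₀ Y) / Y)) := by
      refine lvE_eqN_trans (hμ.mul τ.1 g₀) ?_
      have e2 := lvE_eqN_mul (hY τ) (lvE_eqN_refl (N := N) (τ.1 (μ g₀)))
      have e3 : τ.1 Y / Y * τ.1 (μ g₀) = τ.1 ρ' * (τ.1 (g₀ Y) / Y) := by
        rw [hμFr, map_div₀, map_mul]
        field_simp
      rw [← e3]
      exact e2
    have e4 : EqN N (μ (g₀ * τ''.1)) (ρ' * (τ.1 (g₀ Y) / Y)) := by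
      refine lvE_eqN_trans (hμ.mul g₀ τ''.1) ?_
      have e5 := lvE_eqN_mul (lvE_eqN_refl (N := N) (μ g₀)) (lvE_eqN_map g₀ (hY τ''))
      have e6 : μ g₀ * g₀ (τ''.1 Y / Y) = ρ' * (τ.1 (g₀ Y) / Y) := by
        have e7 : g₀ (τ''.1 Y) = τ.1 (g₀ Y) := by
          rw [← AlgEquiv.mul_apply, ← hcomm, AlgEquiv.mul_apply]
        rw [hμFr, map_div₀, e7]
        field_simp
      rw [← e6]
      exact e5
    rw [hcomm] at e1
    exact lvE_eqN_trans (lvE_eqN_symm e1) e4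
  classical
  -- the root function
  set f : Kvs v → Kvs v := fun x => if h : ∃ s, x = ρ' * s ^ N then h.choose else 0 with hf
  set s : (Knr p v).fixingSubgroup → Kvs v := fun τ => f (τ.1 ρ') with hs
  have hs1 : ∀ τ : (Knr p v).fixingSubgroup, τ.1 ρ' = ρ' * s τ ^ N := by
    intro τ
    obtain ⟨s', -, hs'⟩ := hmain τ
    have hex : ∃ s, τ.1 ρ' = ρ' * s ^ N := ⟨s', hs'⟩
    have h1 : s τ = hex.choose := by
      simp only [hs, hf]
      rw [dif_pos hex]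
    rw [h1]
    exact hex.choose_spec
  have hs0 : ∀ τ, s τ ≠ 0 := by
    intro τ h0
    have h1 := hs1 τ
    rw [h0, zero_pow hN0, mul_zero] at h1
    exact hρ'0 (by simpa using h1)
  have hsl : IsLocallyConstant s := by
    have h1 : IsLocallyConstant fun τ : (Knr p v).fixingSubgroup => τ.1 ρ' :=
      (lvE_lc (K := v.Completion) (L := Kvs v) ρ').comp_continuous continuous_subtype_val
    exact h1.comp f
  have hsm : ∀ σ τ : (Knr p v).fixingSubgroup,
      s (σ * τ) = s σ * (σ : Gal(Kvs v/v.Completion)) (s τ) := by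
    intro σ τ
    apply lvE_pow_inj (p := p) k
    apply mul_left_cancel₀ hρ'0
    rw [← hN, ← hs1 (σ * τ), mul_pow, ← mul_assoc, ← hs1 σ, ← map_pow, ← map_mul, ← hs1 τ]
    rfl
  obtain ⟨y, hy0, hy⟩ := (hH90 v.Completion (Kvs v) (Knr p v)).1 s hsl hs0 hsm
  have hyN : y ^ N ≠ 0 := pow_ne_zero _ hy0
  have hr0 : ρ' / y ^ N ≠ 0 := div_ne_zero hρ'0 hyN
  have hr1 : ρ' / y ^ N ∈ Knr p v := by
    rw [← InfiniteGalois.fixedField_fixingSubgroup (Knr p v)]
    rw [IntermediateField.mem_fixedField_iff]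
    intro σ hσ
    have h1 := hs1 ⟨σ, hσ⟩
    have h2 := hy ⟨σ, hσ⟩
    simp only at h1 h2
    rw [h2] at h1
    have hσy : σ y ≠ 0 := by simpa using hy0
    rw [map_div₀, map_pow, h1, div_pow]
    field_simp
  obtain ⟨x, hx⟩ := hNr1 _ hr1 hr0
  refine ⟨x, Y, ρ' / y ^ N, hY0, hr0, hr1, ?_, ?_, hx⟩
  · intro σ hσ
    exact hY ⟨σ, (hfix σ).2 hσ⟩
  · refine ⟨y, hy0, ?_⟩
    rw [hμFr]
    field_simp

end Pool.Agent.MP72P
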