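import Pool.Agent.Lib.MP_72e2e6_nt.P3.R.SpecB

/-!
# MP_72e2e6_nt, theorem T3p, part R: module LvU (helper7)
-/

namespace Pool.Agent.MP72P

open Polynomial IntermediateField

namespace LvU

private theorem lc {K L : Type} [Field K] [Field L] [Algebra K L] [Algebra.IsIntegral K L] (x : L) :
    IsLocallyConstant fun σ : Gal(L/K) => σ x := by
  have : FiniteDimensional K K⟮x⟯ :=
    IntermediateField.adjoin.finiteDimensional (Algebra.IsIntegral.isIntegral x)
  have hop := IntermediateField.fixingSubgroup_isOpen K⟮x⟯ (L := L) (K := K)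
  rw [IsLocallyConstant.iff_exists_open]
  intro σ
  refine ⟨(fun τ => σ⁻¹ * τ) ⁻¹' (K⟮x⟯.fixingSubgroup : Set Gal(L/K)),
    hop.preimage (continuous_const_mul _), ?_, ?_⟩
  · simp only [Set.mem_preimage, inv_mul_cancel]
    exact one_mem K⟮x⟯.fixingSubgroup
  · intro τ hτ
    have h1 : (σ⁻¹ * τ) x = x := by
      have h2 : σ⁻¹ * τ ∈ K⟮x⟯.fixingSubgroup := hτ
      rw [IntermediateField.mem_fixingSubgroup_iff] at h2
      exact h2 x (IntermediateField.mem_adjoin_simple_self K x)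
    have h3 : σ ((σ⁻¹ * τ) x) = τ x := by
      rw [← AlgEquiv.mul_apply, mul_inv_cancel_left]
    rw [← h3, h1]

private theorem pow_injp {p : ℕ} [hp : Fact p.Prime] {L : Type} [Field L] [CharP L p] (k : ℕ)
    {a b : L} (h : a ^ p ^ k = b ^ p ^ k) : a = b := by
  have : ExpChar L p := ExpChar.prime hp.out
  have h1 : (iterateFrobenius L p k) a = (iterateFrobenius L p k) b := by
    simpa [iterateFrobenius_def] using h
  exact (iterateFrobenius L p k).injective h1

end LvU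

open LvU in
theorem tLvU : S_Lc1 → S_Lc2 → S_Nr → S_RH90 → S_Eqn → S_LvU := by
  intro _ hLc2 hNr hH90 _ p hp K _ _ v Q ϖ R hLF k g₀ μ x x' hx hx'
  obtain ⟨n1, n2, n3, -, -, n6, -, -, -, n9⟩ := hLc2 p K v Q ϖ R hLF
  obtain ⟨r1, -, -, r4, r5, r6, -⟩ := hNr p K v Q ϖ R hLF
  have : CharP (Kvs v) p := n9
  have hN0 : p ^ k ≠ 0 := (pow_pos hp.out.pos k).ne'
  obtain ⟨y, r, hy0, hr0, hrn, hgeo, hfr, hnr⟩ := hx
  obtain ⟨y', r', hy0', hr0', hrn', hgeo', hfr', hnr'⟩ := hx'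
  set N := p ^ k with hN
  have hfix : ∀ g : Gal(Kvs v/v.Completion), g ∈ (Knr p v).fixingSubgroup ↔
      IsGeo p g := by
    intro g
    rw [r6 g, IntermediateField.mem_fixingSubgroup_iff]
  set Y : Kvs v := y / y' with hY
  have hY0 : Y ≠ 0 := div_ne_zero hy0 hy0'
  have hmain : ∀ g : (Knr p v).fixingSubgroup, ∃ s : Kvs v, g.1 Y = Y * s ^ N := by
    intro g
    obtain ⟨s, hs, h⟩ := hgeo g.1 ((hfix g.1).1 g.2)
    obtain ⟨s', hs', h'⟩ := hgeo' g.1 ((hfix g.1).1 g.2)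
    have e1 : g.1 y ≠ 0 := by simpa using hy0
    have e2 : g.1 y' ≠ 0 := by simpa using hy0'
    refine ⟨s' / s, ?_⟩
    rw [h] at h'
    rw [hY, map_div₀, div_pow]
    field_simp at h' ⊢
    linear_combination h'
  classical
  set f : Kvs v → Kvs v := fun x => if h : ∃ s, x = Y * s ^ N then h.choose else 0 with hf
  set s : (Knr p v).fixingSubgroup → Kvs v := fun τ => f (τ.1 Y) with hs
  have hs1 : ∀ τ : (Knr p v).fixingSubgroup, τ.1 Y = Y * s τ ^ N := by
    intro τ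
    have hex := hmain τ
    have h1 : s τ = hex.choose := by
      simp only [hs, hf]
      rw [dif_pos hex]
    rw [h1]
    exact hex.choose_spec
  have hs0 : ∀ τ, s τ ≠ 0 := by
    intro τ h0
    have h1 := hs1 τ
    rw [h0, zero_pow hN0, mul_zero] at h1
    exact hY0 (by simpa using h1)
  have hsl : IsLocallyConstant s := by
    have h1 : IsLocallyConstant fun τ : (Knr p v).fixingSubgroup => τ.1 Y :=
      (lc (K := v.Completion) (L := Kvs v) Y).comp_continuous continuous_subtype_val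
    exact h1.comp f
  have hsm : ∀ σ τ : (Knr p v).fixingSubgroup, s (σ * τ) = s σ * (σ : Gal(Kvs v/v.Completion)) (s τ) := by
    intro σ τ
    apply pow_injp (p := p) k
    apply mul_left_cancel₀ hY0
    rw [← hN, ← hs1 (σ * τ), mul_pow, ← mul_assoc, ← hs1 σ, ← map_pow, ← map_mul, ← hs1 τ]
    rfl
  obtain ⟨z, hz0, hz⟩ := (hH90 v.Completion (Kvs v) (Knr p v)).1 s hsl hs0 hsm
  have hzN : z ^ N ≠ 0 := pow_ne_zero _ hz0
  set b : Kvs v := Y / z ^ N with hb
  have hb0 : b ≠ 0 := div_ne_zero hY0 hzN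
  have hbn : b ∈ Knr p v := by
    rw [← InfiniteGalois.fixedField_fixingSubgroup (Knr p v)]
    rw [IntermediateField.mem_fixedField_iff]
    intro σ hσ
    have h1 := hs1 ⟨σ, hσ⟩
    have h2 := hz ⟨σ, hσ⟩
    simp only at h1 h2
    rw [h2] at h1
    have hσz : σ z ≠ 0 := by simpa using hz0
    rw [hb, map_div₀, map_pow, h1, div_pow]
    field_simp
  have hg₀b : g₀ b ∈ Knr p v := by
    have h1 : Knr p v ≤ (Knr p v).comap (g₀ : Kvs v →ₐ[v.Completion] Kvs v) := by
      conv_lhs => rw [Knr]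
      rw [IntermediateField.adjoin_le_iff]
      intro c hc
      change g₀ c ∈ Knr p v
      apply r4
      obtain ⟨n, hn, hcn⟩ := hc
      exact ⟨n, hn, by rw [← map_pow, hcn]⟩
    exact h1 hbn
  have hg₀b0 : g₀ b ≠ 0 := by simpa using hb0
  obtain ⟨s₁, hs₁, h1⟩ := hfr
  obtain ⟨s₂, hs₂, h2⟩ := hfr'
  have hg₀z : g₀ z ≠ 0 := by simpa using hz0
  have hg₀y : g₀ y ≠ 0 := by simpa using hy0
  have hg₀y' : g₀ y' ≠ 0 := by simpa using hy0'
  set σ : Kvs v := g₀ z / z * (s₁ / s₂) with hσ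
  have hσ0 : σ ≠ 0 := mul_ne_zero (div_ne_zero hg₀z hz0) (div_ne_zero hs₁ hs₂)
  have key : r' * b = r * g₀ b * σ ^ N := by
    rw [h1] at h2
    rw [hσ, hb, hY, map_div₀, map_div₀, map_pow, mul_pow, div_pow, div_pow]
    field_simp at h2 ⊢
    linear_combination -h2
  have hσN : σ ^ N = r' * b / (r * g₀ b) := by
    rw [key]; field_simp
  have hσn : σ ∈ Knr p v := by
    apply r5 σ k
    rw [← hN, hσN]
    exact div_mem (mul_mem hrn' hbn) (mul_mem hrn hg₀b)
  obtain ⟨n, hn⟩ := r1 σ hσn hσ0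
  have nmpow : ∀ (a : Kvs v) (m : ℕ), nm v (a ^ m) = nm v a ^ m := by
    intro a m
    induction m with
    | zero =>
      rw [pow_zero, pow_zero]
      have h3 := n3 1 1
      have h4 : nm v (1 : Kvs v) ≠ 0 := fun h => one_ne_zero ((n2 _).1 h)
      rw [mul_one] at h3
      exact (mul_left_cancel₀ h4 (by rw [← h3, mul_one]))
    | succ m ih => rw [pow_succ, n3, ih, pow_succ]
  have hkey := congrArg (nm v) key
  rw [n3, n3, n3, n6, nmpow, hn, hnr, hnr'] at hkey
  have hbnm : nm v b ≠ 0 := fun h => hb0 ((n2 _).1 h)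
  have h5 : v ϖ ^ x' = v ϖ ^ (x + n * N) := by
    rw [zpow_add₀ hLF.pi0.ne', zpow_mul]
    apply mul_right_cancel₀ hbnm
    rw [hkey, zpow_natCast]
    ring
  have h6 : x' = x + n * N := zpow_right_injective₀ hLF.pi0 hLF.pi1.ne h5
  refine ⟨-n, ?_⟩
  rw [h6, hN]
  push_cast
  ring

end Pool.Agent.MP72P
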