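import Pool.Agent.Lib.MP_72e2e6_nt.P3.R.SpecB

/-!
# MP_72e2e6_nt, T3p, part R: the norm of an element of `Kgeo` to `K`
-/

namespace Pool.Agent.MP72P

open Polynomial IntermediateField Finset

/-- The product over a period. -/
private theorem Nmr_shift {M : Type} [CommMonoidWithZero M] [IsCancelMulZero M] (f : ℕ → M) (n : ℕ)
    (h0 : f 0 ≠ 0) (hn : f n = f 0) : ∏ i ∈ range n, f (i + 1) = ∏ i ∈ range n, f i := by
  have h1 := prod_range_succ f n
  have h2 := prod_range_succ' f n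
  rw [h1, hn] at h2
  exact (mul_right_cancel₀ h0 h2).symm

section

variable {p : ℕ} [Fact p.Prime] {K : Type} [Field K] [CharP K p] {r : ℕ}

/-- Elements of `Kgeo` only depend on finitely many constants. -/
private theorem Nmr_dep (ρ : Kgs K) (hρ : ρ ∈ Kgeo p K) : ∃ n : ℕ, 1 ≤ n ∧
    ∀ σ τ : Gal(Kgs K/K), (∀ t : Kgs K, t ^ p ^ n = t → σ t = τ t) → σ ρ = τ ρ := by
  have hmul : ∀ (n m : ℕ) (t : Kgs K), t ^ p ^ n = t → t ^ p ^ (n * m) = t := by
    intro n m t ht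
    induction m with
    | zero => rw [mul_zero, pow_zero, pow_one]
    | succ m ih =>
      rw [Nat.mul_succ, pow_add, pow_mul, ih, ht]
  refine IntermediateField.adjoin_induction (F := K) (s := Cst p (Kgs K))
    (p := fun x _ => ∃ n : ℕ, 1 ≤ n ∧ ∀ σ τ : Gal(Kgs K/K),
      (∀ t : Kgs K, t ^ p ^ n = t → σ t = τ t) → σ x = τ x) ?_ ?_ ?_ ?_ ?_ hρ
  · rintro x ⟨n, hn, hx⟩
    exact ⟨n, hn, fun σ τ h => h x hx⟩
  · intro x
    exact ⟨1, le_rfl, fun σ τ _ => by rw [AlgEquiv.commutes, AlgEquiv.commutes]⟩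
  · rintro x y _ _ ⟨n, hn, hx⟩ ⟨m, hm, hy⟩
    refine ⟨n * m, Nat.mul_pos hn hm, fun σ τ h => ?_⟩
    rw [map_add, map_add, hx σ τ fun t ht => h t (hmul n m t ht),
      hy σ τ fun t ht => h t (by rw [mul_comm n m]; exact hmul m n t ht)]
  · rintro x _ ⟨n, hn, hx⟩
    exact ⟨n, hn, fun σ τ h => by rw [map_inv₀, map_inv₀, hx σ τ h]⟩
  · rintro x y _ _ ⟨n, hn, hx⟩ ⟨m, hm, hy⟩
    refine ⟨n * m, Nat.mul_pos hn hm, fun σ τ h => ?_⟩
    rw [map_mul, map_mul, hx σ τ fun t ht => h t (hmul n m t ht),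
      hy σ τ fun t ht => h t (by rw [mul_comm n m]; exact hmul m n t ht)]

/-- The elements with `x ^ p ^ r = x` are in `K`. -/
private theorem Nmr_K (hCst : S_Cst) (hr : CstO p r K) (x : Kgs K) (hx : x ^ p ^ r = x) :
    ∃ y : K, algebraMap K (Kgs K) y = x := by
  have hch : CharP (Kgs K) p := charP_of_injective_algebraMap (algebraMap K (Kgs K)).injective p
  obtain ⟨hr1, -, hr3⟩ := hr
  have h1 : {x : Kgs K | x ^ p ^ r = x}.ncard = p ^ r := (hCst p (Kgs K)).2.2.2.2.2.2.1 r hr1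
  have hp : 0 < p ^ r := pow_pos (Fact.out : p.Prime).pos r
  have hfin : {x : Kgs K | x ^ p ^ r = x}.Finite := by
    apply Set.finite_of_ncard_ne_zero
    rw [h1]
    exact hp.ne'
  have hsub : algebraMap K (Kgs K) '' {x : K | x ^ p ^ r = x} ⊆ {x : Kgs K | x ^ p ^ r = x} := by
    rintro _ ⟨y, hy, rfl⟩
    have hy' : y ^ p ^ r = y := hy
    change (algebraMap K (Kgs K) y) ^ p ^ r = algebraMap K (Kgs K) y
    rw [← map_pow, hy']
  have h2 : (algebraMap K (Kgs K) '' {x : K | x ^ p ^ r = x}).ncard = p ^ r := by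
    rw [Set.ncard_image_of_injective _ (algebraMap K (Kgs K)).injective, hr3]
  have h3 := Set.eq_of_subset_of_ncard_le hsub (by rw [h1, h2]) hfin
  have h4 : x ∈ algebraMap K (Kgs K) '' {x : K | x ^ p ^ r = x} := by
    rw [h3]
    exact hx
  obtain ⟨y, -, hy⟩ := h4
  exact ⟨y, hy⟩

/-- Powers of `Fr` on constants. -/
private theorem Nmr_pow (Fr : Gal(Kgs K/K)) (hFr : IsFro p (p ^ r) Fr) (n : ℕ) (hn : 1 ≤ n)
    (t : Kgs K) (ht : t ^ p ^ n = t) (i : ℕ) : (Fr ^ i) t = t ^ (p ^ r) ^ i := by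
  induction i with
  | zero => rw [pow_zero, pow_zero, pow_one, AlgEquiv.one_apply]
  | succ i ih =>
    have h1 : t ∈ Cst p (Kgs K) := ⟨n, hn, ht⟩
    rw [pow_succ, AlgEquiv.mul_apply, hFr t h1, map_pow, ih, ← pow_mul, ← pow_succ]

private theorem Nmr_per (Fr : Gal(Kgs K/K)) (hFr : IsFro p (p ^ r) Fr) (n : ℕ) (hn : 1 ≤ n)
    (t : Kgs K) (ht : t ^ p ^ n = t) : (Fr ^ n) t = t := by
  rw [Nmr_pow Fr hFr n hn t ht, ← pow_mul, mul_comm r n]
  have hmul : ∀ m : ℕ, t ^ p ^ (n * m) = t := by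
    intro m
    induction m with
    | zero => rw [mul_zero, pow_zero, pow_one]
    | succ m ih => rw [Nat.mul_succ, pow_add, pow_mul, ih, ht]
  exact hmul r

/-- Every automorphism is a power of `Fr` on the constants of bounded degree. -/
private theorem Nmr_gen (hCst : S_Cst) (hr : CstO p r K) (Fr : Gal(Kgs K/K))
    (hFr : IsFro p (p ^ r) Fr) (n : ℕ) (hn : 1 ≤ n) (σ : Gal(Kgs K/K)) :
    ∃ i : ℕ, ∀ t : Kgs K, t ^ p ^ n = t → σ t = (Fr ^ i) t := by
  have hch : CharP (Kgs K) p := charP_of_injective_algebraMap (algebraMap K (Kgs K)).injective p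
  have hp : 1 < p := (Fact.out : p.Prime).one_lt
  have hpn : 1 < p ^ n := Nat.one_lt_pow (by omega) hp
  obtain ⟨m, hm⟩ : ∃ m, p ^ n = m + 1 := ⟨p ^ n - 1, by omega⟩
  have hm0 : NeZero m := ⟨by omega⟩
  obtain ⟨ζ, hζ⟩ := IsCyclic.exists_generator (α := rootsOfUnity m (Kgs K))
  let c : Kgs K := ((ζ : (Kgs K)ˣ) : Kgs K)
  have hcm : c ^ m = 1 := by
    have h1 := (mem_rootsOfUnity m (ζ : (Kgs K)ˣ)).1 ζ.2
    have h2 := congrArg Units.val h1
    rw [Units.val_pow_eq_pow_val, Units.val_one] at h2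
    exact h2
  have hcn : c ^ p ^ n = c := by
    rw [hm, pow_succ, hcm, one_mul]
  obtain ⟨z0, z1, z3, -, -, -, -, -⟩ := hCst p (Kgs K)
  let S : Subring (Kgs K) :=
    { carrier := Cst p (Kgs K)
      mul_mem' := fun {a b} ha hb => (z3 a ha b hb).2.1
      one_mem' := z1
      add_mem' := fun {a b} ha hb => (z3 a ha b hb).1
      zero_mem' := z0
      neg_mem' := fun {a} ha => by
        have := (z3 0 z0 a ha).2.2
        rwa [zero_sub] at this }
  have hFc : ∀ i, (Fr ^ i) c ∈ S := by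
    intro i
    refine ⟨n, hn, ?_⟩
    rw [← map_pow, hcn]
  -- the polynomial
  let Pl : (Kgs K)[X] := ∏ i ∈ range n, (X - C ((Fr ^ i) c))
  have hPS : ∀ j, Pl.coeff j ∈ Cst p (Kgs K) := by
    intro j
    have h1 : (∏ i ∈ range n, (X - C (⟨(Fr ^ i) c, hFc i⟩ : S))).map S.subtype = Pl := by
      rw [Polynomial.map_prod]
      refine prod_congr rfl fun i _ => ?_
      rw [Polynomial.map_sub, map_X, map_C]
      rfl
    rw [← h1, coeff_map]
    exact ((∏ i ∈ range n, (X - C (⟨(Fr ^ i) c, hFc i⟩ : S))).coeff j).2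
  have hPF : Pl.map (Fr : Kgs K →+* Kgs K) = Pl := by
    have h1 : Pl.map (Fr : Kgs K →+* Kgs K) = ∏ i ∈ range n, (X - C ((Fr ^ (i + 1)) c)) := by
      change (∏ i ∈ range n, (X - C ((Fr ^ i) c))).map (Fr : Kgs K →+* Kgs K) = _
      rw [Polynomial.map_prod]
      refine prod_congr rfl fun i _ => ?_
      rw [Polynomial.map_sub, map_X, map_C, pow_succ', AlgEquiv.mul_apply]
      rfl
    rw [h1]
    refine Nmr_shift (fun i => X - C ((Fr ^ i) c)) n (X_sub_C_ne_zero _) ?_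
    change X - C ((Fr ^ n) c) = X - C ((Fr ^ 0) c)
    rw [Nmr_per Fr hFr n hn c hcn, pow_zero, AlgEquiv.one_apply]
  have hPK : ∀ j, ∃ y : K, algebraMap K (Kgs K) y = Pl.coeff j := by
    intro j
    apply Nmr_K hCst hr
    have h1 : Fr (Pl.coeff j) = Pl.coeff j := by
      conv_rhs => rw [← hPF, coeff_map]
      rfl
    rw [hFr _ (hPS j)] at h1
    exact h1
  have hPl : Pl ∈ lifts (algebraMap K (Kgs K)) := by
    rw [lifts_iff_coeff_lifts]
    intro j
    exact hPK j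
  obtain ⟨Q, hQ⟩ := (mem_lifts Pl).1 hPl
  have hev : Pl.eval (σ c) = 0 := by
    have h1 : Pl.eval c = 0 := by
      change (∏ i ∈ range n, (X - C ((Fr ^ i) c))).eval c = 0
      rw [eval_prod]
      refine prod_eq_zero (mem_range.2 (by omega : 0 < n)) ?_
      rw [eval_sub, eval_X, eval_C, pow_zero, AlgEquiv.one_apply, sub_self]
    rw [← hQ, eval_map_algebraMap] at h1 ⊢
    rw [← AlgEquiv.coe_toAlgHom, aeval_algHom_apply, h1, map_zero]
  obtain ⟨i, hi⟩ : ∃ i, σ c = (Fr ^ i) c := by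
    change (∏ i ∈ range n, (X - C ((Fr ^ i) c))).eval (σ c) = 0 at hev
    rw [eval_prod, prod_eq_zero_iff] at hev
    obtain ⟨i, -, h2⟩ := hev
    rw [eval_sub, eval_X, eval_C] at h2
    exact ⟨i, sub_eq_zero.1 h2⟩
  refine ⟨i, fun t ht => ?_⟩
  by_cases ht0 : t = 0
  · rw [ht0, map_zero, map_zero]
  have htm : t ^ m = 1 := by
    rw [hm, pow_succ] at ht
    exact mul_right_cancel₀ ht0 (by rw [ht, one_mul])
  have h1 : Units.mk0 t ht0 ∈ rootsOfUnity m (Kgs K) := by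
    rw [mem_rootsOfUnity]
    ext
    rw [Units.val_pow_eq_pow_val, Units.val_mk0, htm, Units.val_one]
  obtain ⟨k, hk⟩ := Subgroup.mem_zpowers_iff.1 (hζ ⟨_, h1⟩)
  have h2 : t = c ^ k := by
    have h3 := congrArg (fun u : rootsOfUnity m (Kgs K) => ((u : (Kgs K)ˣ) : Kgs K)) hk
    simp only [SubgroupClass.coe_zpow, Units.val_zpow_eq_zpow_val, Units.val_mk0] at h3
    exact h3.symm
  rw [h2, map_zpow₀, map_zpow₀, hi]

end

theorem tNmr : S_Cst → S_Nmr := by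
  intro hCst p _ K _ _ r hr Fr hFr ρ hρ hρ0
  obtain ⟨n, hn, hdep⟩ := Nmr_dep ρ hρ
  have hper : (Fr ^ n) ρ = ρ := by
    refine (hdep (Fr ^ n) 1 fun t ht => ?_).trans (AlgEquiv.one_apply _)
    rw [Nmr_per Fr hFr n hn t ht, AlgEquiv.one_apply]
  refine ⟨n, hn, hper, ?_⟩
  have hne : ∀ i, (Fr ^ i) ρ ≠ 0 := fun i h => hρ0 ((map_eq_zero _).1 h)
  set R := ∏ i ∈ range n, (Fr ^ i) ρ with hR
  have hR0 : R ≠ 0 := prod_ne_zero_iff.2 fun i _ => hne i
  have hFR : Fr R = R := by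
    have h1 : Fr R = ∏ i ∈ range n, (Fr ^ (i + 1)) ρ := by
      rw [hR, map_prod]
      refine prod_congr rfl fun i _ => ?_
      rw [pow_succ', AlgEquiv.mul_apply]
    rw [h1]
    refine Nmr_shift (fun i => (Fr ^ i) ρ) n ?_ ?_
    · exact hne 0
    · change (Fr ^ n) ρ = (Fr ^ 0) ρ
      rw [hper, pow_zero, AlgEquiv.one_apply]
  have hFR' : ∀ i, (Fr ^ i) R = R := by
    intro i
    induction i with
    | zero => rw [pow_zero, AlgEquiv.one_apply]
    | succ i ih => rw [pow_succ, AlgEquiv.mul_apply, hFR, ih]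
  have hfix : ∀ σ : Gal(Kgs K/K), σ R = R := by
    intro σ
    obtain ⟨i, hi⟩ := Nmr_gen hCst hr Fr hFr n hn σ
    have h1 : ∀ j, σ ((Fr ^ j) ρ) = (Fr ^ i) ((Fr ^ j) ρ) := by
      intro j
      refine hdep (σ * Fr ^ j) (Fr ^ i * Fr ^ j) fun t ht => ?_
      rw [AlgEquiv.mul_apply, AlgEquiv.mul_apply]
      apply hi
      rw [← map_pow, ht]
    calc σ R = ∏ j ∈ range n, σ ((Fr ^ j) ρ) := map_prod _ _ _
      _ = ∏ j ∈ range n, (Fr ^ i) ((Fr ^ j) ρ) := prod_congr rfl fun j _ => h1 j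
      _ = (Fr ^ i) R := (map_prod _ _ _).symm
      _ = R := hFR' i
  have hbot : R ∈ (⊥ : IntermediateField K (Kgs K)) :=
    (InfiniteGalois.mem_bot_iff_fixed R).2 hfix
  obtain ⟨y, hy⟩ := IntermediateField.mem_bot.1 hbot
  refine ⟨y, ?_, hy⟩
  rintro rfl
  rw [map_zero] at hy
  exact hR0 hy.symm

end Pool.Agent.MP72P
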