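import Pool.Agent.Lib.MP_72e2e6_nt.P3.R.SpecB

/-!
# MP_72e2e6_nt, theorem T3p, part R: the order of the norm at a place
-/

namespace Pool.Agent.MP72P

open Polynomial IntermediateField Finset

/-- The sum of a periodic function over several periods. -/
private theorem odn_sum (a : ℕ → ℤ) (d : ℕ) (h : ∀ i, a (i + d) = a i) (m : ℕ) :
    ∑ i ∈ range (m * d), a i = m * ∑ i ∈ range d, a i := by
  have hk : ∀ m i, a (m * d + i) = a i := by
    intro m
    induction m with
    | zero => intro i; rw [Nat.zero_mul, Nat.zero_add]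
    | succ m ih =>
      intro i
      have e : (m + 1) * d + i = (m * d + i) + d := by ring
      rw [e, h, ih]
  induction m with
  | zero => simp
  | succ m ih =>
    have e : (m + 1) * d = m * d + d := by ring
    rw [e, Finset.sum_range_add, ih]
    have e2 : ∑ i ∈ range d, a (m * d + i) = ∑ i ∈ range d, a i :=
      Finset.sum_congr rfl fun i _ => hk m i
    rw [e2]
    push_cast
    ring

private theorem odn_per (a : ℕ → ℤ) (d n : ℕ) (h : ∀ i, a (i + d) = a i)
    (h' : ∀ i, a (i + n) = a i) :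
    (n : ℤ) * ∑ i ∈ range d, a i = d * ∑ i ∈ range n, a i := by
  rw [← odn_sum a d h n, ← odn_sum a n h' d, Nat.mul_comm]

/-- **Odn**. The order of the norm at a place. -/
theorem tOdn : S_Lc1 → S_Lc2 → S_Nr → S_Has → S_Res → S_FrL → S_Odn := by
  intro hLc1 hLc2 hNr _ hRes hFr0 p _ K _ _ r _ Fr hFr ρ hρ hρ0 n y hn hy v Q d ϖ R hLF hQ ι x y'
    hx hy'
  obtain ⟨l1, -⟩ := hLc1 p K v Q ϖ R hLF
  obtain ⟨-, -, m3, -, m5, m6, -⟩ := hLc2 p K v Q ϖ R hLF
  obtain ⟨n1, -, -, n4, -⟩ := hNr p K v Q ϖ R hLF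
  obtain ⟨⟨g₀, hg₀⟩, -⟩ := hFr0 p K v Q ϖ R hLF
  obtain ⟨-, r2, -, -⟩ := hRes p K (Kgs K) v.Completion (Kvs v) ι
  have hv1 : nm v 1 = 1 := by
    have h1 := m5 1
    rw [map_one, norm_one] at h1
    exact h1
  have hnprod : ∀ (s : Finset ℕ) (f : ℕ → Kvs v), nm v (∏ i ∈ s, f i) = ∏ i ∈ s, nm v (f i) := by
    intro s f
    induction s using Finset.induction_on with
    | empty => simp [hv1]
    | insert i s hi ih => rw [Finset.prod_insert hi, m3, ih, Finset.prod_insert hi]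
  have hQ0 : Q ≠ 0 := by
    rw [hQ]
    exact pow_ne_zero _ (pow_ne_zero _ (Fact.out : p.Prime).ne_zero)
  -- the image of the geometric field
  have hgeo : ∀ z ∈ Kgeo p K, ι z ∈ Knr p v := by
    intro z hz
    have hsub : Kgeo p K ≤ ((Knr p v).restrictScalars K).comap ι := by
      unfold Kgeo
      rw [adjoin_le_iff]
      rintro c ⟨m, hm, e⟩
      exact n4 _ ⟨m, hm, by rw [← map_pow, e]⟩
    exact hsub hz
  have hFrgeo : ∀ (σ : Gal(Kgs K/K)), ∀ z ∈ Kgeo p K, σ z ∈ Kgeo p K := by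
    intro σ z hz
    have hsub : Kgeo p K ≤ (Kgeo p K).comap (σ : Kgs K →ₐ[K] Kgs K) := by
      conv_lhs => unfold Kgeo
      rw [adjoin_le_iff]
      rintro c ⟨m, hm, e⟩
      refine subset_adjoin _ _ ⟨m, hm, ?_⟩
      show (σ c) ^ p ^ m = σ c
      rw [← map_pow, e]
    exact hsub hz
  -- the Frobenius element on the constants
  have hfp : ∀ (i : ℕ), ∀ c ∈ Cst p (Kgs K), (Fr ^ i) c = c ^ (p ^ r) ^ i := by
    intro i c hc
    induction i with
    | zero =>
      rw [pow_zero, pow_zero, pow_one]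
      rfl
    | succ i ih =>
      have e1 : (Fr ^ (i + 1)) c = Fr ((Fr ^ i) c) := by
        rw [pow_succ']
        rfl
      rw [e1, ih, map_pow, hFr c hc, ← pow_mul, pow_succ']
  set σ : Gal(Kgs K/K) := rsH (M := v.Completion) ι g₀ with hσ
  have hσc : ∀ c ∈ Cst p (Kgs K), σ c = (Fr ^ d) c := by
    intro c hc
    apply ι.toRingHom.injective
    have h1 : ι c ∈ Cst p (Kvs v) := by
      obtain ⟨m, hm, e⟩ := hc
      exact ⟨m, hm, by rw [← map_pow, e]⟩
    show ι (σ c) = ι ((Fr ^ d) c)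
    rw [← r2 g₀ c, hg₀ _ h1, hfp d c hc, map_pow, hQ]
  have hσg : ∀ z ∈ Kgeo p K, σ z = (Fr ^ d) z := by
    intro z hz
    have h1 : ∀ w ∈ Kgeo p K, ((Fr ^ d)⁻¹ * σ) w = w := by
      intro w hw
      have hsub : Kgeo p K ≤ fixedField (Subgroup.zpowers ((Fr ^ d)⁻¹ * σ)) := by
        unfold Kgeo
        rw [adjoin_le_iff]
        intro c hc
        have h2 : ((Fr ^ d)⁻¹ * σ) c = c := by
          apply (Fr ^ d).injective
          have e1 : (Fr ^ d) (((Fr ^ d)⁻¹ * σ) c) = σ c := by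
            rw [← AlgEquiv.mul_apply, mul_inv_cancel_left]
          rw [e1, hσc c hc]
        rw [SetLike.mem_coe, mem_fixedField_iff]
        intro τ hτ
        have h3 : Subgroup.zpowers ((Fr ^ d)⁻¹ * σ) ≤ MulAction.stabilizer Gal(Kgs K/K) c := by
          rw [Subgroup.zpowers_le]
          exact h2
        exact h3 hτ
      have h4 := hsub hw
      rw [mem_fixedField_iff] at h4
      exact h4 _ (Subgroup.mem_zpowers _)
    have h2 := h1 z hz
    have e1 : (Fr ^ d) (((Fr ^ d)⁻¹ * σ) z) = σ z := by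
      rw [← AlgEquiv.mul_apply, mul_inv_cancel_left]
    rw [← e1, h2]
  -- the exponents
  have hex : ∀ i : ℕ, ∃ a : ℤ, nm v (ι ((Fr ^ i) ρ)) = v ϖ ^ a := by
    intro i
    exact n1 _ (hgeo _ (hFrgeo _ _ hρ)) ((map_ne_zero ι).2 ((map_ne_zero (Fr ^ i)).2 hρ0))
  choose a ha using hex
  have hinj : Function.Injective (fun k : ℤ => (v ϖ) ^ k) :=
    zpow_right_injective₀ hLF.pi0 hLF.pi1.ne
  have hzp : ∀ s : Finset ℕ, ∏ i ∈ s, (v ϖ) ^ a i = (v ϖ) ^ ∑ i ∈ s, a i := by
    intro s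
    induction s using Finset.induction_on with
    | empty => simp
    | insert i s hi ih =>
      rw [Finset.prod_insert hi, ih, Finset.sum_insert hi, zpow_add₀ hLF.pi0.ne']
  have had : ∀ i, a (i + d) = a i := by
    intro i
    apply hinj
    show (v ϖ) ^ a (i + d) = (v ϖ) ^ a i
    rw [← ha, ← ha]
    have e1 : (Fr ^ (i + d)) ρ = (Fr ^ d) ((Fr ^ i) ρ) := by
      rw [← AlgEquiv.mul_apply, ← pow_add, Nat.add_comm]
    rw [e1, ← hσg _ (hFrgeo _ _ hρ), ← r2 g₀, m6]
  have han : ∀ i, a (i + n) = a i := by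
    intro i
    apply hinj
    show (v ϖ) ^ a (i + n) = (v ϖ) ^ a i
    rw [← ha, ← ha]
    have e1 : (Fr ^ (i + n)) ρ = (Fr ^ i) ((Fr ^ n) ρ) := by
      rw [← AlgEquiv.mul_apply, ← pow_add]
    rw [e1, hn]
  have hX : ∑ i ∈ range d, a i = x := by
    apply hinj
    show (v ϖ) ^ (∑ i ∈ range d, a i) = (v ϖ) ^ x
    rw [← hzp, ← hx, hnprod]
    exact Finset.prod_congr rfl fun i _ => (ha i).symm
  have hY : ∑ i ∈ range n, a i = y' := by
    apply hinj
    show (v ϖ) ^ (∑ i ∈ range n, a i) = (v ϖ) ^ y'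
    rw [← hzp, ← hy']
    have e1 : nm v (ι (tG y)) = v y := by
      have e2 : ι (tG y) = algebraMap v.Completion (Kvs v) (algebraMap K v.Completion y) := by
        rw [tG, AlgHom.commutes]
        exact IsScalarTower.algebraMap_apply K v.Completion (Kvs v) y
      rw [e2, m5, l1]
    rw [← e1, hy, map_prod, hnprod]
    exact Finset.prod_congr rfl fun i _ => (ha i).symm
  rw [← hX, ← hY]
  exact (odn_per a d n had han).symm

end Pool.Agent.MP72P
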