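import Pool.Agent.Lib.MP_72e2e6_nt.P3.R.SpecB

/-!
# MP_72e2e6_nt, T3p, part R: the field of constants of a global function field
-/

namespace Pool.Agent.MP72P

open Polynomial IntermediateField Finset

private theorem Q0_alg {p : ℕ} [Fact p.Prime] {K : Type} [Field K] [CharP K p]
    [Algebra (ZMod p) K] (x : K) :
    (∃ n : ℕ, 1 ≤ n ∧ x ^ p ^ n = x) ↔ IsAlgebraic (ZMod p) x := by
  have hp : 1 < p := (Fact.out : p.Prime).one_lt
  constructor
  · rintro ⟨n, hn, hx⟩
    refine ⟨X ^ p ^ n - X, FiniteField.X_pow_card_pow_sub_X_ne_zero (ZMod p) (by omega) hp, ?_⟩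
    rw [map_sub, map_pow, aeval_X, hx, sub_self]
  · intro hx
    have hfin : FiniteDimensional (ZMod p) (ZMod p)⟮x⟯ :=
      IntermediateField.adjoin.finiteDimensional hx.isIntegral
    have hfin2 : Finite (ZMod p)⟮x⟯ := Module.finite_of_finite (ZMod p)
    have _ := Fintype.ofFinite (ZMod p)⟮x⟯
    have hch : CharP (ZMod p)⟮x⟯ p := charP_of_injective_algebraMap
      (algebraMap (ZMod p) (ZMod p)⟮x⟯).injective p
    obtain ⟨n, -, hn⟩ := FiniteField.card (ZMod p)⟮x⟯ p
    refine ⟨n, n.2, ?_⟩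
    have h1 := FiniteField.pow_card (⟨x, mem_adjoin_simple_self _ x⟩ : (ZMod p)⟮x⟯)
    rw [hn] at h1
    exact congrArg Subtype.val h1

/-- The variable is not algebraic over the prime field. -/
private theorem Q0_X {p : ℕ} [Fact p.Prime] {K F : Type} [Field K] [CharP K p] [Field F]
    [Algebra (RatFunc F) K] (n : ℕ) (hn : 1 ≤ n)
    (hX : (algebraMap (RatFunc F) K RatFunc.X) ^ p ^ n = algebraMap (RatFunc F) K RatFunc.X) :
    False := by
  have hp : 1 < p := (Fact.out : p.Prime).one_lt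
  rw [← map_pow] at hX
  have h1 := (algebraMap (RatFunc F) K).injective hX
  rw [← RatFunc.algebraMap_X, ← map_pow] at h1
  have h2 := RatFunc.algebraMap_injective F h1
  have h3 := congrArg natDegree h2
  rw [natDegree_X_pow, natDegree_X] at h3
  have h4 : 1 < p ^ n := Nat.one_lt_pow (by omega) hp
  omega

/-- Constants have bounded degree over `F`. -/
private theorem Q0_dep {p : ℕ} [Fact p.Prime] {K F : Type} [Field K] [CharP K p] [Field F]
    [Algebra (RatFunc F) K] [FiniteDimensional (RatFunc F) K] [Finite F] [CharP F p]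
    (φ : F →+* K) (hφ : φ = (algebraMap (RatFunc F) K).comp (algebraMap F (RatFunc F))) (c : K)
    (hc : ∃ n : ℕ, 1 ≤ n ∧ c ^ p ^ n = c) :
    ∃ a : Fin (Module.finrank (RatFunc F) K + 1) → F, a ≠ 0 ∧ ∑ i, φ (a i) * c ^ (i : ℕ) = 0 := by
  classical
  by_contra hcon
  push Not at hcon
  let _ : Algebra (ZMod p) K := ZMod.algebra K p
  let _ : Algebra F[X] K := ((algebraMap (RatFunc F) K).comp (algebraMap F[X] (RatFunc F))).toAlgebra
  have _ : IsScalarTower F[X] (RatFunc F) K := IsScalarTower.of_algebraMap_eq fun _ => rfl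
  -- the dependence
  have h1 : ¬ LinearIndependent (RatFunc F)
      (fun i : Fin (Module.finrank (RatFunc F) K + 1) => c ^ (i : ℕ)) := by
    intro h
    have h2 := h.fintype_card_le_finrank
    rw [Fintype.card_fin] at h2
    omega
  rw [← LinearIndependent.iff_fractionRing F[X], Fintype.linearIndependent_iff] at h1
  push Not at h1
  obtain ⟨b, hb, j, hj⟩ := h1
  -- the algebraic closure of the prime field
  let A : IntermediateField (ZMod p) K := algebraicClosure (ZMod p) K
  have halg : Algebra.IsAlgebraic (ZMod p) A := algebraicClosure.isAlgebraic (ZMod p) K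
  have hA : ∀ x : K, (∃ n : ℕ, 1 ≤ n ∧ x ^ p ^ n = x) → x ∈ A := fun x hx =>
    (mem_algebraicClosure_iff (F := ZMod p) (E := K)).2 ((Q0_alg x).1 hx)
  have hφA : ∀ a : F, φ a ∈ A := by
    intro a
    have _ := Fintype.ofFinite F
    obtain ⟨n, -, hn⟩ := FiniteField.card F p
    refine hA _ ⟨n, n.2, ?_⟩
    rw [← map_pow, ← hn, FiniteField.pow_card]
  have hcA : c ∈ A := hA c hc
  let φ' : F →+* A := φ.codRestrict A hφA
  let c' : A := ⟨c, hcA⟩
  let G : A[X] := ∑ i : Fin (Module.finrank (RatFunc F) K + 1), C (c' ^ (i : ℕ)) * (b i).map φ'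
  -- `G` vanishes at the variable
  let x : K := algebraMap (RatFunc F) K RatFunc.X
  have hbx : ∀ f : F[X], algebraMap F[X] K f = f.eval₂ φ x := by
    intro f
    have h2 : algebraMap F[X] K = eval₂RingHom φ x := by
      apply Polynomial.ringHom_ext
      · intro a
        rw [coe_eval₂RingHom, eval₂_C, hφ]
        change algebraMap (RatFunc F) K (algebraMap F[X] (RatFunc F) (C a)) = _
        rw [RatFunc.algebraMap_C]
        rfl
      · rw [coe_eval₂RingHom, eval₂_X]
        change algebraMap (RatFunc F) K (algebraMap F[X] (RatFunc F) X) = _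
        rw [RatFunc.algebraMap_X]
    rw [h2, coe_eval₂RingHom]
  have hG : aeval x G = 0 := by
    rw [← hb, map_sum]
    refine sum_congr rfl fun i _ => ?_
    rw [map_mul, aeval_C, Algebra.smul_def, hbx, mul_comm]
    congr 1
    rw [aeval_def, eval₂_map]
    rfl
  have hG0 : G = 0 := by
    by_contra hne
    have h2 : IsAlgebraic A x := ⟨G, hne, hG⟩
    have h3 : IsAlgebraic (ZMod p) x := h2.restrictScalars (ZMod p)
    obtain ⟨n, hn, h4⟩ := (Q0_alg x).2 h3
    exact Q0_X n hn h4
  -- the coefficients of `G`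
  apply hj
  ext k
  rw [coeff_zero]
  by_contra hk
  refine hcon (fun i => (b i).coeff k) (fun h => hk (congrFun h j)) ?_
  have h2 := congrArg (fun g : A[X] => ((g.coeff k : A) : K)) hG0
  simp only [G, finsetSum_coeff, coeff_C_mul, coeff_map, coeff_zero] at h2
  refine Eq.trans ?_ (h2.trans rfl)
  push_cast
  refine sum_congr rfl fun i _ => ?_
  rw [mul_comm]
  rfl

theorem tQ0 : S_Cst → S_Q0 := by
  intro _ p _ K _ hK
  classical
  have hp : 1 < p := (Fact.out : p.Prime).one_lt
  obtain ⟨F, _, _, _, _, hfd, hsep⟩ := hK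
  let φ : F →+* K := (algebraMap (RatFunc F) K).comp (algebraMap F (RatFunc F))
  have hchK : CharP K p := charP_of_injective_ringHom φ.injective p
  let _ : Algebra (ZMod p) K := ZMod.algebra K p
  let A : IntermediateField (ZMod p) K := algebraicClosure (ZMod p) K
  have hA : ∀ x : K, (∃ n : ℕ, 1 ≤ n ∧ x ^ p ^ n = x) ↔ x ∈ A := fun x =>
    (Q0_alg x).trans (mem_algebraicClosure_iff (F := ZMod p) (E := K)).symm
  -- finiteness
  have hfin : (A : Set K).Finite := by
    have h1 : (A : Set K) ⊆ ⋃ a : {a : Fin (Module.finrank (RatFunc F) K + 1) → F // a ≠ 0},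
        {c : K | ∑ i, φ (a.1 i) * c ^ (i : ℕ) = 0} := by
      intro c hc
      obtain ⟨a, ha, h2⟩ := Q0_dep φ rfl c ((hA c).2 hc)
      exact Set.mem_iUnion.2 ⟨⟨a, ha⟩, h2⟩
    refine Set.Finite.subset (Set.finite_iUnion fun a => ?_) h1
    let g : K[X] := ∑ i : Fin (Module.finrank (RatFunc F) K + 1),
      C (φ (a.1 i)) * X ^ (i : ℕ)
    have hg : g ≠ 0 := by
      intro h2
      apply a.2
      funext j
      have h3 := congrArg (fun f : K[X] => f.coeff (j : ℕ)) h2
      simp only [g, finsetSum_coeff, coeff_C_mul, coeff_X_pow, coeff_zero] at h3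
      rw [sum_eq_single j] at h3
      · rw [if_pos rfl, mul_one] at h3
        exact (map_eq_zero φ).1 h3
      · intro i _ hi
        rw [if_neg fun h4 => hi (Fin.ext h4.symm), mul_zero]
      · intro h4
        exact absurd (mem_univ j) h4
    refine (g.roots.toFinset.finite_toSet).subset fun c hc => ?_
    rw [mem_coe, Multiset.mem_toFinset, mem_roots hg, IsRoot, eval_finsetSum]
    rw [← (hc : ∑ i, φ (a.1 i) * c ^ (i : ℕ) = 0)]
    refine sum_congr rfl fun i _ => ?_
    rw [eval_mul, eval_C, eval_pow, eval_X]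
  have hfinA : Finite A := hfin
  have _ := Fintype.ofFinite A
  have hchA : CharP A p := charP_of_injective_algebraMap (algebraMap (ZMod p) A).injective p
  obtain ⟨r, -, hr⟩ := FiniteField.card A p
  have hpow : ∀ x ∈ A, x ^ p ^ (r : ℕ) = x := by
    intro x hx
    have h1 := FiniteField.pow_card (⟨x, hx⟩ : A)
    rw [hr] at h1
    exact congrArg Subtype.val h1
  have hset : {x : K | x ^ p ^ (r : ℕ) = x} = (A : Set K) := by
    ext x
    exact ⟨fun h => (hA x).1 ⟨r, r.2, h⟩, fun h => hpow x h⟩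
  refine ⟨r, ⟨r.2, fun x => ⟨?_, fun h => ⟨r, r.2, ?_⟩⟩, ?_⟩, ?_⟩
  · rintro ⟨n, hn, h⟩
    apply hpow
    apply (hA x).1
    refine ⟨n, hn, (algebraMap K (Kgs K)).injective ?_⟩
    rw [map_pow]
    exact h
  · rw [← map_pow, h]
  · rw [hset, ← hr, ← Nat.card_eq_fintype_card]
    rfl
  · intro v Q ϖ R hv
    have hr1 : 1 < p ^ (r : ℕ) := Nat.one_lt_pow r.ne_zero hp
    obtain ⟨s, hs, hQ⟩ := hv.qp
    -- elements of `A` have absolute value one
    have hv1 : ∀ x ∈ A, x ≠ 0 → v x = 1 := by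
      intro x hx hx0
      have h1 := hpow x hx
      obtain ⟨m, hm⟩ : ∃ m, p ^ (r : ℕ) = m + 1 := ⟨p ^ (r : ℕ) - 1, by omega⟩
      have hxm : x ^ m = 1 := by
        rw [hm, pow_succ] at h1
        exact mul_right_cancel₀ hx0 (by rw [h1, one_mul])
      have h2 := congrArg v hxm
      rw [map_pow, map_one] at h2
      exact (pow_eq_one_iff_of_nonneg (v.nonneg x) (by omega)).1 h2
    obtain ⟨ζ, hζ⟩ := IsCyclic.exists_generator (α := Aˣ)
    have hord : orderOf ζ = p ^ (r : ℕ) - 1 := by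
      rw [orderOf_eq_card_of_forall_mem_zpowers hζ, Nat.card_units, Nat.card_eq_fintype_card, hr]
    have hQ1 : 1 ≤ Q := by
      rw [hQ]
      exact Nat.one_le_pow _ _ (by omega)
    -- the generator satisfies `c ^ Q = c`
    have hcQ : ((ζ : A) : K) ^ Q = ((ζ : A) : K) := by
      by_contra hne
      have h1 : v (((ζ : A) : K) ^ Q - ((ζ : A) : K)) = 1 :=
        hv1 _ (A.sub_mem (pow_mem (ζ : A).2 Q) (ζ : A).2) (sub_ne_zero.2 hne)
      have h2 : v ((ζ : A) : K) = 1 := hv1 _ (ζ : A).2 fun h => ζ.ne_zero (Subtype.ext h)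
      have h3 := hv.frob _ h2.le
      rw [h1] at h3
      exact lt_irrefl _ h3
    have hζQ : ζ ^ (Q - 1) = 1 := by
      have h1 : ζ ^ Q = ζ := by
        apply Units.ext
        apply Subtype.ext
        rw [Units.val_pow_eq_pow_val]
        exact hcQ
      have h2 : ζ ^ (Q - 1) * ζ = 1 * ζ := by
        rw [← pow_succ, Nat.sub_add_cancel hQ1, h1, one_mul]
      exact mul_right_cancel h2
    have hdvd : p ^ (r : ℕ) - 1 ∣ p ^ s - 1 := by
      rw [← hord, ← hQ]
      exact orderOf_dvd_of_pow_eq_one hζQ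
    have hgcd := Nat.pow_sub_one_gcd_pow_sub_one p (r : ℕ) s
    rw [Nat.gcd_eq_left hdvd] at hgcd
    have hrs : (r : ℕ) = Nat.gcd (r : ℕ) s := by
      apply Nat.pow_right_injective hp
      change p ^ (r : ℕ) = p ^ Nat.gcd (r : ℕ) s
      have h1 : 1 ≤ p ^ Nat.gcd (r : ℕ) s := Nat.one_le_pow _ _ (by omega)
      omega
    obtain ⟨d, hd⟩ : (r : ℕ) ∣ s := by
      rw [hrs]
      exact Nat.gcd_dvd_right _ _
    refine ⟨d, ?_, ?_⟩
    · by_contra h
      have : d = 0 := by omega
      rw [this, mul_zero] at hd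
      omega
    · rw [hQ, hd, pow_mul]

end Pool.Agent.MP72P
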