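import Pool.Agent.Lib.MP_72e2e6_nt.P3.R.SpecC

/-!
# MP_72e2e6_nt, theorem T3p, part R: module RCn (the count of the admissible `u`)
-/

namespace Pool.Agent.MP72P

open Polynomial IntermediateField Finset

theorem tRCn : S_Twb → S_Has → S_Res → S_TbF → S_FrL → S_Eqn → S_LDl → S_GlN → S_EqL → S_RcU →
    S_Us2 → S_Ct1 → S_Ct2 → S_RCn := by
  classical
  intro hTwb hHas hRes hTbF hFr _ hLDl hGlN hEqL hRcU hUs2 hCt1 hCt2 p _ K _ hK W _ av hPls Q ϖ R
    hLF α h hα0 hα hOn αo hαo hH2 emb T t w₀ d e hL y₀ hOk n k Λ _ π hLR hpk χ hχ U hU hinj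
  have hch : CharP K p := (hTbF p K hK).1
  have hGal : IsGalois K (Om p (OS av) K (Kgs K) α) :=
    (hTwb p (OS av) K (Kgs K) α h hα0 hα).2.2.2.2.1
  have hαo0 : αo ≠ 0 := by
    rintro rfl
    exact hα0 hαo.symm
  have hαoh : αo ^ (p - 1) = algebraMap K (Om p (OS av) K (Kgs K) α) h := by
    apply Subtype.ext
    change (αo : Kgs K) ^ (p - 1) = algebraMap K (Kgs K) h
    rw [hαo, hα]
  have hω : ChO p (omc p (K := K) αo) :=
    (hHas p K (Om p (OS av) K (Kgs K) α) αo h hαo0 hαoh).1.1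
  choose g₀ hg₀ using fun w => (hFr p K (av w) (Q w) (ϖ w) (R w) (hLF w)).1
  obtain ⟨hI, hquot⟩ := hRcU p K hK W av hPls Q ϖ R hLF α h hα0 hα hOn emb g₀ hg₀ k Λ χ hχ.loc
    hχ.one hχ.mul
  have H1 : ∀ u ∈ U, ∃ θ : (Fin d → Λ) →+ ZMod (p ^ k),
      (∀ z : Gal(Kvs (av w₀)/(av w₀).Completion) → Λ,
        Coc (fun g (x : Λ) => χ (rLo (emb w₀) g) * x) z → (∀ i, z (t w₀ i) = 0) →
          Iu p av k ϖ emb g₀ u w₀ z = θ fun j => z (e j)) ∧
        ∀ y, θ (Ts (tsL (fun w => rLo (emb w)) t w₀ e y₀) (rL χ) y) = 0 := fun u hu =>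
    hCt1 p (Gal((Om p (OS av) K (Kgs K) α)/K)) W (fun w => Gal(Kvs (av w)/(av w).Completion))
      (omc p (K := K) αo) hω hH2 (fun w => rLo (emb w)) T t w₀ d e hL y₀ hOk n Λ π hLR χ hχ
      (p ^ k) (Iu p av k ϖ emb g₀ u) (hI u (hU u hu))
  choose! θ hθ1 hθ2 using H1
  have hp : p.Prime := Fact.out
  have hne : NeZero (p ^ k) := ⟨pow_ne_zero _ hp.ne_zero⟩
  obtain ⟨hfin, hcard⟩ := hUs2 p (Gal((Om p (OS av) K (Kgs K) α)/K)) W d (omc p (K := K) αo)
    (fun w => (rLo (emb w)).range) (tsL (fun w => rLo (emb w)) t w₀ e y₀) hω hH2 hOk n Λ π hLR χ hχ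
    (p ^ k) (fun x => by rw [hpk, zero_mul])
  have hmaps : ∀ u ∈ U, θ u ∈ {θ : (Fin d → Λ) →+ ZMod (p ^ k) |
      ∀ y, θ (Ts (tsL (fun w => rLo (emb w)) t w₀ e y₀) (rL χ) y) = 0} := fun u hu => hθ2 u hu
  have hinjθ : Set.InjOn θ U := by
    intro u hu u' hu' huu
    obtain ⟨hA, hdiff⟩ := hquot u u' (hU u hu) (hU u' hu')
    have hz : ∀ (w : W) (z : Gal(Kvs (av w)/(av w).Completion) → Λ),
        Coc (fun g (x : Λ) => χ (rLo (emb w) g) * x) z →
        Iu p av k ϖ emb g₀ (fun z => u z / u' z) w z = 0 :=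
      hCt2 p (Gal((Om p (OS av) K (Kgs K) α)/K)) W (fun w => Gal(Kvs (av w)/(av w).Completion))
        (omc p (K := K) αo) hω hH2 (fun w => rLo (emb w)) T t w₀ d e hL y₀ hOk n Λ π hLR χ hχ
        (p ^ k) (Iu p av k ϖ emb g₀ fun z => u z / u' z) (hI _ hA) fun z hz hz0 => by
          rw [hdiff w₀ z hz, hθ1 u hu z hz hz0, hθ1 u' hu' z hz hz0, huu, sub_self]
    have hres := hRes p K (Om p (OS av) K (Kgs K) α) (av w₀).Completion (Kvs (av w₀))
      ((emb w₀).comp (Om p (OS av) K (Kgs K) α).val)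
    have hom : ∀ g : Gal(Kvs (av w₀)/(av w₀).Completion),
        omc p (K := K) αo (rLo (emb w₀) g) = omc p (emb w₀ α) g := by
      intro g
      have h1 := (hres.2.2.2 αo h hαo0 hαoh).1 g
      have h2 : ((emb w₀).comp (Om p (OS av) K (Kgs K) α).val) αo = emb w₀ α := by
        change emb w₀ (αo : Kgs K) = emb w₀ α
        rw [hαo]
      rw [h2] at h1
      exact h1
    have hChr : Chr π (omc p (K := (av w₀).Completion) (emb w₀ α))
        fun g => χ (rLo (emb w₀) g) :=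
      ⟨hχ.loc.comp_continuous (hL.cont w₀), by rw [map_one, hχ.one],
        fun a b => by rw [map_mul, hχ.mul], fun a => by
          rw [← hom a]
          exact hχ.red _⟩
    have hloc : ∀ x : Λ, EqN (p ^ k) (emb w₀ (u x / u' x)) 1 :=
      hLDl p K hK (av w₀) (Q w₀) (ϖ w₀) (R w₀) (hLF w₀) (g₀ w₀) (hg₀ w₀) (emb w₀ α)
        (algebraMap K (av w₀).Completion h) (by rwa [Ne, map_eq_zero])
        (by rw [← map_pow, hα, AlgHom.commutes, ← IsScalarTower.algebraMap_apply])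
        n k Λ π hLR _ hChr (fun z => emb w₀ (u z / u' z))
        (((hEqL p K W av α h hα0 hα).2.2.2 k Λ χ _ hA.eq).1 (av w₀) (emb w₀)) (hz w₀)
    refine hinj u hu u' hu' fun x => ?_
    have hux : u x / u' x ≠ 0 := hA.eq.ne x
    have h3 := hloc x
    rw [← map_one (emb w₀)] at h3
    obtain ⟨s, hs0, hs⟩ := hGlN p K hK (av w₀) (Q w₀) (ϖ w₀) (R w₀) (hLF w₀) (emb w₀) k
      (u x / u' x) 1 hux one_ne_zero h3
    refine ⟨s, hs0, ?_⟩
    have hu'x : u' x ≠ 0 := (hU u' hu').eq.ne x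
    rw [one_mul, div_eq_iff hu'x] at hs
    rw [hs, mul_comm]
  refine ⟨Set.Finite.of_injOn hmaps hinjθ hfin, ?_⟩
  rw [← hcard]
  exact Nat.mul_le_mul_right _ (Set.ncard_le_ncard_of_injOn θ hmaps hinjθ hfin)

end Pool.Agent.MP72P
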