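import Pool.Agent.Lib.MP_72e2e6_nt.P3.R.SpecD

/-!
# MP_72e2e6_nt, theorem T3p, part R: the count in terms of `GS`
-/

namespace Pool.Agent.MP72P

open Polynomial IntermediateField Finset

theorem tRCs (h1 : S_TbF) (h2 : S_Dsc) (h3 : S_Hst) (h4 : S_Onr) (h5 : S_RCn) : S_RCs := by
  intro p _ K _ hK J av α h hS emb T t w₀ d e hL y₀ hOk n k Λ _ π hLR hpk χ hχ U hU hU'
  have : CharP K p := (h1 p K hK).1
  have : Finite J := hS.fin
  let _ : Fintype J := Fintype.ofFinite J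
  obtain ⟨_, _, hGal, hα0, halo, _, hCh, hH2, _⟩ := h3 p K hK J av α h hS
  have hLF : ∀ w, ∃ (Q : ℕ) (ϖ : K) (R : Finset K), LF (av w) p Q ϖ R := fun w =>
    h2 p K hK (av w) (hS.pls.ntr w)
  choose Q ϖ R hLF using hLF
  have hOn : OnU p av α := fun v hv1 hv2 Q' ϖ' R' _ ι g hg =>
    (h4 p K hK J av α h hS v hv1 hv2 ι).2.2 g hg
  exact h5 p K hK J av hS.pls Q ϖ R hLF α h hα0 hS.al hOn (alo p av α) halo hH2 emb T t w₀ d e hL
    y₀ hOk n k Λ π hLR hpk χ hχ U hU hU'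

end Pool.Agent.MP72P
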