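import Pool.Agent.Lib.MP_72e2e6_nt.P3.R.SpecC

/-!
# MP_72e2e6_nt, theorem T3p, part R: the local invariants of an admissible `u`
-/

namespace Pool.Agent.MP72P

open Polynomial IntermediateField Finset

/-- The statement for the data at one place. -/
private theorem rcU_inl {p : ℕ} [Fact p.Prime] (hIvl : S_Ivl) (hEqc : S_Eqc) {K : Type} [Field K]
    [CharP K p] (hG : GFld p K) {v : AbsoluteValue K ℝ} {Q : ℕ} {ϖ : K} {R : Finset K}
    (hLF : LF v p Q ϖ R) (k : ℕ) (g₀ : Gal(Kvs v/v.Completion)) {Λ : Type} [CommRing Λ]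
    {χ : Gal(Kvs v/v.Completion) → Λ} {u : Λ → Kvs v} (hu : EqH (p ^ k) actG χ u)
    {z z' : Gal(Kvs v/v.Completion) → Λ} (hz : Coc (fun g (x : Λ) => χ g * x) z)
    (hz' : Coc (fun g (x : Λ) => χ g * x) z') :
    inl p v k ϖ g₀ (fun g => u (z g + z' g)) =
      inl p v k ϖ g₀ (fun g => u (z g)) + inl p v k ϖ g₀ (fun g => u (z' g)) := by
  have hE := (hEqc p K k Λ).2 v χ u hu
  have hs : Coc (fun g (x : Λ) => χ g * x) (fun g => z g + z' g) := by
    refine ⟨hz.loc.comp₂ hz'.loc (fun a b => a + b), fun a b => ?_⟩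
    rw [hz.mul, hz'.mul]
    ring
  have h1 := hE.1 z hz
  have h2 := hE.1 z' hz'
  have h3 := hE.1 _ hs
  obtain ⟨-, h4, h5, -⟩ := hIvl p K hG v Q ϖ R hLF k g₀ _ _ h1 h2
  obtain ⟨-, -, -, h6, -⟩ := hIvl p K hG v Q ϖ R hLF k g₀ _ _ h4 h3
  rw [h6 fun g => hu.add _ _, h5]

theorem tRcU (_ : S_Lc1) (hLc2 : S_Lc2) (hTbF : S_TbF) (hFr : S_FrL) (hEqn : S_Eqn)
    (hIvl : S_Ivl) (hEqc : S_Eqc) (hRec : S_Rec) (hEqL : S_EqL) (hUnr : S_Unr) : S_RcU := by
  intro p _ K _ hG W _ av hPls Q ϖ R hLF α h hα hαh hOn emb g₀ hg₀ k Λ _ χ hχl hχ1 hχm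
  have hp : p.Prime := Fact.out
  have : CharP K p := (hTbF p K hG).1
  have : NeZero (p ^ k) := ⟨pow_ne_zero _ hp.ne_zero⟩
  obtain ⟨-, hcL, -, hrest⟩ := hEqL p K W av α h hα hαh
  -- crossed homomorphisms which are coboundaries
  have hcob : ∀ w (a : Λ), Coc (fun (g : Gal(Kvs (av w)/(av w).Completion)) (x : Λ) =>
      χ (rLo (emb w) g) * x) (fun g => a - χ (rLo (emb w) g) * a) := by
    intro w a
    refine ⟨?_, fun b c => ?_⟩
    · exact (hχl.comp_continuous (hcL (av w) (emb w))).comp (fun x => a - x * a)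
    · rw [map_mul, hχm]
      ring
  refine ⟨fun u hu => ?_, fun u u' hu hu' => ?_⟩
  · obtain ⟨hloc, hnco, hlcl, -⟩ := hrest k Λ χ u hu.eq
    refine ⟨fun w z z' hz hz' => ?_, fun w a => ?_, fun Z hZ => ?_⟩
    · exact rcU_inl hIvl hEqc hG (hLF w) k (g₀ w) (hloc (av w) (emb w)) hz hz'
    · have hE := (hEqc p K k Λ).2 (av w) _ _ (hloc (av w) (emb w))
      have hy : (emb w (u a))⁻¹ ≠ 0 := inv_ne_zero ((hloc (av w) (emb w)).ne a)
      have h1 := hE.1 _ (hcob w a)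
      obtain ⟨-, -, -, -, h5, -⟩ := hIvl p K hG (av w) (Q w) (ϖ w) (R w) (hLF w) k (g₀ w) _ _ h1 h1
      obtain ⟨h6, h7⟩ := h5 _ hy
      obtain ⟨-, -, -, h8, -⟩ := hIvl p K hG (av w) (Q w) (ϖ w) (R w) (hLF w) k (g₀ w) _ _ h6 h1
      exact (h8 fun g => hE.2.2.1 a g).trans h7
    · -- reciprocity
      have hzc : ∀ w, Coc (fun (g : Gal(Kvs (av w)/(av w).Completion)) (x : Λ) =>
          χ (rLo (emb w) g) * x) (fun g => Z (rLo (emb w) g)) := by
        intro w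
        refine ⟨hZ.loc.comp_continuous (hcL (av w) (emb w)), fun a b => ?_⟩
        rw [map_mul, hZ.mul]
      obtain ⟨x, hx⟩ : ∃ x : W → ℤ, ∀ w, x w =
          ((Iu p av k ϖ emb g₀ u w (fun g => Z (rLo (emb w) g))).val : ℤ) := ⟨_, fun _ => rfl⟩
      have hx' : ∀ w, Iu p av k ϖ emb g₀ u w (fun g => Z (rLo (emb w) g)) =
          ((x w : ℤ) : ZMod (p ^ k)) := by
        intro w
        rw [hx w, Int.cast_natCast, ZMod.natCast_zmod_val]
      have hLV : ∀ w, LV p (av w) (p ^ k) (ϖ w) (g₀ w)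
          (lcl (emb w) fun σ => u (Z (rGo σ))) (x w) := by
        intro w
        rw [hlcl Z (av w) (emb w)]
        have hE := (hEqc p K k Λ).2 (av w) _ _ (hloc (av w) (emb w))
        have h1 := hE.1 _ (hzc w)
        obtain ⟨h2, -⟩ := hIvl p K hG (av w) (Q w) (ϖ w) (R w) (hLF w) k (g₀ w) _ _ h1 h1
        exact (h2 (x w)).2 (hx' w)
      have hdvd := hRec p K hG k (fun σ => u (Z (rGo σ))) (hnco Z hZ) W av hPls (by
        intro v hv hne Q' ϖ' R' hLF'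
        obtain ⟨g, hg⟩ := (hFr p K v Q' ϖ' R' hLF').1
        let ι : Kgs K →ₐ[K] Kvs v := IsSepClosed.lift
        exact ⟨ι, g, hg, hUnr p K hG W av α h hα hαh hOn k Λ χ u hχ1 hu Z hZ v hv hne Q' ϖ' R' hLF'
          ι g⟩) Q ϖ R hLF emb g₀ hg₀ x hLV
      have h3 : ∑ w, Iu p av k ϖ emb g₀ u w (fun g => Z (rLo (emb w) g)) =
          ((∑ w, x w : ℤ) : ZMod (p ^ k)) := by
        rw [Int.cast_sum]
        exact Finset.sum_congr rfl fun w _ => hx' w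
      rw [h3, ZMod.intCast_zmod_eq_zero_iff_dvd]
      push_cast
      exact hdvd
  · obtain ⟨hloc, -, -, hquo⟩ := hrest k Λ χ u hu.eq
    obtain ⟨hloc', -, -, -⟩ := hrest k Λ χ u' hu'.eq
    have hq := hquo u' hu'.eq
    obtain ⟨hlocq, -, -, -⟩ := hrest k Λ χ _ hq
    refine ⟨⟨hq, ?_⟩, ?_⟩
    · intro v hv hne Q' ϖ' R' hLF' ι z
      obtain ⟨-, hnm0, hnmm, -, -, -, -, -, -, hchar⟩ := hLc2 p K v Q' ϖ' R' hLF'
      obtain ⟨r, hr, hr0, hr1, x, hx1, hx2⟩ := hu.unr v hv hne Q' ϖ' R' hLF' ι z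
      obtain ⟨r', hr', hr'0, hr'1, x', hx'1, hx'2⟩ := hu'.unr v hv hne Q' ϖ' R' hLF' ι z
      refine ⟨r / r', div_mem hr hr', div_ne_zero hr0 hr'0, ?_, x - x', ?_, dvd_sub hx2 hx'2⟩
      · rw [map_div₀]
        have := hchar
        exact ((hEqn p (Kvs v) k).2.2.2.1 _ _ _ _ hr1 hr'1).2
      · have h1 : nm v (r / r') * nm v r' = nm v r := by rw [← hnmm, div_mul_cancel₀ _ hr'0]
        have h2 : nm v r' ≠ 0 := fun h3 => hr'0 ((hnm0 r').1 h3)
        have h3 : v ϖ' ≠ 0 := hLF'.pi0.ne'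
        rw [eq_div_of_mul_eq h2 h1, hx1, hx'1, ← zpow_sub₀ h3]
    · intro w z hz
      have hE := (hEqc p K k Λ).2 (av w) _ _ (hlocq (av w) (emb w))
      have hE' := (hEqc p K k Λ).2 (av w) _ _ (hloc' (av w) (emb w))
      have h1 := hE.1 z hz
      have h2 := hE'.1 z hz
      obtain ⟨-, -, h3, -⟩ := hIvl p K hG (av w) (Q w) (ϖ w) (R w) (hLF w) k (g₀ w) _ _ h1 h2
      have h4 : (fun g => emb w (u (z g) / u' (z g)) * emb w (u' (z g))) =
          fun g => emb w (u (z g)) := by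
        funext g
        rw [← map_mul, div_mul_cancel₀ _ (hu'.eq.ne _)]
      rw [h4] at h3
      exact (eq_sub_of_add_eq h3.symm)

end Pool.Agent.MP72P
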