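import Pool.Agent.Lib.MP_72e2e6_nt.P3.R.SpecB

/-!
# MP_72e2e6_nt, theorem T3p, part R: the reciprocity law
-/

namespace Pool.Agent.MP72P

open Polynomial IntermediateField Finset

/-- The product formula in terms of exponents. -/
private theorem rec_exp {J : Type} [Fintype J] (q : ℝ) (hq : 1 < q) (Q : J → ℕ) (d : J → ℕ)
    (hQ : ∀ j, (Q j : ℝ) = q ^ d j) (y : J → ℤ) :
    ∏ j, (Q j : ℝ) ^ y j = q ^ ∑ j, (d j : ℤ) * y j := by
  have hq0 : q ≠ 0 := by linarith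
  have h1 : ∀ s : Finset J, ∏ j ∈ s, (Q j : ℝ) ^ y j = q ^ ∑ j ∈ s, (d j : ℤ) * y j := by
    classical
    intro s
    induction s using Finset.induction_on with
    | empty => simp
    | insert i s hi ih =>
      rw [Finset.prod_insert hi, ih, Finset.sum_insert hi, zpow_add₀ hq0, hQ i, ← zpow_natCast,
        ← zpow_mul]
  exact h1 _

/-- **Rec**. The reciprocity law. -/
theorem tRec : S_Lc1 → S_Lc2 → S_Nr → S_FrG → S_Rho → S_LvU → S_Val → S_Q0 → S_Nmr → S_Odn →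
    S_PF → S_TbF → S_Rec := by
  intro _ _ hNr hFrG hRho hLvU hVal hQ0 hNmr hOdn hPF hTbF p _ K _ hG k μ hμ J _ av hav hout Q ϖ R
    hLF ι g₀ hg₀ x hx
  have hch : CharP K p := (hTbF p K hG).1
  have hp : p.Prime := Fact.out
  obtain ⟨r, hr, hrQ⟩ := hQ0 p K hG
  obtain ⟨⟨Fr, hFr⟩, -⟩ := hFrG p K (p ^ r) r hr.1 rfl hr.2.1
  obtain ⟨Y, hY, hgeo, hF⟩ := hRho p K hG k μ hμ
  obtain ⟨ρ, hρ, hρK, hfr⟩ := hF Fr
  obtain ⟨n, hn1, hnρ, y, hy0, hy⟩ := hNmr p K r hr Fr hFr ρ hρK hρ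
  have hFrgeo : ∀ (σ : Gal(Kgs K/K)), ∀ z ∈ Kgeo p K, σ z ∈ Kgeo p K := by
    intro σ z hz
    have hsub : Kgeo p K ≤ (Kgeo p K).comap (σ : Kgs K →ₐ[K] Kgs K) := by
      conv_lhs => unfold Kgeo
      rw [adjoin_le_iff]
      rintro c ⟨m, hm, e⟩
      refine subset_adjoin _ _ ⟨m, hm, ?_⟩
      show (σ c) ^ p ^ m = σ c
      rw [← map_pow, e]
    exact hsub hz
  -- the local statement
  have loc : ∀ (v : AbsoluteValue K ℝ) (Q : ℕ) (ϖ : K) (R : Finset K), LF v p Q ϖ R →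
      ∀ ι : Kgs K →ₐ[K] Kvs v, ∃ (d : ℕ) (X y' : ℤ), 1 ≤ d ∧ Q = (p ^ r) ^ d ∧
        v y = v ϖ ^ y' ∧ (d : ℤ) * y' = n * X ∧
        ∀ g : Gal(Kvs v/v.Completion), IsFro p Q g → ∀ x₁ : ℤ,
          LV p v (p ^ k) ϖ g (lcl ι μ) x₁ → (p : ℤ) ^ k ∣ x₁ - X := by
    intro v Q ϖ R hv ι
    obtain ⟨n1, -, -, n4, -⟩ := hNr p K v Q ϖ R hv
    obtain ⟨d, hd, hdQ⟩ := hrQ v Q ϖ R hv
    have hgeo' : ∀ z ∈ Kgeo p K, ι z ∈ Knr p v := by
      intro z hz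
      have hsub : Kgeo p K ≤ ((Knr p v).restrictScalars K).comap ι := by
        unfold Kgeo
        rw [adjoin_le_iff]
        rintro c ⟨m, hm, e⟩
        exact n4 _ ⟨m, hm, by rw [← map_pow, e]⟩
      exact hsub hz
    have p1 : ∏ i ∈ Finset.range d, ι ((Fr ^ i) ρ) ≠ 0 := by
      rw [Finset.prod_ne_zero_iff]
      intro i _
      exact (map_ne_zero ι).2 ((map_ne_zero (Fr ^ i)).2 hρ)
    have p2 : ∏ i ∈ Finset.range d, ι ((Fr ^ i) ρ) ∈ Knr p v :=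
      prod_mem fun i _ => hgeo' _ (hFrgeo _ _ hρK)
    obtain ⟨X, hX⟩ := n1 _ p2 p1
    obtain ⟨y', hy'⟩ := hv.disc y hy0
    refine ⟨d, X, y', hd, hdQ, hy', ?_, ?_⟩
    · exact hOdn p K r hr Fr hFr ρ hρK hρ n y hnρ hy v Q d ϖ R hv hdQ ι X y' hX hy'
    · intro g hg x₁ hx₁
      have h1 := (hVal p K hG (p ^ r) Fr hFr k μ hμ v Q d ϖ R hv hdQ ι g hg).1 Y ρ hY hρ hρK
        hgeo hfr X hX
      exact hLvU p K v Q ϖ R hv k g (lcl ι μ) x₁ X hx₁ h1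
  have hJ := fun j => loc (av j) (Q j) (ϖ j) (R j) (hLF j) (ι j)
  choose d X y' hd hdQ hy' hdy hdvd using hJ
  obtain ⟨J', _, av', Q', ϖ', R', y'', hne, hLF', hy'', hprod⟩ :=
    hPF p K hG y hy0 J av hav Q ϖ R hLF y' hy'
  have hJ' : ∀ i : J', ∃ (d : ℕ) (X : ℤ), Q' i = (p ^ r) ^ d ∧ (d : ℤ) * y'' i = n * X ∧
      (p : ℤ) ^ k ∣ X := by
    intro i
    obtain ⟨ι', g', hg', x', hx', hx'd⟩ := hout (av' i) (hne i).1 (hne i).2 _ _ _ (hLF' i)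
    obtain ⟨d, X, z, -, h2, h3, h4, h5⟩ := loc (av' i) _ _ _ (hLF' i) ι'
    have h6 : z = y'' i := by
      have hinj : Function.Injective (fun k : ℤ => ((av' i) (ϖ' i)) ^ k) :=
        zpow_right_injective₀ (hLF' i).pi0 (hLF' i).pi1.ne
      apply hinj
      show ((av' i) (ϖ' i)) ^ z = ((av' i) (ϖ' i)) ^ y'' i
      rw [← h3, hy'' i]
    rw [h6] at h4
    have h7 := dvd_sub hx'd (h5 g' hg' x' hx')
    rw [sub_sub_cancel] at h7
    exact ⟨d, X, h2, h4, h7⟩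
  choose d' X' hdQ' hdy' hdvd' using hJ'
  -- the product formula
  have hq : (1 : ℝ) < ((p ^ r : ℕ) : ℝ) := by
    exact_mod_cast Nat.one_lt_pow (by have := hr.1; omega) hp.one_lt
  rw [rec_exp ((p ^ r : ℕ) : ℝ) hq Q d (fun j => by rw [hdQ j]; push_cast; rfl) y',
    rec_exp ((p ^ r : ℕ) : ℝ) hq Q' d' (fun j => by rw [hdQ' j]; push_cast; rfl) y'',
    ← zpow_add₀ (by linarith)] at hprod
  have hsum : ∑ j, (d j : ℤ) * y' j + ∑ i, (d' i : ℤ) * y'' i = 0 := by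
    have hinj : Function.Injective (fun k : ℤ => ((p ^ r : ℕ) : ℝ) ^ k) :=
      zpow_right_injective₀ (by linarith) hq.ne'
    apply hinj
    show ((p ^ r : ℕ) : ℝ) ^ _ = ((p ^ r : ℕ) : ℝ) ^ (0 : ℤ)
    rw [hprod, zpow_zero]
  have h1 : ∑ j, (d j : ℤ) * y' j = n * ∑ j, X j := by
    rw [Finset.mul_sum]
    exact Finset.sum_congr rfl fun j _ => hdy j
  have h2 : ∑ i, (d' i : ℤ) * y'' i = n * ∑ i, X' i := by
    rw [Finset.mul_sum]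
    exact Finset.sum_congr rfl fun j _ => hdy' j
  rw [h1, h2, ← mul_add] at hsum
  have hn0 : (n : ℤ) ≠ 0 := by
    have : n ≠ 0 := by omega
    exact_mod_cast this
  have h3 : ∑ j, X j + ∑ i, X' i = 0 := (mul_eq_zero.1 hsum).resolve_left hn0
  have h4 : (p : ℤ) ^ k ∣ ∑ i, X' i := Finset.dvd_sum fun i _ => hdvd' i
  have h5 : (p : ℤ) ^ k ∣ ∑ j, (x j - X j) :=
    Finset.dvd_sum fun j _ => hdvd j (g₀ j) (hg₀ j) (x j) (hx j)
  have h6 : ∑ j, x j = ∑ j, (x j - X j) - ∑ i, X' i := by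
    rw [Finset.sum_sub_distrib]
    linear_combination h3
  rw [h6]
  exact dvd_sub h5 h4

end Pool.Agent.MP72P
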