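import Pool.Agent.Lib.MP_72e2e6_nt.P3.R.SpecA

/-!
# MP_72e2e6_nt, theorem T3p, part R: module TS
-/

namespace Pool.Agent.MP72P

open Polynomial IntermediateField

private theorem TS_lc {K L : Type} [Field K] [Field L] [Algebra K L] [Algebra.IsIntegral K L]
    (x : L) : IsLocallyConstant fun σ : Gal(L/K) => σ x := by
  have : FiniteDimensional K K⟮x⟯ :=
    IntermediateField.adjoin.finiteDimensional (Algebra.IsIntegral.isIntegral x)
  have hop := IntermediateField.fixingSubgroup_isOpen K⟮x⟯ (L := L) (K := K)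
  rw [IsLocallyConstant.iff_exists_open]
  intro σ
  refine ⟨(fun τ => σ⁻¹ * τ) ⁻¹' (K⟮x⟯.fixingSubgroup : Set Gal(L/K)),
    hop.preimage (continuous_const_mul _), ?_, ?_⟩
  · simp only [Set.mem_preimage, inv_mul_cancel]
    exact one_mem K⟮x⟯.fixingSubgroup
  · intro τ hτ
    have h1 : (σ⁻¹ * τ) x = x := by
      have h2 : σ⁻¹ * τ ∈ K⟮x⟯.fixingSubgroup := hτ
      rw [IntermediateField.mem_fixingSubgroup_iff] at h2
      exact h2 x (IntermediateField.mem_adjoin_simple_self K x)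
    have h3 : σ ((σ⁻¹ * τ) x) = τ x := by
      rw [← AlgEquiv.mul_apply, mul_inv_cancel_left]
    rw [← h3, h1]

private theorem TS_inj {p : ℕ} [Fact p.Prime] {L : Type} [Field L] [CharP L p] {a b : L}
    (h : a ^ p = b ^ p) : a = b :=
  frobenius_inj L p (by simpa [frobenius_def] using h)

theorem tTS (hH90 : S_RH90) (hTba : S_Tba) (hTbp : S_Tbp) (hTbK : S_TbK) (hTbF : S_TbF)
    (hCGe : S_CGe) : S_TS := by
  intro p _ K _ hK k
  obtain ⟨hch, ⟨t0, ht0⟩, -⟩ := hTbF p K hK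
  have : CharP (Kgs K) p := charP_of_injective_algebraMap (algebraMap K (Kgs K)).injective p
  have hTb : TBp p (Kgs K) (tG t0) := hTbK p K (Kgs K) t0 ht0
  obtain ⟨-, -, -, -, -, -, T7, -, -, -, -⟩ := hTba p (Kgs K) (tG t0) hTb
  obtain ⟨P1, P2, P3, P4, P5, P6⟩ := hTbp p (Kgs K) (tG t0) hTb
  obtain ⟨-, hC⟩ := hCGe p K hK t0 ht0
  have hσt : ∀ σ : Gal(Kgs K/K), (σ : Kgs K →+* Kgs K) (tG t0) = tG t0 := by
    intro σ
    exact σ.commutes _
  have hCsub : ∀ x y : Kgs K, Ca p (tG t0) (x - y) = Ca p (tG t0) x - Ca p (tG t0) y := by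
    intro x y
    have h1 := T7 (x - y) y
    rw [sub_add_cancel] at h1
    rw [h1]
    ring
  induction k with
  | zero =>
    intro μ hl h0 hm
    refine ⟨1, one_ne_zero, fun σ => ⟨μ σ, h0 σ, ?_⟩⟩
    simp
  | succ k ih =>
    intro μ hl h0 hm
    set t : Kgs K := tG t0 with ht
    set a : (Kgeo p K).fixingSubgroup → Kgs K := fun σ => Lg p t (μ σ) with ha
    have hLp : ∀ s : Kgs K, s ≠ 0 → Lg p t (s ^ p) = 0 := fun s hs =>
      (P3 _ (pow_ne_zero _ hs)).2 ⟨s, rfl⟩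
    have hP6 : ∀ (σ : Gal(Kgs K/K)) (x : Kgs K), Ca p t (σ x) = σ (Ca p t x) ∧
        Lg p t (σ x) = σ (Lg p t x) := by
      intro σ x
      have h1 := P6 (Kgs K) (σ : Kgs K →+* Kgs K) (by rw [hσt σ]; exact hTb) x
      rw [hσt σ] at h1
      exact h1.2
    have hLσ : ∀ (σ : Gal(Kgs K/K)) (x : Kgs K), Lg p t (σ x) = σ (Lg p t x) := fun σ x =>
      (hP6 σ x).2
    have hCσ : ∀ (σ : Gal(Kgs K/K)) (x : Kgs K), Ca p t (σ x) = σ (Ca p t x) := fun σ x =>
      (hP6 σ x).1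
    have haloc : IsLocallyConstant a := hl.comp (Lg p t)
    have hacoc : ∀ σ τ : (Kgeo p K).fixingSubgroup,
        a (σ * τ) = a σ + (σ : Gal(Kgs K/K)) (a τ) := by
      intro σ τ
      obtain ⟨s, hs, h⟩ := hm σ τ
      have hστ : (σ : Gal(Kgs K/K)) (μ τ) ≠ 0 := by simpa using h0 τ
      simp only [ha]
      rw [h, P1 _ _ (mul_ne_zero (h0 σ) hστ) (pow_ne_zero _ hs), P1 _ _ (h0 σ) hστ, hLσ]
      rw [pow_succ, pow_mul, hLp _ (pow_ne_zero _ hs), add_zero]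
    obtain ⟨e, he⟩ := (hH90 K (Kgs K) (Kgeo p K)).2 a haloc hacoc
    have he' : ∀ σ : (Kgeo p K).fixingSubgroup, (σ : Gal(Kgs K/K)) e = a σ + e := by
      intro σ
      rw [he σ]; ring
    have hCa : ∀ σ, Ca p t (a σ) = a σ := fun σ => P4 _ (h0 σ)
    have hmemG : ∀ x : Kgs K, (∀ σ : (Kgeo p K).fixingSubgroup,
        (σ : Gal(Kgs K/K)) x = x) → x ∈ Kgeo p K := by
      intro x hx
      rw [← InfiniteGalois.fixedField_fixingSubgroup (Kgeo p K)]
      rw [IntermediateField.mem_fixedField_iff]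
      intro σ hσ
      exact hx ⟨σ, hσ⟩
    have hfixG : ∀ x ∈ Kgeo p K, ∀ σ : (Kgeo p K).fixingSubgroup,
        (σ : Gal(Kgs K/K)) x = x := by
      intro x hx σ
      have := σ.2
      rw [IntermediateField.mem_fixingSubgroup_iff] at this
      exact this x hx
    have heG : Ca p t e - e ∈ Kgeo p K := by
      apply hmemG
      intro σ
      rw [map_sub, ← hCσ, he' σ, T7, hCa]
      ring
    obtain ⟨h, hhG, hh⟩ := hC _ heG
    set e₁ := e - h with he₁
    have hCe₁ : Ca p t e₁ = e₁ := by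
      rw [he₁, hCsub]
      linear_combination -hh
    have hae₁ : ∀ σ : (Kgeo p K).fixingSubgroup,
        a σ = (σ : Gal(Kgs K/K)) e₁ - e₁ := by
      intro σ
      rw [he₁, map_sub, hfixG h hhG σ, he' σ]
      ring
    obtain ⟨Y₀, hY₀, hLY₀⟩ := P5 e₁ hCe₁
    have hσY₀ : ∀ σ : (Kgeo p K).fixingSubgroup, (σ : Gal(Kgs K/K)) Y₀ ≠ 0 := by
      intro σ
      simpa using hY₀
    set b : (Kgeo p K).fixingSubgroup → Kgs K :=
      fun σ => μ σ * Y₀ / (σ : Gal(Kgs K/K)) Y₀ with hb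
    have hb0 : ∀ σ, b σ ≠ 0 := fun σ => div_ne_zero (mul_ne_zero (h0 σ) hY₀) (hσY₀ σ)
    have hbsq : ∀ σ, ∃ s, b σ = s ^ p := by
      intro σ
      rw [← P3 _ (hb0 σ)]
      simp only [hb]
      rw [div_eq_mul_inv, P1 _ _ (mul_ne_zero (h0 σ) hY₀) (inv_ne_zero (hσY₀ σ)),
        P1 _ _ (h0 σ) hY₀, P2 _ (hσY₀ σ), hLσ, hLY₀]
      have h1 := hae₁ σ
      simp only [ha] at h1
      rw [h1]
      ring
    classical
    set f : Kgs K → Kgs K := fun x => if h : ∃ s, x = s ^ p then h.choose else 0 with hf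
    set ν : (Kgeo p K).fixingSubgroup → Kgs K := fun σ => f (b σ) with hν
    have hν1 : ∀ σ, b σ = ν σ ^ p := by
      intro σ
      have hex := hbsq σ
      have h1 : ν σ = hex.choose := by
        simp only [hν, hf]
        rw [dif_pos hex]
      rw [h1]
      exact hex.choose_spec
    have hp0 : p ≠ 0 := (Fact.out : p.Prime).ne_zero
    have hν0 : ∀ σ, ν σ ≠ 0 := by
      intro σ h1
      have h2 := hν1 σ
      rw [h1, zero_pow hp0] at h2
      exact hb0 σ h2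
    have hbloc : IsLocallyConstant b := by
      have h1 : IsLocallyConstant fun σ : (Kgeo p K).fixingSubgroup =>
          (σ : Gal(Kgs K/K)) Y₀ :=
        (TS_lc (K := K) (L := Kgs K) Y₀).comp_continuous continuous_subtype_val
      exact hl.comp₂ h1 (fun x y => x * Y₀ / y)
    have hνloc : IsLocallyConstant ν := hbloc.comp f
    have hνcoc : ∀ σ τ : (Kgeo p K).fixingSubgroup,
        EqN (p ^ k) (ν (σ * τ)) (ν σ * (σ : Gal(Kgs K/K)) (ν τ)) := by
      intro σ τ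
      obtain ⟨s, hs, h⟩ := hm σ τ
      refine ⟨s, hs, ?_⟩
      apply TS_inj (p := p)
      rw [mul_pow, mul_pow, ← map_pow, ← hν1, ← hν1, ← hν1]
      simp only [hb]
      have h2 : ((σ * τ : (Kgeo p K).fixingSubgroup) : Gal(Kgs K/K)) Y₀ =
        (σ : Gal(Kgs K/K)) ((τ : Gal(Kgs K/K)) Y₀) := rfl
      have h3 : (σ : Gal(Kgs K/K)) ((τ : Gal(Kgs K/K)) Y₀) ≠ 0 := by
        simpa using hY₀
      have h4 := hσY₀ σ
      rw [h, h2, map_div₀, map_mul, pow_succ (p : ℕ), pow_mul]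
      field_simp
    obtain ⟨Y₁, hY₁, hY₁'⟩ := ih ν hνloc hν0 hνcoc
    refine ⟨Y₀ * Y₁ ^ p, mul_ne_zero hY₀ (pow_ne_zero _ hY₁), ?_⟩
    intro σ
    obtain ⟨s, hs, h⟩ := hY₁' σ
    refine ⟨s, hs, ?_⟩
    have h1 := hν1 σ
    rw [h] at h1
    simp only [hb] at h1
    have h2 := hσY₀ σ
    have h3 : (σ : Gal(Kgs K/K)) Y₁ ≠ 0 := by simpa using hY₁
    have h4 : μ σ = (σ : Gal(Kgs K/K)) Y₀ / Y₀ *
        ((σ : Gal(Kgs K/K)) Y₁ / Y₁ * s ^ p ^ k) ^ p := by
      rw [← h1]; field_simp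
    rw [h4, map_mul, map_pow, pow_succ (p : ℕ), pow_mul, mul_pow, div_pow]
    field_simp

end Pool.Agent.MP72P
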