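import Pool.Agent.Lib.MP_72e2e6_nt.P3.R.SpecA

/-!
# MP_72e2e6_nt, theorem T3p, part R: `p`-bases of global function fields
-/

namespace Pool.Agent.MP72P

open Polynomial IntermediateField Finset

/-- `f` has coordinates with respect to `t` -/
private def tbf_S (p : ℕ) {L : Type} [Field L] (t f : L) : Prop :=
  ∃ a : ℕ → L, f = ∑ i ∈ range p, t ^ i * a i ^ p

section

variable {p : ℕ} [Fact p.Prime] {L : Type} [Field L] [CharP L p] {t : L}

private theorem tbf_add {f g : L} (hf : tbf_S p t f) (hg : tbf_S p t g) :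
    tbf_S p t (f + g) := by
  obtain ⟨a, ha⟩ := hf
  obtain ⟨b, hb⟩ := hg
  refine ⟨fun i => a i + b i, ?_⟩
  rw [ha, hb, ← Finset.sum_add_distrib]
  refine Finset.sum_congr rfl fun i _ => ?_
  rw [add_pow_char, mul_add]

private theorem tbf_mul {f : L} (b : L) (hf : tbf_S p t f) : tbf_S p t (b ^ p * f) := by
  obtain ⟨a, ha⟩ := hf
  refine ⟨fun i => b * a i, ?_⟩
  rw [ha, Finset.mul_sum]
  refine Finset.sum_congr rfl fun i _ => ?_
  rw [mul_pow]
  ring

private theorem tbf_zero : tbf_S p t (0 : L) := by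
  refine ⟨fun _ => 0, ?_⟩
  rw [Finset.sum_eq_zero]
  intro i _
  rw [zero_pow (Fact.out : p.Prime).ne_zero, mul_zero]

private theorem tbf_pow (n : ℕ) : tbf_S p t (t ^ n) := by
  classical
  have hp : p.Prime := Fact.out
  have h1 : tbf_S p t (t ^ (n % p)) := by
    refine ⟨fun i => if i = n % p then 1 else 0, ?_⟩
    rw [Finset.sum_eq_single (n % p)]
    · show t ^ (n % p) = t ^ (n % p) * (if n % p = n % p then 1 else 0) ^ p
      rw [if_pos rfl, one_pow, mul_one]
    · intro i _ hi
      show t ^ i * (if i = n % p then 1 else 0) ^ p = 0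
      rw [if_neg hi, zero_pow hp.ne_zero, mul_zero]
    · intro h
      exact absurd (Finset.mem_range.2 (Nat.mod_lt n hp.pos)) h
  have h2 := tbf_mul (t ^ (n / p)) h1
  rw [← pow_mul, ← pow_add] at h2
  have h3 : n / p * p + n % p = n := by
    rw [Nat.mul_comm]
    exact Nat.div_add_mod n p
  rw [h3] at h2
  exact h2

private theorem tbf_poly {R : Type} [CommRing R] (φ : R →+* L) (hφ : ∀ c : R, ∃ s : L, φ c = s ^ p)
    (g : R[X]) : tbf_S p t (g.eval₂ φ t) := by
  induction g using Polynomial.induction_on' with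
  | add f g hf hg =>
    rw [eval₂_add]
    exact tbf_add hf hg
  | monomial n c =>
    rw [eval₂_monomial]
    obtain ⟨s, hs⟩ := hφ c
    rw [hs]
    exact tbf_mul s (tbf_pow n)

end

/-- the variable is a `p`-basis of the field of rational functions -/
private theorem tbf_rat {p : ℕ} [Fact p.Prime] {F : Type} [Field F] [Finite F] [CharP F p] :
    TBp p (RatFunc F) RatFunc.X := by
  have hp : p.Prime := Fact.out
  have hF : ∀ c : F, ∃ s : F, s ^ p = c := by
    have h1 : Function.Injective (frobenius F p) := frobenius_inj F p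
    have h2 := (Finite.injective_iff_surjective.1 h1)
    exact fun c => h2 c
  have hφ : ∀ c : F, ∃ s : RatFunc F, algebraMap F (RatFunc F) c = s ^ p := by
    intro c
    obtain ⟨s, hs⟩ := hF c
    exact ⟨algebraMap F (RatFunc F) s, by rw [← map_pow, hs]⟩
  have hpoly : ∀ g : F[X], tbf_S p (RatFunc.X : RatFunc F) (algebraMap F[X] (RatFunc F) g) := by
    intro g
    have h1 := tbf_poly (t := (RatFunc.X : RatFunc F)) (algebraMap F (RatFunc F)) hφ g
    have h2 : g.eval₂ (algebraMap F (RatFunc F)) RatFunc.X = algebraMap F[X] (RatFunc F) g := by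
      have h3 : (algebraMap F[X] (RatFunc F)) = Polynomial.eval₂RingHom
          (algebraMap F (RatFunc F)) RatFunc.X := by
        refine Polynomial.ringHom_ext (fun c => ?_) ?_
        · rw [coe_eval₂RingHom, eval₂_C]
          rfl
        · rw [coe_eval₂RingHom, eval₂_X, RatFunc.algebraMap_X]
      rw [h3]
      rfl
    rw [h2] at h1
    exact h1
  refine ⟨?_, ?_⟩
  · intro f
    rw [← RatFunc.num_div_denom f]
    have hd : algebraMap F[X] (RatFunc F) f.denom ≠ 0 := RatFunc.algebraMap_ne_zero f.denom_ne_zero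
    have h1 := tbf_mul (algebraMap F[X] (RatFunc F) f.denom)⁻¹ (hpoly (f.num * f.denom ^ (p - 1)))
    have h2 : (algebraMap F[X] (RatFunc F) f.denom)⁻¹ ^ p *
        algebraMap F[X] (RatFunc F) (f.num * f.denom ^ (p - 1)) =
        algebraMap F[X] (RatFunc F) f.num / algebraMap F[X] (RatFunc F) f.denom := by
      rw [map_mul, map_pow]
      have h3 : algebraMap F[X] (RatFunc F) f.denom ^ p =
          algebraMap F[X] (RatFunc F) f.denom ^ (p - 1) * algebraMap F[X] (RatFunc F) f.denom := by
        rw [← pow_succ, Nat.sub_add_cancel hp.one_le]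
      rw [inv_pow, h3]
      field_simp
    rw [h2] at h1
    exact h1
  · intro s hs
    have hd : algebraMap F[X] (RatFunc F) s.denom ≠ 0 := RatFunc.algebraMap_ne_zero s.denom_ne_zero
    have h0 : (algebraMap F[X] (RatFunc F) s.num / algebraMap F[X] (RatFunc F) s.denom) ^ p =
        RatFunc.X := by
      rw [RatFunc.num_div_denom, hs]
    have h1 : s.num ^ p = X * s.denom ^ p := by
      apply RatFunc.algebraMap_injective F
      rw [map_pow, map_mul, map_pow, RatFunc.algebraMap_X, ← h0, div_pow,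
        div_mul_cancel₀ _ (pow_ne_zero p hd)]
    have h2 := congrArg natDegree h1
    rw [natDegree_pow, natDegree_mul X_ne_zero (pow_ne_zero p s.denom_ne_zero), natDegree_X,
      natDegree_pow] at h2
    have h3 : p ∣ 1 := by
      have h4 : p ∣ 1 + p * s.denom.natDegree := ⟨_, h2.symm⟩
      exact (Nat.dvd_add_left ⟨_, rfl⟩).1 h4
    exact hp.one_lt.ne' (Nat.dvd_one.1 h3)

/-- change of the `p`-basis -/
private theorem tbf_any {p : ℕ} [Fact p.Prime] {K : Type} [Field K] [CharP K p] {x : K}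
    (hx : ∀ f : K, tbf_S p x f) {t : K} (ht : ∀ s : K, s ^ p ≠ t) : TBp p K t := by
  have hp : p.Prime := Fact.out
  refine ⟨?_, ht⟩
  let k₀ : Subfield K := (frobenius K p).fieldRange
  have hk₀ : ∀ a : K, a ^ p ∈ k₀ := fun a => ⟨a, rfl⟩
  have hk₀' : ∀ a ∈ k₀, ∃ b : K, a = b ^ p := by
    rintro _ ⟨b, rfl⟩
    exact ⟨b, rfl⟩
  have hspan : Submodule.span k₀ (Set.range fun i : Fin p => x ^ (i : ℕ)) = ⊤ := by
    rw [eq_top_iff]
    intro f _
    obtain ⟨a, ha⟩ := hx f
    rw [Submodule.mem_span_range_iff_exists_fun]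
    refine ⟨fun i => ⟨a i ^ p, hk₀ _⟩, ?_⟩
    rw [ha, Finset.sum_range]
    refine Finset.sum_congr rfl fun i _ => ?_
    rw [Subfield.smul_def, smul_eq_mul, mul_comm]
  have hfin : FiniteDimensional k₀ K := by
    rw [FiniteDimensional, Module.finite_def, ← hspan]
    exact Submodule.fg_span (Set.finite_range _)
  have hrank : Module.finrank k₀ K ≤ p := by
    have h1 := finrank_le_of_span_eq_top hspan
    rwa [Fintype.card_fin] at h1
  let u : k₀ := ⟨t ^ p, hk₀ t⟩
  have hirr : Irreducible (X ^ p - C u : k₀[X]) := by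
    refine X_pow_sub_C_irreducible_of_prime hp fun b hb => ?_
    obtain ⟨c, hc⟩ := hk₀' b b.2
    have h1 : (b : K) ^ p = t ^ p := congrArg (fun x : k₀ => (x : K)) hb
    have h2 : (b : K) = t := by
      have h3 : ((b : K) - t) ^ p = 0 := by rw [sub_pow_char, h1, sub_self]
      exact sub_eq_zero.1 (pow_eq_zero_iff hp.ne_zero |>.1 h3)
    exact ht c (by rw [← hc, h2])
  have hmin : minpoly k₀ t = X ^ p - C u := by
    refine (minpoly.eq_of_irreducible_of_monic hirr ?_ (monic_X_pow_sub_C _ hp.ne_zero)).symm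
    rw [map_sub, map_pow, aeval_X, aeval_C]
    exact sub_self _
  have hdeg : (minpoly k₀ t).natDegree = p := by
    rw [hmin]
    exact natDegree_X_pow_sub_C
  have hind := linearIndependent_pow (K := k₀) t
  rw [hdeg] at hind
  have hrank' : Fintype.card (Fin p) = Module.finrank k₀ K := by
    refine le_antisymm hind.fintype_card_le_finrank ?_
    rw [Fintype.card_fin]
    exact hrank
  have htop := hind.span_eq_top_of_card_eq_finrank' hrank'
  intro f
  have hf : f ∈ Submodule.span k₀ (Set.range fun i : Fin p => t ^ (i : ℕ)) := by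
    rw [htop]
    exact Submodule.mem_top
  rw [Submodule.mem_span_range_iff_exists_fun] at hf
  obtain ⟨c, hc⟩ := hf
  have hb : ∀ i : Fin p, ∃ b : K, (c i : K) = b ^ p := fun i => hk₀' (c i) (c i).2
  choose b hb using hb
  refine ⟨fun i => if h : i < p then b ⟨i, h⟩ else 0, ?_⟩
  rw [← hc, Finset.sum_range]
  refine Finset.sum_congr rfl fun i _ => ?_
  show c i • t ^ (i : ℕ) = t ^ (i : ℕ) * (if h : (i : ℕ) < p then b ⟨i, h⟩ else 0) ^ p
  rw [dif_pos i.2, Subfield.smul_def, smul_eq_mul, mul_comm, hb]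

theorem tTbF (h1 : S_TbK) : S_TbF := by
  intro p _ K _ hK
  obtain ⟨F, _, _, _, _, _, _⟩ := hK
  have hK : CharP K p :=
    charP_of_injective_algebraMap (algebraMap (RatFunc F) K).injective p
  have hx := h1 p (RatFunc F) K RatFunc.X tbf_rat
  exact ⟨hK, ⟨_, hx⟩, fun t ht => tbf_any hx.1 ht⟩

end Pool.Agent.MP72P
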