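import Pool.Agent.Lib.MP_72e2e6_nt.P3.R.SpecA

/-!
# MP_72e2e6_nt, theorem T3p, part R: `p`-bases of separable extensions
-/

namespace Pool.Agent.MP72P

open Polynomial IntermediateField Finset

theorem tTbK : S_TbK := by
  intro p _ K L _ _ _ _ _ t ht
  have hL : CharP L p := charP_of_injective_algebraMap (algebraMap K L).injective p
  obtain ⟨hb, hs⟩ := ht
  refine ⟨fun f => ?_, fun s hst => ?_⟩
  · have h1 : f ∈ K⟮f ^ p⟯ := by
      rw [← adjoin_simple_eq_adjoin_pow_expChar_of_isSeparable' K L f p]
      exact mem_adjoin_simple_self K f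
    have h2 : f ∈ Algebra.adjoin K {f ^ p} := by
      rw [← adjoin_simple_toSubalgebra_of_isAlgebraic (Algebra.IsAlgebraic.isAlgebraic (f ^ p))]
      exact h1
    rw [Algebra.adjoin_singleton_eq_range_aeval] at h2
    obtain ⟨P, hP⟩ := h2
    choose a ha using fun j => hb (P.coeff j)
    refine ⟨fun i => ∑ j ∈ P.support, algebraMap K L (a j i) * f ^ j, ?_⟩
    have h3 : f = ∑ j ∈ P.support, algebraMap K L (P.coeff j) * (f ^ p) ^ j := by
      conv_lhs => rw [← hP]
      show aeval (f ^ p) P = _
      rw [aeval_def, eval₂_eq_sum, Polynomial.sum]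
    conv_lhs => rw [h3]
    calc ∑ j ∈ P.support, algebraMap K L (P.coeff j) * (f ^ p) ^ j
        = ∑ j ∈ P.support, ∑ i ∈ range p,
            algebraMap K L t ^ i * (algebraMap K L (a j i) * f ^ j) ^ p := by
          refine sum_congr rfl fun j _ => ?_
          rw [ha j, map_sum, sum_mul]
          refine sum_congr rfl fun i _ => ?_
          rw [map_mul, map_pow, map_pow, mul_pow]
          ring
      _ = ∑ i ∈ range p, algebraMap K L t ^ i *
            (∑ j ∈ P.support, algebraMap K L (a j i) * f ^ j) ^ p := by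
          rw [sum_comm]
          refine sum_congr rfl fun i _ => ?_
          rw [sum_pow_char, mul_sum]
  · have h1 : s ∈ K⟮s ^ p⟯ := by
      rw [← adjoin_simple_eq_adjoin_pow_expChar_of_isSeparable' K L s p]
      exact mem_adjoin_simple_self K s
    have h2 : K⟮s ^ p⟯ = ⊥ := by
      rw [adjoin_simple_eq_bot_iff, hst]
      exact _root_.algebraMap_mem _ t
    rw [h2, mem_bot] at h1
    obtain ⟨s', rfl⟩ := h1
    apply hs s'
    apply (algebraMap K L).injective
    rw [map_pow, hst]

end Pool.Agent.MP72P
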