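import Pool.Agent.Lib.MP_72e2e6_nt.P3.R.SpecA

/-!
# MP_72e2e6_nt, theorem T3p, part R: a uniformizer is a `p`-basis of `K` and of the completion
-/

namespace Pool.Agent.MP72P

open Polynomial IntermediateField Finset Filter Topology

section

variable {K : Type} [Field K] (v : AbsoluteValue K ℝ)

private theorem tbv_norm (x : K) : ‖algebraMap K v.Completion x‖ = v x :=
  UniformSpace.Completion.norm_coe (WithAbs.toAbs v x)

private theorem tbv_dense (x : v.Completion) (ε : ℝ) (hε : 0 < ε) :
    ∃ y : K, ‖x - algebraMap _ _ y‖ < ε := by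
  obtain ⟨y, hy⟩ := (UniformSpace.Completion.denseRange_coe (α := WithAbs v)).exists_dist_lt x hε
  exact ⟨y.ofAbs, by rw [← dist_eq_norm]; exact hy⟩

private theorem tbv_ultra (hna : IsNonarchimedean v) : IsUltrametricDist v.Completion := by
  refine IsUltrametricDist.isUltrametricDist_of_forall_norm_add_le_max_norm fun x y => ?_
  refine UniformSpace.Completion.induction_on₂ x y ?_ fun a b => ?_
  · exact isClosed_le (by fun_prop) (by fun_prop)
  · rw [← UniformSpace.Completion.coe_add, UniformSpace.Completion.norm_coe,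
      UniformSpace.Completion.norm_coe, UniformSpace.Completion.norm_coe]
    exact hna a.ofAbs b.ofAbs

end

section

variable {p : ℕ} [Fact p.Prime] {K : Type} [Field K] {v : AbsoluteValue K ℝ} {Q : ℕ} {ϖ : K}
  {R : Finset K}

private theorem tbv_zpow (h : LF v p Q ϖ R) {m n : ℤ} (he : v ϖ ^ m = v ϖ ^ n) : m = n :=
  zpow_right_injective₀ h.pi0 h.pi1.ne he

/-- the value of a uniformizer is not the value of a `p`-th power -/
private theorem tbv_not (h : LF v p Q ϖ R) (s : K) : v s ^ p ≠ v ϖ := by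
  have hp : p.Prime := Fact.out
  intro he
  have hs : s ≠ 0 := by
    rintro rfl
    rw [map_zero, zero_pow hp.ne_zero] at he
    exact h.pi0.ne he
  obtain ⟨n, hn⟩ := h.disc s hs
  rw [hn, ← zpow_natCast, ← zpow_mul] at he
  have h1 : n * p = 1 := by
    refine tbv_zpow h ?_
    rw [he, zpow_one]
  have h2 : (p : ℤ) ∣ 1 := ⟨n, by rw [← h1, mul_comm]⟩
  have h3 : p ∣ 1 := by exact_mod_cast h2
  exact hp.one_lt.ne' (Nat.dvd_one.1 h3)

/-- the values of the nonzero terms are different -/
private theorem tbv_ne (h : LF v p Q ϖ R) (c : ℕ → K) {i j : ℕ} (hi : i < p) (hj : j < p)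
    (hij : i ≠ j) (hci : c i ≠ 0) : v (ϖ ^ i * c i ^ p) ≠ v (ϖ ^ j * c j ^ p) := by
  have hp : p.Prime := Fact.out
  intro he
  have hϖ : ϖ ≠ 0 := by
    rintro rfl
    have := h.pi0
    rw [map_zero] at this
    exact lt_irrefl _ this
  have hcj : c j ≠ 0 := by
    intro h0
    rw [h0, zero_pow hp.ne_zero, mul_zero, map_zero, AbsoluteValue.eq_zero] at he
    exact mul_ne_zero (pow_ne_zero i hϖ) (pow_ne_zero p hci) he
  obtain ⟨a, ha⟩ := h.disc _ hci
  obtain ⟨b, hb⟩ := h.disc _ hcj
  have hv : v ϖ ≠ 0 := h.pi0.ne'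
  rw [map_mul, map_mul, map_pow, map_pow, map_pow, map_pow, ha, hb, ← zpow_natCast,
    ← zpow_natCast, ← zpow_natCast, ← zpow_natCast, ← zpow_mul, ← zpow_mul, ← zpow_add₀ hv,
    ← zpow_add₀ hv] at he
  have h1 := tbv_zpow h he
  have h2 : (p : ℤ) ∣ (i : ℤ) - j := ⟨b - a, by linear_combination h1⟩
  have h3 : ((i : ℤ) - j) = 0 := by
    refine Int.eq_zero_of_abs_lt_dvd h2 ?_
    rw [abs_lt]
    constructor <;> omega
  omega

/-- bound of the coordinates -/
private theorem tbv_bd (h : LF v p Q ϖ R) (c : ℕ → K) (i : ℕ) (hi : i < p) :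
    v ϖ ^ (p - 1) * v (c i) ^ p ≤ v (∑ j ∈ range p, ϖ ^ j * c j ^ p) := by
  have hp : p.Prime := Fact.out
  obtain ⟨k, hk, hmax⟩ := Finset.exists_max_image (range p) (fun j => v (ϖ ^ j * c j ^ p))
    ⟨i, Finset.mem_range.2 hi⟩
  have hkp : k < p := Finset.mem_range.1 hk
  have h1 : v ϖ ^ (p - 1) * v (c i) ^ p ≤ v (ϖ ^ i * c i ^ p) := by
    rw [map_mul, map_pow, map_pow]
    refine mul_le_mul_of_nonneg_right ?_ (pow_nonneg (v.nonneg _) p)
    exact pow_le_pow_of_le_one h.pi0.le h.pi1.le (by omega)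
  have h2 : v (ϖ ^ i * c i ^ p) ≤ v (ϖ ^ k * c k ^ p) := hmax i (Finset.mem_range.2 hi)
  by_cases hck : c k = 0
  · have h3 : v (ϖ ^ k * c k ^ p) = 0 := by
      rw [hck, zero_pow hp.ne_zero, mul_zero, map_zero]
    rw [h3] at h2
    exact (h1.trans h2).trans (v.nonneg _)
  · have h4 : v (∑ j ∈ range p, ϖ ^ j * c j ^ p) = v (ϖ ^ k * c k ^ p) := by
      refine IsNonarchimedean.apply_sum_eq_of_lt h.na (fun a => (v.map_neg a).symm) hk ?_
      intro j hj hjk
      exact lt_of_le_of_ne (hmax j hj)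
        (fun he => tbv_ne h c hkp (Finset.mem_range.1 hj) (fun h' => hjk h'.symm) hck he.symm)
    rw [h4]
    exact h1.trans h2

end

/-- a uniformizer is a `p`-basis of the completion -/
private theorem tbv_compl {p : ℕ} [Fact p.Prime] {K : Type} [Field K] [CharP K p]
    {v : AbsoluteValue K ℝ} {Q : ℕ} {ϖ : K} {R : Finset K} (h : LF v p Q ϖ R)
    (hK : TBp p K ϖ) : TBp p v.Completion (algebraMap K v.Completion ϖ) := by
  have hp : p.Prime := Fact.out
  have hU : IsUltrametricDist v.Completion := tbv_ultra v h.na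
  have hC : CharP v.Completion p :=
    charP_of_injective_algebraMap (algebraMap K v.Completion).injective p
  refine ⟨?_, ?_⟩
  · intro x
    have hy : ∀ k : ℕ, ∃ y : K, ‖x - algebraMap K v.Completion y‖ < 1 / ((k : ℝ) + 1) := fun k =>
      tbv_dense v x _ (by positivity)
    choose y hy using hy
    have hlim : Tendsto (fun k => algebraMap K v.Completion (y k)) atTop (𝓝 x) := by
      rw [tendsto_iff_norm_sub_tendsto_zero]
      refine squeeze_zero (fun _ => norm_nonneg _) (fun k => ?_)
        (tendsto_one_div_add_atTop_nhds_zero_nat (𝕜 := ℝ))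
      rw [norm_sub_rev]
      exact (hy k).le
    choose b hb using fun k => hK.1 (y k)
    -- the coordinates form Cauchy sequences
    have hbd : ∀ i < p, ∀ k l, v ϖ ^ (p - 1) *
        ‖algebraMap K v.Completion (b k i) - algebraMap K v.Completion (b l i)‖ ^ p ≤
        ‖algebraMap K v.Completion (y k) - algebraMap K v.Completion (y l)‖ := by
      intro i hi k l
      rw [← map_sub, ← map_sub, tbv_norm, tbv_norm]
      refine (tbv_bd h (fun j => b k j - b l j) i hi).trans_eq ?_
      congr 1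
      rw [hb k, hb l, ← Finset.sum_sub_distrib]
      refine Finset.sum_congr rfl fun j _ => ?_
      rw [sub_pow_char, mul_sub]
    have hcau : ∀ i < p, CauchySeq fun k => algebraMap K v.Completion (b k i) := by
      intro i hi
      rw [Metric.cauchySeq_iff']
      intro ε hε
      have hyc := hlim.cauchySeq
      rw [Metric.cauchySeq_iff'] at hyc
      have hδ : 0 < v ϖ ^ (p - 1) * ε ^ p := mul_pos (pow_pos h.pi0 _) (pow_pos hε p)
      obtain ⟨N, hN⟩ := hyc _ hδ
      refine ⟨N, fun n hn => ?_⟩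
      have h1 := hN n hn
      rw [dist_eq_norm] at h1 ⊢
      have h2 := (hbd i hi n N).trans_lt h1
      have h3 := lt_of_mul_lt_mul_left h2 (pow_nonneg h.pi0.le _)
      exact lt_of_pow_lt_pow_left₀ p hε.le h3
    have hex : ∀ i, ∃ a : v.Completion, i < p →
        Tendsto (fun k => algebraMap K v.Completion (b k i)) atTop (𝓝 a) := by
      intro i
      by_cases hi : i < p
      · obtain ⟨a, ha⟩ := cauchySeq_tendsto_of_complete (hcau i hi)
        exact ⟨a, fun _ => ha⟩
      · exact ⟨0, fun h' => absurd h' hi⟩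
    choose a ha using hex
    refine ⟨a, tendsto_nhds_unique hlim ?_⟩
    have h1 : (fun k => algebraMap K v.Completion (y k)) = fun k =>
        ∑ i ∈ range p, (algebraMap K v.Completion ϖ) ^ i *
          (algebraMap K v.Completion (b k i)) ^ p := by
      funext k
      rw [hb k, map_sum]
      refine Finset.sum_congr rfl fun i _ => ?_
      rw [map_mul, map_pow, map_pow]
    rw [h1]
    refine tendsto_finset_sum _ fun i hi => ?_
    exact ((ha i (Finset.mem_range.1 hi)).pow p).const_mul _
  · intro s hs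
    have hϖ : v ϖ ≠ 0 := h.pi0.ne'
    have hn : ‖s‖ ^ p = v ϖ := by rw [← norm_pow, hs, tbv_norm]
    have hs0 : 0 < ‖s‖ := by
      rcases (norm_nonneg s).eq_or_lt with h0 | h0
      · rw [← h0, zero_pow hp.ne_zero] at hn
        exact absurd hn.symm hϖ
      · exact h0
    obtain ⟨y, hy⟩ := tbv_dense v s ‖s‖ hs0
    have h1 : ‖algebraMap K v.Completion y‖ = ‖s‖ := by
      have h2 : algebraMap K v.Completion y = s + -(s - algebraMap K v.Completion y) := by ring
      rw [h2]
      refine (IsUltrametricDist.norm_add_eq_max_of_norm_ne_norm ?_).trans ?_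
      · rw [norm_neg]
        exact hy.ne'
      · rw [norm_neg]
        exact max_eq_left hy.le
    rw [tbv_norm] at h1
    rw [← h1] at hn
    exact tbv_not h y hn

theorem tTbV (h1 : S_TbK) (h2 : S_TbF) : S_TbV := by
  intro p _ K _ hK v Q ϖ R h
  obtain ⟨hC, -, hK3⟩ := h2 p K hK
  have hKϖ : TBp p K ϖ := hK3 ϖ fun s hs => tbv_not h s (by rw [← map_pow, hs])
  have hCv : CharP v.Completion p :=
    charP_of_injective_algebraMap (algebraMap K v.Completion).injective p
  have hcv := tbv_compl h hKϖ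
  exact ⟨hKϖ, h1 p K (Kgs K) ϖ hKϖ, hcv, h1 p v.Completion (Kvs v) _ hcv⟩

end Pool.Agent.MP72P
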