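import Pool.Agent.Lib.MP_72e2e6_nt.P3.R.SpecA

/-!
# MP_72e2e6_nt, theorem T3p, part R: logarithmic derivatives and the Cartier operator
-/

namespace Pool.Agent.MP72P

open Polynomial IntermediateField Finset

private theorem Tbp_iter {L : Type} [Field L] (D : L → L)
    (hm : ∀ x y, D (x * y) = D x * y + x * D y) (u : L) (hu : u ≠ 0) (n : ℕ) : ∀ g : L,
    u * (fun y => D y + D u / u * y)^[n] g = D^[n] (u * g) := by
  induction n with
  | zero => intro g; rfl
  | succ n ih =>
    intro g
    rw [Function.iterate_succ_apply, Function.iterate_succ_apply, ih]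
    refine congrArg (D^[n]) ?_
    rw [hm]
    field_simp
    ring

theorem tTbp (h1 : S_Jac) (h2 : S_Tba) : S_Tbp := by
  intro p hp L _ _ t ht
  have hp0 : p ≠ 0 := hp.out.ne_zero
  obtain ⟨hcf, hrep, hDa, hDm, -, hDs, hCa, hCm, -, hDC, hDp⟩ := h2 p L t ht
  have hD1 : Dt p t (1 : L) = 0 := by
    have := hDm 1 1
    rw [mul_one, one_mul, mul_one] at this
    exact left_eq_add.mp this
  have hinj : ∀ a b : L, a ^ p = b ^ p → a = b := by
    intro a b hab
    exact frobenius_inj L p (by simpa [frobenius_def] using hab)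
  refine ⟨?_, ?_, ?_, ?_, ?_, ?_⟩
  · intro u v hu hv
    unfold Lg
    rw [hDm]
    field_simp
  · intro u hu
    have := hDm u u⁻¹
    rw [mul_inv_cancel₀ hu, hD1] at this
    unfold Lg
    have h3 : Dt p t u⁻¹ * u = - (Dt p t u * u⁻¹) := by linear_combination -this
    rw [div_inv_eq_mul, h3, div_eq_mul_inv]
  · intro u hu
    unfold Lg
    rw [← hDs u, div_eq_zero_iff]
    simp [hu]
  · intro u hu
    have h3 := Tbp_iter (Dt p t) hDm u hu p 1
    rw [hDp, mul_eq_zero] at h3
    have h4 := h3.resolve_left hu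
    rw [h1 p L (Dt p t) hDa hDm, hDp, hDC, mul_one, zero_add] at h4
    refine hinj _ _ ?_
    unfold Lg
    linear_combination -h4
  · intro f hf
    have hneg : Ca p t (-f) = -f := by
      have h0 : Ca p t (0 : L) = 0 := by
        have := hCa 0 0
        rw [add_zero] at this
        exact left_eq_add.mp this
      have h3 := hCa f (-f)
      rw [add_neg_cancel, h0, hf] at h3
      linear_combination -h3
    have hz : (fun y => Dt p t y + -f * y)^[p] 1 = 0 := by
      rw [h1 p L (Dt p t) hDa hDm, hDp, hDC, hneg]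
      ring
    classical
    have hex : ∃ m, (fun y => Dt p t y + -f * y)^[m] 1 = 0 := ⟨p, hz⟩
    have hm := Nat.find_spec hex
    have hm0 : Nat.find hex ≠ 0 := by
      intro h0
      rw [h0] at hm
      exact one_ne_zero hm
    obtain ⟨m, hm1⟩ := Nat.exists_eq_succ_of_ne_zero hm0
    have hw : (fun y => Dt p t y + -f * y)^[m] 1 ≠ 0 := Nat.find_min hex (by omega)
    rw [hm1, Function.iterate_succ_apply'] at hm
    refine ⟨_, hw, ?_⟩
    unfold Lg
    rw [div_eq_iff hw]
    linear_combination hm
  · intro L' _ _ σ hσ f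
    obtain ⟨hcf', -⟩ := h2 p L' (σ t) hσ
    have hc : ∀ i < p, cf p (σ t) (σ f) i = σ (cf p t f i) := by
      intro i hi
      have h3 : σ f = ∑ j ∈ range p, σ t ^ j * (fun j => σ (cf p t f j)) j ^ p := by
        conv_lhs => rw [hrep f]
        simp
      rw [h3, hcf' _ i hi]
    have hD : Dt p (σ t) (σ f) = σ (Dt p t f) := by
      unfold Dt
      rw [map_sum]
      refine sum_congr rfl fun i hi => ?_
      rw [hc i (mem_range.mp hi)]
      simp
    refine ⟨hD, ?_, ?_⟩
    · unfold Ca
      exact hc _ (Nat.sub_lt (Nat.pos_of_ne_zero hp0) one_pos)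
    · unfold Lg
      rw [hD, map_div₀]

end Pool.Agent.MP72P
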