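import Pool.Agent.Lib.MP_72e2e6_nt.P3.R.SpecC

/-!
# MP_72e2e6_nt, theorem T3p, part R: module UnL (unique existence for one group)
-/

namespace Pool.Agent.MP72P

open Polynomial IntermediateField Finset

private theorem unl_conv {Γ I J M : Type} [Group Γ] [TopologicalSpace Γ] [AddCommGroup M]
    (ρ : Γ → M → M) (t : I → Γ) (e : J → Γ) (v : I → M) (c : J → M) :
    (∃! z : (Γ → M) × (Empty → M), Coc ρ z.1 ∧
      (∀ i, psO ρ z ((fun _ => none : I → Option Empty) i) (t i) = v i) ∧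
      ∀ k, Sum.elim z.1 z.2 ((fun j => Sum.inl (e j) : J → Γ ⊕ Empty) k) = c k) ↔
    ∃! z : Γ → M, Coc ρ z ∧ (∀ i, z (t i) = v i) ∧ ∀ j, z (e j) = c j := by
  have hps : ∀ (z : (Γ → M) × (Empty → M)) (g : Γ), psO ρ z none g = z.1 g := fun z g =>
    sub_zero _
  constructor
  · rintro ⟨z, ⟨h1, h2, h3⟩, hu⟩
    refine ⟨z.1, ⟨h1, fun i => ?_, fun j => h3 j⟩, fun f hf => ?_⟩
    · rw [← hps z (t i)]
      exact h2 i
    · have h4 := hu (f, Empty.elim) ⟨hf.1, fun i => ?_, fun j => hf.2.2 j⟩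
      · rw [← h4]
      · change psO ρ (f, Empty.elim) none (t i) = v i
        rw [hps]
        exact hf.2.1 i
  · rintro ⟨f, ⟨h1, h2, h3⟩, hu⟩
    refine ⟨(f, Empty.elim), ⟨h1, fun i => ?_, fun j => h3 j⟩, fun z hz => ?_⟩
    · change psO ρ (f, Empty.elim) none (t i) = v i
      rw [hps]
      exact h2 i
    · have h4 := hu z.1 ⟨hz.1, fun i => ?_, fun j => hz.2.2 j⟩
      · refine Prod.ext h4 ?_
        funext x
        exact x.elim
      · rw [← hps z (t i)]
        exact hz.2.1 i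

/-- **UnL**. Unique existence for one group. -/
theorem tUnL : S_Lrb → S_Act → S_UniF → S_UnL := by
  intro hLrb hAct hUni p _ Γ _ _ _ I J ω t e hω hH2 hconv hue n Λ _ π hLR χ hχ v hv c
  have hfin : Finite Λ := (hLrb p n Λ π hLR).1
  have hact := (hAct p n Λ π hLR Γ ω hω χ hχ).1
  exact (unl_conv (fun g (x : Λ) => χ g * x) t e v c).1
    (hUni p Γ Empty I J ω (fun _ => none) t (fun j => Sum.inl (e j)) hω hH2 hconv
      (fun v' hv' c' => (unl_conv (fun g (x : ZMod p) => ω g * x) t e v' c').2 (hue v' hv' c'))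
      Λ n hLR.card _ hact v hv c)

end Pool.Agent.MP72P
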