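import Pool.Agent.Lib.MP_72e2e6_nt.P3.R.SpecC

/-!
# MP_72e2e6_nt, theorem T3p, part R: module Unr (the local invariants outside the places `av w`)
-/

namespace Pool.Agent.MP72P

open Polynomial IntermediateField Finset

private theorem Unr_charP {p : ℕ} {K : Type} [Field K] (h : GFld p K) : CharP K p := by
  obtain ⟨F, _, _, _, _, -, -⟩ := h
  have h1 : CharP (RatFunc F) p :=
    charP_of_injective_algebraMap (algebraMap F (RatFunc F)).injective p
  exact charP_of_injective_algebraMap (algebraMap (RatFunc F) K).injective p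

private theorem Unr_zero {L : Type} [Field L] {N : ℕ} {Λ : Type} [CommRing Λ] {u : Λ → L}
    (h0 : u 0 ≠ 0) (h : EqN N (u (0 + 0)) (u 0 * u 0)) : EqN N (u 0) 1 := by
  obtain ⟨s, hs, h1⟩ := h
  rw [add_zero] at h1
  have hsN : s ^ N ≠ 0 := pow_ne_zero _ hs
  have h2 : u 0 * s ^ N = 1 := by
    have h3 : u 0 * 1 = u 0 * (u 0 * s ^ N) := by
      rw [mul_one, ← mul_assoc]
      exact h1
    exact (mul_left_cancel₀ h0 h3).symm
  refine ⟨s⁻¹, inv_ne_zero hs, ?_⟩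
  rw [one_mul, inv_pow]
  exact eq_inv_of_mul_eq_one_left h2

theorem tUnr (_hLc1 : S_Lc1) (_hLc2 : S_Lc2) (_hTbF : S_TbF) (_hEqn : S_Eqn) (hEqL : S_EqL) :
    S_Unr := by
  intro p _ K _ hK W av α h hα hαh hOn k Λ _ χ u hχ hu Z hZ v hv hvw Q ϖ R hLF ι g₀
  have : CharP K p := Unr_charP hK
  obtain ⟨-, -, -, h4⟩ := hEqL p K W av α h hα hαh
  obtain ⟨-, -, h6, -⟩ := h4 k Λ χ u hu.eq
  have hZ1 : Z 1 = 0 := by
    have h1 := hZ.mul 1 1
    rw [mul_one, hχ, one_mul] at h1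
    exact left_eq_add.1 h1
  obtain ⟨r, hr, hr0, hr1, x, hx, hxk⟩ := hu.unr v hv hvw Q ϖ R hLF ι (Z (rLo ι g₀))
  refine ⟨x, ?_, hxk⟩
  rw [h6 Z v ι]
  refine ⟨1, r, one_ne_zero, hr0, hr, fun g hg => ?_, ?_, hx⟩
  · have h7 : rLo (p := p) (av := av) (α := α) ι g = 1 := hOn v hv hvw Q ϖ R hLF ι g hg
    obtain ⟨s, hs, h8⟩ := Unr_zero (hu.eq.ne 0) (hu.eq.add 0 0)
    refine ⟨ι s, by simpa using hs, ?_⟩
    simp only [h7, hZ1]
    rw [h8, map_mul, map_one, map_pow, map_one, div_one]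
  · rw [map_one, div_one, one_mul]
    exact hr1

end Pool.Agent.MP72P
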