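import Pool.Agent.Lib.MP_72e2e6_nt.P3.R.SpecB

/-!
# MP_72e2e6_nt, theorem T3p, part R: local invariants of a global crossed homomorphism (Val)
-/

namespace Pool.Agent.MP72P

open Polynomial IntermediateField

namespace ValAux

private theorem eqn_refl (N : ℕ) {L : Type} [Field L] (a : L) : EqN N a a :=
  ⟨1, one_ne_zero, by simp⟩

private theorem eqn_of_eq (N : ℕ) {L : Type} [Field L] {a b : L} (h : a = b) : EqN N a b := by
  rw [h]
  exact eqn_refl N b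

private theorem eqn_trans {N : ℕ} {L : Type} [Field L] {a b c : L} (h : EqN N a b)
    (h' : EqN N b c) : EqN N a c := by
  obtain ⟨s, hs, e⟩ := h
  obtain ⟨t, ht, e'⟩ := h'
  exact ⟨t * s, mul_ne_zero ht hs, by rw [e, e', mul_pow]; ring⟩

private theorem eqn_mul {N : ℕ} {L : Type} [Field L] {a b a' b' : L} (h : EqN N a b)
    (h' : EqN N a' b') : EqN N (a * a') (b * b') := by
  obtain ⟨s, hs, e⟩ := h
  obtain ⟨t, ht, e'⟩ := h'
  exact ⟨s * t, mul_ne_zero hs ht, by rw [e, e', mul_pow]; ring⟩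

private theorem eqn_map {N : ℕ} {L L' : Type} [Field L] [Field L'] (f : L →+* L') {a b : L}
    (h : EqN N a b) : EqN N (f a) (f b) := by
  obtain ⟨s, hs, e⟩ := h
  exact ⟨f s, (map_ne_zero f).2 hs, by rw [e, map_mul, map_pow]⟩

private theorem charP_of_gfld {p : ℕ} {K : Type} [Field K] (h : GFld p K) : CharP K p := by
  obtain ⟨F, _, _, _, _, -, -⟩ := h
  have hFR : CharP (RatFunc F) p :=
    charP_of_injective_algebraMap (FaithfulSMul.algebraMap_injective F (RatFunc F)) p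
  exact charP_of_injective_algebraMap (FaithfulSMul.algebraMap_injective (RatFunc F) K) p

section

variable {K : Type} [Field K] {N : ℕ} {μ : Gal(Kgs K/K) → Kgs K}

private theorem mu_one (h : NCoc N μ) : EqN N (μ 1) 1 := by
  obtain ⟨s, hs, e⟩ := h.mul 1 1
  rw [mul_one] at e
  have h1 : (1 : Gal(Kgs K/K)) (μ 1) = μ 1 := rfl
  rw [h1] at e
  have h2 : μ 1 * s ^ N = 1 := by
    have h3 := h.ne 1
    have h4 : μ 1 * (μ 1 * s ^ N) = μ 1 * 1 := by
      rw [mul_one]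
      conv_rhs => rw [e]
      ring
    exact mul_left_cancel₀ h3 h4
  refine ⟨s⁻¹, inv_ne_zero hs, ?_⟩
  rw [one_mul, inv_pow]
  exact eq_inv_of_mul_eq_one_left h2

private theorem mu_pow (h : NCoc N μ) {Y ρ : Kgs K} {Fr : Gal(Kgs K/K)} (hY : Y ≠ 0)
    (hFr : EqN N (μ Fr) (Fr Y / Y * ρ)) (i : ℕ) :
    EqN N (μ (Fr ^ i)) ((Fr ^ i) Y / Y * ∏ j ∈ Finset.range i, (Fr ^ j) ρ) := by
  induction i with
  | zero =>
    rw [pow_zero]
    refine eqn_trans (mu_one h) (eqn_of_eq N ?_)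
    have : (1 : Gal(Kgs K/K)) Y = Y := rfl
    rw [this, div_self hY]
    simp
  | succ i ih =>
    have h1 : Fr ^ (i + 1) = Fr * Fr ^ i := pow_succ' Fr i
    rw [h1]
    refine eqn_trans (h.mul Fr (Fr ^ i)) ?_
    have h2 := eqn_map (Fr : Kgs K →+* Kgs K) ih
    refine eqn_trans (eqn_mul hFr h2) (eqn_of_eq N ?_)
    have h3 : (Fr : Kgs K →+* Kgs K) ((Fr ^ i) Y / Y * ∏ j ∈ Finset.range i, (Fr ^ j) ρ) =
        (Fr * Fr ^ i) Y / Fr Y * ∏ j ∈ Finset.range i, (Fr * Fr ^ j) ρ := by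
      show Fr ((Fr ^ i) Y / Y * ∏ j ∈ Finset.range i, (Fr ^ j) ρ) = _
      rw [map_mul, map_div₀, map_prod]
      rfl
    rw [h3, Finset.prod_range_succ']
    have h4 : Fr Y ≠ 0 := (map_ne_zero Fr).2 hY
    have h5 : (Fr ^ 0) ρ = ρ := by rw [pow_zero]; rfl
    rw [h5]
    have h6 : ∀ j, Fr ^ (j + 1) = Fr * Fr ^ j := fun j => pow_succ' Fr j
    simp only [h6]
    field_simp

end

end ValAux

open ValAux in
/-- **Val.** The local invariants of a global crossed homomorphism. -/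
theorem tVal : S_Lc1 → S_Lc2 → S_Nr → S_Has → S_Res → S_Rho → S_Eqn → S_Val := by
  intro _ _ hNr _ hRes hRho _
  intro p _ K _ hG q₀ Fr hFr k μ hμ v Q d ϖ R hLF hQ ι g₀ hg₀
  have hchar : CharP K p := charP_of_gfld hG
  obtain ⟨n1, n2, n3, n4, -⟩ := hNr p K v Q ϖ R hLF
  obtain ⟨-, r2, -, -⟩ := hRes p K (Kgs K) v.Completion (Kvs v) ι
  set r : Gal(Kvs v/v.Completion) →* Gal(Kgs K/K) := rsH (M := v.Completion) ι with hr
  -- constants are mapped to constants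
  have hιc : ∀ c ∈ Cst p (Kgs K), ι c ∈ Cst p (Kvs v) := by
    rintro c ⟨n, hn, e⟩
    exact ⟨n, hn, by rw [← map_pow, e]⟩
  -- the image of the geometric field
  have hgeo : ∀ z ∈ Kgeo p K, ι z ∈ Knr p v := by
    intro z hz
    have hsub : Kgeo p K ≤ ((Knr p v).restrictScalars K).comap ι := by
      unfold Kgeo
      rw [adjoin_le_iff]
      intro x hx
      exact n4 _ (hιc x hx)
    exact hsub hz
  have hFrgeo : ∀ (σ : Gal(Kgs K/K)), ∀ z ∈ Kgeo p K, σ z ∈ Kgeo p K := by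
    intro σ z hz
    have hsub : Kgeo p K ≤ (Kgeo p K).comap (σ : Kgs K →ₐ[K] Kgs K) := by
      conv_lhs => unfold Kgeo
      rw [adjoin_le_iff]
      intro x hx
      refine subset_adjoin _ _ ?_
      obtain ⟨n, hn, e⟩ := hx
      refine ⟨n, hn, ?_⟩
      show (σ x) ^ p ^ n = σ x
      rw [← map_pow, e]
    exact hsub hz
  have main : ∀ (Y ρ : Kgs K), Y ≠ 0 → ρ ≠ 0 → ρ ∈ Kgeo p K →
      (∀ σ : Gal(Kgs K/K), IsGeo p σ → EqN (p ^ k) (μ σ) (σ Y / Y)) →
      EqN (p ^ k) (μ Fr) (Fr Y / Y * ρ) →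
      (∏ i ∈ Finset.range d, ι ((Fr ^ i) ρ) ≠ 0) ∧
      (∏ i ∈ Finset.range d, ι ((Fr ^ i) ρ) ∈ Knr p v) ∧
      ∀ x : ℤ, nm v (∏ i ∈ Finset.range d, ι ((Fr ^ i) ρ)) = v ϖ ^ x →
        LV p v (p ^ k) ϖ g₀ (lcl ι μ) x := by
    intro Y ρ hY hρ hρK hgeoY hFrY
    have p1 : ∏ i ∈ Finset.range d, ι ((Fr ^ i) ρ) ≠ 0 := by
      rw [Finset.prod_ne_zero_iff]
      intro i _
      exact (map_ne_zero ι).2 ((map_ne_zero (Fr ^ i)).2 hρ)
    have p2 : ∏ i ∈ Finset.range d, ι ((Fr ^ i) ρ) ∈ Knr p v :=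
      prod_mem fun i _ => hgeo _ (hFrgeo _ _ hρK)
    refine ⟨p1, p2, fun x hx => ?_⟩
    refine ⟨ι Y, ∏ i ∈ Finset.range d, ι ((Fr ^ i) ρ), (map_ne_zero ι).2 hY, p1, p2, ?_, ?_, hx⟩
    · intro g hg
      have h1 : IsGeo p (r g) := by
        intro c hc
        have e1 : g (ι c) = ι (r g c) := r2 g c
        rw [hg _ (hιc c hc)] at e1
        exact (ι.injective e1).symm
      have h2 := eqn_map (ι : Kgs K →+* Kvs v) (hgeoY _ h1)
      refine eqn_trans h2 (eqn_of_eq _ ?_)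
      show ι ((r g) Y / Y) = g (ι Y) / ι Y
      rw [map_div₀, r2 g Y]
    · set σ := r g₀ with hσ
      have h1 : IsFro p (q₀ ^ d) σ := by
        intro c hc
        have e1 : g₀ (ι c) = ι (r g₀ c) := r2 g₀ c
        rw [hg₀ _ (hιc c hc), hQ, ← map_pow] at e1
        exact (ι.injective e1).symm
      have hfp : ∀ i : ℕ, IsFro p (q₀ ^ i) (Fr ^ i : Gal(Kgs K/K)) := by
        intro i c hc
        induction i with
        | zero =>
          rw [pow_zero, pow_zero, pow_one]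
          rfl
        | succ i ih =>
          have e1 : (Fr ^ (i + 1)) c = Fr ((Fr ^ i) c) := by
            rw [pow_succ']
            rfl
          rw [e1, ih, map_pow, hFr c hc, ← pow_mul, pow_succ']
      set τ : Gal(Kgs K/K) := (Fr ^ d)⁻¹ * σ with hτ
      have hστ : Fr ^ d * τ = σ := by rw [hτ, mul_inv_cancel_left]
      have h2 : IsGeo p τ := by
        intro c hc
        have e1 : (Fr ^ d) (τ c) = σ c := by
          rw [← hστ]
          rfl
        have e2 : (Fr ^ d) c = σ c := by rw [h1 c hc, hfp d c hc]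
        exact (Fr ^ d).injective (e1.trans e2.symm)
      have h3 : EqN (p ^ k) (μ σ) (σ Y / Y * ∏ j ∈ Finset.range d, (Fr ^ j) ρ) := by
        have e1 := hμ.mul (Fr ^ d) τ
        rw [hστ] at e1
        refine eqn_trans e1 ?_
        have e2 := eqn_map ((Fr ^ d : Gal(Kgs K/K)) : Kgs K →+* Kgs K) (hgeoY τ h2)
        refine eqn_trans (eqn_mul (mu_pow hμ hY hFrY d) e2) (eqn_of_eq _ ?_)
        have e3 : ((Fr ^ d : Gal(Kgs K/K)) : Kgs K →+* Kgs K) (τ Y / Y) =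
            σ Y / (Fr ^ d) Y := by
          show (Fr ^ d) (τ Y / Y) = _
          rw [map_div₀, ← hστ]
          rfl
        rw [e3]
        have e4 : (Fr ^ d) Y ≠ 0 := (map_ne_zero (Fr ^ d)).2 hY
        field_simp
      have h4 := eqn_map (ι : Kgs K →+* Kvs v) h3
      refine eqn_trans h4 (eqn_of_eq _ ?_)
      show ι (σ Y / Y * ∏ j ∈ Finset.range d, (Fr ^ j) ρ) = _
      rw [map_mul, map_div₀, map_prod, ← r2 g₀ Y]
  refine ⟨fun Y ρ hY hρ hρK hgeoY hFrY x hx =>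
    (main Y ρ hY hρ hρK hgeoY hFrY).2.2 x hx, ?_⟩
  obtain ⟨Y, hY, hgeoY, hρall⟩ := hRho p K hG k μ hμ
  obtain ⟨ρ, hρ, hρK, hFrY⟩ := hρall Fr
  obtain ⟨p1, p2, p3⟩ := main Y ρ hY hρ hρK hgeoY hFrY
  obtain ⟨x, hx⟩ := n1 _ p2 p1
  exact ⟨x, p3 x hx⟩

end Pool.Agent.MP72P
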