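import Pool.Agent.Lib.MP_72e2e6_nt.P3.R.SpecC
import Pool.Agent.Lib.MP_72e2e6_nt.P3.G.Spec

/-!
# MP_72e2e6_nt, theorem T3p, part R, statements with proofs, part D: the count for the group `GS`

File `P3/R/X.lean` (import this file only), namespace `Pool.Agent.MP72P`, other declarations `private`.
-/

namespace Pool.Agent.MP72P

open Polynomial IntermediateField Finset

/-- **RCs** (80 lines, uses `S_TbF`, `S_Dsc`, `S_Hst`, `S_Onr`, `S_RCn`). The count in terms of `GS`.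

Proof. `CharP K p` by `S_TbF` (1). `HS`: `J` is finite (`Fintype.ofFinite`), `Pls av`; `Q`, `ϖ`, `R` at the `av j` from `S_Dsc`
(choice). `α ≠ 0`, `alo` is `α`, `H2Z` by `S_Hst`. `OmS`, `GS` are abbreviations, `rOm p av α ι` is `rLo ι` and `rG p av α` is
`rGo` by definition (`rfl`), `DS p av α emb = fun w => (rLo (emb w)).range` (`rfl`, unfold `DS`). `OnU p av α` by `S_Onr`. Apply
`S_RCn` with `αo = alo p av α`, `omS p av α = omc p (alo p av α)` (`rfl`). -/
def S_RCs : Prop :=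
  ∀ (p : ℕ) [Fact p.Prime] (K : Type) [Field K], GFld p K → ∀ (J : Type)
    (av : J → AbsoluteValue K ℝ) (α : Kgs K) (h : K), HS p av α h →
    ∀ (emb : ∀ w, Kgs K →ₐ[K] Kvs (av w)) (T : J → Type)
      (t : ∀ w, T w → Gal(Kvs (av w)/(av w).Completion)) (w₀ : J) (d : ℕ)
      (e : Fin d → Gal(Kvs (av w₀)/(av w₀).Completion)),
      LTs p (omS p av α) (fun w => rOm p av α (emb w)) t w₀ e →
    ∀ y₀ : Fin (d + 1) → GS p av α ⊕ J,
      (tsL (fun w => rOm p av α (emb w)) t w₀ e y₀).Ok p (omS p av α) (DS p av α emb) →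
    ∀ (n k : ℕ) (Λ : Type) [CommRing Λ] (π : Λ), LR p n π → ((p ^ k : ℕ) : Λ) = 0 →
    ∀ χ : GS p av α → Λ, Chr π (omS p av α) χ →
    ∀ U : Set (Λ → Kgs K), (∀ u ∈ U, AdmU p av α k χ u) →
      (∀ u ∈ U, ∀ u' ∈ U, (∀ z, EqN (p ^ k) (u z) (u' z)) → u = u') →
      U.Finite ∧ U.ncard * p ^ n ≤ (Ker (rL χ) (DS p av α emb)).ncard

end Pool.Agent.MP72P
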