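import Pool.Agent.Lib.MP_72e2e6_nt.P3.R.DefsB

/-!
# MP_72e2e6_nt, theorem T3p, part R, statements with proofs, part B: local invariants, the
reciprocity law, local duality

Every module proves one of the propositions `S_X` below: file `P3/R/X.lean` (import this file only)
with `theorem tX : S_X` or `theorem tX (h1 : S_Y) (h2 : S_Z) .. : S_X` (the used statements in the order of
the docstring), namespace `Pool.Agent.MP72P`, all other declarations `private`. The complete proofs are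
in the docstrings. `a ≡ b` means `EqN N a b` (an equivalence relation on nonzero elements,
compatible with products and automorphisms), `N = p ^ k`. `s ^ N = s' ^ N` implies `s = s'`. Functions of the
form `σ ↦ σ x` are locally constant (stabilizers are open). The corresponding modules for `p = 2`,
`K = F(t)` are in `W2/R/`.
-/

namespace Pool.Agent.MP72P

open Polynomial IntermediateField Finset

/-- **Eqn** (100 lines). Rules for `EqN` and exponents modulo `N = p ^ k`.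

Proof. `s ^ N * s' ^ N = (s s') ^ N`, etc. (6) if `m ≡ n` modulo `N` then `u ^ m ≡ u ^ n`. (7)
`(a + b).val`, `a.val + b.val` are congruent modulo `N`. (8) injectivity of the Frobenius: `a ^ p = (b s ^ N) ^ p`. -/
def S_Eqn : Prop :=
  ∀ (p : ℕ) [Fact p.Prime] (L : Type) [Field L] [CharP L p] (k : ℕ),
    (∀ a : L, EqN (p ^ k) a a) ∧
    (∀ a b : L, b ≠ 0 → EqN (p ^ k) a b → a ≠ 0 ∧ EqN (p ^ k) b a) ∧
    (∀ a b c : L, EqN (p ^ k) a b → EqN (p ^ k) b c → EqN (p ^ k) a c) ∧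
    (∀ a b c d : L, EqN (p ^ k) a b → EqN (p ^ k) c d → EqN (p ^ k) (a * c) (b * d) ∧
      EqN (p ^ k) (a / c) (b / d)) ∧
    (∀ (a b : L) (n : ℕ), EqN (p ^ k) a b → EqN (p ^ k) (a ^ n) (b ^ n)) ∧
    (∀ (u : L) (m n : ℕ), u ≠ 0 → (m : ZMod (p ^ k)) = n → EqN (p ^ k) (u ^ m) (u ^ n)) ∧
    (∀ (u : L) (a b : ZMod (p ^ k)), u ≠ 0 → EqN (p ^ k) (u ^ (a + b).val) (u ^ a.val * u ^ b.val) ∧
      EqN (p ^ k) (u ^ (a * b).val) ((u ^ a.val) ^ b.val)) ∧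
    (∀ a b : L, b ≠ 0 → (EqN (p ^ (k + 1)) (a ^ p) (b ^ p) ↔ EqN (p ^ k) a b)) ∧
    (∀ (L' : Type) [Field L'] (σ : L →+* L') (a b : L), EqN (p ^ k) a b →
      EqN (p ^ k) (σ a) (σ b)) ∧
    ∀ (a b : L) (j : ℕ), EqN (p ^ (k + j)) a b → EqN (p ^ k) a b

/-- **Rho** (150 lines, uses `S_RH90`, `S_TS`, `S_Eqn`). Crossed homomorphisms modulo `N`-th powers on the full Galois
group.

Proof. See `W2/R/Rho.lean`. `IsGeo p σ` iff `σ ∈ H = (Kgeo p K).fixingSubgroup` (`Kgeo` is generated by `Cst`). `S_TS` for the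
restriction of `μ` to `H` gives `Y`. Let `ρ' = μ Fr * Y / Fr Y`. For `τ ∈ H` let `τ'' = Fr⁻¹ τ Fr ∈ H` (the constants are stable
under `Fr`). Then `μ (τ Fr) ≡ μ τ * τ (μ Fr) ≡ (τ Fr Y / Y) * τ ρ'` and
`μ (Fr τ'') ≡ μ Fr * Fr (μ τ'') ≡ (Fr τ'' Y / Y) * ρ'`; so `τ ρ' ≡ ρ'`: `τ ρ' = ρ' * s_τ ^ N` with a unique `s_τ ≠ 0`, locally
constant in `τ`, and `s_(σ τ) = s_σ * σ s_τ`. By `S_RH90` (`E = Kgeo p K`) `s_τ = τ y / y`, and `ρ = ρ' / y ^ N` is fixed by `H`,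
so `ρ ∈ Kgeo p K` (`InfiniteGalois.fixedField_fixingSubgroup`). -/
def S_Rho : Prop :=
  ∀ (p : ℕ) [Fact p.Prime] (K : Type) [Field K], GFld p K → ∀ (k : ℕ)
    (μ : Gal(Kgs K/K) → Kgs K), NCoc (p ^ k) μ → ∃ Y : Kgs K, Y ≠ 0 ∧
      (∀ σ : Gal(Kgs K/K), IsGeo p σ → EqN (p ^ k) (μ σ) (σ Y / Y)) ∧
      ∀ Fr : Gal(Kgs K/K), ∃ ρ : Kgs K, ρ ≠ 0 ∧ ρ ∈ Kgeo p K ∧
        EqN (p ^ k) (μ Fr) (Fr Y / Y * ρ)

/-- **LvU** (120 lines, uses `S_Lc1`, `S_Lc2`, `S_Nr`, `S_RH90`, `S_Eqn`). Local invariants are unique modulo `N`.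

Proof. See `W2/R/LvU.lean`. Let `y, r` and `y', r'` be as in `LV`, and `Y = y / y'`. For geometric `g` (i.e. `g` fixes `Knr`,
`S_Nr` (6)): `g Y / Y = s_g ^ N` with a unique `s_g`, a locally constant crossed homomorphism; by `S_RH90`
(`E = Knr p v`) `s_g = g s / s`; so `b = Y / s ^ N ∈ Knr` is fixed by all geometric `g`. From the values at
`g₀`: `r' / r = (g₀ b / b) * s₂ ^ N`; `g₀ b ∈ Knr` (`g₀` permutes the constants), so `s₂ ^ N ∈ Knr` and `s₂ ∈ Knr`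
(`S_Nr` (5)), `nm s₂ = v ϖ ^ n` (`S_Nr` (1)). As `nm (g₀ b) = nm b`, `v ϖ ^ x' = v ϖ ^ x * v ϖ ^ (N n)`, `0 < v ϖ < 1`. -/
def S_LvU : Prop :=
  ∀ (p : ℕ) [Fact p.Prime] (K : Type) [Field K] [CharP K p] (v : AbsoluteValue K ℝ) (Q : ℕ)
    (ϖ : K) (R : Finset K), LF v p Q ϖ R →
    ∀ (k : ℕ) (g₀ : Gal(Kvs v/v.Completion)) (μ : Gal(Kvs v/v.Completion) → Kvs v) (x x' : ℤ),
      LV p v (p ^ k) ϖ g₀ μ x → LV p v (p ^ k) ϖ g₀ μ x' → (p : ℤ) ^ k ∣ x - x'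

/-- **LvA** (120 lines, uses `S_Lc1`, `S_Lc2`, `S_Eqn`). Rules for local invariants.

Proof. (1) `y y'`, `r r'`. (2) `y⁻¹`, `r⁻¹`. (3) `y ^ n`, `r ^ n`. (4) clear. (5) `y`, `r = 1`. (6) `y ^ p`, `r ^ p`:
`(b s ^ N) ^ p = b ^ p s ^ (p N)`. (7) the same `y`, `r`. `nm` is multiplicative (`S_Lc2`), `nm 1 = 1`. -/
def S_LvA : Prop :=
  ∀ (p : ℕ) [Fact p.Prime] (K : Type) [Field K] [CharP K p] (v : AbsoluteValue K ℝ) (Q : ℕ)
    (ϖ : K) (R : Finset K), LF v p Q ϖ R →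
    ∀ (k : ℕ) (g₀ : Gal(Kvs v/v.Completion)) (μ μ' : Gal(Kvs v/v.Completion) → Kvs v) (x x' : ℤ),
      (LV p v (p ^ k) ϖ g₀ μ x → LV p v (p ^ k) ϖ g₀ μ' x' →
        LV p v (p ^ k) ϖ g₀ (fun g => μ g * μ' g) (x + x')) ∧
      (LV p v (p ^ k) ϖ g₀ μ x → LV p v (p ^ k) ϖ g₀ (fun g => (μ g)⁻¹) (-x)) ∧
      (∀ n : ℕ, LV p v (p ^ k) ϖ g₀ μ x → LV p v (p ^ k) ϖ g₀ (fun g => μ g ^ n) (n * x)) ∧
      ((∀ g, EqN (p ^ k) (μ' g) (μ g)) → LV p v (p ^ k) ϖ g₀ μ x → LV p v (p ^ k) ϖ g₀ μ' x) ∧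
      (∀ y : Kvs v, y ≠ 0 → LV p v (p ^ k) ϖ g₀ (fun g => g y / y) 0) ∧
      (LV p v (p ^ k) ϖ g₀ μ x → LV p v (p ^ (k + 1)) ϖ g₀ (fun g => μ g ^ p) (p * x)) ∧
      ∀ j : ℕ, LV p v (p ^ (k + j)) ϖ g₀ μ x → LV p v (p ^ k) ϖ g₀ μ x

/-- **Val** (200 lines, uses `S_Lc1`, `S_Lc2`, `S_Nr`, `S_Has`, `S_Res`, `S_Rho`, `S_Eqn`). The local invariants of a
global crossed homomorphism.

Proof. See `W2/R/Val.lean`. (1) `r g = rsH ι g` is the restriction of `g` along `ι` (`S_Res`: `g (ι x) = ι (r g x)`). If `g`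
is geometric then `r g` is (`ι` maps constants to constants injectively), so with `y = ι Y`:
`ι (μ (r g)) ≡ ι (r g Y / Y) = g y / y`. `r g₀` acts on the constants as `x ↦ x ^ (q₀ ^ d)`, like `Fr ^ d`, so
`τ' = Fr ^ (- d) * r g₀` is geometric. By induction on `i`: `μ (Fr ^ i) ≡ (Fr ^ i Y / Y) * ∏_{j < i} Fr ^ j ρ`
(`μ 1 ≡ 1` from `μ 1 ≡ μ 1 * μ 1`). So `μ (r g₀) = μ (Fr ^ d * τ') ≡ μ (Fr ^ d) * Fr ^ d (τ' Y / Y) ≡
(r g₀ Y / Y) * ∏_{j < d} Fr ^ j ρ`. Put `r = ι (∏_{j < d} Fr ^ j ρ)`; it is in `Knr` (`ι` maps the constants to constants and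
`K` to `K_v`, and `Fr` maps `Kgeo` to itself). (2) By `S_Rho` and (1): `x` exists by `S_Nr` (1). -/
def S_Val : Prop :=
  ∀ (p : ℕ) [Fact p.Prime] (K : Type) [Field K], GFld p K → ∀ (q₀ : ℕ) (Fr : Gal(Kgs K/K)),
    IsFro p q₀ Fr → ∀ (k : ℕ) (μ : Gal(Kgs K/K) → Kgs K), NCoc (p ^ k) μ →
    ∀ (v : AbsoluteValue K ℝ) (Q d : ℕ) (ϖ : K) (R : Finset K), LF v p Q ϖ R → Q = q₀ ^ d →
    ∀ (ι : Kgs K →ₐ[K] Kvs v) (g₀ : Gal(Kvs v/v.Completion)), IsFro p Q g₀ →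
    (∀ Y ρ : Kgs K, Y ≠ 0 → ρ ≠ 0 → ρ ∈ Kgeo p K →
      (∀ σ : Gal(Kgs K/K), IsGeo p σ → EqN (p ^ k) (μ σ) (σ Y / Y)) →
      EqN (p ^ k) (μ Fr) (Fr Y / Y * ρ) →
      ∀ x : ℤ, nm v (∏ i ∈ range d, ι ((Fr ^ i) ρ)) = v ϖ ^ x →
        LV p v (p ^ k) ϖ g₀ (lcl ι μ) x) ∧
    ∃ x : ℤ, LV p v (p ^ k) ϖ g₀ (lcl ι μ) x

/-- **Q0** (200 lines, uses `S_Cst`). The field of constants of a global function field.

Proof. Let `F`, `K / F(x)` be as in `GFld`, `k₀ = {c ∈ K | c is a constant}`, a subfield containing `F` (`c ∈ K` is in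
`Cst p K` iff its image is in `Cst p (Kgs K)`: injectivity). Every `c ∈ k₀` is algebraic over `F` and elements of `k₀`
which are linearly independent over `F` are linearly independent over `F(x)` (`x` is transcendental over the
algebraic extension `k₀` of `F`: a relation with polynomial coefficients in `F[x]` is a polynomial in `x` with
coefficients in `k₀`), so `[k₀ : F] ≤ [K : F(x)]` and `k₀` is finite, with `p ^ r` elements, `r ≥ 1`. (1) `c ∈ k₀` implies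
`c ^ p ^ r = c`; the converse is clear. (2) Let `c` be a generator of `k₀*`, of order `p ^ r - 1`. For a place `v`:
`v (c ^ Q - c) < 1` (`LF.frob`, `v c = 1`) and `c ^ Q - c ∈ k₀`, so `c ^ Q = c` (`v = 1` on `k₀ \ {0}`), so
`p ^ r - 1` divides `Q - 1 = p ^ s - 1` and `r` divides `s`. -/
def S_Q0 : Prop :=
  ∀ (p : ℕ) [Fact p.Prime] (K : Type) [Field K], GFld p K → ∃ r : ℕ, CstO p r K ∧
    ∀ (v : AbsoluteValue K ℝ) (Q : ℕ) (ϖ : K) (R : Finset K), LF v p Q ϖ R →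
      ∃ d : ℕ, 1 ≤ d ∧ Q = (p ^ r) ^ d

/-- **Nmr** (200 lines, uses `S_Cst`). The norm of an element of `Kgeo` to `K`.

Proof. Let `F_n = {x ∈ K^s | x ^ p ^ n = x}`. `Kgeo` is the union of the `K(F_n)`, `F_m, F_n ⊆ F_(m n)`; let `ρ ∈ K(F_n)`, `n ≥ 1`.
`Fr ^ n` is trivial on `F_n` (`x ^ (p ^ r) ^ n = x`) and on `K`, so `Fr ^ n ρ = ρ`. Let `R' = ∏_{i < n} Fr ^ i ρ` and `σ` any
automorphism. Claim: there is `i` with `σ = Fr ^ i` on `F_n`. Let `c` be a generator of the multiplicative group of the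
finite field `F_n`; the coefficients of `∏_{x ∈ {Fr ^ i c}} (X - x)` are fixed by `Fr` and constants, so they satisfy
`x ^ p ^ r = x`; there are only `p ^ r` such elements in `K^s` and `K` contains `p ^ r` of them (`CstO`), so the coefficients are
in `K` and are fixed by `σ`: `σ c = Fr ^ i c`. So `σ = Fr ^ i` on `K(F_n)`; `Fr` maps `K(F_n)` to itself, so
`σ (Fr ^ j ρ) = Fr ^ (i + j) ρ` and `σ R' = R'` (as `Fr ^ n ρ = ρ`). So `R' ∈ K`. -/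
def S_Nmr : Prop :=
  ∀ (p : ℕ) [Fact p.Prime] (K : Type) [Field K] [CharP K p] (r : ℕ), CstO p r K →
    ∀ Fr : Gal(Kgs K/K), IsFro p (p ^ r) Fr → ∀ ρ ∈ Kgeo p K, ρ ≠ 0 →
      ∃ n : ℕ, 1 ≤ n ∧ (Fr ^ n) ρ = ρ ∧ ∃ y : K, y ≠ 0 ∧
        tG y = ∏ i ∈ range n, (Fr ^ i) ρ

/-- **Odn** (150 lines, uses `S_Lc1`, `S_Lc2`, `S_Nr`, `S_Has`, `S_Res`, `S_FrL`). The order of the norm at a place.

Proof. Let `g₀` be a local Frobenius element (`S_FrL`). `rsH ι g₀` and `Fr ^ d` agree on the constants (both are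
`x ↦ x ^ Q`; `ι` is injective) and on `K`, so on `Kgeo`; `Fr` maps `Kgeo` to itself. So for `z = Fr ^ i ρ`
`nm (ι (Fr ^ d z)) = nm (g₀ (ι z)) = nm (ι z)`. `ι z ∈ Knr` is not `0`, let `nm (ι (Fr ^ i ρ)) = v ϖ ^ a_i` (`S_Nr` (1)): `a_(i + d) = a_i`
and `a_(i + n) = a_i`. `∑_{i < n d} a_i = n ∑_{i < d} a_i = n x` and `= d ∑_{i < n} a_i = d y'`, where `v y = nm (ι (tG y)) = v ϖ ^ y'`
(`nm (ι (tG y)) = ‖y‖ = v y`); `0 < v ϖ < 1`, so exponents are unique. -/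
def S_Odn : Prop :=
  ∀ (p : ℕ) [Fact p.Prime] (K : Type) [Field K] [CharP K p] (r : ℕ), CstO p r K →
    ∀ Fr : Gal(Kgs K/K), IsFro p (p ^ r) Fr → ∀ ρ ∈ Kgeo p K, ρ ≠ 0 →
    ∀ (n : ℕ) (y : K), (Fr ^ n) ρ = ρ → tG y = ∏ i ∈ range n, (Fr ^ i) ρ →
    ∀ (v : AbsoluteValue K ℝ) (Q d : ℕ) (ϖ : K) (R : Finset K), LF v p Q ϖ R →
    Q = (p ^ r) ^ d → ∀ (ι : Kgs K →ₐ[K] Kvs v) (x y' : ℤ),
    nm v (∏ i ∈ range d, ι ((Fr ^ i) ρ)) = v ϖ ^ x → v y = v ϖ ^ y' → (d : ℤ) * y' = n * x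

/-- The product formula (delivered by block N). -/
def S_PF : Prop :=
  ∀ (p : ℕ) [Fact p.Prime] (K : Type) [Field K], GFld p K → ∀ x : K, x ≠ 0 →
    ∀ (J : Type) [Fintype J] (av : J → AbsoluteValue K ℝ), Pls av →
    ∀ (Q : J → ℕ) (ϖ : J → K) (R : J → Finset K), (∀ j, LF (av j) p (Q j) (ϖ j) (R j)) →
    ∀ y : J → ℤ, (∀ j, av j x = av j (ϖ j) ^ y j) →
    ∃ (J' : Type) (_ : Fintype J') (av' : J' → AbsoluteValue K ℝ) (Q' : J' → ℕ) (ϖ' : J' → K)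
      (R' : J' → Finset K) (y' : J' → ℤ),
      (∀ i, (av' i).IsNontrivial ∧ ∀ j, ¬ (av' i).IsEquiv (av j)) ∧
      (∀ i, LF (av' i) p (Q' i) (ϖ' i) (R' i)) ∧ (∀ i, av' i x = av' i (ϖ' i) ^ y' i) ∧
      (∏ j, (Q j : ℝ) ^ y j) * ∏ i, (Q' i : ℝ) ^ y' i = 1

/-- **Rec** (200 lines, uses `S_Lc1`, `S_Lc2`, `S_Nr`, `S_FrG`, `S_Rho`, `S_LvU`, `S_Val`, `S_Q0`, `S_Nmr`, `S_Odn`, `S_PF`, `S_TbF`). THE
RECIPROCITY LAW.

Proof. `r` from `S_Q0`, `q₀ = p ^ r`, `Fr` from `S_FrG` (1), `Y`, `ρ` from `S_Rho`, `n`, `y` from `S_Nmr`. At every place `v` of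
type `LF`, `Q = q₀ ^ d`, with an embedding `ι` and a local Frobenius element `g₀`, let `x_v` be the integer with
`nm (∏_{i < d} ι (Fr ^ i ρ)) = v ϖ ^ x_v` (`S_Nr` (1), the product is in `Knr`), a local invariant by `S_Val` (1); `v y = v ϖ ^ y_v`
(`LF.disc`) with `d y_v = n x_v` (`S_Odn`). Apply `S_PF` to `y` and the family `av`: in the product formula `Q = q₀ ^ d`, so
`∑ d_v y_v = 0` over the finitely many places `J ∪ J'`, so `n ∑ x_v = 0` and `∑ x_v = 0`. For the places in `J'` (with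
the `ι`, `g₀` of the hypothesis) `x_v` is divisible by `N` (hypothesis and `S_LvU`), and for `j ∈ J` `x_j ≡ x j` (`S_LvU`). So
`N` divides `∑ x j`. (The integers `x_v` depend only on `v`, `ι`; choose for `J'` the `ι` of the hypothesis.) -/
def S_Rec : Prop :=
  ∀ (p : ℕ) [Fact p.Prime] (K : Type) [Field K], GFld p K → ∀ (k : ℕ)
    (μ : Gal(Kgs K/K) → Kgs K), NCoc (p ^ k) μ →
    ∀ (J : Type) [Fintype J] (av : J → AbsoluteValue K ℝ), Pls av →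
    (∀ v : AbsoluteValue K ℝ, v.IsNontrivial → (∀ j, ¬ v.IsEquiv (av j)) →
      ∀ (Q : ℕ) (ϖ : K) (R : Finset K), LF v p Q ϖ R →
      ∃ (ι : Kgs K →ₐ[K] Kvs v) (g₀ : Gal(Kvs v/v.Completion)), IsFro p Q g₀ ∧
        ∃ x : ℤ, LV p v (p ^ k) ϖ g₀ (lcl ι μ) x ∧ (p : ℤ) ^ k ∣ x) →
    ∀ (Q : J → ℕ) (ϖ : J → K) (R : J → Finset K), (∀ j, LF (av j) p (Q j) (ϖ j) (R j)) →
    ∀ (ι : ∀ j, Kgs K →ₐ[K] Kvs (av j)) (g₀ : ∀ j, Gal(Kvs (av j)/(av j).Completion)),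
      (∀ j, IsFro p (Q j) (g₀ j)) → ∀ x : J → ℤ,
      (∀ j, LV p (av j) (p ^ k) (ϖ j) (g₀ j) (lcl (ι j) μ) (x j)) →
      (p : ℤ) ^ k ∣ ∑ j, x j

/-- **CLo** (200 lines, uses `S_Lc1`, `S_Lc2`, `S_Nr`, `S_Tba`, `S_Tbp`, `S_TbV`). The operator `Ca - 1` is surjective on `Knr`.

Proof. `t = tV v ϖ`, a `p`-basis of `Kvs v` (`S_TbV`). (1) The coordinates `cf p t f i` (`i < p`) of `f ∈ Knr` are in `Knr`: the
elements of `(Knr p v).fixingSubgroup` fix `t`, so they fix the coordinates (uniqueness, `Tba` (1), (2)), and `Knr` is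
the fixed field (`InfiniteGalois.fixedField_fixingSubgroup`). (2) Let `e ∈ Knr`, `nm (e t) ≤ 1`. By `S_Nr` (3) there is
`θ ∈ Knr` with `θ ^ p - θ = - e t`; `h = θ ^ p / t`: `Ca (θ ^ p / t) = θ Ca (t ^ (p - 1) / t ^ p) = θ / t` (`Tba` (8), (1): `Ca (t ^ (p - 1)) = 1`), so
`Ca h - h = (θ - θ ^ p) / t = e`. (3) General `e ≠ 0`, `nm e = v ϖ ^ (- m)` (`S_Nr` (1)), by induction on `m` (a natural number; for `m ≤ 1`
see (2)). Let `m ≥ 2`, `e = ∑ t ^ i a_i ^ p`, `a_i ∈ Knr`; the nonzero terms have different norms (the exponents of `v ϖ` are different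
modulo `p`, `S_Nr` (1)), so `nm (t ^ (p - 1) a_(p - 1) ^ p) ≤ nm e`. So if `Ca e = a_(p - 1) ≠ 0`, `nm (Ca e) = v ϖ ^ (- m')`,
`p m' ≤ m + p - 1`, so `m' < m`. Let `Ca h₁ - h₁ = Ca e`, `h₁ ∈ Knr` (induction); `h = h₁ - e`. -/
def S_CLo : Prop :=
  ∀ (p : ℕ) [Fact p.Prime] (K : Type) [Field K], GFld p K → ∀ (v : AbsoluteValue K ℝ) (Q : ℕ)
    (ϖ : K) (R : Finset K), LF v p Q ϖ R →
    (∀ f ∈ Knr p v, Ca p (tV v ϖ) f ∈ Knr p v) ∧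
    ∀ e ∈ Knr p v, ∃ h ∈ Knr p v, Ca p (tV v ϖ) h - h = e

/-- **TSl** (200 lines, uses `S_RH90`, `S_Tba`, `S_Tbp`, `S_TbV`, `S_CLo`, `S_Eqn`). Crossed homomorphisms modulo `p ^ k`-th powers on the
inertia group are trivial.

Proof. The same as the proof of `S_TS` (`P3/R/TS.lean`, `SpecA.lean`) with `Kvs v / K_v`, `E = Knr p v`, `t = tV v ϖ`, `S_CLo` in the
place of `S_CGe`. -/
def S_TSl : Prop :=
  ∀ (p : ℕ) [Fact p.Prime] (K : Type) [Field K], GFld p K → ∀ (v : AbsoluteValue K ℝ) (Q : ℕ)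
    (ϖ : K) (R : Finset K), LF v p Q ϖ R →
    ∀ (k : ℕ) (μ : (Knr p v).fixingSubgroup → Kvs v),
    IsLocallyConstant μ → (∀ σ, μ σ ≠ 0) →
    (∀ σ τ : (Knr p v).fixingSubgroup,
      EqN (p ^ k) (μ (σ * τ)) (μ σ * (σ : Gal(Kvs v/v.Completion)) (μ τ))) →
    ∃ Y : Kvs v, Y ≠ 0 ∧ ∀ σ : (Knr p v).fixingSubgroup,
      EqN (p ^ k) (μ σ) ((σ : Gal(Kvs v/v.Completion)) Y / Y)

/-- **LvE** (150 lines, uses `S_Lc1`, `S_Lc2`, `S_Nr`, `S_RH90`, `S_TSl`, `S_Eqn`). Every local crossed homomorphism modulo `N`-th powers has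
a local invariant.

Proof. As `S_Rho`: `H = (Knr p v).fixingSubgroup` are the geometric elements (`S_Nr` (6)). `S_TSl` gives `Y`;
`ρ' = μ g₀ * Y / g₀ Y` satisfies `τ ρ' ≡ ρ'` for `τ ∈ H` (`g₀⁻¹ τ g₀ ∈ H`, constants are mapped to constants); by
`S_RH90` `r = ρ' / y ^ N ∈ Knr`; `nm r = v ϖ ^ x` by `S_Nr` (1). -/
def S_LvE : Prop :=
  ∀ (p : ℕ) [Fact p.Prime] (K : Type) [Field K], GFld p K → ∀ (v : AbsoluteValue K ℝ) (Q : ℕ)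
    (ϖ : K) (R : Finset K), LF v p Q ϖ R → ∀ (k : ℕ) (g₀ : Gal(Kvs v/v.Completion)),
    ∀ μ : Gal(Kvs v/v.Completion) → Kvs v, NCl (p ^ k) μ →
      ∃ x : ℤ, LV p v (p ^ k) ϖ g₀ μ x

/-- **Ivl** (100 lines, uses `S_Lc1`, `S_Lc2`, `S_LvU`, `S_LvA`, `S_LvE`, `S_Eqn`, `S_TbF`). The invariant `inl`.

Proof. (1) `S_LvU`. (2)-(5) from (1), `S_LvE` (existence) and `S_LvA`. (6) if `μ` is `NCl (p ^ (k + 1))` then it is
`NCl (p ^ k)`, `S_LvA` (7). (7) `S_LvA` (6). -/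
def S_Ivl : Prop :=
  ∀ (p : ℕ) [Fact p.Prime] (K : Type) [Field K], GFld p K → ∀ (v : AbsoluteValue K ℝ) (Q : ℕ)
    (ϖ : K) (R : Finset K), LF v p Q ϖ R → ∀ (k : ℕ) (g₀ : Gal(Kvs v/v.Completion)),
    ∀ μ μ' : Gal(Kvs v/v.Completion) → Kvs v, NCl (p ^ k) μ → NCl (p ^ k) μ' →
      (∀ x : ℤ, LV p v (p ^ k) ϖ g₀ μ x ↔ inl p v k ϖ g₀ μ = x) ∧
      (NCl (p ^ k) fun g => μ g * μ' g) ∧
      inl p v k ϖ g₀ (fun g => μ g * μ' g) = inl p v k ϖ g₀ μ + inl p v k ϖ g₀ μ' ∧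
      ((∀ g, EqN (p ^ k) (μ' g) (μ g)) → inl p v k ϖ g₀ μ' = inl p v k ϖ g₀ μ) ∧
      (∀ y : Kvs v, y ≠ 0 → NCl (p ^ k) (fun g : Gal(Kvs v/v.Completion) => g y / y) ∧
        inl p v k ϖ g₀ (fun g => g y / y) = 0) ∧
      (NCl (p ^ (k + 1)) (fun g => μ g ^ p)) ∧
      (inl p v (k + 1) ϖ g₀ (fun g => μ g ^ p) = 0 → inl p v k ϖ g₀ μ = 0)

/-- **Eqc** (100 lines, uses `S_Eqn`). Composition of an equivariant homomorphism with a crossed homomorphism; for the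
global and the local Galois groups.

Proof. `u (z (g h)) = u (z g + χ g * z h) ≡ u (z g) * u (χ g * z h) ≡ u (z g) * g (u (z h))`. (2) the same. (3) `u 0 ≡ 1` from
`u (0 + 0) ≡ u 0 * u 0`. (4) For `z g = c - χ g * c`: `u (c - χ g * c) ≡ u c / u (χ g * c) ≡ u c / g (u c)`
(`u (c - b) * u b ≡ u c`). (5) `u ((z + z') g) ≡ u (z g) * u (z' g)`. -/
def S_Eqc : Prop :=
  ∀ (p : ℕ) [Fact p.Prime] (K : Type) [Field K] [CharP K p] (k : ℕ) (Λ : Type) [CommRing Λ],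
    (∀ (χ : Gal(Kgs K/K) → Λ) (u : Λ → Kgs K), EqH (p ^ k) actG χ u →
      ∀ z : Gal(Kgs K/K) → Λ, Coc (fun g x => χ g * x) z → NCoc (p ^ k) fun σ => u (z σ)) ∧
    ∀ (v : AbsoluteValue K ℝ) (χ : Gal(Kvs v/v.Completion) → Λ) (u : Λ → Kvs v),
      EqH (p ^ k) actG χ u →
      (∀ z : Gal(Kvs v/v.Completion) → Λ, Coc (fun g x => χ g * x) z →
        NCl (p ^ k) fun σ => u (z σ)) ∧
      EqN (p ^ k) (u 0) 1 ∧
      (∀ (c : Λ) (g : Gal(Kvs v/v.Completion)),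
        EqN (p ^ k) (u (c - χ g * c)) (g (u c)⁻¹ / (u c)⁻¹)) ∧
      ∀ a b : Λ, EqN (p ^ k) (u (a - b)) (u a / u b)

/-- **Dul** (300 lines, uses `S_Lc1`, `S_Lc2`, `S_Cst`, `S_Nr`, `S_Has`, `S_Sep`, `S_Tba`, `S_Tbp`, `S_TbV`, `S_Eqn`). LOCAL DUALITY.

Proof. `L = Kvs v`, `t = tV v ϖ`, `Lg = Lg p t`, `Ca = Ca p t`, `D`-derivative with respect to `t`; automorphisms `g` over `K_v` fix
`t`, so `Lg (g u) = g (Lg u)`, `Ca (g f) = g (Ca f)` (`Tbp` (6)). `ω = omc p α`. Let `lam = Lg y ≠ 0` (`Tbp` (3)). By hypothesis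
`g y = y ^ (ω g).val * s ^ p`, so `g lam = op L (ω g) * lam`; as `g α = op L (ω g) * α` (`S_Has` (1)), `η = lam / α` is fixed by all `g`, so
`η ∈ K_v`. Let `Q = p ^ r`. There is `κ ∈ K_v` with `κ ^ Q = κ` and `δ = ∑ i < r, κ ^ p ^ i ≠ 0` (the set `{κ ∈ K_v | κ ^ Q = κ}` has at least `Q`
elements: `S_Lc1` (9) for the elements of `R`, `LF.sep`, `LF.card`; the polynomial `∑ X ^ p ^ i` has degree less than `Q`);
`δ ^ p = δ`, so `δ` is the image of an integer `m`, `0 < m < p`. Let `f = κ h / (t η) ∈ K_v` and `c = hP p α f`, `x ∈ L` with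
`x ^ p - h x = f`, `g x = x + op L (c g) * α` (`S_Has` (3), roots exist by `S_Sep` (2)). Let `ρ ∈ L` with `ρ - ρ ^ p = κ` (separably closed), a
constant (`κ` is a constant: `ρ ^ (p ^ r) = ρ - δ`, so `ρ ^ (p ^ (r p)) = ρ`). `ξ = x η + ρ / t`. Claim: `Ca ξ = ξ`. With
`x = (x ^ p - f) / h`: `x η = x ^ p * (η / h) - κ / t`; `η / h = lam / α ^ p`, so `Ca (η / h) = Ca lam / α = lam / α = η` (`Tbp` (4)) and
`Ca (x ^ p * (η / h)) = x η`. For a constant `b = b' ^ p` `Ca (b / t) = b' / t` (`Ca (t ^ (p - 1)) = 1`). With `κ = κ' ^ p`, `ρ = ρ' ^ p`: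
`Ca ξ = x η - κ' / t + ρ' / t`, and `ρ' - κ' = ρ` since `ρ' ^ p - κ' ^ p = ρ - κ = ρ ^ p`. So `ξ = Lg Y`, `Y ≠ 0` (`Tbp` (5)). For `g` geometric
`g ξ - ξ = op L (c g) α η = op L (c g) lam`, so `Lg (g Y / Y) = Lg (y ^ (c g).val)` and `y ^ (c g).val ≡ g Y / Y` (`Tbp` (1)-(3)). For `g₀`
`g₀ ρ = ρ ^ Q`, `ρ - ρ ^ Q = ∑ (ρ - ρ ^ p) ^ p ^ i = δ`, so `g₀ ξ - ξ = op L (c g₀) lam - δ / t`, and `Lg (t ^ m) = m Lg t = δ / t`
(`Dt t = 1`); so `y ^ (c g₀).val ≡ g₀ Y / Y * t ^ m`. `t ^ m ∈ Knr`, `nm (t ^ m) = v ϖ ^ m`. `c` is a crossed homomorphism by `S_Has` (3). -/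
def S_Dul : Prop :=
  ∀ (p : ℕ) [Fact p.Prime] (K : Type) [Field K], GFld p K → ∀ (v : AbsoluteValue K ℝ) (Q : ℕ)
    (ϖ : K) (R : Finset K), LF v p Q ϖ R → ∀ g₀ : Gal(Kvs v/v.Completion), IsFro p Q g₀ →
    ∀ (α : Kvs v) (h : v.Completion), α ≠ 0 → α ^ (p - 1) = algebraMap v.Completion (Kvs v) h →
    ∀ y : Kvs v, y ≠ 0 → (¬ ∃ s, y = s ^ p) →
    (∀ g : Gal(Kvs v/v.Completion), EqN p (g y) (y ^ (omc p α g).val)) →
    ∃ c : Gal(Kvs v/v.Completion) → ZMod p, Coc (fun g (x : ZMod p) => omc p α g * x) c ∧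
      ∃ m : ℕ, ¬ p ∣ m ∧ LV p v p ϖ g₀ (fun g => y ^ (c g).val) m

end Pool.Agent.MP72P
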