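import Pool.Agent.Lib.MP_72e2e6_nt.P3.R.SpecB
import Pool.Agent.Lib.MP_72e2e6_nt.P3.A2.Defs

/-!
# MP_72e2e6_nt, theorem T3p, part R: definitions for part C
-/

namespace Pool.Agent.MP72P

open Polynomial IntermediateField Finset

/-- The restriction homomorphism from the absolute Galois group of `K` to the Galois group of `Om`. -/
noncomputable def rGo {K : Type} [Field K] {W : Type} {p : ℕ} {av : W → AbsoluteValue K ℝ}
    {α : Kgs K} : Gal(Kgs K/K) →* Gal((Om p (OS av) K (Kgs K) α)/K) :=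
  rsH (M := K) (Om p (OS av) K (Kgs K) α).val

/-- The homomorphism from the local Galois group at `v` to the Galois group of `Om`, for an embedding
`ι` of `K^s`. -/
noncomputable def rLo {K : Type} [Field K] {W : Type} {p : ℕ} {av : W → AbsoluteValue K ℝ}
    {α : Kgs K} {v : AbsoluteValue K ℝ} (ι : Kgs K →ₐ[K] Kvs v) :
    Gal(Kvs v/v.Completion) →* Gal((Om p (OS av) K (Kgs K) α)/K) :=
  rsH (M := v.Completion) (ι.comp (Om p (OS av) K (Kgs K) α).val)

/-- `Om` is unramified outside the places `av w`. -/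
def OnU {K : Type} [Field K] {W : Type} (p : ℕ) (av : W → AbsoluteValue K ℝ) (α : Kgs K) : Prop :=
  ∀ v : AbsoluteValue K ℝ, v.IsNontrivial → (∀ w, ¬ v.IsEquiv (av w)) →
    ∀ (Q : ℕ) (ϖ : K) (R : Finset K), LF v p Q ϖ R → ∀ (ι : Kgs K →ₐ[K] Kvs v)
      (g : Gal(Kvs v/v.Completion)), IsGeo p g → rLo (p := p) (av := av) (α := α) ι g = 1

/-- The admissible `u`: equivariant homomorphisms from `Λ` to the multiplicative group of `K^s` modulo
`p ^ k`-th powers, `χ` a character of the Galois group of `Om`, which are unramified outside the places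
`av w`. -/
structure AdmU {K : Type} [Field K] {W Λ : Type} [CommRing Λ] (p : ℕ) (av : W → AbsoluteValue K ℝ)
    (α : Kgs K) (k : ℕ) (χ : Gal((Om p (OS av) K (Kgs K) α)/K) → Λ) (u : Λ → Kgs K) : Prop where
  eq : EqH (p ^ k) actG (fun σ : Gal(Kgs K/K) => χ (rGo σ)) u
  unr : ∀ v : AbsoluteValue K ℝ, v.IsNontrivial → (∀ w, ¬ v.IsEquiv (av w)) →
    ∀ (Q : ℕ) (ϖ : K) (R : Finset K), LF v p Q ϖ R → ∀ (ι : Kgs K →ₐ[K] Kvs v) (z : Λ),
      ∃ r ∈ Knr p v, r ≠ 0 ∧ EqN (p ^ k) (ι (u z)) r ∧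
        ∃ x : ℤ, nm v r = v ϖ ^ x ∧ (p : ℤ) ^ k ∣ x

/-- The local invariant at `w` of the crossed homomorphism `z` with values in `Λ` composed with `u`. -/
noncomputable def Iu {K : Type} [Field K] {W Λ : Type} (p : ℕ) (av : W → AbsoluteValue K ℝ)
    (k : ℕ) (ϖ : W → K) (emb : ∀ w, Kgs K →ₐ[K] Kvs (av w))
    (g₀ : ∀ w, Gal(Kvs (av w)/(av w).Completion)) (u : Λ → Kgs K) (w : W)
    (z : Gal(Kvs (av w)/(av w).Completion) → Λ) : ZMod (p ^ k) :=
  inl p (av w) k (ϖ w) (g₀ w) fun g => emb w (u (z g))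

section

variable {G W : Type} [Group G] [TopologicalSpace G] {Γ : W → Type} [∀ w, Group (Γ w)]
  [∀ w, TopologicalSpace (Γ w)]

/-- Additive functions on the local crossed homomorphisms which vanish on the coboundaries and satisfy
the reciprocity law. `G` is the global group, `Γ w` are the local groups, `r w` the homomorphisms to
`G`. -/
structure Inv [Fintype W] {Λ : Type} [CommRing Λ] (r : ∀ w, Γ w →* G) (χ : G → Λ) {N : ℕ}
    (I : ∀ w, (Γ w → Λ) → ZMod N) : Prop where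
  add : ∀ w z z', Coc (fun (g : Γ w) (x : Λ) => χ (r w g) * x) z →
    Coc (fun (g : Γ w) (x : Λ) => χ (r w g) * x) z' → I w (fun g => z g + z' g) = I w z + I w z'
  cob : ∀ w (a : Λ), I w (fun g => a - χ (r w g) * a) = 0
  rcp : ∀ Z : G → Λ, Coc (fun g x => χ g * x) Z → ∑ w, I w (fun g => Z (r w g)) = 0

/-- The local tests `t w i` in `Γ w`, and the extra tests `e j` in `Γ w₀`. -/
structure LTs (p : ℕ) {d : ℕ} (ω : G → ZMod p) (r : ∀ w, Γ w →* G) {T : W → Type}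
    (t : ∀ w, T w → Γ w) (w₀ : W) (e : Fin d → Γ w₀) : Prop where
  cont : ∀ w, Continuous (r w)
  h2 : ∀ w, H2Z p (fun g => ω (r w g))
  conv : ∀ w (N : Set (Γ w)), IsOpen N → 1 ∈ N → {i | t w i ∉ N}.Finite
  ue : ∀ w, w ≠ w₀ → ∀ v : T w → ZMod p, {i | v i ≠ 0}.Finite → ∃! f : Γ w → ZMod p,
    Coc (fun g (x : ZMod p) => ω (r w g) * x) f ∧ ∀ i, f (t w i) = v i
  u0 : ∀ v : T w₀ → ZMod p, {i | v i ≠ 0}.Finite → ∀ c : Fin d → ZMod p, ∃! f : Γ w₀ → ZMod p,
    Coc (fun g (x : ZMod p) => ω (r w₀ g) * x) f ∧ (∀ i, f (t w₀ i) = v i) ∧ ∀ j, f (e j) = c j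

/-- The test system of the local tests. -/
def tsL {d : ℕ} (r : ∀ w, Γ w →* G) {T : W → Type} (t : ∀ w, T w → Γ w) (w₀ : W)
    (e : Fin d → Γ w₀) (y : Fin (d + 1) → G ⊕ W) : Tst G W d where
  I := Σ w, T w
  w := fun i => i.1
  t := fun i => r i.1 (t i.1 i.2)
  u := fun _ => w₀
  e := fun j => r w₀ (e j)
  y := y

end

end Pool.Agent.MP72P
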