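import Pool.Agent.Lib.MP_72e2e6_nt.P3.Defs
import Pool.Agent.Lib.MP_72e2e6_nt.P3.A.Defs

/-!
# MP_72e2e6_nt, theorem T3p, part R (the reciprocity law, duality): definitions
-/

namespace Pool.Agent.MP72P

open Polynomial IntermediateField Finset

/-! ### `p`-bases, the Cartier operator -/

/-- `t` is a `p`-basis of the field `L` of characteristic `p`. -/
def TBp (p : ℕ) (L : Type) [Field L] (t : L) : Prop :=
  (∀ f : L, ∃ a : ℕ → L, f = ∑ i ∈ range p, t ^ i * a i ^ p) ∧ ∀ s : L, s ^ p ≠ t

open Classical in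
/-- The coefficients `a i` of `f = ∑ i < p, t ^ i * a i ^ p`. -/
noncomputable def cf (p : ℕ) {L : Type} [Field L] (t f : L) : ℕ → L :=
  if h : ∃ a : ℕ → L, f = ∑ i ∈ range p, t ^ i * a i ^ p then h.choose else 0

/-- The derivative with respect to `t`. -/
noncomputable def Dt (p : ℕ) {L : Type} [Field L] (t f : L) : L :=
  ∑ i ∈ range p, (i : L) * t ^ (i - 1) * cf p t f i ^ p

/-- The Cartier operator (`C(f dt) = Ca f dt`). -/
noncomputable def Ca (p : ℕ) {L : Type} [Field L] (t f : L) : L := cf p t f (p - 1)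

/-- The logarithmic derivative. -/
noncomputable def Lg (p : ℕ) {L : Type} [Field L] (t u : L) : L := Dt p t u / u

/-! ### Crossed homomorphisms modulo `N`-th powers and local invariants -/

/-- The image of `t ∈ K` in `K^s`. -/
noncomputable def tG {K : Type} [Field K] (t : K) : Kgs K := algebraMap K (Kgs K) t

/-- The image of `t ∈ K` in the separable closure of the completion. -/
noncomputable def tV {K : Type} [Field K] (v : AbsoluteValue K ℝ) (t : K) : Kvs v :=
  algebraMap v.Completion (Kvs v) (algebraMap K v.Completion t)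

/-- Locally constant functions which are crossed homomorphisms modulo `N`-th powers. -/
structure NCoc {K : Type} [Field K] (N : ℕ) (μ : Gal(Kgs K/K) → Kgs K) : Prop where
  ne : ∀ σ, μ σ ≠ 0
  loc : IsLocallyConstant μ
  mul : ∀ σ τ, EqN N (μ (σ * τ)) (μ σ * σ (μ τ))

/-- `x` is a local invariant modulo `N` of the function `μ` on the local Galois group (`g₀` a
Frobenius element, `ϖ` a uniformizer). -/
def LV {K : Type} [Field K] (p : ℕ) (v : AbsoluteValue K ℝ) (N : ℕ) (ϖ : K)
    (g₀ : Gal(Kvs v/v.Completion)) (μ : Gal(Kvs v/v.Completion) → Kvs v) (x : ℤ) : Prop :=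
  ∃ y r : Kvs v, y ≠ 0 ∧ r ≠ 0 ∧ r ∈ Knr p v ∧
    (∀ g : Gal(Kvs v/v.Completion), IsGeo p g → EqN N (μ g) (g y / y)) ∧
    EqN N (μ g₀) (g₀ y / y * r) ∧ nm v r = v ϖ ^ x

/-- The restriction of a function on the Galois group of `K^s` to the local Galois group. -/
noncomputable def lcl {K : Type} [Field K] {v : AbsoluteValue K ℝ} (ι : Kgs K →ₐ[K] Kvs v)
    (μ : Gal(Kgs K/K) → Kgs K) : Gal(Kvs v/v.Completion) → Kvs v :=
  fun g => ι (μ (rsH (M := v.Completion) ι g))

/-- `D(x)` for a polynomial with coefficients in the subfield `k`. -/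
noncomputable def ev {L : Type} [Field L] (k : Subfield L) (x : L) (D : k[X]) : L :=
  D.eval₂ k.subtype x

end Pool.Agent.MP72P
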