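import Pool.Agent.Lib.MP_72e2e6_nt.P3.R.SpecA
import Pool.Agent.Lib.MP_72e2e6_nt.P3.C.Spec

/-!
# MP_72e2e6_nt, theorem T3p, part R: definitions for part B
-/

namespace Pool.Agent.MP72P

open Polynomial IntermediateField Finset

/-- Locally constant functions on the local Galois group which are crossed homomorphisms modulo
`N`-th powers. -/
structure NCl {K : Type} [Field K] {v : AbsoluteValue K ℝ} (N : ℕ)
    (μ : Gal(Kvs v/v.Completion) → Kvs v) : Prop where
  ne : ∀ σ, μ σ ≠ 0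
  loc : IsLocallyConstant μ
  mul : ∀ σ τ, EqN N (μ (σ * τ)) (μ σ * σ (μ τ))

open Classical in
/-- The local invariant modulo `p ^ k`. -/
noncomputable def inl {K : Type} [Field K] (p : ℕ) (v : AbsoluteValue K ℝ) (k : ℕ) (ϖ : K)
    (g₀ : Gal(Kvs v/v.Completion)) (μ : Gal(Kvs v/v.Completion) → Kvs v) : ZMod (p ^ k) :=
  if h : ∃ x : ℤ, LV p v (p ^ k) ϖ g₀ μ x then ((h.choose : ℤ) : ZMod (p ^ k)) else 0

/-- Homomorphisms `u` from `Λ` to `L*` modulo `N`-th powers which are equivariant: `G` acts on `L` by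
`act` and on `Λ` by the character `χ`. -/
structure EqH {G L Λ : Type} [Field L] [CommRing Λ] (N : ℕ) (act : G → L → L) (χ : G → Λ)
    (u : Λ → L) : Prop where
  ne : ∀ z, u z ≠ 0
  add : ∀ z z', EqN N (u (z + z')) (u z * u z')
  gal : ∀ σ z, EqN N (act σ (u z)) (u (χ σ * z))

/-- The action of the Galois group. -/
def actG {K L : Type} [Field K] [Field L] [Algebra K L] (σ : Gal(L/K)) (x : L) : L := σ x

/-- The order of the field of constants of `K` is `p ^ r`. -/
def CstO (p r : ℕ) (K : Type) [Field K] : Prop :=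
  1 ≤ r ∧ (∀ x : K, algebraMap K (Kgs K) x ∈ Cst p (Kgs K) ↔ x ^ p ^ r = x) ∧
    {x : K | x ^ p ^ r = x}.ncard = p ^ r

end Pool.Agent.MP72P
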