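import Pool.Agent.Lib.MP_72e2e6_nt.P3.R.SpecB

/-!
# MP_72e2e6_nt, theorem T3p, part R: module Dul (local duality)
-/

namespace Pool.Agent.MP72P

open Polynomial IntermediateField Finset

private theorem dul_charP {p : ℕ} {K : Type} [Field K] (h : GFld p K) : CharP K p := by
  obtain ⟨F, _, _, _, _, -, -⟩ := h
  have h1 : CharP (RatFunc F) p :=
    charP_of_injective_algebraMap (algebraMap F (RatFunc F)).injective p
  exact charP_of_injective_algebraMap (algebraMap (RatFunc F) K).injective p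

/-! ### An element of the residue field with nonzero trace -/

private theorem dul_exists {p r : ℕ} [Fact p.Prime] {k : Type} [Field k] (hr : 1 ≤ r)
    (A : Finset k) (hA : A.card = p ^ r) : ∃ κ ∈ A, ∑ i ∈ range r, κ ^ p ^ i ≠ 0 := by
  by_contra hne
  push Not at hne
  have hp2 : 2 ≤ p := (Fact.out : p.Prime).two_le
  have hdeg : (∑ i ∈ range r, (X : k[X]) ^ p ^ i).natDegree < A.card := by
    rw [hA]
    have h1 : (∑ i ∈ range r, (X : k[X]) ^ p ^ i).natDegree ≤ p ^ (r - 1) := by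
      refine natDegree_sum_le_of_forall_le _ _ fun i hi => ?_
      rw [natDegree_X_pow]
      exact Nat.pow_le_pow_right (by omega) (by have := mem_range.1 hi; omega)
    have h2 : p ^ (r - 1) < p ^ r := Nat.pow_lt_pow_right (by omega) (by omega)
    omega
  have h0 : (∑ i ∈ range r, (X : k[X]) ^ p ^ i) = 0 := by
    refine eq_zero_of_natDegree_lt_card_of_eval_eq_zero' _ A (fun x hx => ?_) hdeg
    rw [eval_finsetSum]
    have := hne x hx
    simpa using this
  have h1 := congrArg (fun P : k[X] => P.coeff 1) h0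
  simp only [finsetSum_coeff, coeff_X_pow, coeff_zero] at h1
  rw [sum_eq_single_of_mem 0 (mem_range.2 (by omega))] at h1
  · simp at h1
  · intro i _ hi
    rw [if_neg]
    intro hh
    have : 1 < p ^ i := Nat.one_lt_pow hi (by omega)
    omega

private theorem dul_delta {p : ℕ} [Fact p.Prime] {k : Type} [Field k] [CharP k p] (r : ℕ) (κ : k)
    (h : κ ^ p ^ r = κ) : (∑ i ∈ range r, κ ^ p ^ i) ^ p = ∑ i ∈ range r, κ ^ p ^ i := by
  rw [sum_pow_char]
  have h1 := sum_range_succ (fun i => κ ^ p ^ i) r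
  rw [sum_range_succ'] at h1
  rw [h, pow_zero, pow_one] at h1
  rw [← add_right_cancel h1]
  refine sum_congr rfl fun i _ => ?_
  rw [← pow_mul, pow_succ]

private theorem dul_rho {p : ℕ} [Fact p.Prime] {k : Type} [Field k] [CharP k p] (κ ρ : k)
    (h : ρ - ρ ^ p = κ) (j : ℕ) : ρ ^ p ^ j = ρ - ∑ i ∈ range j, κ ^ p ^ i := by
  induction j with
  | zero => simp
  | succ j ih =>
    rw [pow_succ, pow_mul, ih, sub_pow_char, sum_pow_char, sum_range_succ']
    have h1 : ∑ i ∈ range j, (κ ^ p ^ i) ^ p = ∑ i ∈ range j, κ ^ p ^ (i + 1) :=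
      sum_congr rfl fun i _ => by rw [← pow_mul, pow_succ]
    rw [h1, pow_zero, pow_one, ← h]
    ring

private theorem dul_m {p : ℕ} [Fact p.Prime] {k : Type} [Field k] [CharP k p] (δ : k)
    (h : δ ^ p = δ) (h0 : δ ≠ 0) : ∃ m : ℕ, (m : k) = δ ∧ ¬ p ∣ m := by
  have h1 := (Subfield.mem_bot_iff_pow_eq_self (F := k) (p := p)).2 h
  rw [mem_bot_iff_intCast p] at h1
  obtain ⟨n, hn⟩ := h1
  refine ⟨((n : ZMod p)).val, ?_, ?_⟩
  · rw [ZMod.natCast_val, ZMod.cast_intCast', hn]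
  · intro hd
    have h2 : ((((n : ZMod p)).val : ℕ) : k) = 0 := (CharP.cast_eq_zero_iff k p _).2 hd
    rw [ZMod.natCast_val, ZMod.cast_intCast', hn] at h2
    exact h0 h2

/-- A constant has a `p`-th root. -/
private theorem dul_root {p : ℕ} {k : Type} [Field k] {x : k} (h : x ∈ Cst p k) :
    ∃ y : k, y ^ p = x := by
  obtain ⟨n, hn, hx⟩ := h
  refine ⟨x ^ p ^ (n - 1), ?_⟩
  rw [← pow_mul, ← pow_succ, Nat.sub_add_cancel hn, hx]

/-! ### Logarithmic derivatives -/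

section Lg

variable {p : ℕ} [Fact p.Prime] {L : Type} [Field L] [CharP L p] {t : L}

private theorem dul_lg_one (hTbp : S_Tbp) (ht : TBp p L t) : Lg p t 1 = 0 :=
  ((hTbp p L t ht).2.2.1 1 one_ne_zero).2 ⟨1, (one_pow p).symm⟩

private theorem dul_lg_pow (hTbp : S_Tbp) (ht : TBp p L t) (u : L) (hu : u ≠ 0) (n : ℕ) :
    Lg p t (u ^ n) = n * Lg p t u := by
  induction n with
  | zero => rw [pow_zero, dul_lg_one hTbp ht, Nat.cast_zero, zero_mul]
  | succ n ih =>
    rw [pow_succ, (hTbp p L t ht).1 _ _ (pow_ne_zero _ hu) hu, ih, Nat.cast_succ, add_mul, one_mul]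

private theorem dul_lg_div (hTbp : S_Tbp) (ht : TBp p L t) (u w : L) (hu : u ≠ 0) (hw : w ≠ 0) :
    Lg p t (u / w) = Lg p t u - Lg p t w := by
  rw [div_eq_mul_inv, (hTbp p L t ht).1 _ _ hu (inv_ne_zero hw), (hTbp p L t ht).2.1 w hw,
    sub_eq_add_neg]

private theorem dul_eqN (hTbp : S_Tbp) (ht : TBp p L t) (u w : L) (hu : u ≠ 0) (hw : w ≠ 0) :
    EqN p u w ↔ Lg p t u = Lg p t w := by
  constructor
  · rintro ⟨s, hs, h⟩
    rw [h, (hTbp p L t ht).1 _ _ hw (pow_ne_zero _ hs),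
      ((hTbp p L t ht).2.2.1 (s ^ p) (pow_ne_zero _ hs)).2 ⟨s, rfl⟩, add_zero]
  · intro h
    have h1 : Lg p t (u / w) = 0 := by rw [dul_lg_div hTbp ht u w hu hw, h, sub_self]
    obtain ⟨s, hs⟩ := ((hTbp p L t ht).2.2.1 (u / w) (div_ne_zero hu hw)).1 h1
    refine ⟨s, ?_, ?_⟩
    · rintro rfl
      rw [zero_pow (Fact.out : p.Prime).ne_zero] at hs
      exact div_ne_zero hu hw hs
    · rw [← hs]
      field_simp

private theorem dul_ca_div (hTba : S_Tba) (ht : TBp p L t) (ht0 : t ≠ 0) (b : L) :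
    Ca p t (b ^ p / t) = b / t := by
  obtain ⟨h1, -, -, -, -, -, -, h8, -⟩ := hTba p L t ht
  have hp : 1 ≤ p := (Fact.out : p.Prime).one_le
  have h2 : Ca p t (t ^ (p - 1)) = 1 := by
    have h3 := h1 (fun i => if i = p - 1 then 1 else 0) (p - 1) (by omega)
    have h4 : ∑ j ∈ range p, t ^ j * (if j = p - 1 then (1 : L) else 0) ^ p = t ^ (p - 1) := by
      rw [sum_eq_single_of_mem (p - 1) (mem_range.2 (by omega))]
      · rw [if_pos rfl, one_pow, mul_one]
      · intro j _ hj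
        rw [if_neg hj, zero_pow (by omega), mul_zero]
    rw [h4] at h3
    change cf p t (t ^ (p - 1)) (p - 1) = 1
    rw [h3, if_pos rfl]
  have h5 : b ^ p / t = (b / t) ^ p * t ^ (p - 1) := by
    rw [div_pow]
    have h6 : t ^ p = t ^ (p - 1) * t := by rw [← pow_succ, Nat.sub_add_cancel hp]
    rw [h6]
    field_simp
  rw [h5, h8, h2, mul_one]

end Lg

theorem tDul (hLc1 : S_Lc1) (hLc2 : S_Lc2) (_hCst : S_Cst) (_hNr : S_Nr) (hHas : S_Has)
    (hSep : S_Sep) (hTba : S_Tba) (hTbp : S_Tbp) (hTbV : S_TbV) (_hEqn : S_Eqn) : S_Dul := by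
  intro p _ K _ hG v Q ϖ R hLF g₀ hg₀ α h hα hαh y hy0 hyp hyg
  have : CharP K p := dul_charP hG
  have hp0 : 0 < p := (Fact.out : p.Prime).pos
  obtain ⟨hnorm, -, hultra, -, -, -, hchar, -, hres, -⟩ := hLc1 p K v Q ϖ R hLF
  obtain ⟨-, hnm0, hnmm, -, hnma, -, -, -, -, hchar2⟩ := hLc2 p K v Q ϖ R hLF
  obtain ⟨-, -, -, ht⟩ := hTbV p K hG v Q ϖ R hLF
  obtain ⟨r, hr, hQ⟩ := hLF.qp
  -- the uniformizer
  obtain ⟨t, htd⟩ : ∃ t, t = tV v ϖ := ⟨_, rfl⟩
  obtain ⟨t₀, ht₀d⟩ : ∃ t₀ : v.Completion, t₀ = algebraMap K v.Completion ϖ := ⟨_, rfl⟩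
  have htt : t = algebraMap v.Completion (Kvs v) t₀ := by rw [htd, ht₀d]; rfl
  rw [← htd] at ht
  have hnt : nm v t = v ϖ := by rw [htd, tV, hnma, hnorm]
  have ht0 : t ≠ 0 := by
    intro hh
    have h1 := hLF.pi0
    rw [← hnt, (hnm0 _).2 hh] at h1
    exact lt_irrefl _ h1
  have ht₀0 : t₀ ≠ 0 := by
    rintro rfl
    exact ht0 (by rw [htt, map_zero])
  have htg : ∀ g : Gal(Kvs v/v.Completion), g t = t := fun g => by
    rw [htt, AlgEquiv.commutes]
  have hCag : ∀ (g : Gal(Kvs v/v.Completion)) (f : Kvs v), Lg p t (g f) = g (Lg p t f) := by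
    intro g f
    have h1 := (hTbp p (Kvs v) t ht).2.2.2.2.2 (Kvs v)
      ((g : Kvs v →ₐ[v.Completion] Kvs v) : Kvs v →+* Kvs v)
    have h2 : ((g : Kvs v →ₐ[v.Completion] Kvs v) : Kvs v →+* Kvs v) t = t := htg g
    rw [h2] at h1
    exact (h1 ht f).2.2
  -- the trace element
  obtain ⟨κ, hκ1, hκ2⟩ : ∃ κ : v.Completion, κ ^ p ^ r = κ ∧
      ∑ i ∈ range r, κ ^ p ^ i ≠ 0 := by
    classical
    choose! c hc1 hc2 using hres
    have hint : ∀ a ∈ R, ‖algebraMap K v.Completion a‖ ≤ 1 := fun a ha => by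
      rw [hnorm]
      exact hLF.int a ha
    have hinj : Set.InjOn (fun a : K => c (algebraMap K v.Completion a)) R := by
      intro a ha b hb hab
      by_contra hne
      have h1 := hLF.sep a ha b hb hne
      have h2 := hc2 _ (hint a ha)
      have h3 := hc2 _ (hint b hb)
      have hab' : c (algebraMap K v.Completion a) = c (algebraMap K v.Completion b) := hab
      rw [hab'] at h2
      have h4 : ‖algebraMap K v.Completion (a - b)‖ < 1 := by
        have h5 : algebraMap K v.Completion (a - b) =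
            (algebraMap K v.Completion a - c (algebraMap K v.Completion b)) -
            (algebraMap K v.Completion b - c (algebraMap K v.Completion b)) := by
          rw [map_sub]
          ring
        rw [h5, sub_eq_add_neg]
        refine lt_of_le_of_lt (IsUltrametricDist.norm_add_le_max _ _) (max_lt h2 ?_)
        rw [norm_neg]
        exact h3
      rw [hnorm, h1] at h4
      exact lt_irrefl _ h4
    have hcard : (R.image fun a : K => c (algebraMap K v.Completion a)).card = p ^ r := by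
      rw [card_image_of_injOn hinj, hLF.card, hQ]
    obtain ⟨κ, hκ, hne⟩ := dul_exists hr _ hcard
    obtain ⟨a, ha, rfl⟩ := mem_image.1 hκ
    refine ⟨_, ?_, hne⟩
    have := hc1 _ (hint a ha)
    rwa [hQ] at this
  obtain ⟨δ, hδd⟩ : ∃ δ, δ = ∑ i ∈ range r, κ ^ p ^ i := ⟨_, rfl⟩
  have hδp : δ ^ p = δ := by rw [hδd]; exact dul_delta r κ hκ1
  rw [← hδd] at hκ2
  obtain ⟨m, hm, hpm⟩ := dul_m δ hδp hκ2
  -- lam and eta
  obtain ⟨lam, hlam⟩ : ∃ lam, lam = Lg p t y := ⟨_, rfl⟩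
  have hlam0 : lam ≠ 0 := by
    intro hh
    rw [hlam] at hh
    exact hyp (((hTbp p (Kvs v) t ht).2.2.1 y hy0).1 hh)
  obtain ⟨⟨hom, hαg⟩, -, hHas3, -⟩ := hHas p v.Completion (Kvs v) α h hα hαh
  have hlamg : ∀ g : Gal(Kvs v/v.Completion), g lam = op (Kvs v) (omc p α g) * lam := by
    intro g
    rw [hlam, ← hCag]
    rw [(dul_eqN hTbp ht _ _ (by simpa using hy0) (pow_ne_zero _ hy0)).1 (hyg g),
      dul_lg_pow hTbp ht y hy0]
    rfl
  have hη : ∀ g : Gal(Kvs v/v.Completion), g (lam / α) = lam / α := by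
    intro g
    have h1 : op (Kvs v) (omc p α g) ≠ 0 := by
      intro hh
      have h2 := hαg g
      rw [hh, zero_mul] at h2
      exact hα (by simpa using h2)
    rw [map_div₀, hlamg, hαg]
    field_simp
  obtain ⟨η₀, hη₀⟩ : ∃ η₀ : v.Completion, algebraMap v.Completion (Kvs v) η₀ = lam / α := by
    have h1 := (InfiniteGalois.mem_bot_iff_fixed (k := v.Completion) (K := Kvs v) (lam / α)).2 hη
    exact IntermediateField.mem_bot.1 h1
  obtain ⟨η, hηd⟩ : ∃ η, η = lam / α := ⟨_, rfl⟩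
  rw [← hηd] at hη₀
  have hη0 : η ≠ 0 := by rw [hηd]; exact div_ne_zero hlam0 hα
  have hαη : α * η = lam := by rw [hηd]; field_simp
  have hη₀0 : η₀ ≠ 0 := by
    rintro rfl
    exact hη0 (by rw [← hη₀, map_zero])
  have hh0 : algebraMap v.Completion (Kvs v) h ≠ 0 := by
    rw [← hαh]
    exact pow_ne_zero _ hα
  -- the element `f` and the root `x`
  obtain ⟨f, hf⟩ : ∃ f, f = κ * h / (t₀ * η₀) := ⟨_, rfl⟩
  have hrt : ∃ x : Kvs v, Ph p (algebraMap v.Completion (Kvs v) h) x =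
      algebraMap v.Completion (Kvs v) f := by
    rw [← hαh]
    exact (hSep p v.Completion α h hα hαh).2.1 _
  obtain ⟨hcoc, x, hx, hxg⟩ := hHas3 f hrt
  refine ⟨hP p α f, hcoc, m, hpm, ?_⟩
  obtain ⟨c, hcd⟩ : ∃ c, c = hP p (K := v.Completion) (L := Kvs v) α f := ⟨_, rfl⟩
  rw [← hcd] at hxg ⊢
  -- the root `ρ`
  obtain ⟨κ', hκ'⟩ : ∃ κ', κ' = algebraMap v.Completion (Kvs v) κ := ⟨_, rfl⟩
  obtain ⟨ρ, hρ⟩ : ∃ ρ : Kvs v, ρ - ρ ^ p = κ' := by
    obtain ⟨ρ, hρ⟩ := (hSep p v.Completion 1 1 one_ne_zero (by rw [one_pow, map_one])).2.1 (-κ')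
    refine ⟨ρ, ?_⟩
    rw [Ph, one_pow, one_mul] at hρ
    rw [← neg_sub, hρ, neg_neg]
  obtain ⟨δ', hδ'⟩ : ∃ δ', δ' = algebraMap v.Completion (Kvs v) δ := ⟨_, rfl⟩
  have hδ'2 : ∑ i ∈ range r, κ' ^ p ^ i = δ' := by
    rw [hδ', hδd, map_sum, hκ']
    exact sum_congr rfl fun i _ => (map_pow _ _ _).symm
  have hδ'm : (m : Kvs v) = δ' := by rw [hδ', ← hm, map_natCast]
  have hρQ : ρ ^ Q = ρ - δ' := by
    rw [hQ, dul_rho κ' ρ hρ r, hδ'2]
  have hδ'p : δ' ^ p = δ' := by rw [hδ', ← map_pow, hδp]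
  have hδ'pj : ∀ j : ℕ, δ' ^ p ^ j = δ' := by
    intro j
    induction j with
    | zero => rw [pow_zero, pow_one]
    | succ j ih => rw [pow_succ, pow_mul, ih, hδ'p]
  have hρQj : ∀ j : ℕ, ρ ^ p ^ (r * j) = ρ - j * δ' := by
    intro j
    induction j with
    | zero => simp
    | succ j ih =>
      rw [mul_add, mul_one, pow_add, pow_mul, ih, sub_pow_char_pow, mul_pow, hδ'pj]
      have h1 : ((j : Kvs v)) ^ p ^ r = j := by
        have h2 := map_natCast (iterateFrobenius (Kvs v) p r) j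
        rwa [iterateFrobenius_def] at h2
      rw [← hQ, hρQ, hQ, h1]
      push_cast
      ring
  have hρC : ρ ∈ Cst p (Kvs v) := by
    refine ⟨r * p, Nat.mul_pos hr hp0, ?_⟩
    rw [hρQj p, CharP.cast_eq_zero, zero_mul, sub_zero]
  obtain ⟨ρ', hρ'⟩ := dul_root hρC
  obtain ⟨κ₁, hκ₁⟩ : ∃ κ₁ : Kvs v, κ₁ ^ p = κ' := by
    refine dul_root ⟨r, hr, ?_⟩
    rw [hκ', ← map_pow, hκ1]
  have hρκ : ρ' - κ₁ = ρ := by
    have h1 : (ρ' - κ₁) ^ p = ρ ^ p := by
      rw [sub_pow_char, hρ', hκ₁, ← hρ]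
      ring
    exact frobenius_inj (Kvs v) p h1
  -- the element `ξ`
  obtain ⟨ξ, hξ⟩ : ∃ ξ, ξ = x * η + ρ / t := ⟨_, rfl⟩
  have hαp : α ^ p = α * algebraMap v.Completion (Kvs v) h := by
    rw [← hαh, ← pow_succ', Nat.sub_add_cancel hp0]
  have hxη : x * η = (x / α) ^ p * lam - κ' / t := by
    have h1 : algebraMap v.Completion (Kvs v) f =
        κ' * algebraMap v.Completion (Kvs v) h / (t * η) := by
      rw [hf, map_div₀, map_mul, map_mul, ← hκ', ← htt, hη₀]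
    rw [Ph, h1] at hx
    have h2 : algebraMap v.Completion (Kvs v) h * x = x ^ p -
        κ' * algebraMap v.Completion (Kvs v) h / (t * η) := by
      rw [← hx]
      ring
    rw [div_pow, hαp, ← hαη]
    have h3 : x = (x ^ p - κ' * algebraMap v.Completion (Kvs v) h / (t * η)) /
        algebraMap v.Completion (Kvs v) h := by
      rw [← h2]
      field_simp
    conv_lhs => rw [h3]
    field_simp
  have hCa : Ca p t ξ = ξ := by
    obtain ⟨-, -, -, -, -, -, hadd, hsm, -⟩ := hTba p (Kvs v) t ht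
    have h1 : ξ = (x / α) ^ p * lam + (ρ' - κ₁) ^ p / t := by
      rw [hξ, hxη, sub_pow_char, hρ', hκ₁]
      ring
    have h2 : Ca p t lam = lam := by
      rw [hlam]
      exact (hTbp p (Kvs v) t ht).2.2.2.1 y hy0
    have h3 : Ca p t ((x / α) ^ p * lam + (ρ' - κ₁) ^ p / t) = x / α * lam + (ρ' - κ₁) / t := by
      rw [hadd, hsm, h2, dul_ca_div hTba ht ht0]
    calc Ca p t ξ = Ca p t ((x / α) ^ p * lam + (ρ' - κ₁) ^ p / t) := by rw [← h1]
      _ = x / α * lam + (ρ' - κ₁) / t := h3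
      _ = ξ := by
        rw [hρκ, hξ, ← hαη]
        field_simp
  obtain ⟨Y, hY0, hY⟩ := (hTbp p (Kvs v) t ht).2.2.2.2.1 ξ hCa
  have hgξ : ∀ (g : Gal(Kvs v/v.Completion)), g ξ = ξ + op (Kvs v) (c g) * lam +
      (g ρ - ρ) / t := by
    intro g
    rw [hξ, map_add, map_mul, map_div₀, htg, hxg, ← hη₀, AlgEquiv.commutes, hη₀, ← hαη]
    ring
  have hYg : ∀ g : Gal(Kvs v/v.Completion), Lg p t (g Y / Y) =
      op (Kvs v) (c g) * lam + (g ρ - ρ) / t := by
    intro g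
    rw [dul_lg_div hTbp ht _ _ (by simpa using hY0) hY0, hCag, hY, hgξ]
    ring
  have hyc : ∀ g : Gal(Kvs v/v.Completion), Lg p t (y ^ (c g).val) =
      op (Kvs v) (c g) * lam := by
    intro g
    rw [dul_lg_pow hTbp ht y hy0, ← hlam]
    rfl
  refine ⟨Y, t ^ m, hY0, pow_ne_zero _ ht0, ?_, ?_, ?_, ?_⟩
  · rw [htt]
    exact pow_mem ((Knr p v).algebraMap_mem _) _
  · intro g hg
    refine (dul_eqN hTbp ht _ _ (pow_ne_zero _ hy0) (div_ne_zero (by simpa using hY0) hY0)).2 ?_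
    rw [hyc, hYg, hg ρ hρC, sub_self, zero_div, add_zero]
  · have hgY : g₀ Y / Y ≠ 0 := div_ne_zero (by simpa using hY0) hY0
    refine (dul_eqN hTbp ht _ _ (pow_ne_zero _ hy0) (mul_ne_zero hgY (pow_ne_zero _ ht0))).2 ?_
    have hLt : Lg p t t = 1 / t := by
      rw [Lg, (hTba p (Kvs v) t ht).2.2.2.2.1]
    rw [hyc, (hTbp p (Kvs v) t ht).1 _ _ hgY (pow_ne_zero _ ht0), hYg, dul_lg_pow hTbp ht t ht0,
      hLt, hδ'm, hg₀ ρ hρC, hρQ]
    ring
  · have h1 : ∀ j : ℕ, nm v (t ^ j) = v ϖ ^ j := by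
      intro j
      have hone : nm v (1 : Kvs v) = 1 := by
        have h2 := hnmm 1 1
        rw [mul_one] at h2
        have h3 : nm v (1 : Kvs v) ≠ 0 := fun h => one_ne_zero ((hnm0 1).1 h)
        exact (mul_right_cancel₀ h3 ((one_mul _).trans h2)).symm
      induction j with
      | zero => rw [pow_zero, pow_zero, hone]
      | succ j ih => rw [pow_succ, pow_succ, hnmm, ih, hnt]
    rw [h1, zpow_natCast]

end Pool.Agent.MP72P
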