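import Pool.Agent.Lib.MP_72e2e6_nt.P3.R.SpecA

/-!
# MP_72e2e6_nt, theorem T3p, part R: Lang's lemma for `p ^ -1`-linear maps
-/

namespace Pool.Agent.MP72P

open Polynomial IntermediateField Finset

/-- the first dependent member of a sequence in a finite dimensional space -/
private theorem lng_dep {k V : Type} [Field k] [AddCommGroup V] [Module k V]
    [FiniteDimensional k V] (v : ℕ → V) :
    ∃ (n : ℕ) (c : ℕ → k), v n = ∑ i ∈ range n, c i • v i := by
  classical
  let f : ℕ →o Submodule k V :=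
    { toFun := fun n => Submodule.span k (Set.range fun i : Fin n => v i)
      monotone' := by
        intro a b hab
        refine Submodule.span_mono ?_
        rintro _ ⟨i, rfl⟩
        exact ⟨⟨i, lt_of_lt_of_le i.2 hab⟩, rfl⟩ }
  obtain ⟨n, hn⟩ := monotone_stabilizes_iff_noetherian.2
    (inferInstance : IsNoetherian k V) f
  have h1 : v n ∈ f (n + 1) := Submodule.subset_span ⟨⟨n, Nat.lt_succ_self n⟩, rfl⟩
  rw [← hn (n + 1) (Nat.le_succ n)] at h1
  obtain ⟨c, hc⟩ := (Submodule.mem_span_range_iff_exists_fun k).1 h1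
  refine ⟨n, fun i => if h : i < n then c ⟨i, h⟩ else 0, ?_⟩
  rw [← hc, Finset.sum_range]
  refine Finset.sum_congr rfl fun i _ => ?_
  show c i • v i = (if h : (i : ℕ) < n then c ⟨i, h⟩ else 0) • v i
  rw [dif_pos i.2]

/-- the scalars: solution of the system of equations -/
private theorem lng_sol {p : ℕ} [Fact p.Prime] {k : Type} [Field k] [CharP k p] [IsAlgClosed k]
    (m : ℕ) (c : ℕ → k) : ∃ r : ℕ → k, r 0 ^ p = c 0 * r m - 1 ∧
      ∀ i < m, r (i + 1) ^ p = r i + c (i + 1) * r m := by
  have hp : p.Prime := Fact.out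
  have hinj : ∀ (x y : k) (j : ℕ), x ^ p ^ j = y ^ p ^ j → x = y := by
    intro x y j h
    have h1 : (x - y) ^ p ^ j = 0 := by rw [sub_pow_char_pow, h, sub_self]
    exact sub_eq_zero.1 (pow_eq_zero_iff (pow_ne_zero j hp.ne_zero) |>.1 h1)
  -- the equation for `t`
  obtain ⟨t, ht⟩ : ∃ t : k, t ^ p ^ (m + 1) = (∑ j ∈ range (m + 1), (c j * t) ^ p ^ j) - 1 := by
    have hlt : ∀ j < m + 1, p ^ j < p ^ (m + 1) := fun j hj => Nat.pow_lt_pow_right hp.one_lt hj
    have hq : (1 - ∑ j ∈ range (m + 1), C (c j ^ p ^ j) * X ^ p ^ j : k[X]) ∈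
        Polynomial.degreeLT k (p ^ (m + 1)) := by
      refine Submodule.sub_mem _ ?_ (Submodule.sum_mem _ fun j hj => ?_)
      · rw [Polynomial.mem_degreeLT, degree_one]
        exact_mod_cast pow_pos hp.pos (m + 1)
      · rw [Polynomial.mem_degreeLT]
        refine (degree_C_mul_X_pow_le _ _).trans_lt ?_
        exact_mod_cast hlt j (Finset.mem_range.1 hj)
    rw [Polynomial.mem_degreeLT] at hq
    obtain ⟨t, ht⟩ := IsAlgClosed.exists_root
      (X ^ p ^ (m + 1) + (1 - ∑ j ∈ range (m + 1), C (c j ^ p ^ j) * X ^ p ^ j) : k[X]) (by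
        rw [degree_add_eq_left_of_degree_lt (by rw [degree_X_pow]; exact hq), degree_X_pow]
        exact_mod_cast (pow_pos hp.pos (m + 1)).ne')
    refine ⟨t, ?_⟩
    rw [IsRoot.def, eval_add, eval_sub, eval_one, eval_finsetSum, eval_pow, eval_X] at ht
    have h2 : ∑ j ∈ range (m + 1), (c j * t) ^ p ^ j =
        ∑ j ∈ range (m + 1), eval t (C (c j ^ p ^ j) * X ^ p ^ j) := by
      refine Finset.sum_congr rfl fun j _ => ?_
      rw [eval_mul, eval_C, eval_pow, eval_X, mul_pow]
    rw [h2]
    linear_combination ht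
  obtain ⟨z, hz⟩ : ∃ z : ℕ → k, ∀ i, z i = (∑ j ∈ range (i + 1), (c j * t) ^ p ^ j) - 1 :=
    ⟨_, fun i => rfl⟩
  have hr : ∀ i, ∃ r : k, r ^ p ^ (i + 1) = z i := fun i =>
    IsAlgClosed.exists_pow_nat_eq (z i) (pow_pos hp.pos (i + 1))
  choose r hr using hr
  have hrm : r m = t := by
    refine hinj _ _ (m + 1) ?_
    rw [hr, ht, hz]
  refine ⟨r, ?_, ?_⟩
  · have h1 := hr 0
    rw [hz, zero_add, pow_one, Finset.sum_range_one, pow_zero, pow_one] at h1
    rw [h1, hrm]
  · intro i _
    refine hinj _ _ (i + 1) ?_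
    rw [← pow_mul, ← pow_succ', hr, add_pow_char_pow, hr, hrm, hz, hz, Finset.sum_range_succ _ (i + 1)]
    ring

theorem tLng : S_Lng := by
  intro p _ L _ _ k _ C hadd hC V _ hV e he
  have hk : CharP k p := k.subtype.charP k.subtype.injective p
  have hC0 : C 0 = 0 := by
    have h1 := hadd 0 0
    rw [add_zero] at h1
    exact left_eq_add.1 h1
  have hsum : ∀ (s : Finset ℕ) (f : ℕ → L), C (∑ i ∈ s, f i) = ∑ i ∈ s, C (f i) := by
    intro s f
    classical
    induction s using Finset.induction_on with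
    | empty => rw [Finset.sum_empty, Finset.sum_empty, hC0]
    | insert a s ha ih => rw [Finset.sum_insert ha, Finset.sum_insert ha, hadd, ih]
  have hmem : ∀ i, C^[i] e ∈ V := by
    intro i
    induction i with
    | zero => exact he
    | succ i ih =>
      rw [Function.iterate_succ_apply']
      exact hV _ ih
  obtain ⟨n, c, hc⟩ := lng_dep (k := k) (fun i => (⟨C^[i] e, hmem i⟩ : V))
  have hc' : C^[n] e = ∑ i ∈ range n, (c i : L) * C^[i] e := by
    have h1 := congrArg (fun x : V => (x : L)) hc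
    simp only [Submodule.coe_sum, Submodule.coe_smul, Subfield.smul_def, smul_eq_mul] at h1
    exact h1
  rcases Nat.eq_zero_or_pos n with hn | hn
  · subst hn
    rw [Finset.sum_range_zero] at hc'
    refine ⟨0, V.zero_mem, ?_⟩
    rw [hC0, sub_zero]
    exact hc'.symm
  · obtain ⟨m, rfl⟩ : ∃ m, n = m + 1 := ⟨n - 1, by omega⟩
    obtain ⟨r, hr0, hr1⟩ := lng_sol (p := p) m c
    refine ⟨∑ i ∈ range (m + 1), (r i : L) ^ p * C^[i] e, ?_, ?_⟩
    · refine Submodule.sum_mem _ fun i _ => ?_
      have h1 := V.smul_mem (r i ^ p) (hmem i)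
      rw [Subfield.smul_def, smul_eq_mul] at h1
      exact h1
    · have e1 : C (∑ i ∈ range (m + 1), (r i : L) ^ p * C^[i] e) =
          ∑ i ∈ range (m + 1), (r i : L) * C^[i + 1] e := by
        rw [hsum]
        refine Finset.sum_congr rfl fun i _ => ?_
        rw [hC _ (r i).2, Function.iterate_succ_apply']
      have h0 : ((r 0 : L)) ^ p = (c 0 : L) * r m - 1 := by
        have := congrArg (fun x : k => (x : L)) hr0
        simpa using this
      have h1 : ∀ i < m, ((r (i + 1) : L)) ^ p = r i + (c (i + 1) : L) * r m := by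
        intro i hi
        have := congrArg (fun x : k => (x : L)) (hr1 i hi)
        simpa using this
      rw [e1, Finset.sum_range_succ, hc', Finset.sum_range_succ' (fun i => (r i : L) ^ p * C^[i] e),
        Finset.sum_range_succ' (fun i => (c i : L) * C^[i] e), h0]
      have e2 : ∑ i ∈ range m, (r (i + 1) : L) ^ p * C^[i + 1] e =
          ∑ i ∈ range m, (r i : L) * C^[i + 1] e +
            (r m : L) * ∑ i ∈ range m, (c (i + 1) : L) * C^[i + 1] e := by
        rw [Finset.mul_sum, ← Finset.sum_add_distrib]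
        refine Finset.sum_congr rfl fun i hi => ?_
        rw [h1 i (Finset.mem_range.1 hi)]
        ring
      rw [e2]
      show _ = e
      rw [show C^[0] e = e from rfl]
      ring

end Pool.Agent.MP72P
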