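import Pool.Agent.Lib.MP_72e2e6_nt.P3.R.SpecA

/-!
# MP_72e2e6_nt, theorem T3p, part R: Hilbert 90 for closed subgroups
-/

namespace Pool.Agent.MP72P

open Polynomial IntermediateField

section
variable {K L : Type} [Field K] [Field L] [Algebra K L]

/-- A finite extension `M` such that `P` holds for the elements of `H` which fix `M`. -/
private theorem h90_M (E : IntermediateField K L) (P : E.fixingSubgroup → Prop)
    (hP : IsOpen {σ | P σ}) (h1 : P 1) : ∃ M : IntermediateField K L, FiniteDimensional K M ∧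
      ∀ σ : E.fixingSubgroup, (∀ m : M, (σ : Gal(L/K)) m = m) → P σ := by
  obtain ⟨O, hO, hOP⟩ := isOpen_induced_iff.1 hP
  have hO1 : (1 : Gal(L/K)) ∈ O := by
    have : (1 : E.fixingSubgroup) ∈ Subtype.val ⁻¹' O := by
      rw [hOP]
      exact h1
    exact this
  obtain ⟨M, hM, hMO⟩ := (krullTopology_mem_nhds_one_iff K L O).1 (hO.mem_nhds hO1)
  refine ⟨M, hM, fun σ hσ => ?_⟩
  have h2 : (σ : Gal(L/K)) ∈ O := hMO ((IntermediateField.mem_fixingSubgroup_iff M _).2
    fun x hx => hσ ⟨x, hx⟩)
  have h3 : σ ∈ Subtype.val ⁻¹' O := h2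
  rw [hOP] at h3
  exact h3

/-- The restrictions to `M` of the elements of `H`. -/
private def h90T (E M : IntermediateField K L) : Type :=
  {f : M →ₐ[K] L // ∃ h : E.fixingSubgroup, ∀ m : M, f m = (h : Gal(L/K)) m}

private noncomputable def h90l {E M : IntermediateField K L} (f : h90T E M) : E.fixingSubgroup :=
  f.2.choose

private theorem h90l_spec {E M : IntermediateField K L} (f : h90T E M) (m : M) :
    f.1 m = (h90l f : Gal(L/K)) m := f.2.choose_spec m

/-- The action of `H` on the restrictions. -/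
private def h90a {E M : IntermediateField K L} (τ : E.fixingSubgroup) (f : h90T E M) :
    h90T E M :=
  ⟨((τ : Gal(L/K)) : L →ₐ[K] L).comp f.1, by
    obtain ⟨h, hh⟩ := f.2
    exact ⟨τ * h, fun m => congrArg (τ : Gal(L/K)) (hh m)⟩⟩

private theorem h90a_apply {E M : IntermediateField K L} (τ : E.fixingSubgroup) (f : h90T E M)
    (m : M) : (h90a τ f).1 m = (τ : Gal(L/K)) (f.1 m) := rfl

private def h90e {E M : IntermediateField K L} (τ : E.fixingSubgroup) :
    h90T E M ≃ h90T E M where
  toFun := h90a τ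
  invFun := h90a τ⁻¹
  left_inv f := by
    refine Subtype.ext (AlgHom.ext fun m => ?_)
    rw [h90a_apply, h90a_apply]
    exact (τ : Gal(L/K)).symm_apply_apply _
  right_inv f := by
    refine Subtype.ext (AlgHom.ext fun m => ?_)
    rw [h90a_apply, h90a_apply]
    exact (τ : Gal(L/K)).apply_symm_apply _

private theorem h90_fin (E M : IntermediateField K L) (hM : FiniteDimensional K M) :
    Finite (h90T E M) := by
  have : Finite (M →ₐ[K] L) := inferInstance
  exact Subtype.finite

/-- Two elements of `H` with the same restriction to `M`. -/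
private theorem h90_eq {E M : IntermediateField K L} (σ τ : E.fixingSubgroup)
    (h : ∀ m : M, (σ : Gal(L/K)) m = (τ : Gal(L/K)) m) :
    ∀ m : M, ((σ⁻¹ * τ : E.fixingSubgroup) : Gal(L/K)) m = m := by
  intro m
  have h1 : ((σ⁻¹ * τ : E.fixingSubgroup) : Gal(L/K)) m =
      (σ : Gal(L/K)).symm ((τ : Gal(L/K)) m) := rfl
  rw [h1, ← h m]
  exact (σ : Gal(L/K)).symm_apply_apply _

/-- Dedekind. -/
private theorem h90_ded {E M : IntermediateField K L} [Fintype (h90T E M)] (a : h90T E M → L)
    (ha : ∀ f, a f ≠ 0) : ∃ x : M, ∑ f, a f * f.1 x ≠ 0 := by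
  by_contra hcon
  push Not at hcon
  let φ : h90T E M → (M →* L) := fun f => (f.1 : M →* L)
  have hφ : Function.Injective φ := by
    intro f g hfg
    refine Subtype.ext (AlgHom.ext fun m => ?_)
    exact DFunLike.congr_fun hfg m
  have hli := (linearIndependent_monoidHom M L).comp φ hφ
  rw [Fintype.linearIndependent_iff] at hli
  have h0 : h90T E M := ⟨M.val, 1, fun m => rfl⟩
  refine ha h0 (hli a ?_ h0)
  funext x
  rw [Finset.sum_apply]
  exact hcon x

end

theorem tRH90 : S_RH90 := by
  intro K L _ _ _ _ E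
  constructor
  · intro s hs hs0 hmul
    have hs1 : s 1 = 1 := by
      have h := hmul 1 1
      rw [mul_one] at h
      have h2 : ((1 : E.fixingSubgroup) : Gal(L/K)) (s 1) = s 1 := rfl
      rw [h2] at h
      exact (mul_eq_left₀ (hs0 1)).1 h.symm
    obtain ⟨M, hM, hMs⟩ := h90_M E (fun σ => s σ = 1)
      (hs.isOpen_fiber 1) hs1
    have hfin := h90_fin E M hM
    have : Fintype (h90T E M) := Fintype.ofFinite _
    -- the function on the restrictions
    have key : ∀ (σ : E.fixingSubgroup) (f : h90T E M), (∀ m : M, f.1 m = (σ : Gal(L/K)) m) →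
        s (h90l f) = s σ := by
      intro σ f hf
      have h1 := hMs (σ⁻¹ * h90l f) (h90_eq σ (h90l f) fun m => by rw [← hf m, h90l_spec])
      have h2 := hmul σ (σ⁻¹ * h90l f)
      rw [mul_inv_cancel_left, h1, map_one, mul_one] at h2
      exact h2
    obtain ⟨x, hx⟩ := h90_ded (E := E) (M := M) (fun f => s (h90l f)) (fun f => hs0 _)
    set b := ∑ f : h90T E M, s (h90l f) * f.1 x with hb
    refine ⟨b⁻¹, inv_ne_zero hx, fun τ => ?_⟩
    have h3 : (τ : Gal(L/K)) b = (s τ)⁻¹ * b := by
      rw [hb, map_sum, Finset.mul_sum, ← Equiv.sum_comp (h90e τ)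
        (fun f : h90T E M => (s τ)⁻¹ * (s (h90l f) * f.1 x))]
      refine Finset.sum_congr rfl fun f _ => ?_
      have h4 : s (h90l (h90e τ f)) = s τ * (τ : Gal(L/K)) (s (h90l f)) := by
        rw [← hmul]
        exact key _ _ fun m => by
          change (τ : Gal(L/K)) (f.1 m) = (τ : Gal(L/K)) ((h90l f : Gal(L/K)) m)
          rw [h90l_spec]
      have h5 : (h90e τ f).1 x = (τ : Gal(L/K)) (f.1 x) := rfl
      rw [h4, h5, map_mul]
      have := hs0 τ
      field_simp
    rw [map_inv₀, h3]
    have := hs0 τ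
    field_simp
  · intro s hs hadd
    have hs1 : s 1 = 0 := by
      have h := hadd 1 1
      rw [mul_one] at h
      have h2 : ((1 : E.fixingSubgroup) : Gal(L/K)) (s 1) = s 1 := rfl
      rw [h2] at h
      exact left_eq_add.1 h
    obtain ⟨M, hM, hMs⟩ := h90_M E (fun σ => s σ = 0)
      (hs.isOpen_fiber 0) hs1
    have hfin := h90_fin E M hM
    have : Fintype (h90T E M) := Fintype.ofFinite _
    have key : ∀ (σ : E.fixingSubgroup) (f : h90T E M), (∀ m : M, f.1 m = (σ : Gal(L/K)) m) →
        s (h90l f) = s σ := by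
      intro σ f hf
      have h1 := hMs (σ⁻¹ * h90l f) (h90_eq σ (h90l f) fun m => by rw [← hf m, h90l_spec])
      have h2 := hadd σ (σ⁻¹ * h90l f)
      rw [mul_inv_cancel_left, h1, map_zero, add_zero] at h2
      exact h2
    obtain ⟨x, hx⟩ := h90_ded (E := E) (M := M) (fun f => (1 : L)) (fun f => one_ne_zero)
    set c := ∑ f : h90T E M, (1 : L) * f.1 x with hc
    set b := ∑ f : h90T E M, s (h90l f) * f.1 x with hb
    refine ⟨-(b / c), fun τ => ?_⟩
    have hτc : (τ : Gal(L/K)) c = c := by
      rw [hc, map_sum, ← Equiv.sum_comp (h90e τ) (fun f : h90T E M => (1 : L) * f.1 x)]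
      refine Finset.sum_congr rfl fun f _ => ?_
      have h5 : (h90e τ f).1 x = (τ : Gal(L/K)) (f.1 x) := rfl
      rw [h5, one_mul, one_mul]
    have hτb : (τ : Gal(L/K)) b = b - s τ * c := by
      rw [hb, hc, map_sum, Finset.mul_sum, ← Finset.sum_sub_distrib,
        ← Equiv.sum_comp (h90e τ) (fun f : h90T E M => s (h90l f) * f.1 x - s τ * (1 * f.1 x))]
      refine Finset.sum_congr rfl fun f _ => ?_
      have h4 : s (h90l (h90e τ f)) = s τ + (τ : Gal(L/K)) (s (h90l f)) := by
        rw [← hadd]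
        exact key _ _ fun m => by
          change (τ : Gal(L/K)) (f.1 m) = (τ : Gal(L/K)) ((h90l f : Gal(L/K)) m)
          rw [h90l_spec]
      have h5 : (h90e τ f).1 x = (τ : Gal(L/K)) (f.1 x) := rfl
      rw [h4, h5, map_mul]
      ring
    rw [map_neg, map_div₀, hτc, hτb]
    field_simp
    ring

end Pool.Agent.MP72P
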