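import Pool.Agent.Lib.MP_72e2e6_nt.P3.R.Defs

/-!
# MP_72e2e6_nt, theorem T3p, part R, statements with proofs, part A: the Cartier operator and the
geometric group

Every module proves one of the propositions `S_X` below: file `P3/R/X.lean` (import this file only)
with `theorem tX : S_X` or `theorem tX (h1 : S_Y) (h2 : S_Z) .. : S_X` (the used statements in the order of
the docstring), namespace `Pool.Agent.MP72P`, all other declarations `private`. The complete proofs are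
in the docstrings. `p` is a prime, all fields have characteristic `p`; `x ↦ x ^ p` is additive and
injective. The corresponding modules for `p = 2`, `K = F(t)` are in `W2/R/` (look at them).
-/

namespace Pool.Agent.MP72P

open Polynomial IntermediateField Finset

/-- **RH90** (200 lines). Hilbert's theorem 90, multiplicative and additive, for the closed subgroup
`H = E.fixingSubgroup` of `Gal(L/K)` (`L / K` Galois, possibly infinite).

Proof. Copy of `W2/R/H90.lean` (`MP72W.S_H90`, where no hypothesis on the characteristic is used). -/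
def S_RH90 : Prop :=
  ∀ (K L : Type) [Field K] [Field L] [Algebra K L] [IsGalois K L] (E : IntermediateField K L),
    (∀ s : E.fixingSubgroup → L, IsLocallyConstant s → (∀ σ, s σ ≠ 0) →
      (∀ σ τ : E.fixingSubgroup, s (σ * τ) = s σ * (σ : Gal(L/K)) (s τ)) →
      ∃ y : L, y ≠ 0 ∧ ∀ σ : E.fixingSubgroup, s σ = (σ : Gal(L/K)) y / y) ∧
    ∀ s : E.fixingSubgroup → L, IsLocallyConstant s →
      (∀ σ τ : E.fixingSubgroup, s (σ * τ) = s σ + (σ : Gal(L/K)) (s τ)) →
      ∃ y : L, ∀ σ : E.fixingSubgroup, s σ = (σ : Gal(L/K)) y - y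

/-- **Jac** (150 lines). Jacobson's formula `(D + f) ^ p = D ^ p + (D ^ (p - 1) f) + f ^ p`.

Proof. Let `R` be the ring of the additive endomorphisms of `A` (`AddMonoid.End A` or
`Module.End ℤ A`), an `ℕ`-algebra of characteristic `p` (`p • g = 0`); `d ∈ R` the operator `D`, `m_f` the
multiplication by `f`; `d m_f - m_f d = m_(D f)`. Let `z = C d + X * C m_f ∈ R[X]` (`X` commutes with
everything). `derivative` satisfies the product rule on `R[X]` (`Polynomial.derivative_mul` holds for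
noncommutative `R`), so `derivative (z ^ n) = ∑_{a + b = n - 1} z ^ a * C m_f * z ^ b`. For `n = p`: let `L`, `R'` be the
left and right multiplication by `z`; they commute and `(L - R') ^ (p - 1) = ∑_{a + b = p - 1} L ^ a R' ^ b`
(the binomial coefficients `binom (p - 1) a` are `(-1) ^ a` modulo `p`; or: `(L - R') ∑ L ^ a R' ^ b = L ^ p - R' ^ p =
(L - R') ^ p` in the polynomial ring `ZMod p [L, R']`, a domain). So the derivative of `z ^ p` is
`(ad z) ^ (p - 1) (C m_f)`, and `(ad z) (C m_g) = C (m_(D g))` for all `g` (as `m_f m_g = m_g m_f`). So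
`derivative (z ^ p) = C (m_(D ^ (p - 1) f))`. Let `c_i ∈ R` be the coefficients of `z ^ p` (degree at most `p`): `i c_i = 0` for
`2 ≤ i < p`, so `c_i = 0` (`i` is a unit modulo `p`), `c_1 = m_(D ^ (p - 1) f)`, `c_0 = d ^ p`, `c_p = m_f ^ p`. Evaluate at
`1` (`Polynomial.eval`/sum of the coefficients; `1` is central) and apply to `g`. -/
def S_Jac : Prop :=
  ∀ (p : ℕ) [Fact p.Prime] (A : Type) [CommRing A] [CharP A p] (D : A → A),
    (∀ x y, D (x + y) = D x + D y) → (∀ x y, D (x * y) = D x * y + x * D y) → ∀ f g : A,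
    (fun y => D y + f * y)^[p] g = D^[p] g + (D^[p - 1] f + f ^ p) * g

/-- **Tba** (250 lines). Coordinates with respect to a `p`-basis, the derivative.

Proof. Uniqueness of the coordinates (1): if `∑ i < p, t ^ i * c i ^ p = 0` then all `c i = 0`: let `k₀` be the
subfield of the `p`-th powers (range of the Frobenius); `t ^ p` is not the `p`-th power of an element of
`k₀` (`(s ^ p) ^ p = t ^ p` implies `s ^ p = t`), so `X ^ p - t ^ p` is irreducible over `k₀`
(`X_pow_sub_C_irreducible_of_prime`), it is the minimal polynomial of `t` over `k₀`, and a polynomial over `k₀`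
of degree less than `p` with root `t` is zero. Differences of `p`-th powers are `p`-th powers. (2) by the
definition of `cf`. (3), (7) additivity by uniqueness. `D (t ^ n * c ^ p) = n t ^ (n - 1) c ^ p` for ALL `n` (write
`n = i + p j`, `i < p`, `t ^ (p j)` is a `p`-th power and `n = i` in `L`; for `n = 0` both sides are `0`). (4) By
bilinearity it suffices to take `f = t ^ i a ^ p`, `g = t ^ j b ^ p`. (5), (6): `D f = ∑ i t ^ (i - 1) a_i ^ p = 0` iff
`a_i = 0` for `1 ≤ i < p`. (8) uniqueness. (9) the exponent `p - 1` does not occur in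
`∑ i t ^ (i - 1) a_i ^ p` (integers modulo `p` are `p`-th powers). (10) `D ^ (p - 1)` of `t ^ i a ^ p`, `i < p - 1`, is `0`, of
`t ^ (p - 1) a ^ p` it is `(p - 1)! a ^ p = - a ^ p` (`ZMod.wilsons_lemma`). (11) `D` of a `p`-th power is zero. -/
def S_Tba : Prop :=
  ∀ (p : ℕ) [Fact p.Prime] (L : Type) [Field L] [CharP L p] (t : L), TBp p L t →
    (∀ a : ℕ → L, ∀ i < p, cf p t (∑ j ∈ range p, t ^ j * a j ^ p) i = a i) ∧
    (∀ f, f = ∑ i ∈ range p, t ^ i * cf p t f i ^ p) ∧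
    (∀ f g, Dt p t (f + g) = Dt p t f + Dt p t g) ∧
    (∀ f g, Dt p t (f * g) = Dt p t f * g + f * Dt p t g) ∧
    Dt p t t = 1 ∧
    (∀ f, Dt p t f = 0 ↔ ∃ s, f = s ^ p) ∧
    (∀ f g, Ca p t (f + g) = Ca p t f + Ca p t g) ∧
    (∀ a f, Ca p t (a ^ p * f) = a * Ca p t f) ∧
    (∀ f, Ca p t (Dt p t f) = 0) ∧
    (∀ f, (Dt p t)^[p - 1] f = - Ca p t f ^ p) ∧
    ∀ f, (Dt p t)^[p] f = 0

/-- **Tbp** (250 lines, uses `S_Jac`, `S_Tba`). Logarithmic derivatives and the Cartier operator.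

Proof. `D = Dt p t` is a derivation with `D ^ p = 0`. (1), (2) product rule. (3) `Tba` (6). (4) Let `f = Lg u = D u / u`.
`u * (D g + f g) = D (u g)`, so `u * (D + f) ^ p g = D ^ p (u g) = 0`, and by `S_Jac` (with `g = 1`)
`D ^ (p - 1) f + f ^ p = 0`, i.e. `(Ca f) ^ p = f ^ p` (`Tba` (10)). (5) By `S_Jac` for `- f`:
`(D - f) ^ p g = (Ca f ^ p - f ^ p) g = 0` for all `g` (`(- f) ^ p = - f ^ p` in characteristic `p`). Let `m ≥ 1` be minimal
with `(D - f) ^ m 1 = 0`, `w = (D - f) ^ (m - 1) 1 ≠ 0`: `D w = f w`. (6) `σ` maps the coordinates of `f` to coordinates of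
`σ f` (uniqueness). -/
def S_Tbp : Prop :=
  ∀ (p : ℕ) [Fact p.Prime] (L : Type) [Field L] [CharP L p] (t : L), TBp p L t →
    (∀ u v : L, u ≠ 0 → v ≠ 0 → Lg p t (u * v) = Lg p t u + Lg p t v) ∧
    (∀ u : L, u ≠ 0 → Lg p t u⁻¹ = - Lg p t u) ∧
    (∀ u : L, u ≠ 0 → (Lg p t u = 0 ↔ ∃ s, u = s ^ p)) ∧
    (∀ u : L, u ≠ 0 → Ca p t (Lg p t u) = Lg p t u) ∧
    (∀ f : L, Ca p t f = f → ∃ u : L, u ≠ 0 ∧ Lg p t u = f) ∧
    ∀ (L' : Type) [Field L'] [CharP L' p] (σ : L →+* L'), TBp p L' (σ t) → ∀ f : L,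
      Dt p (σ t) (σ f) = σ (Dt p t f) ∧ Ca p (σ t) (σ f) = σ (Ca p t f) ∧
      Lg p (σ t) (σ f) = σ (Lg p t f)

/-- **TbK** (120 lines). A `p`-basis of `K` is a `p`-basis of every separable algebraic extension.

Proof. Let `f ∈ L`. `f` is separable over `K`, so `f ∈ K(f ^ p)`
(`K⟮f⟯ = K⟮f ^ p⟯` for separable `f`, `IntermediateField.adjoin_eq_adjoin_pow_expChar_of_isSeparable` or similar), so `f = ∑ c_j f ^ (p j)` with `c_j ∈ K`,
`c_j = ∑ i < p, t ^ i a_(i, j) ^ p`, and `f = ∑ i < p, t ^ i (∑ j, a_(i, j) f ^ j) ^ p`. If `s ^ p = t`, `s ∈ L`, then `s` is purely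
inseparable and separable over `K`, so `s ∈ K`. -/
def S_TbK : Prop :=
  ∀ (p : ℕ) [Fact p.Prime] (K L : Type) [Field K] [Field L] [Algebra K L] [CharP K p]
    [Algebra.IsSeparable K L] (t : K), TBp p K t → TBp p L (algebraMap K L t)

/-- **TbF** (200 lines, uses `S_TbK`). `p`-bases of global function fields.

Proof. Let `F` be the finite field of `GFld`. (1) `K` is an `F(x)`-algebra. (2) `x = RatFunc.X` is a `p`-basis of `F(x)`:
every element of `F` is a `p`-th power (finite field), so a polynomial is `∑ i < p, X ^ i A_i ^ p`, and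
`a / b = a b ^ (p - 1) / b ^ p`; `X` is not a `p`-th power (degrees). `S_TbK`. (3) Let `t` be not a `p`-th power. `k₀` = the
subfield of the `p`-th powers of `K`; by (2) `K` is generated as a `k₀`-vector space by the `x ^ i`, `i < p`, so its
dimension is at most `p`; the `t ^ i`, `i < p`, are linearly independent (`X_pow_sub_C_irreducible_of_prime` as in
`S_Tba` (1)), so they are a basis. -/
def S_TbF : Prop :=
  ∀ (p : ℕ) [Fact p.Prime] (K : Type) [Field K], GFld p K →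
    CharP K p ∧ (∃ t : K, TBp p K t) ∧ ∀ t : K, (∀ s : K, s ^ p ≠ t) → TBp p K t

/-- **TbV** (250 lines, uses `S_TbK`, `S_TbF`). A uniformizer is a `p`-basis of `K` and of the completion.

Proof. `v ϖ = v s ^ p = v ϖ ^ (p n)` is impossible (`LF.disc`, `0 < v ϖ < 1`), so `ϖ` is not a `p`-th power in `K`, and
`S_TbF`. Let `K_v` be the completion (complete, ultrametric, `‖y‖ = v y` for `y ∈ K`, `‖y‖` is a power of `v ϖ` for
`y ≠ 0`). For `y = ∑ i < p, ϖ ^ i b_i ^ p`, `b_i ∈ K`, the nonzero terms have different norms (the exponents are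
different modulo `p`), so `‖y‖` is their maximum and `‖b_i‖ ^ p ‖ϖ‖ ^ i ≤ ‖y‖`. Let `x ∈ K_v`. By density
`x = ∑_k y_k` with `y_k ∈ K`, `‖y_k‖ ≤ 2 ^ (-k)` for `k ≥ 1`; `y_k = ∑ ϖ ^ i b_(i, k) ^ p` and `a_i = ∑_k b_(i, k)` converges
(`‖b_(i, k)‖ ^ p ≤ ‖y_k‖ / ‖ϖ‖ ^ p`), `a_i ^ p = ∑_k b_(i, k) ^ p` (the Frobenius is continuous and additive), so
`x = ∑ ϖ ^ i a_i ^ p`. `ϖ` is not a `p`-th power in `K_v` (norms). For `Kvs v`, `Kgs K`: `S_TbK`. -/
def S_TbV : Prop :=
  ∀ (p : ℕ) [Fact p.Prime] (K : Type) [Field K], GFld p K → ∀ (v : AbsoluteValue K ℝ) (Q : ℕ)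
    (ϖ : K) (R : Finset K), LF v p Q ϖ R →
    TBp p K ϖ ∧ TBp p (Kgs K) (tG ϖ) ∧ TBp p v.Completion (algebraMap K v.Completion ϖ) ∧
      TBp p (Kvs v) (tV v ϖ)

/-- **Chn** (80 lines, uses `S_Tba`, `S_Tbp`). Change of the `p`-basis.

Proof. `D_x t ≠ 0` by `Tba` (6) (`t` is not a `p`-th power). Let `f = ∑ i < p, t ^ i a_i ^ p`, `y = D_x t`. For `i < p - 1`:
`t ^ i y = D_x (t ^ (i + 1) / (i + 1))`, so `Ca_x (t ^ i y a_i ^ p) = a_i Ca_x (t ^ i y) = 0` (`Tba` (8), (9)). For `i = p - 1`: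
`t ^ (p - 1) y = t ^ p Lg_x t`, so `Ca_x (t ^ (p - 1) y a ^ p) = a t Ca_x (Lg_x t) = a t Lg_x t = a y` (`Tbp` (4)). The sum is
`a_(p - 1) y = Ca_t f * y`. -/
def S_Chn : Prop :=
  ∀ (p : ℕ) [Fact p.Prime] (L : Type) [Field L] [CharP L p] (x t : L), TBp p L x → TBp p L t →
    Dt p x t ≠ 0 ∧ ∀ f, Ca p x (f * Dt p x t) = Ca p t f * Dt p x t

/-- **CsF** (150 lines). The constants form an algebraically closed subfield of a separably closed
field.

Proof. If `x ^ p ^ m = x`, `y ^ p ^ n = y` then `x`, `y` are fixed by the ring homomorphism `z ↦ z ^ p ^ (m n)`; so `Cst` is the union of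
the directed family of the subfields `F_n = {z | z ^ p ^ n = z}`, `n ≥ 1` (`F_m, F_n ≤ F_(m n)`), which are finite
(roots of a polynomial). Algebraically closed (`IsAlgClosed.of_exists_root`): let `g` be a monic irreducible
polynomial with coefficients in `Cst`, in some `F_n`; as a polynomial over the finite (perfect) field `F_n` it is
irreducible, so separable, and has a root `z` in `L` (separably closed). `F_n(z)` is a finite field with `p ^ m`
elements, so `z ^ p ^ m = z`. -/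
def S_CsF : Prop :=
  ∀ (p : ℕ) [Fact p.Prime] (L : Type) [Field L] [CharP L p] [IsSepClosed L],
    ∃ k : Subfield L, (k : Set L) = Cst p L ∧ IsAlgClosed k

/-- **Lng** (200 lines). Lang's lemma for `p ^ -1`-linear maps.

Proof. If `e = 0` take `x = 0`. The elements `C^[i] e`, `i = 0, 1, ..`, are in the finite dimensional space `V`, so there are
`m ≥ 1` and `a_0, .., a_m ∈ k`, not all `0`, with `∑ i ≤ m, a_i C^[i] e = 0` (if necessary add zero coefficients to get
`m ≥ 1`). We look for `x = ∑ i < m, x_i C^[i] e` and `l ∈ k` with `x_0 = -1 - l a_0`, `x_i = x_(i-1) ^ (1/p) - l a_i` for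
`1 ≤ i < m`, `x_(m-1) ^ (1/p) = l a_m` (`z ^ (1/p)` is the `p`-th root in the algebraically closed, hence perfect, field `k`): then
`C (x_i C^[i] e) = x_i ^ (1/p) C^[i+1] e`, so `C x - x = - x_0 e + ∑ 1 ≤ i < m, (x_(i-1) ^ (1/p) - x_i) C^[i] e + x_(m-1) ^ (1/p) C^[m] e =
e + l ∑ a_i C^[i] e = e`. Put `l = ℓ ^ p ^ m`, `b_i ^ p ^ (m - i) = a_i`. The condition is the equation
`- 1 = a_m ℓ ^ p ^ m + ∑ i < m, b_i ℓ ^ p ^ i` (`x_i = - 1 - ∑ j ≤ i, (b_j ℓ ^ p ^ j) ^ p ^ (m - i)`, `(-1) ^ (1/p) = -1` as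
`(-1) ^ p = -1` in characteristic `p`), a polynomial equation for `ℓ` which is not constant since not all the coefficients of the
`ℓ ^ p ^ i`, `0 ≤ i ≤ m`, vanish; so it has a root in `k`. -/
def S_Lng : Prop :=
  ∀ (p : ℕ) [Fact p.Prime] (L : Type) [Field L] [CharP L p] (k : Subfield L) [IsAlgClosed k]
    (C : L → L), (∀ x y, C (x + y) = C x + C y) → (∀ a ∈ k, ∀ x, C (a ^ p * x) = a * C x) →
    ∀ (V : Submodule k L) [FiniteDimensional k V], (∀ x ∈ V, C x ∈ V) →
      ∀ e ∈ V, ∃ x ∈ V, C x - x = e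

/-- **CGa** (250 lines). Coordinates of the elements of `Kgeo`. `x` is the variable of `F(x) ⊆ K`.

Proof. `x` is transcendental over `F`, and `k = Cst` is algebraic over (the image of) `F`, so `x` is transcendental over
`k` (`ev k x s ≠ 0` for `s ≠ 0`). The elements of `F` are in `k` (`c ^ #F = c`, `#F` is a power of `p`). Let `w_j` be a basis of
`K / F(x)`. The `w_j ^ p` are also a basis (`K / F(x)` is separable:
`Field.span_map_pow_expChar_pow_eq_top_of_isSeparable`), so `w_j` is a combination of the `w_i ^ p` with coefficients in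
`F(x)`; `D` is a common denominator. Let `T` be the set of the `f ∈ K^s` for which there are `s ≠ 0`, `r_j` in `k[X]` with
`s(x) f = ∑ r_j(x) w_j`. `T` is a `k(x)`-subspace of finite dimension (`k(x)` the field of quotients `a(x) / b(x)`), closed under
products (`w_i w_j` is an `F(x)`-combination of the `w_l`), contains `K` and `k`; it is a domain of finite dimension over
the field `k(x)`, so a field. So it contains `Kgeo p K = K(Cst)`. -/
def S_CGa : Prop :=
  ∀ (p : ℕ) [Fact p.Prime] (F : Type) [Field F] [Finite F] [CharP F p] (K : Type) [Field K]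
    [Algebra (RatFunc F) K] [FiniteDimensional (RatFunc F) K] [Algebra.IsSeparable (RatFunc F) K]
    (k : Subfield (Kgs K)), (k : Set (Kgs K)) = Cst p (Kgs K) → ∀ x : Kgs K,
    x = tG (algebraMap (RatFunc F) K RatFunc.X) →
    (∀ s : k[X], s ≠ 0 → ev k x s ≠ 0) ∧
    ∃ (n : ℕ) (w : Fin n → K) (D : k[X]) (b : Fin n → Fin n → k[X]), D ≠ 0 ∧
      (∀ j, ev k x D * tG (w j) = ∑ i, ev k x (b i j) * tG (w i) ^ p) ∧
      ∀ e ∈ Kgeo p K, ∃ (s : k[X]) (r : Fin n → k[X]), s ≠ 0 ∧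
        ev k x s * e = ∑ j, ev k x (r j) * tG (w j)

/-- **CGb** (200 lines, uses `S_Tba`). A finite dimensional space stable under the Cartier operator.

Proof. For `g = ∑ c_n X ^ n ∈ k[X]` `Ca (g(x)) = g'(x)` with `g' = ∑ m, c_(p m + p - 1) ^ (1/p) X ^ m`, `deg g' ≤ deg g / p`. Let
`Δ = s * D`, `M` a natural number with `deg (r j * D) ≤ M` and `deg (b i j) + (p - 1) deg s + (p - 2) deg D ≤ M` for all `i`, `j`, and `V` the set
of the `f` with `Δ(x) f = ∑ r'_j(x) w_j` for some `r'_j ∈ k[X]` of degree at most `M`; it is the image of the finite dimensional space of the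
`(r'_j)_j` under a linear map, and `e ∈ V`. For `f = x ^ n w_j / Δ(x)`, `n ≤ M`, we have
`f = ∑ i, w_i ^ p x ^ n b_(i j)(x) / (D s D)(x) = ∑ i, (w_i / Δ(x)) ^ p (x ^ n b_(i j) s ^ (p - 1) D ^ (p - 2))(x)`, so
`Ca f = ∑ i, w_i / Δ(x) * g_i(x)` with `deg g_i ≤ (M + M) / p ≤ M`. `V` is spanned by these `f` and `Ca (c f) = c ^ (1/p) Ca f` for `c ∈ k`. -/
def S_CGb : Prop :=
  ∀ (p : ℕ) [Fact p.Prime] (L : Type) [Field L] [CharP L p] (k : Subfield L) (x : L),
    (∀ a ∈ k, ∃ b ∈ k, b ^ p = a) → TBp p L x → (∀ s : k[X], s ≠ 0 → ev k x s ≠ 0) →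
    ∀ (n : ℕ) (w : Fin n → L) (D : k[X]) (b : Fin n → Fin n → k[X]), D ≠ 0 →
    (∀ j, ev k x D * w j = ∑ i, ev k x (b i j) * w i ^ p) →
    ∀ (e : L) (s : k[X]) (r : Fin n → k[X]), s ≠ 0 → ev k x s * e = ∑ j, ev k x (r j) * w j →
    ∃ V : Submodule k L, FiniteDimensional k V ∧ e ∈ V ∧ (∀ f ∈ V, Ca p x f ∈ V) ∧
      ∀ f ∈ V, ∃ (s' : k[X]) (r' : Fin n → k[X]), s' ≠ 0 ∧ ev k x s' * f = ∑ j, ev k x (r' j) * w j

/-- **CGe** (200 lines, uses `S_Tba`, `S_Tbp`, `S_TbK`, `S_TbF`, `S_Chn`, `S_CsF`, `S_Lng`, `S_CGa`, `S_CGb`). The operator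
`Ca - 1` is surjective on `Kgeo`.

Proof. (1) `H = (Kgeo p K).fixingSubgroup` fixes `t`, so it commutes with `Ca` (`Tbp` (6)), and `Kgeo` is the fixed field of
`H` (`InfiniteGalois.fixedField_fixingSubgroup`). (2) Let `F`, `x` be as in `GFld`, `CGa`; `x` is a `p`-basis of `K`
(`TbF`: it is not a `p`-th power in `K`, since by `TbK` for `F(x)`, where it is clear, it is a `p`-basis) and of `K^s` (`TbK`).
`k` from `CsF`, algebraically closed. Let `e' = e * D_x t ∈ Kgeo` (`D_x` commutes with `H`). `V` from `CGa`, `CGb` for `e'`; its elements are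
in `Kgeo` (quotients of elements of `K(Cst)`). By `Lng` there is `h' ∈ V` with `Ca_x h' - h' = e'`. Let `h = h' / D_x t`; by `Chn`
`(Ca_t h - h) D_x t = Ca_x h' - h' = e D_x t`. -/
def S_CGe : Prop :=
  ∀ (p : ℕ) [Fact p.Prime] (K : Type) [Field K], GFld p K → ∀ t : K, TBp p K t →
    (∀ f ∈ Kgeo p K, Ca p (tG t) f ∈ Kgeo p K) ∧
    ∀ e ∈ Kgeo p K, ∃ h ∈ Kgeo p K, Ca p (tG t) h - h = e

/-- **TS** (200 lines, uses `S_RH90`, `S_Tba`, `S_Tbp`, `S_TbK`, `S_TbF`, `S_CGe`). Crossed homomorphisms modulo `p ^ k`-th powers on the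
geometric group are trivial.

Proof by induction on `k` (for all `μ`), see `W2/R/TS.lean`. `k = 0`: `Y = 1`, `s = μ σ`. Step to `k + 1`: let `t` be a
`p`-basis of `K` (`TbF`), so of `K^s`; `C = Ca p (tG t)`, `a σ = Lg p (tG t) (μ σ)`. By `Tbp` (1), (3) (a
`p ^ (k + 1)`-th power is a `p`-th power), (6): `a (σ τ) = a σ + σ (a τ)`, and `C (a σ) = a σ`; `a` is locally constant. By
`S_RH90` (additive, `E = Kgeo p K`) `a σ = σ e - e`, `e ∈ K^s`. The element `e' = C e - e` is fixed by `H`, as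
`σ e' - e' = C (a σ) - a σ = 0`, so `e' ∈ Kgeo` and by `S_CGe` `e' = C h - h`, `h ∈ Kgeo`. Let `e₁ = e - h`: `C e₁ = e₁` and
`a σ = σ e₁ - e₁`. By `Tbp` (5) `e₁ = Lg Y₀`. Then `Lg (μ σ * Y₀ / σ Y₀) = a σ + e₁ - σ e₁ = 0`, so
`μ σ * Y₀ / σ Y₀ = ν σ ^ p` with a unique `ν σ ≠ 0`; `ν` is locally constant, and
`ν (σ τ) ^ p = ν σ ^ p * σ (ν τ) ^ p * s ^ (p ^ (k + 1))`, so `ν (σ τ) = ν σ * σ (ν τ) * s ^ (p ^ k)`. By induction
`ν σ = (σ Y₁ / Y₁) * s ^ (p ^ k)`; take `Y = Y₀ * Y₁ ^ p`. -/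
def S_TS : Prop :=
  ∀ (p : ℕ) [Fact p.Prime] (K : Type) [Field K], GFld p K →
    ∀ (k : ℕ) (μ : (Kgeo p K).fixingSubgroup → Kgs K),
    IsLocallyConstant μ → (∀ σ, μ σ ≠ 0) →
    (∀ σ τ : (Kgeo p K).fixingSubgroup,
      EqN (p ^ k) (μ (σ * τ)) (μ σ * (σ : Gal(Kgs K/K)) (μ τ))) →
    ∃ Y : Kgs K, Y ≠ 0 ∧ ∀ σ : (Kgeo p K).fixingSubgroup,
      EqN (p ^ k) (μ σ) ((σ : Gal(Kgs K/K)) Y / Y)

end Pool.Agent.MP72P
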