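import Pool.Agent.Lib.MP_72e2e6_nt.P3.R.DefsC
import Pool.Agent.Lib.MP_72e2e6_nt.P3.A2.Spec

/-!
# MP_72e2e6_nt, theorem T3p, part R, statements with proofs, part C: the count

Every module proves one of the propositions `S_X` below: file `P3/R/X.lean` (import this file only)
with `theorem tX : S_X` or `theorem tX (h1 : S_Y) (h2 : S_Z) .. : S_X` (the used statements in the order of
the docstring), namespace `Pool.Agent.MP72P`, all other declarations `private`. The complete proofs are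
in the docstrings. `a ≡ b` means `EqN N a b`, `N = p ^ k`. (`IsGalois`, `CharP` instances: `Om / K` is Galois by
`S_Twb` (5) with `A = OS av`, `CharP K p` by `S_TbF` (1), `CharP` of the completion and of `Kvs v` by `S_Lc1`,
`S_Lc2`.)
-/

namespace Pool.Agent.MP72P

open Polynomial IntermediateField Finset

/-- **LfZ** (200 lines, uses `S_Lrb`). Lifting of crossed homomorphisms from `ZMod p` to `Λ`.

Proof. If `n = 0` then `Λ` has one element; `z = 0`. Let `n ≥ 1`. Claim for `1 ≤ m ≤ n`: there is a locally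
constant `z : Γ → Λ` with `z g ∈ (c g).val + π Λ` and `D_z(g, h) := z g + χ g * z h - z (g h) ∈ π ^ m Λ` for all `g`, `h`.
`m = 1`: `z g = (c g).val` (`χ g ≡ (ω g).val` modulo `π`, `rs` is a ring homomorphism, `S_Lrb` (5), (6)). Step from `m < n` to
`m + 1`: for `x = π ^ m y ∈ π ^ m Λ` let `q x = rs π y`; this does not depend on `y` (`S_Lrb`: `π ^ m y = 0` implies
`y ∈ π ^ (n - m) Λ ⊆ π Λ`), and `q (x + x') = q x + q x'`, `q (χ a * x) = ω a * q x`. The function `c₂ g h = q (D_z(g, h))` is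
locally constant on `Γ × Γ` and `ω a * c₂ b d - c₂ (a b) d + c₂ a (b d) - c₂ a b = 0` (the same identity holds for `D_z`
with `χ a`). By `H2Z` `c₂ g h = b g + ω g * b h - b (g h)`. Let `z' g = z g - π ^ m * (b g).val`; `m ≥ 1`, so `z' g ≡ c g`, and
`D_z' = D_z - π ^ m (b g + χ g * b h - b (g h)) ∈ π ^ (m + 1) Λ`. For `m = n` `D_z = 0`. -/
def S_LfZ : Prop :=
  ∀ (p : ℕ) [Fact p.Prime] (Γ : Type) [Group Γ] [TopologicalSpace Γ] [IsTopologicalGroup Γ]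
    (ω : Γ → ZMod p), ChO p ω → H2Z p ω → ∀ (n : ℕ) (Λ : Type) [CommRing Λ] (π : Λ), LR p n π →
    ∀ χ : Γ → Λ, Chr π ω χ → ∀ c : Γ → ZMod p, Coc (fun g (x : ZMod p) => ω g * x) c →
    ∃ z : Γ → Λ, Coc (fun g (x : Λ) => χ g * x) z ∧
      ∀ g, ∃ y, z g = (((c g).val : ℕ) : Λ) + π * y

/-- **LDl** (250 lines, uses `S_Lc1`, `S_Lc2`, `S_Has`, `S_Sep`, `S_TbF`, `S_Eqn`, `S_LvA`, `S_Ivl`, `S_Eqc`, `S_Dul`, `S_LfZ`).
Local nondegeneracy for `Λ`.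

Proof. `Γ = Gal(Kvs v/K_v)`, `ω = omc p α`, a `ChO` (`S_Has` (1)), `H2Z p ω` (`S_Sep` (1)). Claim: for all `m ≤ n` and all `x`
`u (π ^ m x) ≡ 1`, by descending induction on `m`. `m = n`: `π ^ n = 0`, `u 0 ≡ 1` (`S_Eqc` (3)). Let the claim be true for `m + 1`
and let `y₀ = u (π ^ m)`. Let `x = c + π y`, `c` a natural number (`LR.res`): `π ^ m x = c π ^ m + π ^ (m + 1) y`, so
`u (π ^ m x) ≡ y₀ ^ c` (`EqH.add`). So it suffices that `y₀ ≡ 1`. Suppose not. Then `k ≥ 1` (for `k = 0` all nonzero elements are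
equivalent). `p = π y'` (`LR.pdv`), so `y₀ ^ p ≡ u (π ^ (m + 1) y') ≡ 1`: `y₀ ^ p = s ^ p ^ k`, so `y₀ = s ^ p ^ (k - 1)` (Frobenius is
injective). `s` is not a `p`-th power (otherwise `y₀ ≡ 1`). For `g ∈ Γ` `χ g = (ω g).val + π (..)`, so
`g y₀ ≡ u (χ g * π ^ m) ≡ y₀ ^ (ω g).val`, i.e. `(g s) ^ p ^ (k - 1) = (s ^ (ω g).val * b ^ p) ^ p ^ (k - 1)`,
`g s = s ^ (ω g).val * b ^ p`. By `S_Dul` there are a crossed homomorphism `c` to `ZMod p` and `m₁`, `p ∤ m₁`, with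
`LV p v p ϖ g₀ (g ↦ s ^ (c g).val) m₁`. By `S_LvA` (6) (`k - 1` times) `LV p v (p ^ k) ϖ g₀ (g ↦ (s ^ (c g).val) ^ p ^ (k - 1))
(p ^ (k - 1) * m₁)`. Let `z : Γ → Λ` be as in `S_LfZ`: `z g = (c g).val + π (..)`. `z' g = π ^ m * z g` is a crossed homomorphism
for `χ` and `u (z' g) ≡ y₀ ^ (c g).val = (s ^ (c g).val) ^ p ^ (k - 1)`. So by `S_LvA` (4), `S_Ivl` (1) (`NCl` from `S_Eqc` (2))
`inl p v k ϖ g₀ (g ↦ u (z' g)) = p ^ (k - 1) * m₁ ≠ 0` in `ZMod (p ^ k)`, a contradiction to the hypothesis. -/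
def S_LDl : Prop :=
  ∀ (p : ℕ) [Fact p.Prime] (K : Type) [Field K], GFld p K → ∀ (v : AbsoluteValue K ℝ) (Q : ℕ)
    (ϖ : K) (R : Finset K), LF v p Q ϖ R → ∀ g₀ : Gal(Kvs v/v.Completion), IsFro p Q g₀ →
    ∀ (α : Kvs v) (h : v.Completion), α ≠ 0 → α ^ (p - 1) = algebraMap v.Completion (Kvs v) h →
    ∀ (n k : ℕ) (Λ : Type) [CommRing Λ] (π : Λ), LR p n π →
    ∀ χ : Gal(Kvs v/v.Completion) → Λ, Chr π (omc p (K := v.Completion) α) χ →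
    ∀ u : Λ → Kvs v, EqH (p ^ k) actG χ u →
    (∀ z : Gal(Kvs v/v.Completion) → Λ, Coc (fun g (x : Λ) => χ g * x) z →
      inl p v k ϖ g₀ (fun g => u (z g)) = 0) →
    ∀ x : Λ, EqN (p ^ k) (u x) 1

/-- **GlN** (100 lines, uses `S_Tba`, `S_Tbp`, `S_TbF`, `S_TbV`). An element of `K^s` which is locally a `p ^ k`-th power is one.

Proof. It suffices: if `x ≠ 0` and `ι x = s ^ p ^ k` then `x = s' ^ p ^ k` (for `x / y`). Induction on `k`. Step to `k + 1`: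
`ι x = (s ^ p ^ k) ^ p`, so `Dt p (tV v ϖ) (ι x) = 0` (`S_Tba` (6)); `ι (tG ϖ) = tV v ϖ`, both are `p`-bases (`S_TbV`), so by
`S_Tbp` (6) `ι (Dt p (tG ϖ) x) = 0` and `x = x₁ ^ p` (`S_Tba` (6)). `(ι x₁) ^ p = (s ^ p ^ k) ^ p`, so `ι x₁ = s ^ p ^ k`; induction. -/
def S_GlN : Prop :=
  ∀ (p : ℕ) [Fact p.Prime] (K : Type) [Field K], GFld p K → ∀ (v : AbsoluteValue K ℝ) (Q : ℕ)
    (ϖ : K) (R : Finset K), LF v p Q ϖ R → ∀ (ι : Kgs K →ₐ[K] Kvs v) (k : ℕ) (x y : Kgs K),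
    x ≠ 0 → y ≠ 0 → EqN (p ^ k) (ι x) (ι y) → EqN (p ^ k) x y

/-- **EqL** (200 lines, uses `S_Twb`, `S_Res`, `S_Eqn`, `S_Eqc`). Restriction of equivariant homomorphisms to the local
groups.

Proof. `Om / K` is Galois (`S_Twb` (5)). (1), (2): `S_Res` (1). (3): both sides are restrictions of `g` along `ι ∘ val`:
`g (ι x) = ι (rsH ι g x) = ι (rGo (rsH ι g) x)` for `x ∈ Om` (`S_Res` (2) twice); uniqueness in `S_Res` (3).
(4) `g (ι (u z)) = ι (rsH ι g (u z)) ≡ ι (u (χ (rGo (rsH ι g)) * z))` and (3); the other properties are clear (`ι` is a ring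
homomorphism, `S_Eqn` (9)). (5) `Z ∘ rGo` is a crossed homomorphism for `χ ∘ rGo` (`rGo` is a continuous homomorphism);
`S_Eqc` (1). (6) by (3). (7) `σ (u z / u' z) = σ (u z) / σ (u' z)`; `S_Eqn` (4). -/
def S_EqL : Prop :=
  ∀ (p : ℕ) [Fact p.Prime] (K : Type) [Field K] [CharP K p] (W : Type)
    (av : W → AbsoluteValue K ℝ) (α : Kgs K) (h : K), α ≠ 0 →
    α ^ (p - 1) = algebraMap K (Kgs K) h →
    Continuous (rGo (p := p) (av := av) (α := α)) ∧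
    (∀ (v : AbsoluteValue K ℝ) (ι : Kgs K →ₐ[K] Kvs v),
      Continuous (rLo (p := p) (av := av) (α := α) ι)) ∧
    (∀ (v : AbsoluteValue K ℝ) (ι : Kgs K →ₐ[K] Kvs v) (g : Gal(Kvs v/v.Completion)),
      rGo (p := p) (av := av) (α := α) (rsH (M := v.Completion) ι g) = rLo ι g) ∧
    ∀ (k : ℕ) (Λ : Type) [CommRing Λ] (χ : Gal((Om p (OS av) K (Kgs K) α)/K) → Λ)
      (u : Λ → Kgs K), EqH (p ^ k) actG (fun σ : Gal(Kgs K/K) => χ (rGo σ)) u →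
      (∀ (v : AbsoluteValue K ℝ) (ι : Kgs K →ₐ[K] Kvs v),
        EqH (p ^ k) actG (fun g : Gal(Kvs v/v.Completion) => χ (rLo ι g)) fun z => ι (u z)) ∧
      (∀ Z : Gal((Om p (OS av) K (Kgs K) α)/K) → Λ, Coc (fun g (x : Λ) => χ g * x) Z →
        NCoc (p ^ k) fun σ => u (Z (rGo σ))) ∧
      (∀ (Z : Gal((Om p (OS av) K (Kgs K) α)/K) → Λ) (v : AbsoluteValue K ℝ)
        (ι : Kgs K →ₐ[K] Kvs v),
        lcl ι (fun σ => u (Z (rGo σ))) = fun g => ι (u (Z (rLo ι g)))) ∧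
      ∀ u' : Λ → Kgs K, EqH (p ^ k) actG (fun σ : Gal(Kgs K/K) => χ (rGo σ)) u' →
        EqH (p ^ k) actG (fun σ : Gal(Kgs K/K) => χ (rGo σ)) fun z => u z / u' z

/-- **Unr** (100 lines, uses `S_Lc1`, `S_Lc2`, `S_TbF`, `S_Eqn`, `S_EqL`). The local invariants outside the places `av w`.

Proof. By `S_EqL` (6) the function is `μ g = ι (u (Z (rLo ι g)))`. `Z 1 = 0` (`Z 1 = Z 1 + χ 1 * Z 1`), `u 0 ≡ 1`
(`u 0 ≡ u 0 * u 0`). For geometric `g` `rLo ι g = 1` (`OnU`), so `μ g ≡ 1 = g y / y` with `y = 1`. By `AdmU.unr`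
`μ g₀ ≡ r`, `r ∈ Knr`, `nm r = v ϖ ^ x`, `N ∣ x`. -/
def S_Unr : Prop :=
  ∀ (p : ℕ) [Fact p.Prime] (K : Type) [Field K], GFld p K → ∀ (W : Type)
    (av : W → AbsoluteValue K ℝ) (α : Kgs K) (h : K), α ≠ 0 →
    α ^ (p - 1) = algebraMap K (Kgs K) h → OnU p av α →
    ∀ (k : ℕ) (Λ : Type) [CommRing Λ] (χ : Gal((Om p (OS av) K (Kgs K) α)/K) → Λ)
      (u : Λ → Kgs K), χ 1 = 1 → AdmU p av α k χ u →
    ∀ Z : Gal((Om p (OS av) K (Kgs K) α)/K) → Λ, Coc (fun g (x : Λ) => χ g * x) Z →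
    ∀ v : AbsoluteValue K ℝ, v.IsNontrivial → (∀ w, ¬ v.IsEquiv (av w)) →
    ∀ (Q : ℕ) (ϖ : K) (R : Finset K), LF v p Q ϖ R → ∀ (ι : Kgs K →ₐ[K] Kvs v)
      (g₀ : Gal(Kvs v/v.Completion)),
      ∃ x : ℤ, LV p v (p ^ k) ϖ g₀ (lcl ι fun σ => u (Z (rGo σ))) x ∧ (p : ℤ) ^ k ∣ x

/-- **RcU** (250 lines, uses `S_Lc1`, `S_Lc2`, `S_TbF`, `S_FrL`, `S_Eqn`, `S_Ivl`, `S_Eqc`, `S_Rec`, `S_EqL`, `S_Unr`). The local
invariants of an admissible `u` satisfy the axioms `Inv`.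

Proof. Let `r w = rLo (emb w)`, `u_w = emb w ∘ u`, an `EqH` for `χ ∘ r w` (`S_EqL` (4)), so `g ↦ u_w (z g)` is an `NCl` for every
crossed homomorphism `z` (`S_Eqc` (2)). `add`: `u_w (z g + z' g) ≡ u_w (z g) * u_w (z' g)`; `S_Ivl` (3), (4). `cob`:
`g ↦ a - χ (r w g) * a` is a crossed homomorphism and `u_w` of it is `≡ g y / y`, `y = (u_w a)⁻¹` (`S_Eqc` (4)); `S_Ivl` (4), (5).
`rcp`: `μ σ = u (Z (rGo σ))` is an `NCoc` (`S_EqL` (5)); let `x w` be the integer `(Iu .. w (Z ∘ r w)).val`; it is a local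
invariant of `lcl (emb w) μ = g ↦ emb w (u (Z (r w g)))` (`S_EqL` (6), `S_Ivl` (1)). The hypothesis of `S_Rec` outside the `av w`:
there is an embedding `ι` (`IsSepClosed.lift`: `Kvs v` is separably closed), `g₀` from `S_FrL` (1), and `S_Unr`. So `p ^ k`
divides `∑ x w`, i.e. `∑ Iu = 0` in `ZMod (p ^ k)`. Quotients: `eq` by `S_EqL` (7); `unr`: `r / r'`, `x - x'` (`nm` is
multiplicative, `S_Lc2`; `nm (r⁻¹) = (nm r)⁻¹`); the difference formula from `S_Ivl` (3), (4) for `(u / u') * u' = u`. -/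
def S_RcU : Prop :=
  ∀ (p : ℕ) [Fact p.Prime] (K : Type) [Field K], GFld p K → ∀ (W : Type) [Fintype W]
    (av : W → AbsoluteValue K ℝ), Pls av →
    ∀ (Q : W → ℕ) (ϖ : W → K) (R : W → Finset K), (∀ w, LF (av w) p (Q w) (ϖ w) (R w)) →
    ∀ (α : Kgs K) (h : K), α ≠ 0 → α ^ (p - 1) = algebraMap K (Kgs K) h → OnU p av α →
    ∀ (emb : ∀ w, Kgs K →ₐ[K] Kvs (av w)) (g₀ : ∀ w, Gal(Kvs (av w)/(av w).Completion)),
      (∀ w, IsFro p (Q w) (g₀ w)) →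
    ∀ (k : ℕ) (Λ : Type) [CommRing Λ] (χ : Gal((Om p (OS av) K (Kgs K) α)/K) → Λ),
      IsLocallyConstant χ → χ 1 = 1 → (∀ a b, χ (a * b) = χ a * χ b) →
    (∀ u : Λ → Kgs K, AdmU p av α k χ u →
      Inv (fun w => rLo (emb w)) χ (Iu p av k ϖ emb g₀ u)) ∧
    ∀ u u' : Λ → Kgs K, AdmU p av α k χ u → AdmU p av α k χ u' →
      AdmU p av α k χ (fun z => u z / u' z) ∧
      ∀ (w : W) (z : Gal(Kvs (av w)/(av w).Completion) → Λ),
        Coc (fun g (x : Λ) => χ (rLo (emb w) g) * x) z →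
        Iu p av k ϖ emb g₀ (fun z => u z / u' z) w z =
          Iu p av k ϖ emb g₀ u w z - Iu p av k ϖ emb g₀ u' w z

/-- **UnL** (100 lines, uses `S_Lrb`, `S_Act`, `S_UniF`). Unique existence for one group.

Proof. `Λ` is finite (`S_Lrb` (1)) and `Nat.card Λ = p ^ n`; `g ↦ (χ g * ·)` is of the type `ActP` (`S_Act`). `S_UniF` with `G = Γ`,
`S = Empty`, `o i = none`, `Y = J`, `y j = Sum.inl (e j)` (the second components are functions on the empty type; `psO` is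
`z.1 g - 0`). -/
def S_UnL : Prop :=
  ∀ (p : ℕ) [Fact p.Prime] (Γ : Type) [Group Γ] [TopologicalSpace Γ] [IsTopologicalGroup Γ]
    (I J : Type) (ω : Γ → ZMod p) (t : I → Γ) (e : J → Γ), ChO p ω → H2Z p ω →
    (∀ N : Set Γ, IsOpen N → 1 ∈ N → {i | t i ∉ N}.Finite) →
    (∀ v : I → ZMod p, {i | v i ≠ 0}.Finite → ∀ c : J → ZMod p, ∃! f : Γ → ZMod p,
      Coc (fun g (x : ZMod p) => ω g * x) f ∧ (∀ i, f (t i) = v i) ∧ ∀ j, f (e j) = c j) →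
    ∀ (n : ℕ) (Λ : Type) [CommRing Λ] (π : Λ), LR p n π → ∀ χ : Γ → Λ, Chr π ω χ →
    ∀ v : I → Λ, {i | v i ≠ 0}.Finite → ∀ c : J → Λ, ∃! z : Γ → Λ,
      Coc (fun g (x : Λ) => χ g * x) z ∧ (∀ i, z (t i) = v i) ∧ ∀ j, z (e j) = c j

/-- **Ct1** (250 lines, uses `S_Lin2`, `S_UnL`). The functional of `I` (abstract).

Proof. The function `ω ∘ r w` is a `ChO`, `χ ∘ r w` a `Chr` for it (`r w` is a continuous homomorphism). By `S_UnL` for `Γ w₀`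
(`I = T w₀`, `J = Fin d`, hypotheses `conv`, `h2`, `u0`) for every `l : Fin d → Λ` there is exactly one crossed homomorphism `z_l` on
`Γ w₀` with `z_l (t w₀ i) = 0` and `z_l (e j) = l j`; `z_(l + l') = z_l + z_l'`. Let `θ l = I w₀ z_l`, additive by `Inv.add`. The
first property: `z = z_l` for `l = z ∘ e`. Let `y` be given and `(c, a) = Zs (tsL ..) (rL χ) y`; by `S_Lin2` (1) `c` is a crossed
homomorphism for `χ` and the tests are `0`. For `w : W` let `z_w g = psi (rL χ) (c, a) w (r w g) =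
c (r w g) - (a w - χ (r w g) * a w)`, a crossed homomorphism on `Γ w` (difference of two crossed homomorphisms) with
`z_w (t w i) = 0`. For `w ≠ w₀` `z_w = 0` (`S_UnL` with `J = Empty`, `ue`). `Ts y j = z_(w₀) (e j)`, so `θ (Ts y) = I w₀ z_(w₀)`.
`c ∘ r w = z_w + (a w - χ (r w ·) * a w)`, so `I w (c ∘ r w) = I w z_w` (`Inv.add`, `Inv.cob`), which is `0` for `w ≠ w₀`
(`I w 0 = 0` by `Inv.cob` with `a = 0`). So `θ (Ts y) = ∑ w, I w (c ∘ r w) = 0` (`Inv.rcp`). -/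
def S_Ct1 : Prop :=
  ∀ (p : ℕ) [Fact p.Prime] (G W : Type) [Group G] [TopologicalSpace G] [IsTopologicalGroup G]
    [Fintype W] [DecidableEq W] (Γ : W → Type) [∀ w, Group (Γ w)] [∀ w, TopologicalSpace (Γ w)]
    [∀ w, IsTopologicalGroup (Γ w)] (ω : G → ZMod p), ChO p ω → H2Z p ω →
    ∀ (r : ∀ w, Γ w →* G) (T : W → Type) (t : ∀ w, T w → Γ w) (w₀ : W) (d : ℕ)
      (e : Fin d → Γ w₀), LTs p ω r t w₀ e → ∀ y₀ : Fin (d + 1) → G ⊕ W,
    (tsL r t w₀ e y₀).Ok p ω (fun w => (r w).range) →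
    ∀ (n : ℕ) (Λ : Type) [CommRing Λ] (π : Λ), LR p n π → ∀ χ : G → Λ, Chr π ω χ →
    ∀ (N : ℕ) (I : ∀ w, (Γ w → Λ) → ZMod N), Inv r χ I →
      ∃ θ : (Fin d → Λ) →+ ZMod N,
        (∀ z : Γ w₀ → Λ, Coc (fun g (x : Λ) => χ (r w₀ g) * x) z → (∀ i, z (t w₀ i) = 0) →
          I w₀ z = θ fun j => z (e j)) ∧
        ∀ y, θ (Ts (tsL r t w₀ e y₀) (rL χ) y) = 0

/-- **Ct2** (250 lines, uses `S_Lrb`, `S_Act`, `S_Uni2`, `S_UnL`). Injectivity (abstract).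

Proof. Let `z` be a crossed homomorphism on `Γ w`. `{g | z g = 0}` is open and contains `1` (`z 1 = 0`), so `z (t w i) = 0` for all
but finitely many `i` (`LTs.conv`). Let `v : (Σ w, T w) → Λ` be `z (t w i)` at `(w, i)` and `0` at the other places (for instance
`v q = Function.update (fun _ _ => 0) w (fun i => z (t w i)) q.1 q.2`). By `S_Uni2` (1) (`M = Λ`, finite by `S_Lrb`, `ρ = rL χ`,
`S_Act`) there is a pair `(c, a)` with the tests `v` and the coordinates `0`. For `w'` let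
`z_w' g = psi (rL χ) (c, a) w' (r w' g)`, a crossed homomorphism on `Γ w'` with `z_w' (t w' i) = v (w', i)`. As in `S_Ct1`
`I w' (c ∘ r w') = I w' z_w'`, so `∑ w', I w' z_w' = 0` (`Inv.rcp`). For `w' ≠ w` `z_w'` vanishes at the tests, so `I w' z_w' = 0`: by
hypothesis if `w' = w₀`, and since `z_w' = 0` if `w' ≠ w₀` (`S_UnL`, `J = Empty`, `ue`; `I w' 0 = 0`). So `I w z_w = 0`. The crossed
homomorphism `z - z_w` vanishes at the tests, so again `I w (z - z_w) = 0`, and `I w z = I w (z - z_w) + I w z_w = 0`. -/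
def S_Ct2 : Prop :=
  ∀ (p : ℕ) [Fact p.Prime] (G W : Type) [Group G] [TopologicalSpace G] [IsTopologicalGroup G]
    [Fintype W] [DecidableEq W] (Γ : W → Type) [∀ w, Group (Γ w)] [∀ w, TopologicalSpace (Γ w)]
    [∀ w, IsTopologicalGroup (Γ w)] (ω : G → ZMod p), ChO p ω → H2Z p ω →
    ∀ (r : ∀ w, Γ w →* G) (T : W → Type) (t : ∀ w, T w → Γ w) (w₀ : W) (d : ℕ)
      (e : Fin d → Γ w₀), LTs p ω r t w₀ e → ∀ y₀ : Fin (d + 1) → G ⊕ W,
    (tsL r t w₀ e y₀).Ok p ω (fun w => (r w).range) →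
    ∀ (n : ℕ) (Λ : Type) [CommRing Λ] (π : Λ), LR p n π → ∀ χ : G → Λ, Chr π ω χ →
    ∀ (N : ℕ) (I : ∀ w, (Γ w → Λ) → ZMod N), Inv r χ I →
      (∀ z : Γ w₀ → Λ, Coc (fun g (x : Λ) => χ (r w₀ g) * x) z → (∀ i, z (t w₀ i) = 0) →
        I w₀ z = 0) →
      ∀ (w : W) (z : Γ w → Λ), Coc (fun g (x : Λ) => χ (r w g) * x) z → I w z = 0

/-- **RCn** (200 lines, uses `S_Twb`, `S_Has`, `S_Res`, `S_TbF`, `S_FrL`, `S_Eqn`, `S_LDl`, `S_GlN`, `S_EqL`, `S_RcU`, `S_Us2`,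
`S_Ct1`, `S_Ct2`). THE COUNT of the admissible `u`.

Proof. `g₀ w` from `S_FrL` (1), `ω = omc p αo`, a `ChO` (`S_Has` (1); `αo ^ (p - 1) = h` in `Om`). `N = p ^ k` kills `Λ`. For `u ∈ U`
`Iu .. u` satisfies `Inv` (`S_RcU`); let `θ_u` be as in `S_Ct1`. The map `u ↦ θ_u` goes to the finite set
`{θ | ∀ y, θ (Ts y) = 0}` of `S_Us2`, whose order times `p ^ n` is `#Ker`. It is injective on `U`: let `θ_u = θ_u'`,
`u'' = u / u'`, admissible (`S_RcU`). For crossed homomorphisms `z` on `Γ w₀` which vanish at the tests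
`Iu u'' w₀ z = Iu u w₀ z - Iu u' w₀ z = θ_u (z ∘ e) - θ_u' (z ∘ e) = 0`. By `S_Ct2` `Iu u'' w₀ z = 0` for all crossed homomorphisms `z`
on `Γ w₀`. Apply `S_LDl` to `v = av w₀`, `emb w₀ α` (`(emb w₀ α) ^ (p - 1)` is the image of `h`), the character `χ ∘ rLo (emb w₀)`
(a `Chr` for `omc p (emb w₀ α)`, since `omc p αo (rLo (emb w₀) g) = omc p (emb w₀ α) g` by `S_Res` (4) for `ι = (emb w₀) ∘ val`) and
`emb w₀ ∘ u''` (`S_EqL` (4)): `emb w₀ (u'' x) ≡ 1`, so `u'' x ≡ 1` (`S_GlN`, `y = 1`) and `u x ≡ u' x` for all `x`, `u = u'`. -/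
def S_RCn : Prop :=
  ∀ (p : ℕ) [Fact p.Prime] (K : Type) [Field K], GFld p K → ∀ (W : Type) [Fintype W]
    (av : W → AbsoluteValue K ℝ), Pls av →
    ∀ (Q : W → ℕ) (ϖ : W → K) (R : W → Finset K), (∀ w, LF (av w) p (Q w) (ϖ w) (R w)) →
    ∀ (α : Kgs K) (h : K), α ≠ 0 → α ^ (p - 1) = algebraMap K (Kgs K) h → OnU p av α →
    ∀ αo : Om p (OS av) K (Kgs K) α, (αo : Kgs K) = α → H2Z p (omc p (K := K) αo) →
    ∀ (emb : ∀ w, Kgs K →ₐ[K] Kvs (av w)) (T : W → Type)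
      (t : ∀ w, T w → Gal(Kvs (av w)/(av w).Completion)) (w₀ : W) (d : ℕ)
      (e : Fin d → Gal(Kvs (av w₀)/(av w₀).Completion)),
      LTs p (omc p (K := K) αo) (fun w => rLo (emb w)) t w₀ e →
    ∀ y₀ : Fin (d + 1) → Gal((Om p (OS av) K (Kgs K) α)/K) ⊕ W,
      (tsL (fun w => rLo (emb w)) t w₀ e y₀).Ok p (omc p (K := K) αo)
        (fun w => (rLo (emb w)).range) →
    ∀ (n k : ℕ) (Λ : Type) [CommRing Λ] (π : Λ), LR p n π → ((p ^ k : ℕ) : Λ) = 0 →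
    ∀ χ : Gal((Om p (OS av) K (Kgs K) α)/K) → Λ, Chr π (omc p (K := K) αo) χ →
    ∀ U : Set (Λ → Kgs K), (∀ u ∈ U, AdmU p av α k χ u) →
      (∀ u ∈ U, ∀ u' ∈ U, (∀ z, EqN (p ^ k) (u z) (u' z)) → u = u') →
      U.Finite ∧ U.ncard * p ^ n ≤
        (Ker (rL χ) (fun w : W => (rLo (p := p) (av := av) (α := α) (emb w)).range)).ncard

end Pool.Agent.MP72P
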