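import Pool.Agent.Lib.MP_72e2e6_nt.P3.R.SpecA

/-!
# MP_72e2e6_nt, theorem T3p, part R: coordinates with respect to a `p`-basis, the derivative
-/

namespace Pool.Agent.MP72P

open Polynomial IntermediateField Finset

section
variable {p : ℕ} [hp : Fact p.Prime] {L : Type} [Field L] [CharP L p] {t : L}

/-- The `t ^ i`, `i < p`, are linearly independent over the `p`-th powers. -/
private theorem Tba_ind (ht : TBp p L t) (c : ℕ → L)
    (h : ∑ i ∈ range p, t ^ i * c i ^ p = 0) : ∀ i < p, c i = 0 := by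
  let k₀ : Subfield L := (frobenius L p).fieldRange
  have hk : ∀ x : L, x ^ p ∈ k₀ := fun x => ⟨x, frobenius_def p x⟩
  let a : k₀ := ⟨t ^ p, hk t⟩
  have hirr : Irreducible (X ^ p - C a : k₀[X]) := by
    refine X_pow_sub_C_irreducible_of_prime hp.out ?_
    rintro ⟨b, s, rfl⟩ hb
    have h1 : (frobenius L p s) ^ p = t ^ p := congrArg Subtype.val hb
    have h2 : frobenius L p (frobenius L p s) = frobenius L p t := by
      rw [frobenius_def p (frobenius L p s), h1, frobenius_def]
    have h3 := frobenius_inj L p h2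
    rw [frobenius_def] at h3
    exact ht.2 s h3
  have hroot : aeval t (X ^ p - C a : k₀[X]) = 0 := by
    rw [map_sub, map_pow, aeval_X, aeval_C]
    exact sub_self _
  have hmin : (X ^ p - C a : k₀[X]) = minpoly k₀ t :=
    minpoly.eq_of_irreducible_of_monic hirr hroot (monic_X_pow_sub_C a hp.out.ne_zero)
  let P : k₀[X] := ∑ i ∈ range p, C (⟨c i ^ p, hk (c i)⟩ : k₀) * X ^ i
  have hP0 : aeval t P = 0 := by
    rw [← h, map_sum]
    refine sum_congr rfl fun i _ => ?_
    rw [map_mul, map_pow, aeval_X, aeval_C, mul_comm]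
    rfl
  have hdeg : P.degree < (p : WithBot ℕ) := by
    refine mem_degreeLT.1 (Submodule.sum_mem _ fun i hi => mem_degreeLT.2 ?_)
    refine lt_of_le_of_lt (degree_C_mul_X_pow_le _ _) ?_
    exact_mod_cast mem_range.1 hi
  have hP : P = 0 := by
    by_contra hne
    have h1 := minpoly.degree_le_of_ne_zero k₀ t hne hP0
    rw [← hmin, degree_X_pow_sub_C hp.out.pos] at h1
    exact absurd hdeg (not_lt.2 h1)
  intro i hi
  have h1 : P.coeff i = ⟨c i ^ p, hk (c i)⟩ := by
    show (∑ j ∈ range p, C (⟨c j ^ p, hk (c j)⟩ : k₀) * X ^ j).coeff i = _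
    rw [finsetSum_coeff, sum_eq_single i]
    · rw [coeff_C_mul_X_pow, if_pos rfl]
    · intro j _ hj
      rw [coeff_C_mul_X_pow, if_neg (Ne.symm hj)]
    · intro h
      exact absurd (mem_range.2 hi) h
  rw [hP, coeff_zero] at h1
  have h2 : (0 : L) = c i ^ p := congrArg Subtype.val h1
  exact eq_zero_of_pow_eq_zero h2.symm

private theorem Tba_uniq (ht : TBp p L t) (a b : ℕ → L)
    (h : ∑ i ∈ range p, t ^ i * a i ^ p = ∑ i ∈ range p, t ^ i * b i ^ p) :
    ∀ i < p, a i = b i := by
  intro i hi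
  refine sub_eq_zero.1 (Tba_ind ht (fun i => a i - b i) ?_ i hi)
  have h1 : ∀ i, t ^ i * (a i - b i) ^ p = t ^ i * a i ^ p - t ^ i * b i ^ p := by
    intro i
    rw [sub_pow_char, mul_sub]
  simp only [h1]
  rw [sum_sub_distrib, h, sub_self]

omit hp [CharP L p] in
private theorem Tba_rep (ht : TBp p L t) (f : L) :
    f = ∑ i ∈ range p, t ^ i * cf p t f i ^ p := by
  have h : ∃ a : ℕ → L, f = ∑ i ∈ range p, t ^ i * a i ^ p := ht.1 f
  unfold cf
  rw [dif_pos h]
  exact h.choose_spec

private theorem Tba_cf (ht : TBp p L t) (a : ℕ → L) : ∀ i < p,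
    cf p t (∑ j ∈ range p, t ^ j * a j ^ p) i = a i :=
  Tba_uniq ht _ _ (Tba_rep ht _).symm

private theorem Tba_cf' (ht : TBp p L t) {f : L} (a : ℕ → L)
    (h : f = ∑ j ∈ range p, t ^ j * a j ^ p) : ∀ i < p, cf p t f i = a i := by
  rw [h]
  exact Tba_cf ht a

private theorem Tba_cfadd (ht : TBp p L t) (f g : L) : ∀ i < p,
    cf p t (f + g) i = cf p t f i + cf p t g i := by
  refine Tba_cf' ht _ ?_
  conv_lhs => rw [Tba_rep ht f, Tba_rep ht g]
  rw [← sum_add_distrib]
  refine sum_congr rfl fun i _ => ?_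
  rw [add_pow_char, mul_add]

private theorem Tba_cfmul (ht : TBp p L t) (a f : L) : ∀ i < p,
    cf p t (a ^ p * f) i = a * cf p t f i := by
  refine Tba_cf' ht _ ?_
  conv_lhs => rw [Tba_rep ht f]
  rw [mul_sum]
  refine sum_congr rfl fun i _ => ?_
  rw [mul_pow]
  ring

private theorem Tba_nat (n : ℕ) : (n : L) ^ p = n := by
  have h := map_natCast (frobenius L p) n
  rwa [frobenius_def] at h

/-- The coordinates of the derivative. -/
private theorem Tba_cfD (ht : TBp p L t) (f : L) : ∀ j < p,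
    cf p t (Dt p t f) j = ((j + 1 : ℕ) : L) * cf p t f (j + 1) := by
  refine Tba_cf' ht _ ?_
  have h1 : ∀ j, t ^ j * (((j + 1 : ℕ) : L) * cf p t f (j + 1)) ^ p =
      (fun i : ℕ => (i : L) * t ^ (i - 1) * cf p t f i ^ p) (j + 1) := by
    intro j
    show _ = ((j + 1 : ℕ) : L) * t ^ (j + 1 - 1) * cf p t f (j + 1) ^ p
    rw [mul_pow, Tba_nat, Nat.add_sub_cancel]
    ring
  simp only [h1]
  have h2 := sum_range_succ' (fun i : ℕ => (i : L) * t ^ (i - 1) * cf p t f i ^ p) p
  have h3 := sum_range_succ (fun i : ℕ => (i : L) * t ^ (i - 1) * cf p t f i ^ p) p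
  rw [h2] at h3
  have h4 : ((p : ℕ) : L) * t ^ (p - 1) * cf p t f p ^ p = 0 := by
    rw [CharP.cast_eq_zero, zero_mul, zero_mul]
  have h5 : ((0 : ℕ) : L) * t ^ (0 - 1) * cf p t f 0 ^ p = 0 := by
    rw [Nat.cast_zero, zero_mul, zero_mul]
  rw [h4, h5, add_zero, add_zero] at h3
  exact h3.symm

private theorem Tba_add (ht : TBp p L t) (f g : L) : Dt p t (f + g) = Dt p t f + Dt p t g := by
  unfold Dt
  rw [← sum_add_distrib]
  refine sum_congr rfl fun i hi => ?_
  rw [Tba_cfadd ht f g i (mem_range.1 hi), add_pow_char, mul_add]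

/-- The derivative of `t ^ n * c ^ p`. -/
private theorem Tba_mon (ht : TBp p L t) (n : ℕ) (c : L) :
    Dt p t (t ^ n * c ^ p) = (n : L) * t ^ (n - 1) * c ^ p := by
  have hp0 := hp.out.pos
  have hi := Nat.mod_lt n hp0
  have hn : n % p + p * (n / p) = n := Nat.mod_add_div n p
  have h1 : t ^ n * c ^ p = ∑ j ∈ range p, t ^ j *
      (if j = n % p then t ^ (n / p) * c else 0) ^ p := by
    rw [sum_eq_single (n % p)]
    · rw [if_pos rfl, mul_pow, ← pow_mul, ← mul_assoc, ← pow_add]
      congr 2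
      rw [mul_comm (n / p) p]
      exact hn.symm
    · intro j _ hj
      rw [if_neg hj, zero_pow hp0.ne', mul_zero]
    · intro h
      exact absurd (mem_range.2 hi) h
  have h2 := Tba_cf' ht _ h1
  unfold Dt
  rw [sum_eq_single (n % p)]
  · rw [h2 _ hi, if_pos rfl]
    have h3 : ((n : ℕ) : L) = ((n % p : ℕ) : L) := by
      have h4 : ((n % p + p * (n / p) : ℕ) : L) = ((n : ℕ) : L) := congrArg _ hn
      rw [Nat.cast_add, Nat.cast_mul, CharP.cast_eq_zero L p, zero_mul, add_zero] at h4
      exact h4.symm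
    rw [h3]
    rcases Nat.eq_zero_or_pos (n % p) with h0 | h0
    · rw [h0, Nat.cast_zero]
      ring
    · have h4 : n - 1 = (n % p - 1) + (n / p) * p := by
        have := mul_comm (n / p) p
        omega
      rw [h4, pow_add, pow_mul, mul_pow]
      ring
  · intro j hj hne
    rw [h2 j (mem_range.1 hj), if_neg hne, zero_pow hp0.ne', mul_zero]
  · intro h
    exact absurd (mem_range.2 hi) h

private theorem Tba_sum (ht : TBp p L t) {ι : Type} (s : Finset ι) (f : ι → L) :
    Dt p t (∑ i ∈ s, f i) = ∑ i ∈ s, Dt p t (f i) := by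
  classical
  have h0 : Dt p t (0 : L) = 0 := by
    have := Tba_add ht (0 : L) 0
    rw [add_zero] at this
    exact left_eq_add.mp this
  induction s using Finset.induction_on with
  | empty => rw [sum_empty, sum_empty, h0]
  | insert i s hi ih => rw [sum_insert hi, sum_insert hi, Tba_add ht, ih]

private theorem Tba_pr (n : ℕ) (m : ℕ) : (n : L) * t ^ (n - 1) * t ^ m = n * t ^ (n + m - 1) := by
  rcases Nat.eq_zero_or_pos n with h | h
  · rw [h, Nat.cast_zero]
    ring
  · have : n + m - 1 = (n - 1) + m := by omega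
    rw [this, pow_add]
    ring

private theorem Tba_mul (ht : TBp p L t) (f g : L) :
    Dt p t (f * g) = Dt p t f * g + f * Dt p t g := by
  have hf := Tba_rep ht f
  have hg := Tba_rep ht g
  have h1 : f * g = ∑ i ∈ range p, ∑ j ∈ range p,
      t ^ (i + j) * (cf p t f i * cf p t g j) ^ p := by
    conv_lhs => rw [hf, hg]
    rw [sum_mul_sum]
    refine sum_congr rfl fun i _ => sum_congr rfl fun j _ => ?_
    rw [pow_add, mul_pow]
    ring
  have h2 : Dt p t f * g = ∑ i ∈ range p, ∑ j ∈ range p,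
      ((i : L) * t ^ (i + j - 1)) * (cf p t f i * cf p t g j) ^ p := by
    conv_lhs => rw [hg]
    unfold Dt
    rw [sum_mul_sum]
    refine sum_congr rfl fun i _ => sum_congr rfl fun j _ => ?_
    rw [← Tba_pr, mul_pow]
    ring
  have h3 : f * Dt p t g = ∑ i ∈ range p, ∑ j ∈ range p,
      ((j : L) * t ^ (i + j - 1)) * (cf p t f i * cf p t g j) ^ p := by
    conv_lhs => rw [hf]
    unfold Dt
    rw [sum_mul_sum]
    refine sum_congr rfl fun i _ => sum_congr rfl fun j _ => ?_
    rw [add_comm i j, ← Tba_pr, mul_pow]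
    ring
  rw [h1, h2, h3, Tba_sum ht, ← sum_add_distrib]
  refine sum_congr rfl fun i _ => ?_
  rw [Tba_sum ht, ← sum_add_distrib]
  refine sum_congr rfl fun j _ => ?_
  rw [Tba_mon ht, Nat.cast_add]
  ring

/-- The coordinates of the iterated derivative. -/
private theorem Tba_iter (ht : TBp p L t) (f : L) (m : ℕ) : ∀ j < p,
    cf p t ((Dt p t)^[m] f) j = (∏ k ∈ range m, ((j + 1 + k : ℕ) : L)) * cf p t f (j + m) := by
  induction m with
  | zero =>
    intro j _
    rw [range_zero, prod_empty, one_mul]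
    rfl
  | succ m ih =>
    intro j hj
    rw [Function.iterate_succ_apply', Tba_cfD ht _ j hj, prod_range_succ']
    rcases Nat.lt_or_ge (j + 1) p with h | h
    · rw [ih (j + 1) h]
      have h1 : j + 1 + m = j + (m + 1) := by omega
      have h2 : ∏ k ∈ range m, ((j + 1 + (k + 1) : ℕ) : L) =
          ∏ k ∈ range m, ((j + 1 + 1 + k : ℕ) : L) := by
        refine prod_congr rfl fun k _ => ?_
        congr 1
        omega
      rw [h1, add_zero, h2]
      ring
    · have h1 : j + 1 = p := by omega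
      rw [add_zero, h1, CharP.cast_eq_zero]
      ring

private theorem Tba_wil : ((p - 1).factorial : L) = -1 := by
  have h1 : ((((p - 1).factorial + 1 : ℕ)) : ZMod p) = 0 := by
    rw [Nat.cast_add, Nat.cast_one, ZMod.wilsons_lemma p]
    ring
  have h2 : p ∣ (p - 1).factorial + 1 := (CharP.cast_eq_zero_iff (ZMod p) p _).1 h1
  have h3 : ((((p - 1).factorial + 1 : ℕ)) : L) = 0 := (CharP.cast_eq_zero_iff L p _).2 h2
  rw [Nat.cast_add, Nat.cast_one] at h3
  exact eq_neg_of_add_eq_zero_left h3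

end

theorem tTba : S_Tba := by
  intro p hp L _ _ t ht
  have hp0 := hp.out.pos
  have hp1 := hp.out.one_lt
  have hneg : ∀ x : L, (-x) ^ p = - x ^ p := by
    intro x
    have h := sub_pow_char (0 : L) x
    rwa [zero_sub, zero_pow hp0.ne', zero_sub] at h
  have hD0 : ∀ s : L, Dt p t (s ^ p) = 0 := by
    intro s
    have h := Tba_mon ht 0 s
    rw [pow_zero, one_mul, Nat.cast_zero] at h
    rw [h]
    ring
  have hiter : ∀ f, (Dt p t)^[p - 1] f = - Ca p t f ^ p := by
    intro f
    rw [Tba_rep ht ((Dt p t)^[p - 1] f), sum_eq_single 0]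
    · rw [Tba_iter ht f (p - 1) 0 hp0, pow_zero, one_mul]
      have h1 : ∏ k ∈ range (p - 1), ((0 + 1 + k : ℕ) : L) = -1 := by
        rw [← Tba_wil (p := p) (L := L), ← prod_range_add_one_eq_factorial, Nat.cast_prod]
        refine prod_congr rfl fun k _ => ?_
        congr 1
        omega
      rw [h1, zero_add, ← hneg]
      unfold Ca
      rw [neg_one_mul]
    · intro j hj hj0
      rw [Tba_iter ht f (p - 1) j (mem_range.1 hj)]
      have hj' := mem_range.1 hj
      have h1 : ∏ k ∈ range (p - 1), ((j + 1 + k : ℕ) : L) = 0 := by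
        refine prod_eq_zero (i := p - 1 - j) (mem_range.2 (by omega)) ?_
        have h2 : j + 1 + (p - 1 - j) = p := by omega
        rw [h2, CharP.cast_eq_zero]
      rw [h1, zero_mul, zero_pow hp0.ne', mul_zero]
    · intro h
      exact absurd (mem_range.2 hp0) h
  refine ⟨Tba_cf ht, Tba_rep ht, Tba_add ht, Tba_mul ht, ?_, ?_, ?_, ?_, ?_, hiter, ?_⟩
  · have h := Tba_mon ht 1 1
    rw [pow_one, one_pow, mul_one, Nat.cast_one, Nat.sub_self, pow_zero, mul_one, mul_one] at h
    exact h
  · intro f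
    constructor
    · intro h
      have h1 := Tba_cfD ht f
      rw [h] at h1
      have h2 : ∀ j < p, cf p t (0 : L) j = 0 := by
        refine Tba_cf' ht (fun _ => 0) ?_
        rw [sum_eq_zero]
        intro i _
        rw [zero_pow hp0.ne', mul_zero]
      refine ⟨cf p t f 0, ?_⟩
      conv_lhs => rw [Tba_rep ht f]
      rw [sum_eq_single 0]
      · rw [pow_zero, one_mul]
      · intro i hi hi0
        have hi' := mem_range.1 hi
        obtain ⟨j, rfl⟩ := Nat.exists_eq_succ_of_ne_zero hi0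
        have h3 := h1 j (by omega)
        rw [h2 j (by omega)] at h3
        rcases mul_eq_zero.1 h3.symm with h4 | h4
        · have h5 := (CharP.cast_eq_zero_iff L p _).1 h4
          exact absurd (Nat.le_of_dvd (Nat.succ_pos j) h5) (by omega)
        · show t ^ (j + 1) * cf p t f (j + 1) ^ p = 0
          rw [h4, zero_pow hp0.ne', mul_zero]
      · intro h
        exact absurd (mem_range.2 hp0) h
    · rintro ⟨s, rfl⟩
      exact hD0 s
  · intro f g
    exact Tba_cfadd ht f g (p - 1) (by omega)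
  · intro a f
    exact Tba_cfmul ht a f (p - 1) (by omega)
  · intro f
    unfold Ca
    rw [Tba_cfD ht f (p - 1) (by omega), Nat.sub_add_cancel hp1.le, CharP.cast_eq_zero, zero_mul]
  · intro f
    have h1 : p = (p - 1) + 1 := by omega
    have h2 : (Dt p t)^[p] f = Dt p t ((Dt p t)^[p - 1] f) := by
      conv_lhs => rw [h1, Function.iterate_succ_apply']
      rw [← h1]
    rw [h2, hiter, ← hneg]
    exact hD0 _

end Pool.Agent.MP72P
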